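import Pool.Agent.HexStep.Stay
import Pool.Agent.W47.K3
import Pool.Agent.W47.D2

/-!
STEP, module B2: independence bounds for the pairs and triples of the step domain.
-/

set_option autoImplicit false

namespace HexObs

namespace SP

open Complex Finset ENNReal

section B2

private lemma b2_cl (v : Pt) : cl (v + le 0) = cl v := by
  rw [cl_add]
  have : cl (le 0) = 0 := by decide
  rw [this, add_zero]

private lemma b2_ip (v : Pt) : ip (v + le 0 - oo) up = ip (v - oo) up + 3 := by
  unfold ip oo up le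
  simp only [Prod.fst_sub, Prod.snd_sub, Prod.fst_add, Prod.snd_add]
  ring

private lemma b2_lv (v : Pt) : lv v = ip (v - oo) up := by
  unfold lv ip oo up
  simp only [Prod.fst_sub, Prod.snd_sub]
  ring

private lemma b2_mem {T : ℕ} {v : Pt} (h : v + le 0 ∈ St (T + 1)) (h3 : 3 < lv (v + le 0)) : v ∈ St T := by
  obtain ⟨h1, h2, h4⟩ := h
  rw [b2_ip] at h4
  rw [b2_lv, b2_ip] at h3
  unfold IsHex at h1
  rw [b2_cl] at h1
  refine ⟨h1, by linarith, ?_⟩
  push_cast at h4
  linarith

private lemma b2_mem' {T : ℕ} {v : Pt} (h : v ∈ St T) : v + le 0 ∈ St (T + 1) := by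
  obtain ⟨h1, h2, h4⟩ := h
  refine ⟨?_, ?_, ?_⟩
  · unfold IsHex
    rw [b2_cl]
    exact h1
  · rw [b2_ip]
    linarith
  · rw [b2_ip]
    push_cast
    linarith

private lemma b2_vx (k : ℤ) (u : List Bool) (i : ℕ) :
    vx (ft k) up (true :: false :: u) (i + 2) = vx (ft k) up u i + le 0 := by
  have e1 : ft k + up + turn true up = ft k + le 0 := by
    rw [add_assoc]
    have : up + turn true up = le 0 := by decide
    rw [this]
  have e2 : turn false (turn true up) = up := by decide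
  rw [show i + 2 = (i + 1) + 1 from rfl, D2aux.vx_cons, D2aux.vx_cons, e1, e2, CB.vx_trans]

private lemma b2_dx (u : List Bool) (i : ℕ) : dx up (true :: false :: u) (i + 2) = dx up u i := by
  have e2 : turn false (turn true up) = up := by decide
  rw [show i + 2 = (i + 1) + 1 from rfl, D2aux.dx_cons, D2aux.dx_cons, e2]

private lemma b2_pre {k : ℤ} (hk : k ≠ 0) {u : List Bool} (hA : Adm k u) : ∃ u', u = true :: false :: u' := by
  have h := hA.pre
  unfold pre at h
  rw [if_neg hk] at h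
  obtain ⟨r, hr⟩ := h
  exact ⟨r, hr.symm⟩

private lemma b2_saw {T : ℕ} {a k : ℤ} (ha : 0 ≤ a) (hak : a < k) {s : List Bool} {Z : Set Pt}
    (hs : s ∈ BrA (St (T + 1)) ∅ a) (hZ : vis (ft a) up s ⊆ Z) {u' : List Bool}
    (hu : Saw (St (T + 1) \ Z) (ft k) up (true :: false :: u')) (hA : Adm k (true :: false :: u')) :
    Saw (St T) (ft k) up u' := by
  have hu2 : Saw (St (T + 1) \ vis (ft a) up s) (ft k) up (true :: false :: u') :=
    ⟨fun i h1 h2 => ⟨(hu.mem i h1 h2).1, fun h3 => (hu.mem i h1 h2).2 (hZ h3)⟩, hu.inj⟩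
  have h3 := stay ha hak hs hu2 hA
  refine ⟨?_, ?_⟩
  · intro i h1 h2
    have h4 : i + 2 ≤ (true :: false :: u').length := by
      rw [List.length_cons, List.length_cons]
      omega
    have h5 := h3 (i + 2) (by omega) h4
    have h6 := (hu.mem (i + 2) (by omega) h4).1
    rw [b2_vx] at h5 h6
    exact b2_mem h6 h5
  · intro i j h1 h2 h4
    have h5 : j + 2 ≤ (true :: false :: u').length := by
      rw [List.length_cons, List.length_cons]
      omega
    apply hu.inj (i + 2) (j + 2) (by omega) h5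
    rw [b2_vx, b2_vx, h4]

private lemma b2_wE (u : List Bool) : wE (true :: false :: u) = ENNReal.ofReal (xc ^ 2) * wE u := by
  unfold wE
  rw [List.length_cons, List.length_cons, ← ENNReal.ofReal_mul (pow_nonneg xc_pos.le _)]
  congr 1
  ring

private lemma b2_gf {P Q : Set (List Bool)} (hP : ∀ u ∈ P, ∃ u', u = true :: false :: u')
    (h : ∀ u', (true :: false :: u') ∈ P → u' ∈ Q) : gf P ≤ ENNReal.ofReal (xc ^ 2) * gf Q := by
  apply gf_le_of_inj (fun u => u.drop 2)
  · intro u hu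
    obtain ⟨u', rfl⟩ := hP u hu
    exact h u' hu
  · intro u hu w hw huw
    obtain ⟨u', rfl⟩ := hP u hu
    obtain ⟨w', rfl⟩ := hP w hw
    have : u' = w' := huw
    rw [this]
  · intro u hu
    obtain ⟨u', rfl⟩ := hP u hu
    rw [b2_wE]
    exact le_refl _

private lemma b2_tip (k : ℤ) (u' : List Bool) : tip (ft k) up (true :: false :: u') = tip (ft k) up u' + le 0 := by
  unfold tip
  rw [show (true :: false :: u').length + 1 = (u'.length + 1) + 2 by
    rw [List.length_cons, List.length_cons], b2_vx]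

/-- a bridge on the right of a walker. -/
private lemma b2_br {T : ℕ} {a k : ℤ} (ha : 0 ≤ a) (hak : a < k) {s : List Bool} {Z : Set Pt}
    (hs : s ∈ BrA (St (T + 1)) ∅ a) (hZ : vis (ft a) up s ⊆ Z) :
    gf (BrA (St (T + 1)) Z k) ≤ ENNReal.ofReal (xc ^ 2) * BT T := by
  have hk : k ≠ 0 := by omega
  rw [← gf_br_foot T k]
  apply b2_gf (fun u hu => b2_pre hk hu.2)
  intro u' hu
  obtain ⟨⟨h1, h2, h3⟩, hA⟩ := hu
  refine ⟨?_, ?_, ?_⟩
  · rw [Set.sdiff_empty]
    exact b2_saw ha hak hs hZ h1 hA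
  · intro h4
    apply h2
    rw [b2_tip]
    exact b2_mem' h4
  · rw [List.length_cons, List.length_cons, b2_dx] at h3
    exact h3

/-- an arc on the right of a walker. -/
private lemma b2_ld {T : ℕ} {a k j : ℤ} (ha : 0 ≤ a) (hak : a < k) {s : List Bool} {Z : Set Pt}
    (hs : s ∈ BrA (St (T + 1)) ∅ a) (hZ : vis (ft a) up s ⊆ Z) :
    gf (Ld (St (T + 1)) Z k j) ≤ ENNReal.ofReal (xc ^ 2) * GG T (k - j).natAbs := by
  have hk : k ≠ 0 := by omega
  have h0 : ((k - j).natAbs : ℤ) = |j - k| := by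
    rw [Int.natCast_natAbs, abs_sub_comm]
  rw [← k3_gf T k j _ h0]
  apply b2_gf (fun u hu => b2_pre hk hu.2.1)
  intro u' hu
  obtain ⟨h1, hA, h2, h3⟩ := hu
  have h4 : tip (ft k) up u' = ft j := by
    rw [b2_tip] at h2
    have h5 : ft j + le 0 = le j := by
      unfold ft le
      rw [k4_foot]
      apply Prod.ext
      · show 2 * j + (2 * 0 - 1) = 2 * j - 1
        ring
      · show -j + (2 - 0) = 2 - j
        ring
    rw [← h5] at h2
    exact add_right_cancel h2
  refine ⟨⟨?_, ?_, ?_⟩, h4⟩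
  · rw [Set.sdiff_empty]
    exact b2_saw ha hak hs hZ h1 hA
  · show tip (ft k) up u' ∉ St T
    rw [h4]
    exact k2_foot_notMem T j
  · rw [List.length_cons, List.length_cons, b2_dx] at h3
    exact h3

/-- the sum over the second walker. -/
private lemma b2_over {T : ℕ} {a : ℤ} {c : ℝ≥0∞} {F : Set Pt → ℝ≥0∞} {X : Set Pt}
    (h : ∀ s, s ∈ BrA (St (T + 1)) X a → F (X ∪ vis (ft a) up s) ≤ c) :
    overA (St (T + 1)) a F X ≤ c * gf (BrA (St (T + 1)) X a) := by
  calc overA (St (T + 1)) a F X ≤ overA (St (T + 1)) a (fun _ => c * 1) X :=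
        overA_mono' (fun s hs => by rw [mul_one]; exact h s hs)
    _ = c * gf (BrA (St (T + 1)) X a) := by rw [overA_const_mul, overA_one]

theorem TT_le {T : ℕ} (hT : 1 ≤ T) {l : ℤ} (hl : 2 ≤ l) : TT T l ≤ ENNReal.ofReal (xc ^ 2) * BT T * PP T 0 1 := by
  have _ := hT
  unfold TT P3A P2A PP P2A
  rw [← overA_const_mul]
  apply overA_mono
  intro X
  apply b2_over
  intro s hs
  exact b2_br (a := 1) (by norm_num) (by omega) ((mem_brA.1 hs).1) Set.subset_union_right

theorem PP_le {T : ℕ} (hT : 1 ≤ T) {l : ℤ} (hl : 1 ≤ l) : PP T 0 l ≤ ENNReal.ofReal (xc ^ 2) * BT T * XX T := by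
  have _ := hT
  unfold PP P2A XX
  apply b2_over
  intro s hs
  exact b2_br (a := 0) (by norm_num) (by omega) ((mem_brA.1 hs).1) Set.subset_union_right

theorem tt_le {T : ℕ} (hT : 1 ≤ T) {l j : ℤ} (hl : 2 ≤ l) (hj : 2 ≤ j) :
    tt T l j ≤ ENNReal.ofReal (xc ^ 2) * GG T (l - j).natAbs * PP T 0 1 := by
  have _ := hT
  have _ := hj
  unfold tt Q2A PP P2A
  rw [← overA_const_mul]
  apply overA_mono
  intro X
  apply b2_over
  intro s hs
  exact b2_ld (a := 1) (by norm_num) (by omega) ((mem_brA.1 hs).1) Set.subset_union_right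

end B2

end SP

end HexObs
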