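import Pool.Agent.HexStep.Alg

/-!
STEP, B5: far away the arcs do not see the walkers.
-/

set_option autoImplicit false
set_option linter.unusedVariables false

namespace HexObs

namespace SP

open Complex Finset ENNReal

namespace Far

/-! truncation -/

lemma inc_len (Q : Set (List Bool)) : HexW.Inc (fun n : ℕ => {t | t ∈ Q ∧ t.length ≤ n}) Q := by
  constructor
  · rintro n m hnm t ⟨h1, h2⟩
    exact ⟨h1, h2.trans hnm⟩
  · intro t
    exact ⟨fun h => ⟨t.length, h, le_rfl⟩, fun ⟨_, h, _⟩ => h⟩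

/-- bridges of bounded length. -/
def BL (Ω X : Set Pt) (k : ℤ) (m : ℕ) : Set (List Bool) := {t | t ∈ BrA Ω X k ∧ t.length ≤ m}

/-- pairs of bounded length. -/
noncomputable def WW (T m : ℕ) : ℝ≥0∞ :=
  ∑' s : List Bool, (BL (St (T + 1)) ∅ 0 m).indicator
    (fun s => wE s * gf (BL (St (T + 1)) (∅ ∪ vis (ft 0) up s) 1 m)) s

/-- arcs of bounded length. -/
noncomputable def VV (T d m : ℕ) : ℝ≥0∞ := gf {t | t ∈ Arc (St T) ∅ oo up (foot oo up d) ∧ t.length ≤ m}

lemma bl_mono (T : ℕ) : Monotone (fun (n : ℕ) (s : List Bool) =>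
    wE s * gf (BL (St (T + 1)) (∅ ∪ vis (ft 0) up s) 1 n)) := by
  intro n m hnm s
  have h : BL (St (T + 1)) (∅ ∪ vis (ft 0) up s) 1 n ⊆ BL (St (T + 1)) (∅ ∪ vis (ft 0) up s) 1 m :=
    fun t ht => ⟨ht.1, ht.2.trans hnm⟩
  exact mul_le_mul_right (gf_mono h) _

lemma WW_mono (T : ℕ) : Monotone (WW T) := by
  intro n m hnm
  unfold WW
  apply ENNReal.tsum_le_tsum
  intro s
  exact (inc_len (BrA (St (T + 1)) ∅ 0)).ind_mono _ (bl_mono T) hnm s

lemma PP_sup (T : ℕ) : PP T 0 1 = ⨆ m, WW T m := by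
  unfold PP P2A overA WW
  have h := HexW.tsum_iSup_mono _ ((inc_len (BrA (St (T + 1)) ∅ 0)).ind_mono _ (bl_mono T))
  refine Eq.trans ?_ h
  apply tsum_congr
  intro s
  rw [← (inc_len (BrA (St (T + 1)) ∅ 0)).ind _ (bl_mono T) s]
  congr 1
  funext s
  rw [← ENNReal.mul_iSup]
  congr 1
  exact (inc_len (BrA (St (T + 1)) (∅ ∪ vis (ft 0) up s) 1)).gf_eq

lemma VV_mono (T d : ℕ) : Monotone (VV T d) := (inc_len _).gf_mono

lemma GG_sup (T d : ℕ) : GG T d = ⨆ m, VV T d m := (inc_len _).gf_eq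

/-- the terms of the truncated sum. -/
noncomputable def fK (T m k : ℕ) : ℝ≥0∞ := if k < m then ((k : ℝ≥0∞) + 1) * VV T (k + 1) m else 0

lemma fK_mono (T : ℕ) : Monotone (fK T) := by
  intro n m hnm k
  unfold fK
  by_cases h : k < n
  · rw [if_pos h, if_pos (by omega)]
    exact mul_le_mul_right (VV_mono T (k + 1) hnm) _
  · rw [if_neg h]
    exact zero_le

lemma KT_sup (T : ℕ) : KT T = ⨆ m, ∑' k : ℕ, fK T m k := by
  rw [← HexW.tsum_iSup_mono _ (fK_mono T)]
  unfold KT
  apply tsum_congr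
  intro k
  rw [GG_sup, ENNReal.mul_iSup]
  apply le_antisymm
  · apply iSup_le
    intro m
    refine le_trans ?_ (le_iSup _ (max m (k + 1)))
    unfold fK
    rw [if_pos (by have := le_max_right m (k + 1); omega)]
    exact mul_le_mul_right (VV_mono T (k + 1) (le_max_left m (k + 1))) _
  · apply iSup_le
    intro m
    unfold fK
    split_ifs
    · exact le_iSup (fun m => ((k : ℝ≥0∞) + 1) * VV T (k + 1) m) m
    · exact zero_le

lemma iSup_mul_mono (a b : ℕ → ℝ≥0∞) (ha : Monotone a) (hb : Monotone b) :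
    (⨆ n, a n) * (⨆ n, b n) ≤ ⨆ n, a n * b n := by
  rw [ENNReal.iSup_mul]
  apply iSup_le
  intro n
  rw [ENNReal.mul_iSup]
  apply iSup_le
  intro m
  refine le_trans ?_ (le_iSup _ (max n m))
  exact mul_le_mul' (ha (le_max_left n m)) (hb (le_max_right n m))

/-! geometry -/

lemma ft_co (k : ℤ) : ft k = (2 * k, -k) := by
  apply Prod.ext
  · simp only [ft, foot, hz, rotR, oo, up, Prod.fst_add, Prod.smul_fst, smul_eq_mul]
    ring
  · simp only [ft, foot, hz, rotR, oo, up, Prod.snd_add, Prod.smul_snd, smul_eq_mul]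
    ring

lemma foot_co (d : ℤ) : foot oo up d = (2 * d, -d) := ft_co d

lemma fst_step : ∀ d ∈ dirs, |d.1| ≤ 1 := by decide

lemma vx_fst {d : Pt} (hd : d ∈ dirs) (v : Pt) (t : List Bool) (i : ℕ) : |(vx v d t i).1 - v.1| ≤ i := by
  induction i with
  | zero =>
    have e : vx v d t 0 = v := rfl
    rw [e, sub_self]
    simp
  | succ i ih =>
    have h1 := fst_step _ (ds_mem (τ := tf t) hd i)
    have e : vx v d t (i + 1) = vx v d t i + dx d t i := rfl
    have h2 : |(dx d t i).1| ≤ 1 := h1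
    rw [abs_le] at ih h2 ⊢
    rw [e, Prod.fst_add]
    push_cast
    constructor <;> linarith [ih.1, ih.2, h2.1, h2.2]

lemma pre_vx (l : ℤ) (a : List Bool) (i : ℕ) : vx (ft l) up ([true, false] ++ a) (2 + i) = le l + vx oo up a i := by
  have h1 : vx (ft l) up ([true, false] ++ a) (2 + i) =
      vx (vx (ft l) up ([true, false] ++ a) 2) (dx up ([true, false] ++ a) 2) a i := by
    unfold vx dx
    rw [vs_shift]
    apply vs_congr
    intro k _
    exact tf_append_right (t := [true, false]) k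
  have e1 : vx (ft l) up ([true, false] ++ a) 2 = le l := by
    have e : vx (ft l) up ([true, false] ++ a) 2 = ft l + up + rotL up := rfl
    rw [e, ft_co]
    apply Prod.ext
    · simp only [le, up, rotL, Prod.fst_add]
      ring
    · simp only [le, up, rotL, Prod.snd_add]
      ring
  have e2 : dx up ([true, false] ++ a) 2 = up := by
    have e : dx up ([true, false] ++ a) 2 = rotR (rotL up) := rfl
    rw [e]
    decide
  rw [h1, e1, e2]
  have h2 := HexW.vx_trans oo (le l) up a i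
  have e3 : oo + le l = le l := zero_add (le l)
  rw [e3] at h2
  rw [h2, add_comm]

lemma pre_dx (a : List Bool) (i : ℕ) : dx up ([true, false] ++ a) (2 + i) = dx up a i := by
  have h1 : dx up ([true, false] ++ a) (2 + i) = dx (dx up ([true, false] ++ a) 2) a i := by
    unfold dx
    rw [ds_shift]
    apply ds_congr
    intro k _
    exact tf_append_right (t := [true, false]) k
  have e2 : dx up ([true, false] ++ a) 2 = up := by
    have e : dx up ([true, false] ++ a) 2 = rotR (rotL up) := rfl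
    rw [e]
    decide
  rw [h1, e2]

lemma pre_one (l : ℤ) (a : List Bool) : vx (ft l) up ([true, false] ++ a) 1 = ue l := by
  have e : vx (ft l) up ([true, false] ++ a) 1 = ft l + up := rfl
  rw [e, ft_co]
  apply Prod.ext
  · simp only [ue, up, Prod.fst_add]
    ring
  · simp only [ue, up, Prod.snd_add]
    ring

lemma pre_zero (l : ℤ) (a : List Bool) : vx (ft l) up ([true, false] ++ a) 0 = ft l := rfl

lemma ip_lv (v : Pt) : ip (v - oo) up = lv v := by
  have e : v - oo = v := sub_zero v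
  rw [e]
  simp only [ip, up, lv]
  ring

lemma mem_St2 {T : ℕ} {v : Pt} : v ∈ St T ↔ IsHex oo up v ∧ 0 < lv v ∧ lv v < 3 * T + 2 := by
  unfold St strip
  rw [Set.mem_ofPred_eq, ip_lv]

lemma lv_le (l : ℤ) : lv (le l) = 3 := by
  simp only [lv, le]
  ring

lemma lv_ue (l : ℤ) : lv (ue l) = 2 := by
  simp only [lv, ue]
  ring

lemma lv_ft (l : ℤ) : lv (ft l) = 0 := by
  rw [ft_co]
  simp only [lv]
  ring

lemma lv_add (p q : Pt) : lv (p + q) = lv p + lv q := by
  simp only [lv, Prod.fst_add, Prod.snd_add]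
  ring

lemma cl_le (l : ℤ) : cl (le l) = 0 := by
  have h3 : (3 : ZMod 3) = 0 := three_eq
  simp only [cl, le]
  push_cast
  linear_combination ((l : ZMod 3) - 1) * h3

lemma hex_le {l : ℤ} {v : Pt} (h : IsHex oo up v) : IsHex oo up (le l + v) := by
  unfold IsHex at h ⊢
  rw [cl_add, cl_le, zero_add]
  exact h

lemma cl_oo : cl oo = 0 := by decide

lemma hex_ue (l : ℤ) : IsHex oo up (ue l) := by
  right
  have h3 : (3 : ZMod 3) = 0 := three_eq
  have e : cl oo + cl up = 2 := by decide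
  rw [e]
  simp only [cl, ue]
  push_cast
  linear_combination ((l : ZMod 3) - 1) * h3

lemma hex_le0 (l : ℤ) : IsHex oo up (le l) := by
  left
  rw [cl_le, cl_oo]

/-- the coded arc. -/
lemma arc_mem {T : ℕ} {l : ℤ} {d m : ℕ} (hl : (m : ℤ) + 3 ≤ l) {s t : List Bool} (hs : s.length ≤ m)
    (ht : t.length ≤ m) {a : List Bool} (ha : a ∈ Arc (St T) ∅ oo up (foot oo up d)) (ham : a.length ≤ m) :
    [true, false] ++ a ∈ Ld (St (T + 1)) (∅ ∪ vis (ft 0) up s ∪ vis (ft 1) up t) l (l + d) := by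
  obtain ⟨⟨⟨a1, a2⟩, a3, a4⟩, a5⟩ := ha
  have hlen : ([true, false] ++ a).length = 2 + a.length := by
    rw [List.length_append]
    rfl
  have hm0 : (0 : ℤ) ≤ m := Int.natCast_nonneg m
  have key : ∀ i, 1 ≤ i → i ≤ ([true, false] ++ a).length → ¬ i ≤ 2 → ∃ j, 1 ≤ j ∧ j ≤ a.length ∧ i = 2 + j := by
    intro i _ h1 h2
    rw [hlen] at h1
    exact ⟨i - 2, by omega, by omega, by omega⟩
  have hlev : ∀ j, 1 ≤ j → j ≤ a.length → 0 < lv (vx oo up a j) ∧ lv (vx oo up a j) < 3 * T + 2 := by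
    intro j h1 h2
    have h3 := (a1 j h1 h2).1
    rw [mem_St2] at h3
    exact h3.2
  have hpre : pre l = [true, false] := by
    unfold pre
    rw [if_neg (by omega)]
  refine ⟨⟨?_, ?_⟩, ⟨?_, ?_⟩, ?_, ?_⟩
  · intro i h1 h2
    refine ⟨?_, ?_⟩
    · rw [mem_St2]
      have hT0 : (0 : ℤ) ≤ T := Int.natCast_nonneg T
      by_cases h3 : i ≤ 2
      · have h4 : i = 1 ∨ i = 2 := by omega
        rcases h4 with rfl | rfl
        · rw [pre_one, lv_ue]
          refine ⟨hex_ue l, by norm_num, ?_⟩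
          push_cast
          linarith
        · have e := pre_vx l a 0
          rw [add_zero] at e
          have e0 : vx oo up a 0 = 0 := rfl
          rw [e, e0, add_zero, lv_le]
          refine ⟨hex_le0 l, by norm_num, ?_⟩
          push_cast
          linarith
      · obtain ⟨j, j1, j2, rfl⟩ := key i h1 h2 h3
        rw [pre_vx, lv_add, lv_le]
        have h4 := hlev j j1 j2
        have h5 := (a1 j j1 j2).1
        rw [mem_St2] at h5
        refine ⟨hex_le h5.1, by linarith [h4.1], ?_⟩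
        push_cast
        linarith [h4.2]
    · have h3 : |(vx (ft l) up ([true, false] ++ a) i).1 - (ft l).1| ≤ i := vx_fst upd _ _ i
      rw [ft_co] at h3
      have h4 := (abs_le.1 h3).1
      have h5 : (i : ℤ) ≤ 2 + m := by
        rw [hlen] at h2
        have : i ≤ 2 + m := by omega
        exact_mod_cast this
      rintro ((h6 | ⟨j, _, hj, hv⟩) | ⟨j, _, hj, hv⟩)
      · exact h6
      · have h6 := (abs_le.1 (vx_fst upd (ft 0) s j)).2
        have e0 : (ft 0).1 = 0 := by rw [ft_co]; rfl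
        have hj' : (j : ℤ) ≤ m := by exact_mod_cast hj.trans hs
        have h7 := congrArg Prod.fst hv
        have h8 : (ft l).1 = 2 * l := by rw [ft_co]
        rw [ft_co l] at h7
        rw [e0] at h6
        simp only [] at h4
        linarith
      · have h6 := (abs_le.1 (vx_fst upd (ft 1) t j)).2
        have e0 : (ft 1).1 = 2 := by rw [ft_co]; rfl
        have hj' : (j : ℤ) ≤ m := by exact_mod_cast hj.trans ht
        have h7 := congrArg Prod.fst hv
        rw [ft_co l] at h7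
        rw [e0] at h6
        simp only [] at h4
        linarith
  · intro i k hik hk heq
    by_cases h3 : k ≤ 2
    · have h4 : (i = 0 ∧ k = 1) ∨ (i = 0 ∧ k = 2) ∨ (i = 1 ∧ k = 2) := by omega
      have e := pre_vx l a 0
      rw [add_zero] at e
      have e0 : vx oo up a 0 = 0 := rfl
      rw [e0, add_zero] at e
      rcases h4 with ⟨rfl, rfl⟩ | ⟨rfl, rfl⟩ | ⟨rfl, rfl⟩
      · rw [pre_one, pre_zero] at heq
        have h5 := congrArg lv heq
        rw [lv_ft, lv_ue] at h5
        omega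
      · rw [e, pre_zero] at heq
        have h5 := congrArg lv heq
        rw [lv_ft, lv_le] at h5
        omega
      · rw [e, pre_one] at heq
        have h5 := congrArg lv heq
        rw [lv_ue, lv_le] at h5
        omega
    · obtain ⟨j, j1, j2, rfl⟩ := key k (by omega) hk h3
      rw [pre_vx] at heq
      by_cases h4 : i < 2
      · have h5 := congrArg lv heq
        rw [lv_add, lv_le] at h5
        have h6 := (hlev j j1 j2).1
        have h7 : i = 0 ∨ i = 1 := by omega
        rcases h7 with rfl | rfl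
        · rw [pre_zero, lv_ft] at h5
          omega
        · rw [pre_one, lv_ue] at h5
          omega
      · obtain ⟨j', rfl⟩ : ∃ j', i = 2 + j' := ⟨i - 2, by omega⟩
        rw [pre_vx] at heq
        exact a2 j' j (by omega) j2 (add_left_cancel heq)
  · rw [hpre]
    exact ⟨a, rfl⟩
  · intro i h1 h2 hO
    rw [hpre] at h1
    have h1' : 2 < i := h1
    obtain ⟨j, j1, j2, rfl⟩ := key i (by omega) h2 (by omega)
    rw [pre_vx] at hO
    have h3 : lv (le l + vx oo up a j) ≤ 3 := hO.1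
    rw [lv_add, lv_le] at h3
    have h4 := (hlev j j1 j2).1
    linarith
  · unfold tip
    have e : ([true, false] ++ a).length + 1 = 2 + (a.length + 1) := by
      rw [hlen]
      ring
    rw [e, pre_vx]
    have e2 : vx oo up a (a.length + 1) = foot oo up d := a5
    rw [e2, foot_co]
    apply Prod.ext
    · simp only [le, Prod.fst_add]
      ring
    · simp only [le, Prod.snd_add]
      ring
  · rw [hlen, pre_dx]
    exact a4

lemma wE_pre (a : List Bool) : wE ([true, false] ++ a) = ENNReal.ofReal (xc ^ 2) * wE a := wE_append [true, false] a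

/-- the truncated product. -/
lemma tt_ge {T : ℕ} {l : ℤ} {d m : ℕ} (hl : (m : ℤ) + 3 ≤ l) :
    ENNReal.ofReal (xc ^ 2) * (WW T m * VV T d m) ≤ tt T l (l + d) := by
  have h1 : ∀ s t : List Bool, s.length ≤ m → t.length ≤ m → ENNReal.ofReal (xc ^ 2) * VV T d m ≤
      gf (Ld (St (T + 1)) (∅ ∪ vis (ft 0) up s ∪ vis (ft 1) up t) l (l + d)) := by
    intro s t hs ht
    have h2 : ENNReal.ofReal (xc ^ 2) * VV T d m ≤ gf ((fun a => [true, false] ++ a) ''
        {t | t ∈ Arc (St T) ∅ oo up (foot oo up d) ∧ t.length ≤ m}) := by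
      unfold VV gf
      rw [← ENNReal.tsum_mul_left]
      have hinj : Function.Injective (fun a : List Bool => [true, false] ++ a) := fun a b h => List.append_cancel_left h
      rw [← (Equiv.Set.image _ {t | t ∈ Arc (St T) ∅ oo up (foot oo up d) ∧ t.length ≤ m} hinj).tsum_eq]
      apply ENNReal.tsum_le_tsum
      intro a
      exact (wE_pre a).ge
    refine h2.trans (gf_mono ?_)
    rintro _ ⟨a, ⟨ha, ham⟩, rfl⟩
    exact arc_mem hl hs ht ha ham
  unfold tt Q2A overA WW
  have e1 : ∀ s, ENNReal.ofReal (xc ^ 2) * ((BL (St (T + 1)) ∅ 0 m).indicator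
      (fun s => wE s * gf (BL (St (T + 1)) (∅ ∪ vis (ft 0) up s) 1 m)) s * VV T d m) ≤
      (BrA (St (T + 1)) ∅ 0).indicator (fun s => wE s * ∑' t : List Bool,
        (BrA (St (T + 1)) (∅ ∪ vis (ft 0) up s) 1).indicator (fun t => wE t *
          gf (Ld (St (T + 1)) (∅ ∪ vis (ft 0) up s ∪ vis (ft 1) up t) l (l + d))) t) s := by
    intro s
    by_cases hs : s ∈ BL (St (T + 1)) ∅ 0 m
    · rw [Set.indicator_of_mem hs, Set.indicator_of_mem hs.1]
      have e2 : ENNReal.ofReal (xc ^ 2) * (wE s * gf (BL (St (T + 1)) (∅ ∪ vis (ft 0) up s) 1 m) * VV T d m) =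
          wE s * (gf (BL (St (T + 1)) (∅ ∪ vis (ft 0) up s) 1 m) * (ENNReal.ofReal (xc ^ 2) * VV T d m)) := by ring
      rw [e2]
      refine mul_le_mul_right ?_ _
      rw [HexW.gf_indicator, ← ENNReal.tsum_mul_right]
      apply ENNReal.tsum_le_tsum
      intro t
      by_cases ht : t ∈ BL (St (T + 1)) (∅ ∪ vis (ft 0) up s) 1 m
      · rw [Set.indicator_of_mem ht, Set.indicator_of_mem ht.1]
        exact mul_le_mul_right (h1 s t hs.2 ht.2) _
      · rw [Set.indicator_of_notMem ht, zero_mul]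
        exact zero_le
    · rw [Set.indicator_of_notMem hs, zero_mul, mul_zero]
      exact zero_le
  rw [← ENNReal.tsum_mul_right, ← ENNReal.tsum_mul_left]
  exact ENNReal.tsum_le_tsum e1

/-- summation over the positions. -/
lemma sum_ge (h : ℤ → ℤ → ℝ≥0∞) {m : ℕ} {L : ℤ} (hL : 2 * (m : ℤ) + 3 ≤ L) (c : ℕ → ℝ≥0∞)
    (hc : ∀ k : ℕ, k < m → ∀ i : ℕ, i ≤ k → c k ≤ h (L - i) (L - i + (k + 1 : ℕ))) :
    ∑ k ∈ Finset.range m, ((k : ℝ≥0∞) + 1) * c k ≤
      ∑ l ∈ Finset.Icc 2 L, ∑' j : ℤ, if L < j then h l j else 0 := by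
  have h1 : ∑ i ∈ Finset.range m, ∑' j : ℤ, (if L < j then h (L - i) j else 0) ≤
      ∑ l ∈ Finset.Icc 2 L, ∑' j : ℤ, if L < j then h l j else 0 := by
    have hinj : ∀ x ∈ Finset.range m, ∀ y ∈ Finset.range m, (L - (x : ℤ)) = L - y → x = y := by
      intro x _ y _ hxy
      omega
    rw [← Finset.sum_image (f := fun l : ℤ => ∑' j : ℤ, if L < j then h l j else 0) (g := fun i : ℕ => L - (i : ℤ)) hinj]
    apply Finset.sum_le_sum_of_subset
    intro l hl
    rw [Finset.mem_image] at hl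
    obtain ⟨i, hi, rfl⟩ := hl
    rw [Finset.mem_range] at hi
    rw [Finset.mem_Icc]
    constructor <;> omega
  refine le_trans ?_ h1
  have h2 : ∀ i ∈ Finset.range m, ∑ k ∈ Finset.Ico i m, c k ≤ ∑' j : ℤ, (if L < j then h (L - i) j else 0) := by
    intro i hi
    rw [Finset.mem_range] at hi
    have hinj : ∀ x ∈ Finset.Ico i m, ∀ y ∈ Finset.Ico i m,
        (L - (i : ℤ) + (x + 1 : ℕ)) = L - i + (y + 1 : ℕ) → x = y := by
      intro x _ y _ hxy
      omega
    refine le_trans ?_ (ENNReal.sum_le_tsum ((Finset.Ico i m).image (fun k : ℕ => L - (i : ℤ) + (k + 1 : ℕ))))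
    rw [Finset.sum_image hinj]
    apply Finset.sum_le_sum
    intro k hk
    rw [Finset.mem_Ico] at hk
    rw [if_pos (by push_cast; omega)]
    exact hc k hk.2 i hk.1
  refine le_trans ?_ (Finset.sum_le_sum h2)
  have h3 : ∑ i ∈ Finset.range m, ∑ k ∈ Finset.Ico i m, c k = ∑ k ∈ Finset.range m, ∑ _i ∈ Finset.range (k + 1), c k := by
    apply Finset.sum_comm'
    intro i k
    simp only [Finset.mem_range, Finset.mem_Ico]
    omega
  rw [h3]
  apply le_of_eq
  apply Finset.sum_congr rfl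
  intro k _
  rw [Finset.sum_const, Finset.card_range, nsmul_eq_mul]
  push_cast
  ring

end Far

open Far in
theorem far_arcs {T : ℕ} (hT : 1 ≤ T) {c : ℝ≥0∞} (hc : c < ENNReal.ofReal (xc ^ 2) * (PP T 0 1 * KT T)) :
    ∃ L0 : ℤ, ∀ L, L0 ≤ L → c ≤ ∑ l ∈ Finset.Icc 2 L, ∑' j : ℤ, if L < j then tt T l j else 0 := by
  have h1 : ENNReal.ofReal (xc ^ 2) * (PP T 0 1 * KT T) ≤
      ⨆ m, ENNReal.ofReal (xc ^ 2) * (WW T m * ∑' k : ℕ, fK T m k) := by
    rw [← ENNReal.mul_iSup, PP_sup, KT_sup]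
    refine mul_le_mul_right ?_ _
    exact iSup_mul_mono _ _ (WW_mono T) (fun n m hnm => ENNReal.tsum_le_tsum (fun k => fK_mono T hnm k))
  obtain ⟨m, hm⟩ := lt_iSup_iff.1 (hc.trans_le h1)
  refine ⟨2 * (m : ℤ) + 3, fun L hL => ?_⟩
  refine hm.le.trans ?_
  have h2 : ∑' k : ℕ, fK T m k = ∑ k ∈ Finset.range m, ((k : ℝ≥0∞) + 1) * VV T (k + 1) m := by
    rw [tsum_eq_sum (s := Finset.range m)]
    · apply Finset.sum_congr rfl
      intro k hk
      rw [Finset.mem_range] at hk
      unfold fK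
      rw [if_pos hk]
    · intro k hk
      rw [Finset.mem_range] at hk
      unfold fK
      rw [if_neg hk]
  rw [h2]
  have h3 := sum_ge (fun l j => tt T l j) hL (fun k => ENNReal.ofReal (xc ^ 2) * (WW T m * VV T (k + 1) m))
    (fun k hk i hi => tt_ge (by omega))
  refine le_trans (le_of_eq ?_) h3
  rw [Finset.mul_sum, Finset.mul_sum]
  apply Finset.sum_congr rfl
  intro k _
  ring

end SP

end HexObs
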