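import Pool.Agent.HexStep.Alg

/-!
STEP, B4: the translation recursion.
A pair (walker from the slanted edge, walker from the foot l - 1) is moved by one foot to the right.
-/

set_option autoImplicit false

namespace HexObs

namespace SP

namespace Rec

open Complex Finset ENNReal

lemma vx_cons (v d : Pt) (b : Bool) (t : List Bool) (i : ℕ) :
    vx v d (b :: t) (i + 1) = vx (v + d) (turn b d) t i := by
  unfold vx
  rw [add_comm i 1, vs_shift]
  have h1 : vs v d (tf (b :: t)) 1 = v + d := rfl
  have h2 : ds d (tf (b :: t)) 1 = turn b d := rfl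
  rw [h1, h2]
  apply vs_congr
  intro k _
  rw [add_comm 1 k]
  rfl

lemma dx_cons (d : Pt) (b : Bool) (t : List Bool) (i : ℕ) :
    dx d (b :: t) (i + 1) = dx (turn b d) t i := by
  unfold dx
  rw [add_comm i 1, ds_shift]
  have h2 : ds d (tf (b :: t)) 1 = turn b d := rfl
  rw [h2]
  apply ds_congr
  intro k _
  rw [add_comm 1 k]
  rfl

lemma vx_zero (v d : Pt) (t : List Bool) : vx v d t 0 = v := rfl

lemma ft_eq' (k : ℤ) : ft k = (2 * k, -k) := by
  unfold ft foot
  have h : hz up = (2, -1) := by decide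
  rw [h]
  ext
  · simp only [oo, Prod.fst_add, Prod.smul_fst, smul_eq_mul]
    ring
  · simp only [oo, Prod.snd_add, Prod.smul_snd, smul_eq_mul]
    ring

lemma ft_succ (k : ℤ) : ft (k + 1) = ft k + (2, -1) := by
  rw [ft_eq', ft_eq']
  ext
  · simp only [Prod.fst_add]
    ring
  · simp only [Prod.snd_add]
    ring

lemma mem_S {T : ℕ} {v : Pt} : v ∈ St T ↔ lv v % 3 ≠ 1 ∧ 0 < lv v ∧ lv v < 3 * T + 2 := CC.mem_St

lemma lv_sh (v : Pt) : lv (v + (2, -1)) = lv v := by
  simp only [lv, Prod.fst_add, Prod.snd_add]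
  ring

lemma mem_S_sh {T : ℕ} {v : Pt} : v + (2, -1) ∈ St T ↔ v ∈ St T := by
  rw [mem_S, mem_S, lv_sh]

lemma vx_sh (k : ℤ) (t : List Bool) (i : ℕ) : vx (ft (k + 1)) up t i = vx (ft k) up t i + (2, -1) := by
  rw [ft_succ, HexW.vx_trans]

/-- the sites that come into the missing part. -/
lemma sh_OO {T : ℕ} {v : Pt} (hv : v ∈ St T) (h1 : v ∉ OO) (h2 : v + (2, -1) ∈ OO) : v = ue (-1) ∨ v = le 0 := by
  rw [mem_S] at hv
  obtain ⟨x, y⟩ := v
  unfold OO at h1 h2
  simp only [Set.mem_ofPred_eq, lv, nn, Prod.mk_add_mk] at h1 h2 hv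
  unfold ue le
  simp only [Prod.mk.injEq]
  omega

/-- a bridge cannot pass ue (-1) without le 0. -/
lemma pass {T : ℕ} {X : Set Pt} {v : Pt} {t : List Bool} (hs : Saw (St T \ X) v up t) (hup : dx up t t.length = up)
    {i : ℕ} (h2 : 2 ≤ i) (hi : i ≤ t.length) (he : vx v up t i = ue (-1)) (hn1 : vx v up t (i - 1) ≠ le 0)
    (hn2 : i + 1 ≤ t.length → vx v up t (i + 1) ≠ le 0) : False := by
  obtain ⟨j, rfl⟩ : ∃ j, i = j + 1 := ⟨i - 1, by omega⟩
  rw [Nat.add_sub_cancel] at hn1
  have hd := dx_mem upd t j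
  have e1 := vx_succ v up t j
  have e2 := dx_succ up t j
  have e3 := vx_succ v up t (j + 1)
  have m1 := (hs.mem j (by omega) (by omega)).1
  rw [mem_S] at m1
  obtain ⟨p, hp⟩ : ∃ p, p = vx v up t j := ⟨_, rfl⟩
  obtain ⟨d, hdd⟩ : ∃ d, d = dx up t j := ⟨_, rfl⟩
  rw [← hp] at e1 hn1 m1
  rw [← hdd] at e1 e2 hd
  rw [he] at e1 e3
  -- the previous step comes from le (-1)
  have hd' : d = (1, -1) := by
    obtain ⟨x, y⟩ := p
    obtain ⟨a, b⟩ := d
    unfold le at hn1
    unfold ue at e1
    simp only [lv] at m1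
    simp only [Prod.mk_add_mk, Prod.mk.injEq] at e1
    have hn1' : ¬ (x = -1 ∧ y = 2) := by
      rintro ⟨rfl, rfl⟩
      exact hn1 rfl
    simp only [dirs, Finset.mem_insert, Finset.mem_singleton, Prod.mk.injEq] at hd
    simp only [Prod.mk.injEq]
    omega
  rw [hd'] at e2
  rcases Bool.eq_false_or_eq_true (tf t j) with hb | hb
  · -- the next step goes to le 0
    rw [hb] at e2
    have e4 : dx up t (j + 1) = (1, 0) := e2
    rcases Nat.lt_or_ge (j + 1) t.length with hl | hl
    · apply hn2 (by omega)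
      rw [e3, e4]
      decide
    · have hl' : t.length = j + 1 := by omega
      rw [hl', e4] at hup
      exact absurd hup (by decide)
  · rw [hb] at e2
    have e4 : dx up t (j + 1) = (0, -1) := e2
    rcases Nat.lt_or_ge (j + 1) t.length with hl | hl
    · have m2 := (hs.mem (j + 1 + 1) (by omega) (by omega)).1
      rw [e3, e4, mem_S] at m2
      exact absurd m2.2.1 (by decide)
    · have hl' : t.length = j + 1 := by omega
      rw [hl', e4] at hup
      exact absurd hup (by decide)

/-- the second walker, moved by one foot. -/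
lemma sh_t {T : ℕ} {X X' : Set Pt} {k : ℤ} (hk : 1 ≤ k) (h0 : le 0 ∈ X) (hX : ∀ p : Pt, p + (2, -1) ∈ X' → p ∈ X)
    {t : List Bool} (ht : t ∈ BrA (St T) X k) : t ∈ BrA (St T) X' (k + 1) := by
  obtain ⟨⟨hs, htip, hup⟩, hA⟩ := ht
  refine ⟨⟨⟨fun i h1 h2 => ?_, fun i j h1 h2 h3 => ?_⟩, ?_, hup⟩, ⟨?_, fun i h1 h2 h3 => ?_⟩⟩
  · rw [vx_sh]
    have hm := hs.mem i h1 h2
    exact ⟨mem_S_sh.2 hm.1, fun h => hm.2 (hX _ h)⟩
  · rw [vx_sh, vx_sh] at h3
    exact hs.inj i j h1 h2 (add_right_cancel h3)
  · unfold tip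
    rw [vx_sh, mem_S_sh]
    exact htip
  · have h := hA.pre
    unfold SP.pre at h ⊢
    rw [if_neg (by omega)] at h ⊢
    exact h
  · have hl : (SP.pre (k + 1)).length = (SP.pre k).length := by
      unfold SP.pre
      rw [if_neg (by omega), if_neg (by omega)]
    have hl2 : (SP.pre k).length = 2 := by
      unfold SP.pre
      rw [if_neg (by omega)]
      rfl
    rw [hl] at h1
    rw [vx_sh] at h3
    have hm := hs.mem i (by omega) h2
    rcases sh_OO hm.1 (hA.out i h1 h2) h3 with h4 | h4
    · refine pass hs hup (by omega) h2 h4 (fun h5 => ?_) (fun h6 h5 => ?_)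
      · have hm' := hs.mem (i - 1) (by omega) (by omega)
        rw [h5] at hm'
        exact hm'.2 h0
      · have hm' := hs.mem (i + 1) (by omega) h6
        rw [h5] at hm'
        exact hm'.2 h0
    · rw [h4] at hm
      exact hm.2 h0

lemma ft_zero : ft 0 = (0, 0) := by
  rw [ft_eq']
  rfl

/-- the first walker, case A: it goes up from le 0. -/
lemma sh_A {T : ℕ} {s : List Bool} (h : true :: false :: s ∈ BrA (St T) ∅ 0) :
    true :: false :: s ∈ BrA (St T) ∅ 1 ∧ le 0 ∈ vis (ft 0) up (true :: false :: s) := by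
  obtain ⟨⟨hs, htip, hup⟩, hA⟩ := h
  have hlen : (true :: false :: s).length = s.length + 2 := rfl
  have v2 : vx (ft 0) up (true :: false :: s) 2 = le 0 := by
    rw [vx_cons, vx_cons, vx_zero, ft_zero]
    decide
  have v3 : vx (ft 0) up (true :: false :: s) 3 = le 0 + up := by
    rw [vx_cons, vx_cons, vx_succ, vx_zero, ft_zero]
    show _ + turn false (turn true up) = _
    decide
  have e1 : (1 : ℤ) = 0 + 1 := rfl
  refine ⟨⟨⟨⟨fun i h1 h2 => ?_, fun i j h1 h2 h3 => ?_⟩, ?_, hup⟩, ⟨?_, fun i h1 h2 h3 => ?_⟩⟩, 2, by omega,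
    by rw [hlen]; omega, v2⟩
  · rw [e1, vx_sh]
    have hm := hs.mem i h1 h2
    exact ⟨mem_S_sh.2 hm.1, fun h => h⟩
  · rw [e1, vx_sh, vx_sh] at h3
    exact hs.inj i j h1 h2 (add_right_cancel h3)
  · unfold tip
    rw [e1, vx_sh, mem_S_sh]
    exact htip
  · unfold SP.pre
    rw [if_neg (by norm_num)]
    exact ⟨s, rfl⟩
  · have hl : (SP.pre 1).length = 2 := rfl
    rw [hl] at h1
    rw [e1, vx_sh] at h3
    have hm := hs.mem i (by omega) h2
    have hl0 : (SP.pre 0).length = 1 := rfl
    have hne : ∀ j, 2 < j → j ≤ (true :: false :: s).length → vx (ft 0) up (true :: false :: s) j ≠ le 0 := by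
      intro j hj hj2 h5
      rw [← v2] at h5
      exact hs.inj 2 j hj hj2 h5.symm
    rcases sh_OO hm.1 (hA.out i (by omega) h2) h3 with h4 | h4
    · refine pass hs hup (by omega) h2 h4 ?_ (fun h6 => hne _ (by omega) h6)
      rcases Nat.lt_or_ge 3 i with h7 | h7
      · exact hne _ (by omega) (by omega)
      · have h8 : i = 3 := by omega
        rw [h8, v3] at h4
        exact absurd h4 (by decide)
    · exact hne i h1 h2 h4

/-- the vertices in case B. -/
lemma vx_B (s : List Bool) (j : ℕ) : vx (ft 0) up (true :: s) (j + 1) =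
    vx (ft 0) up (true :: true :: false :: s) (j + 3) + (2, -1) := by
  have e3 : j + 3 = j + 1 + 1 + 1 := rfl
  rw [e3, vx_cons, vx_cons, vx_cons, vx_cons, ft_zero, ← HexW.vx_trans]
  have a1 : turn true up = (-1, 1) := by decide
  have a2 : turn false (turn true (turn true up)) = (-1, 1) := by decide
  have a3 : ((0, 0) : Pt) + up + turn true up + turn true (turn true up) + (2, -1) = (0, 0) + up := by decide
  rw [a2, a3, a1]

lemma dx_B (s : List Bool) (j : ℕ) : dx up (true :: s) (j + 1) = dx up (true :: true :: false :: s) (j + 3) := by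
  have e3 : j + 3 = j + 1 + 1 + 1 := rfl
  rw [e3, dx_cons, dx_cons, dx_cons, dx_cons]
  have a1 : turn true up = turn false (turn true (turn true up)) := by decide
  rw [← a1]

/-- the first walker, case B: it goes down from le 0 to ue (-1) and up to le (-1). -/
lemma sh_B {T : ℕ} {s : List Bool} (h : true :: true :: false :: s ∈ BrA (St T) ∅ 0) :
    true :: s ∈ BrA (St T) ∅ 0 ∧ le 0 ∈ vis (ft 0) up (true :: true :: false :: s) ∧
      (∀ p : Pt, p + (2, -1) ∈ vis (ft 0) up (true :: s) → p ∈ vis (ft 0) up (true :: true :: false :: s)) := by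
  obtain ⟨⟨hs, htip, hup⟩, hA⟩ := h
  have hlen : (true :: true :: false :: s).length = s.length + 3 := rfl
  have hlen' : (true :: s).length = s.length + 1 := rfl
  have v2 : vx (ft 0) up (true :: true :: false :: s) 2 = le 0 := by
    rw [vx_cons, vx_cons, vx_zero, ft_zero]
    decide
  have v3 : vx (ft 0) up (true :: true :: false :: s) 3 = ue (-1) := by
    rw [vx_cons, vx_cons, vx_cons, vx_zero, ft_zero]
    decide
  have hm' : ∀ j, j ≤ s.length → vx (ft 0) up (true :: s) (j + 1) ∈ St T := by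
    intro j hj
    rw [vx_B, mem_S_sh]
    exact (hs.mem (j + 3) (by omega) (by omega)).1
  refine ⟨⟨⟨⟨fun i h1 h2 => ?_, fun i j h1 h2 h3 => ?_⟩, ?_, ?_⟩, ⟨?_, fun i h1 h2 h3 => ?_⟩⟩, ⟨2, by omega,
    by rw [hlen]; omega, v2⟩, ?_⟩
  · obtain ⟨j, rfl⟩ : ∃ j, i = j + 1 := ⟨i - 1, by omega⟩
    exact ⟨hm' j (by omega), fun h => h⟩
  · obtain ⟨k, rfl⟩ : ∃ k, j = k + 1 := ⟨j - 1, by omega⟩
    rcases Nat.eq_zero_or_pos i with rfl | hi
    · have hm := hm' k (by omega)
      rw [← h3, vx_zero, ft_zero, mem_S] at hm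
      exact absurd hm.2.1 (by decide)
    · obtain ⟨l, rfl⟩ : ∃ l, i = l + 1 := ⟨i - 1, by omega⟩
      rw [vx_B s l, vx_B s k] at h3
      exact hs.inj (l + 3) (k + 3) (by omega) (by omega) (add_right_cancel h3)
  · unfold tip
    rw [hlen', vx_B, mem_S_sh]
    exact htip
  · rw [hlen', dx_B]
    exact hup
  · exact ⟨s, rfl⟩
  · have hl : (SP.pre 0).length = 1 := rfl
    rw [hl] at h1
    obtain ⟨j, rfl⟩ : ∃ j, i = j + 1 := ⟨i - 1, by omega⟩
    rw [vx_B] at h3
    have hm := hs.mem (j + 3) (by omega) (by omega)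
    rcases sh_OO hm.1 (hA.out (j + 3) (by omega) (by omega)) h3 with h4 | h4
    · rw [← v3] at h4
      exact hs.inj 3 (j + 3) (by omega) (by omega) h4.symm
    · rw [← v2] at h4
      exact hs.inj 2 (j + 3) (by omega) (by omega) h4.symm
  · rintro p ⟨i, h1, h2, h3⟩
    obtain ⟨j, rfl⟩ : ∃ j, i = j + 1 := ⟨i - 1, by omega⟩
    rw [vx_B] at h3
    exact ⟨j + 3, by omega, by omega, add_right_cancel h3⟩

/-- the two cases. -/
lemma cases_s {T : ℕ} (hT : 1 ≤ T) {s : List Bool} (h : s ∈ BrA (St T) ∅ 0) :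
    (∃ r, s = true :: false :: r) ∨ ∃ r, s = true :: true :: false :: r := by
  obtain ⟨⟨hs, htip, hup⟩, hA⟩ := h
  have hT' : (1 : ℤ) ≤ T := by exact_mod_cast hT
  obtain ⟨r, hr⟩ := hA.pre
  have hr' : s = true :: r := hr.symm
  subst hr'
  match r with
  | [] =>
    exfalso
    apply htip
    have e : tip (ft 0) up [true] = le 0 := by
      unfold tip
      show vx (ft 0) up [true] (0 + 1 + 1) = _
      rw [ft_zero]
      decide
    rw [e, mem_S]
    refine ⟨by decide, by decide, ?_⟩
    have : lv (le 0) = 3 := by decide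
    omega
  | false :: r => exact Or.inl ⟨r, rfl⟩
  | [true] =>
    exfalso
    apply htip
    have e : tip (ft 0) up [true, true] = ue (-1) := by
      unfold tip
      show vx (ft 0) up [true, true] (0 + 1 + 1 + 1) = _
      rw [ft_zero]
      decide
    rw [e, mem_S]
    refine ⟨by decide, by decide, ?_⟩
    have : lv (ue (-1)) = 2 := by decide
    omega
  | true :: false :: r => exact Or.inr ⟨r, rfl⟩
  | true :: true :: r =>
    exfalso
    rcases r with _ | ⟨b, r⟩
    · exact absurd hup (by decide)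
    · have hm := (hs.mem 4 (by omega) (by simp only [List.length_cons]; omega)).1
      rw [vx_cons, vx_cons, vx_cons, vx_succ, vx_zero, ft_zero, mem_S] at hm
      exact absurd hm.2.1 (by
        show ¬ 0 < lv (_ + turn true (turn true (turn true up)))
        decide)

/-- the function carried to the words of case B. -/
noncomputable def gB (f : List Bool → ℝ≥0∞) : List Bool → ℝ≥0∞
  | true :: true :: false :: s => f (true :: s)
  | _ => 0

lemma tsum_gB (f : List Bool → ℝ≥0∞) : ∑' s, gB f s ≤ ∑' s, f s := by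
  have he : Function.Injective (fun s : List Bool => true :: true :: false :: s) := by
    intro a b hab
    simp only [List.cons.injEq, true_and] at hab
    exact hab
  have h1 : ∑' s : List Bool, gB f (true :: true :: false :: s) = ∑' s, gB f s := by
    apply he.tsum_eq
    intro s hs
    rw [Function.mem_support] at hs
    match s, hs with
    | true :: true :: false :: s, _ => exact ⟨s, rfl⟩
    | [], hs => exact absurd rfl hs
    | [_], hs => exact absurd (by unfold gB; split <;> simp_all) hs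
    | [_, _], hs => exact absurd (by unfold gB; split <;> simp_all) hs
    | false :: _ :: _ :: _, hs => exact absurd (by unfold gB; split <;> simp_all) hs
    | true :: false :: _ :: _, hs => exact absurd (by unfold gB; split <;> simp_all) hs
    | true :: true :: true :: _, hs => exact absurd (by unfold gB; split <;> simp_all) hs
  rw [← h1]
  have hc : Function.Injective (fun s : List Bool => true :: s) := fun a b hab => (List.cons.inj hab).2
  exact ENNReal.tsum_comp_le_tsum_of_injective hc f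

lemma wE_B (s : List Bool) : wE (true :: true :: false :: s) = ENNReal.ofReal (xc ^ 2) * wE (true :: s) := by
  unfold wE
  rw [← ENNReal.ofReal_mul (pow_nonneg xc_pos.le _), ← pow_add]
  congr 2
  simp only [List.length_cons]
  omega

end Rec

open Complex Finset ENNReal Rec

/-- B4: THE TRANSLATION RECURSION. -/
theorem rec_PP {T : ℕ} (hT : 1 ≤ T) {l : ℤ} (hl : 2 ≤ l) :
    PP T 0 (l - 1) ≤ PP T 1 l + ENNReal.ofReal (xc ^ 2) * PP T 0 l := by
  unfold PP P2A overA
  set f2 : List Bool → ℝ≥0∞ := (BrA (St (T + 1)) ∅ 0).indicator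
    (fun s => wE s * gf (BrA (St (T + 1)) (∅ ∪ vis (ft 0) up s) l)) with hf2
  have hsum : ∑' s : List Bool, gB f2 s ≤ ∑' s, f2 s := tsum_gB f2
  refine le_trans ?_ (add_le_add (le_refl _) (mul_le_mul_right hsum _))
  rw [← ENNReal.tsum_mul_left, ← ENNReal.tsum_add]
  apply ENNReal.tsum_le_tsum
  intro s
  by_cases hs : s ∈ BrA (St (T + 1)) ∅ 0
  · rw [Set.indicator_of_mem hs]
    have hl1 : l = l - 1 + 1 := by ring
    rcases cases_s (by omega) hs with ⟨r, rfl⟩ | ⟨r, rfl⟩
    · obtain ⟨h1, h2⟩ := sh_A hs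
      rw [Set.indicator_of_mem h1]
      refine le_trans ?_ le_self_add
      apply mul_le_mul_right
      apply gf_mono
      intro t ht
      rw [hl1]
      refine sh_t (by omega) (Or.inr h2) ?_ ht
      rintro p (hp | hp)
      · exact absurd hp (Set.notMem_empty _)
      · right
        obtain ⟨i, k1, k2, k3⟩ := hp
        have e1 : (1 : ℤ) = 0 + 1 := rfl
        rw [e1, vx_sh] at k3
        exact ⟨i, k1, k2, add_right_cancel k3⟩
    · obtain ⟨h1, h2, h3⟩ := sh_B hs
      refine le_trans ?_ le_add_self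
      have e : gB f2 (true :: true :: false :: r) = f2 (true :: r) := rfl
      rw [e, hf2, Set.indicator_of_mem h1, wE_B, mul_assoc]
      apply mul_le_mul_right
      apply mul_le_mul_right
      apply gf_mono
      intro t ht
      rw [hl1]
      refine sh_t (by omega) (Or.inr h2) ?_ ht
      rintro p (hp | hp)
      · exact absurd hp (Set.notMem_empty _)
      · exact Or.inr (h3 p hp)
  · rw [Set.indicator_of_notMem hs]
    exact zero_le

end SP

end HexObs
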