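import Pool.Agent.HexStep.Alg

/-!
STEP, B3: reversal of the third walk.
-/

set_option autoImplicit false

namespace HexObs

namespace SP

open Complex Finset ENNReal

private lemma b3_ft (k : ℤ) : ft k = (2 * k, -k) := by
  unfold ft foot oo hz up
  simp only [rotR, Prod.mk_add_mk, Prod.smul_mk, smul_eq_mul, zero_add]
  congr 1 <;> ring

private lemma b3_mem {T : ℕ} {v : Pt} : v ∈ St T ↔ lv v % 3 ≠ 1 ∧ 0 < lv v ∧ lv v < 3 * T + 2 := by
  have hlv : ip (v - oo) up = lv v := by
    unfold ip oo up lv
    simp only [Prod.fst_sub, Prod.snd_sub]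
    ring
  have hhex : IsHex oo up v ↔ lv v % 3 ≠ 1 := by
    unfold IsHex cl oo up lv
    constructor
    · intro h h1
      have h3 : ((v.1 - v.2 - 1 : ℤ) : ZMod 3) = 0 := by
        rw [ZMod.intCast_zmod_eq_zero_iff_dvd]
        omega
      push_cast at h3 h
      have h4 : ((v.1 : ZMod 3) - v.2) = 1 := by linear_combination h3
      rw [h4] at h
      revert h
      norm_num
      decide
    · intro h
      have h2 : (v.1 - v.2) % 3 = 0 ∨ (v.1 - v.2) % 3 = 2 := by omega
      rcases h2 with h2 | h2
      · left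
        have h3 : ((v.1 - v.2 : ℤ) : ZMod 3) = 0 := by
          rw [ZMod.intCast_zmod_eq_zero_iff_dvd]
          omega
        rw [h3]
        norm_num
      · right
        have h3 : ((v.1 - v.2 + 1 : ℤ) : ZMod 3) = 0 := by
          rw [ZMod.intCast_zmod_eq_zero_iff_dvd]
          omega
        push_cast at h3 ⊢
        linear_combination h3
  unfold St strip
  rw [Set.mem_ofPred_eq, hlv, hhex]

private lemma b3_vx2 (k : ℤ) (u : List Bool) (i : ℕ) :
    vx (ft k) up (true :: false :: u) (2 + i) = vx (le k) up u i := by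
  unfold vx
  rw [vs_shift]
  have h1 : vs (ft k) up (tf (true :: false :: u)) 2 = le k := by
    rw [b3_ft]
    show (((2 * k, -k) : Pt) + up) + turn true up = le k
    unfold up le turn rotL
    simp only [if_true, Prod.mk_add_mk]
    congr 1 <;> ring
  have h2 : ds up (tf (true :: false :: u)) 2 = up := by
    show turn false (turn true up) = up
    rfl
  rw [h1, h2]
  congr 1
  funext k'
  exact tf_append_right (t := [true, false]) (s := u) k'

private lemma b3_dx2 (u : List Bool) (i : ℕ) : dx up (true :: false :: u) (2 + i) = dx up u i := by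
  unfold dx
  rw [ds_shift]
  have h2 : ds up (tf (true :: false :: u)) 2 = up := by
    show turn false (turn true up) = up
    rfl
  rw [h2]
  congr 1
  funext k'
  exact tf_append_right (t := [true, false]) (s := u) k'

private lemma b3_vx1 (k : ℤ) (u : List Bool) : vx (ft k) up (true :: false :: u) 1 = ue k := by
  rw [b3_ft]
  show ((2 * k, -k) : Pt) + up = ue k
  unfold up ue
  simp only [Prod.mk_add_mk]
  congr 1 <;> ring

private lemma b3_vx0 (k : ℤ) (u : List Bool) : vx (ft k) up u 0 = ft k := rfl

private lemma b3_pre {k : ℤ} (hk : k ≠ 0) : pre k = [true, false] := by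
  unfold pre
  rw [if_neg hk]

private lemma b3_form {k : ℤ} (hk : k ≠ 0) {u : List Bool} (h : Adm k u) : ∃ w, u = true :: false :: w := by
  obtain ⟨w, hw⟩ := h.pre
  rw [b3_pre hk] at hw
  exact ⟨w, hw.symm⟩

/-- the reversal. -/
private def b3_phi (u : List Bool) : List Bool := true :: false :: rev (u.drop 2)

private lemma b3_OOu {j : ℤ} (hj : 2 ≤ j) : ue j ∈ OO := by
  unfold OO
  rw [Set.mem_ofPred_eq]
  unfold lv nn ue
  constructor <;> simp only <;> omega

private lemma b3_OOl {j : ℤ} (hj : 2 ≤ j) : le j ∈ OO := by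
  unfold OO
  rw [Set.mem_ofPred_eq]
  unfold lv nn le
  constructor <;> simp only <;> omega

private lemma b3_phi_mem {T : ℕ} {Z : Set Pt} {l j : ℤ} (hl : 2 ≤ l) (hj : 2 ≤ j) (h1 : ue j ∉ Z) (h2 : le j ∉ Z)
    {u : List Bool} (hu : u ∈ Ld (St (T + 1)) Z l j) : b3_phi u ∈ Ld (St (T + 1)) Z j l := by
  obtain ⟨hs, ha, ht, hd⟩ := hu
  obtain ⟨w, rfl⟩ := b3_form (by omega) ha
  have hlen : (true :: false :: w).length = 2 + w.length := by
    rw [List.length_cons, List.length_cons]
    omega
  have hlen' : (true :: false :: rev w).length = 2 + w.length := by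
    rw [List.length_cons, List.length_cons, rev_length]
    omega
  have hphi : b3_phi (true :: false :: w) = true :: false :: rev w := rfl
  have hpl : (pre l).length = 2 := by
    rw [b3_pre (by omega)]
    rfl
  have hpj : (pre j).length = 2 := by
    rw [b3_pre (by omega)]
    rfl
  -- the tip of w
  have htip : tip (le l) up w = le j := by
    have h3 := ht
    unfold tip at h3
    rw [hlen, add_assoc, b3_vx2] at h3
    exact h3
  have hdw : dx up w w.length = -up := by
    rw [hlen, b3_dx2] at hd
    exact hd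
  have keyv : ∀ i, i ≤ w.length + 1 → vx (le j) up (rev w) i = vx (le l) up w (w.length + 1 - i) := by
    intro i hi
    have := vx_rev (le l) up w i hi
    rwa [htip, hdw, neg_neg] at this
  have keyd : ∀ i, i ≤ w.length → dx up (rev w) i = -(dx up w (w.length - i)) := by
    intro i hi
    have := dx_rev up w i hi
    rwa [hdw, neg_neg] at this
  have keyv' : ∀ i, 1 ≤ i → i ≤ w.length →
      vx (ft j) up (true :: false :: rev w) (2 + i) = vx (ft l) up (true :: false :: w) (2 + (w.length + 1 - i)) := by
    intro i hi1 hi2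
    rw [b3_vx2, b3_vx2, keyv i (by omega)]
  have hmem : ∀ i, 1 ≤ i → i ≤ w.length →
      vx (ft j) up (true :: false :: rev w) (2 + i) ∈ St (T + 1) \ Z := by
    intro i hi1 hi2
    rw [keyv' i hi1 hi2]
    exact hs.mem _ (by omega) (by rw [hlen]; omega)
  have hout : ∀ i, 1 ≤ i → i ≤ w.length → vx (ft j) up (true :: false :: rev w) (2 + i) ∉ OO := by
    intro i hi1 hi2
    rw [keyv' i hi1 hi2]
    exact ha.out _ (by omega) (by rw [hlen]; omega)
  have hv2 : vx (ft j) up (true :: false :: rev w) 2 = le j := by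
    have := b3_vx2 j (rev w) 0
    exact this
  rw [hphi]
  have hfoot : ∀ v ∈ St (T + 1), ft j ≠ v := by
    intro v hv h
    rw [← h, b3_mem, b3_ft] at hv
    unfold lv at hv
    simp only at hv
    omega
  have hue : ue j ∈ St (T + 1) := by
    rw [b3_mem]
    unfold lv ue
    simp only
    push_cast
    omega
  have hle : le j ∈ St (T + 1) := by
    rw [b3_mem]
    unfold lv le
    simp only
    push_cast
    omega
  refine ⟨⟨?_, ?_⟩, ⟨?_, ?_⟩, ?_, ?_⟩
  · intro i hi1 hi2
    rw [hlen'] at hi2
    rcases Nat.lt_or_ge i 3 with h3 | h3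
    · have h4 : i = 1 ∨ i = 2 := by omega
      rcases h4 with rfl | rfl
      · rw [b3_vx1]
        exact ⟨hue, h1⟩
      · rw [hv2]
        exact ⟨hle, h2⟩
    · obtain ⟨i', rfl⟩ := Nat.exists_eq_add_of_le (show 2 ≤ i by omega)
      exact hmem i' (by omega) (by omega)
  · intro i k hik hk
    rw [hlen'] at hk
    have hmemk : vx (ft j) up (true :: false :: rev w) k ∈ St (T + 1) := by
      rcases Nat.lt_or_ge k 3 with h3 | h3
      · have h4 : k = 1 ∨ k = 2 := by omega
        rcases h4 with rfl | rfl
        · rw [b3_vx1]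
          exact hue
        · rw [hv2]
          exact hle
      · obtain ⟨k', rfl⟩ := Nat.exists_eq_add_of_le (show 2 ≤ k by omega)
        exact (hmem k' (by omega) (by omega)).1
    rcases Nat.lt_or_ge i 3 with h3 | h3
    · have h4 : i = 0 ∨ i = 1 ∨ i = 2 := by omega
      rcases h4 with rfl | rfl | rfl
      · rw [b3_vx0]
        exact hfoot _ hmemk
      · rw [b3_vx1]
        rcases Nat.lt_or_ge k 3 with h5 | h5
        · have h6 : k = 2 := by omega
          subst h6
          rw [hv2]
          intro h
          have h7 := congrArg lv h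
          unfold lv ue le at h7
          simp only at h7
          omega
        · obtain ⟨k', rfl⟩ := Nat.exists_eq_add_of_le (show 2 ≤ k by omega)
          intro h
          apply hout k' (by omega) (by omega)
          rw [← h]
          exact b3_OOu hj
      · rw [hv2]
        obtain ⟨k', rfl⟩ := Nat.exists_eq_add_of_le (show 2 ≤ k by omega)
        intro h
        apply hout k' (by omega) (by omega)
        rw [← h]
        exact b3_OOl hj
    · obtain ⟨i', rfl⟩ := Nat.exists_eq_add_of_le (show 2 ≤ i by omega)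
      obtain ⟨k', rfl⟩ := Nat.exists_eq_add_of_le (show 2 ≤ k by omega)
      rw [keyv' i' (by omega) (by omega), keyv' k' (by omega) (by omega)]
      exact (hs.inj _ _ (by omega) (by rw [hlen]; omega)).symm
  · rw [b3_pre (by omega)]
    exact ⟨rev w, rfl⟩
  · intro i hi1 hi2
    rw [hpj] at hi1
    rw [hlen'] at hi2
    obtain ⟨i', rfl⟩ := Nat.exists_eq_add_of_le (show 2 ≤ i by omega)
    exact hout i' (by omega) (by omega)
  · unfold tip
    rw [hlen', add_assoc, b3_vx2, keyv _ le_rfl, Nat.sub_self]
    rfl
  · rw [hlen', b3_dx2, keyd _ le_rfl, Nat.sub_self]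
    rfl

private lemma b3_inj {T : ℕ} {Z : Set Pt} {l j : ℤ} (hl : 2 ≤ l) : Set.InjOn b3_phi (Ld (St (T + 1)) Z l j) := by
  intro u hu v hv huv
  obtain ⟨w, rfl⟩ := b3_form (by omega) hu.2.1
  obtain ⟨w', rfl⟩ := b3_form (by omega) hv.2.1
  have h1 : (true :: false :: rev w : List Bool) = true :: false :: rev w' := huv
  have h2 : rev w = rev w' := by
    simpa using h1
  have h3 := congrArg rev h2
  rw [rev_rev, rev_rev] at h3
  rw [h3]

private lemma b3_wE {T : ℕ} {Z : Set Pt} {l j : ℤ} (hl : 2 ≤ l) {u : List Bool} (hu : u ∈ Ld (St (T + 1)) Z l j) :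
    wE u = wE (b3_phi u) := by
  obtain ⟨w, rfl⟩ := b3_form (by omega) hu.2.1
  unfold wE
  have : (b3_phi (true :: false :: w)).length = (true :: false :: w).length := by
    show (true :: false :: rev w).length = _
    rw [List.length_cons, List.length_cons, List.length_cons, List.length_cons, rev_length]
  rw [this]

private lemma b3_gf_le {T : ℕ} {Z : Set Pt} {l j : ℤ} (hl : 2 ≤ l) (hj : 2 ≤ j) (h1 : ue j ∉ Z) (h2 : le j ∉ Z) :
    gf (Ld (St (T + 1)) Z l j) ≤ gf (Ld (St (T + 1)) Z j l) := by
  have := gf_le_of_inj (P := Ld (St (T + 1)) Z l j) (Q := Ld (St (T + 1)) Z j l) b3_phi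
    (fun t ht => b3_phi_mem hl hj h1 h2 ht) (b3_inj hl) 1 (by
      intro t ht
      rw [one_mul, b3_wE hl ht])
  rwa [one_mul] at this

private lemma b3_vis {k : ℤ} (hk0 : 0 ≤ k) (hk1 : k ≤ 1) {t : List Bool} (h : Adm k t) {j : ℤ} (hj : 2 ≤ j) :
    ue j ∉ vis (ft k) up t ∧ le j ∉ vis (ft k) up t := by
  have key : ∀ v : Pt, v ∈ OO → v ≠ ue k → v ≠ le k → v ∉ vis (ft k) up t := by
    rintro v hv h1 h2 ⟨i, hi1, hi2, hi3⟩
    have h3 : i ≤ (pre k).length := by
      by_contra h4
      exact h.out i (by omega) hi2 (by rw [hi3]; exact hv)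
    obtain ⟨w, hw⟩ := h.pre
    have h4 : i = 1 ∨ (i = 2 ∧ k ≠ 0) := by
      by_cases hk : k = 0
      · subst hk
        left
        have : (pre 0).length = 1 := by
          unfold pre
          rw [if_pos rfl]
          rfl
        omega
      · rw [b3_pre hk] at h3
        have h5 : i ≤ 2 := h3
        omega
    rcases h4 with rfl | ⟨rfl, hk⟩
    · apply h1
      rw [← hi3, b3_ft]
      show ((2 * k, -k) : Pt) + up = ue k
      unfold up ue
      simp only [Prod.mk_add_mk]
      congr 1 <;> ring
    · apply h2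
      rw [← hi3, ← hw, b3_pre hk]
      exact b3_vx2 k w 0
  constructor
  · apply key _ (b3_OOu hj)
    · intro h1
      have := congrArg Prod.fst h1
      unfold ue at this
      simp only at this
      omega
    · intro h1
      have := congrArg Prod.fst h1
      unfold ue le at this
      simp only at this
      omega
  · apply key _ (b3_OOl hj)
    · intro h1
      have := congrArg Prod.fst h1
      unfold ue le at this
      simp only at this
      omega
    · intro h1
      have := congrArg Prod.fst h1
      unfold le at this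
      simp only at this
      omega

private lemma b3_le {T : ℕ} {l j : ℤ} (hl : 2 ≤ l) (hj : 2 ≤ j) : tt T l j ≤ tt T j l := by
  unfold tt Q2A
  apply overA_mono'
  intro s hs
  apply overA_mono'
  intro t ht
  have h1 := b3_vis le_rfl zero_le_one hs.2 hj
  have h2 := b3_vis zero_le_one le_rfl ht.2 hj
  apply b3_gf_le hl hj
  · rintro ((h | h) | h)
    · exact h
    · exact h1.1 h
    · exact h2.1 h
  · rintro ((h | h) | h)
    · exact h
    · exact h1.2 h
    · exact h2.2 h

theorem tt_symm {T : ℕ} (hT : 1 ≤ T) {l j : ℤ} (hl : 2 ≤ l) (hj : 2 ≤ j) : tt T l j = tt T j l :=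
  le_antisymm (b3_le hl hj) (b3_le hj hl)

end SP

end HexObs
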