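import Pool.Agent.HexStep.LimA
import Pool.Agent.HexStep.Bounds
import Pool.Agent.HexStep.Symm
import Pool.Agent.HexStep.Rec
import Pool.Agent.HexStep.Far

/-!
STEP, B6: inequality (II). Summation of the three walk inequality over the distance of the third walker.
-/

set_option autoImplicit false

namespace HexObs

namespace SP

open Complex Finset ENNReal

namespace B6

lemma sn_one : sn 1 = Real.sin (Real.pi / 8) := by
  unfold sn
  rw [one_mul]

lemma sn_three : sn 3 = Real.cos (Real.pi / 8) := by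
  unfold sn
  rw [← W47.sin3]
  congr 1
  ring

lemma xc_cos : xc * Real.cos (Real.pi / 8) = 1 / 2 := by
  have h := W47.cos8_pos
  unfold xc
  field_simp

lemma xc_sq' : xc ^ 2 = 1 - 1 / Real.sqrt 2 := by
  have h1 := xc_cos
  have h2 := W47.two_cos_sq
  have hc := W47.cos8_pos
  have hs : 0 < Real.sqrt 2 := by positivity
  have hs2 : Real.sqrt 2 * Real.sqrt 2 = 2 := Real.mul_self_sqrt (by norm_num)
  have e : xc = 1 / (2 * Real.cos (Real.pi / 8)) := by
    rw [_root_.eq_div_iff (by positivity)]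
    linarith
  have e2 : xc ^ 2 * (2 * (2 * Real.cos (Real.pi / 8) ^ 2)) = 1 := by
    rw [e]
    field_simp
  rw [h2] at e2
  have e3 : (1 - 1 / Real.sqrt 2) * (2 * (1 + Real.sqrt 2 / 2)) = 1 := by
    field_simp
    nlinarith
  have h4 : (0 : ℝ) < 2 * (1 + Real.sqrt 2 / 2) := by positivity
  exact mul_right_cancel₀ h4.ne' (e2.trans e3.symm)

lemma tsum_gt (f : ℤ → ℝ≥0∞) (a : ℤ) :
    (∑' j : ℤ, if a < j then f j else 0) = ∑' k : ℕ, f (a + 1 + k) := by
  have hinj : Function.Injective (fun k : ℕ => a + 1 + (k : ℤ)) := by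
    intro x y h
    have h2 : a + 1 + (x : ℤ) = a + 1 + y := h
    omega
  rw [← hinj.tsum_eq (f := fun j : ℤ => if a < j then f j else 0)]
  · apply tsum_congr
    intro k
    rw [if_pos (by omega)]
  · intro j hj
    rw [Function.mem_support] at hj
    by_cases h : a < j
    · exact ⟨(j - a - 1).toNat, by
        show a + 1 + (((j - a - 1).toNat : ℕ) : ℤ) = j
        omega⟩
    · rw [if_neg h] at hj
      exact absurd rfl hj

lemma tsum_btw (f : ℤ → ℝ≥0∞) (d : ℕ) :
    (∑' j : ℤ, if 1 < j ∧ j < 2 + (d : ℤ) then f j else 0) = ∑ y ∈ range d, f (2 + (y : ℤ)) := by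
  rw [tsum_eq_sum (s := Finset.Ioo (1 : ℤ) (1 + ((d + 1 : ℕ) : ℤ)))]
  · rw [← sum_Ioo_int]
    apply Finset.sum_congr rfl
    intro j hj
    rw [Finset.mem_Ioo] at hj
    push_cast at hj
    rw [if_pos ⟨hj.1, by omega⟩]
  · intro j hj
    rw [Finset.mem_Ioo] at hj
    push_cast at hj
    rw [if_neg]
    rintro ⟨h1, h2⟩
    exact hj ⟨h1, by omega⟩

/-- the sum of the tails is the first moment. -/
lemma tsum_tail (T : ℕ) : ∑' d : ℕ, tail T (d + 1) = KT T := by
  unfold KT
  have h1 : ∀ d : ℕ, tail T (d + 1) = ∑' k : ℕ, GG T (d + k + 1) := by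
    intro d
    unfold tail
    apply tsum_congr
    intro k
    congr 1
    omega
  calc ∑' d : ℕ, tail T (d + 1) = ∑' d : ℕ, ∑' k : ℕ, GG T (d + k + 1) := tsum_congr h1
    _ = ∑' p : ℕ × ℕ, GG T (p.1 + p.2 + 1) := (ENNReal.tsum_prod (f := fun d k => GG T (d + k + 1))).symm
    _ = ∑' s : (Σ n : ℕ, Finset.HasAntidiagonal.antidiagonal n), GG T (s.1 + 1) := by
        rw [← Finset.HasAntidiagonal.sigmaAntidiagonalEquivProd.tsum_eq (fun p : ℕ × ℕ => GG T (p.1 + p.2 + 1))]
        apply tsum_congr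
        rintro ⟨n, ⟨⟨a, b⟩, h⟩⟩
        have h2 : a + b = n := Finset.HasAntidiagonal.mem_antidiagonal.1 h
        show GG T (a + b + 1) = GG T (n + 1)
        rw [h2]
    _ = ∑' n : ℕ, ∑' _ : Finset.HasAntidiagonal.antidiagonal n, GG T (n + 1) := ENNReal.tsum_sigma' _
    _ = ∑' k : ℕ, ((k : ℝ≥0∞) + 1) * GG T (k + 1) := by
        apply tsum_congr
        intro n
        rw [tsum_fintype, Finset.sum_const, Finset.card_univ, Fintype.card_coe, Finset.Nat.card_antidiagonal,
          nsmul_eq_mul]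
        push_cast
        rfl

/-- the kernel. -/
noncomputable def KK (T x y : ℕ) : ℝ≥0∞ := tt T (2 + (x : ℤ)) (2 + (y : ℤ))

/-- the arcs that go to the left. -/
noncomputable def inn (T d : ℕ) : ℝ≥0∞ := ∑ y ∈ range d, KK T d y

/-- the arcs that go to the right. -/
noncomputable def outt (T d : ℕ) : ℝ≥0∞ := ∑' k : ℕ, KK T d (d + 1 + k)

/-- the arcs that go far. -/
noncomputable def far (T N : ℕ) : ℝ≥0∞ := ∑ d ∈ range N, ∑' k : ℕ, KK T d (N + k)

lemma out_split (T N : ℕ) (hs : ∀ x y, KK T x y = KK T y x) :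
    ∑ d ∈ range N, inn T d + far T N = ∑ d ∈ range N, outt T d := by
  unfold inn far outt
  rw [kernel_swap (KK T) hs N, ← Finset.sum_add_distrib]
  apply Finset.sum_congr rfl
  intro d hd
  rw [Finset.mem_range] at hd
  rw [Finset.sum_Ico_eq_sum_range]
  have h := ENNReal.summable.sum_add_tsum_nat_add' (f := fun k => KK T d (d + 1 + k)) (k := N - (d + 1))
  rw [← h]
  congr 1
  apply tsum_congr
  intro k
  congr 1
  omega

lemma far_eq (T N : ℕ) :
    ∑ l ∈ Finset.Icc 2 ((N : ℤ) + 1), (∑' j : ℤ, if (N : ℤ) + 1 < j then tt T l j else 0) = far T N := by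
  unfold far
  symm
  apply Finset.sum_bij' (fun (y : ℕ) _ => (2 + (y : ℤ))) (fun (j : ℤ) _ => (j - 2).toNat)
  · intro y hy
    rw [Finset.mem_range] at hy
    rw [Finset.mem_Icc]
    omega
  · intro j hj
    rw [Finset.mem_Icc] at hj
    rw [Finset.mem_range]
    omega
  · intro y _
    omega
  · intro j hj
    rw [Finset.mem_Icc] at hj
    omega
  · intro y _
    rw [tsum_gt (fun j => tt T (2 + (y : ℤ)) j)]
    apply tsum_congr
    intro k
    unfold KK
    congr 1
    push_cast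
    ring

/-- the inequality for one position of the third walker, as real numbers. -/
lemma step_l {T : ℕ} (hT : 1 ≤ T) (d : ℕ) :
    inn T d ≠ ∞ ∧ outt T d ≠ ∞ ∧
    sn 1 * (xc ^ 2 * (PP T 0 1).toReal * (1 - bT T)) + (outt T d).toReal / Real.sqrt 2 - (inn T d).toReal ≤
      xc / Real.sqrt 2 * ((PP T 0 (2 + d)).toReal - (PP T 0 (1 + d)).toReal) := by
  obtain ⟨h1, h2, h3⟩ := step3 (T := T) (l := 2 + (d : ℤ)) (by omega)
  have e1 : (∑' j : ℤ, if 1 < j ∧ j < 2 + (d : ℤ) then tt T (2 + (d : ℤ)) j else 0) = inn T d :=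
    tsum_btw (fun j => tt T (2 + (d : ℤ)) j) d
  have e2 : (∑' j : ℤ, if 2 + (d : ℤ) < j then tt T (2 + (d : ℤ)) j else 0) = outt T d := by
    rw [tsum_gt (fun j => tt T (2 + (d : ℤ)) j)]
    apply tsum_congr
    intro k
    unfold KK
    congr 1
    push_cast
    ring
  rw [e1] at h1 h3
  rw [e2] at h2 h3
  refine ⟨h1, h2, ?_⟩
  have hrec := rec_PP hT (l := 2 + (d : ℤ)) (by omega)
  have hx2 : 0 ≤ xc ^ 2 := by positivity
  have hq : (PP T 0 (1 + d)).toReal ≤ (PP T 1 (2 + d)).toReal + xc ^ 2 * (PP T 0 (2 + d)).toReal := by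
    have e : (2 : ℤ) + d - 1 = 1 + d := by ring
    rw [e] at hrec
    have h := ENNReal.toReal_mono (ENNReal.add_ne_top.2 ⟨PP_ne_top T 1 (2 + d),
      ENNReal.mul_ne_top ENNReal.ofReal_ne_top (PP_ne_top T 0 (2 + d))⟩) hrec
    rw [ENNReal.toReal_add (PP_ne_top _ _ _) (ENNReal.mul_ne_top ENNReal.ofReal_ne_top (PP_ne_top _ _ _)),
      ENNReal.toReal_mul, ENNReal.toReal_ofReal hx2] at h
    exact h
  have hTT : (TT T (2 + d)).toReal ≤ xc ^ 2 * bT T * (PP T 0 1).toReal := by
    have h := ENNReal.toReal_mono (ENNReal.mul_ne_top (ENNReal.mul_ne_top ENNReal.ofReal_ne_top (BT_ne_top hT))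
      (PP_ne_top T 0 1)) (TT_le hT (l := 2 + (d : ℤ)) (by omega))
    rw [ENNReal.toReal_mul, ENNReal.toReal_mul, ENNReal.toReal_ofReal hx2] at h
    exact h
  have hs1 : 0 < sn 1 := by
    rw [sn_one]
    exact sin8_pos
  have hx := xc_pos
  have hsq : 0 < Real.sqrt 2 := by positivity
  have k1 : sn 1 * (TT T (2 + d)).toReal ≤ sn 1 * (xc ^ 2 * bT T * (PP T 0 1).toReal) :=
    mul_le_mul_of_nonneg_left hTT hs1.le
  have k2 : xc / Real.sqrt 2 * (PP T 0 (1 + d)).toReal ≤
      xc / Real.sqrt 2 * ((PP T 1 (2 + d)).toReal + xc ^ 2 * (PP T 0 (2 + d)).toReal) :=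
    mul_le_mul_of_nonneg_left hq (by positivity)
  have k3 : xc ^ 2 * sn 3 + xc / Real.sqrt 2 * xc ^ 2 = xc / Real.sqrt 2 := by
    have a1 : xc ^ 2 * sn 3 = xc * (xc * Real.cos (Real.pi / 8)) := by
      rw [sn_three]
      ring
    have a2 : 1 / Real.sqrt 2 * (1 / Real.sqrt 2) = 1 / 2 := by
      rw [div_mul_div_comm, Real.mul_self_sqrt (by norm_num)]
      norm_num
    rw [a1, xc_cos, xc_sq']
    have a3 : xc / Real.sqrt 2 * (1 - 1 / Real.sqrt 2) =
        xc * (1 / Real.sqrt 2) - xc * (1 / Real.sqrt 2 * (1 / Real.sqrt 2)) := by ring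
    rw [a3, a2]
    ring
  have k4 : xc ^ 2 * sn 3 * (PP T 0 (2 + d)).toReal + xc / Real.sqrt 2 * (xc ^ 2 * (PP T 0 (2 + d)).toReal) =
      xc / Real.sqrt 2 * (PP T 0 (2 + d)).toReal := by
    have h := congrArg (fun z => z * (PP T 0 (2 + d)).toReal) k3
    rw [← h]
    ring
  nlinarith [k1, k2, k4, h3]

/-! a pair of zigzags -/

/-- the zigzag of n rows. -/
def zz : ℕ → List Bool
  | 0 => []
  | n + 1 => zz n ++ [true] ++ [false]

lemma zz_length (n : ℕ) : (zz n).length = 2 * n := by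
  induction n with
  | zero => rfl
  | succ n ih =>
    show (zz n ++ [true] ++ [false]).length = _
    rw [List.length_append, List.length_append, ih]
    simp
    ring

lemma zz_vx (k : ℤ) (n : ℕ) : dx up (zz n) (2 * n) = up ∧
    ∀ i : ℕ, i ≤ 2 * n + 1 → vx (ft k) up (zz n) i = (2 * k - ((i / 2 : ℕ) : ℤ), (i : ℤ) - k) := by
  induction n with
  | zero =>
    refine ⟨rfl, ?_⟩
    intro i hi
    interval_cases i
    · show ft k = _
      rw [ft_eq]
      simp
    · show ft k + up = _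
      rw [ft_eq]
      show ((2 * k + 0, -k + 1) : Pt) = _
      simp
      ring
  | succ n ih =>
    obtain ⟨h1, h2⟩ := ih
    have hl := zz_length n
    have e : zz (n + 1) = zz n ++ [true] ++ [false] := rfl
    have hl1 : (zz n ++ [true]).length = 2 * n + 1 := by
      rw [List.length_append, hl]
      rfl
    have t0 : tip (ft k) up (zz n) = (2 * k - (n : ℤ), 2 * (n : ℤ) + 1 - k) := by
      have h := h2 (2 * n + 1) le_rfl
      have e2 : (2 * n + 1) / 2 = n := by omega
      rw [e2] at h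
      show vx (ft k) up (zz n) ((zz n).length + 1) = _
      rw [hl, h]
      push_cast
      rfl
    have d0 : dx up (zz n) (zz n).length = up := by
      rw [hl]
      exact h1
    have t1 : tip (ft k) up (zz n ++ [true]) = (2 * k - (n : ℤ) - 1, 2 * (n : ℤ) + 2 - k) := by
      rw [tip_append_one, t0, d0]
      show ((2 * k - (n : ℤ)) + -1, (2 * (n : ℤ) + 1 - k) + (0 + 1)) = _
      congr 1
      ring
    have d1 : dx up (zz n ++ [true]) (zz n ++ [true]).length = (-1, 1) := by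
      rw [dx_append_one, d0]
      rfl
    have t2 : tip (ft k) up (zz (n + 1)) = (2 * k - (n : ℤ) - 1, 2 * (n : ℤ) + 3 - k) := by
      rw [e, tip_append_one, t1, d1]
      show ((2 * k - (n : ℤ) - 1) + (-1 + 1), (2 * (n : ℤ) + 2 - k) + - -1) = _
      congr 1
      · ring
      · ring
    have d2 : dx up (zz (n + 1)) (zz (n + 1)).length = up := by
      rw [e, dx_append_one, d1]
      rfl
    refine ⟨?_, ?_⟩
    · rw [zz_length] at d2
      exact d2
    · intro i hi
      rcases Nat.lt_or_ge (2 * n + 1) i with h | h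
      · rcases Nat.lt_or_ge (2 * n + 2) i with h' | h'
        · have hi3 : i = 2 * n + 3 := by omega
          have e3 : (2 * n + 3) / 2 = n + 1 := by omega
          rw [hi3, e3]
          have h4 : vx (ft k) up (zz (n + 1)) (2 * n + 3) = tip (ft k) up (zz (n + 1)) := by
            show _ = vx (ft k) up (zz (n + 1)) ((zz (n + 1)).length + 1)
            rw [zz_length, show 2 * (n + 1) + 1 = 2 * n + 3 by ring]
          rw [h4, t2]
          push_cast
          congr 1
          ring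
        · have hi3 : i = 2 * n + 2 := by omega
          have e3 : (2 * n + 2) / 2 = n + 1 := by omega
          rw [hi3, e3, e, vx_append (by omega)]
          have h4 : vx (ft k) up (zz n ++ [true]) (2 * n + 2) = tip (ft k) up (zz n ++ [true]) := by
            show _ = vx (ft k) up (zz n ++ [true]) ((zz n ++ [true]).length + 1)
            rw [hl1]
          rw [h4, t1]
          push_cast
          congr 1
          ring
      · rw [e, List.append_assoc, vx_append (by omega)]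
        exact h2 i h

lemma zz_pre (n : ℕ) : [true, false] <+: zz (n + 1) := by
  induction n with
  | zero => exact ⟨[], rfl⟩
  | succ n ih =>
    exact ih.trans ((List.prefix_append _ _).trans (List.prefix_append _ _))

lemma zz_br {T : ℕ} {k : ℤ} (hk : k = 0 ∨ k = 1) {X : Set Pt}
    (hX : ∀ i : ℕ, 1 ≤ i → i ≤ 2 * (T + 1) → ((2 * k - ((i / 2 : ℕ) : ℤ), (i : ℤ) - k) : Pt) ∉ X) :
    zz (T + 1) ∈ BrA (St (T + 1)) X k := by
  obtain ⟨h1, h2⟩ := zz_vx k (T + 1)
  have hl := zz_length (T + 1)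
  refine ⟨⟨⟨?_, ?_⟩, ?_, ?_⟩, ?_, ?_⟩
  · intro i hi1 hi2
    rw [hl] at hi2
    rw [h2 i (by omega)]
    refine ⟨?_, hX i hi1 hi2⟩
    rw [mem_St']
    unfold lv
    show (2 * k - ((i / 2 : ℕ) : ℤ) + 2 * ((i : ℤ) - k)) % 3 ≠ 1 ∧ _
    push_cast
    omega
  · intro i j hij hj
    rw [hl] at hj
    rw [h2 i (by omega), h2 j (by omega)]
    intro h
    have h3 := congrArg Prod.snd h
    simp only at h3
    omega
  · show vx (ft k) up (zz (T + 1)) ((zz (T + 1)).length + 1) ∉ _
    rw [hl, h2 _ le_rfl, mem_St']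
    unfold lv
    rintro ⟨-, -, h3⟩
    simp only at h3
    push_cast at h3
    omega
  · rw [hl]
    exact h1
  · rcases hk with rfl | rfl
    · show [true] <+: zz (T + 1)
      exact List.IsPrefix.trans ⟨[false], rfl⟩ (zz_pre T)
    · show [true, false] <+: zz (T + 1)
      exact zz_pre T
  · intro i hi1 hi2
    rw [hl] at hi2
    rw [h2 i (by omega)]
    rintro ⟨h3, h4⟩
    unfold lv at h3
    unfold nn at h4
    simp only at h3 h4
    rcases hk with rfl | rfl
    · have h5 : 1 < i := hi1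
      push_cast at h3 h4
      omega
    · have h5 : 2 < i := hi1
      push_cast at h3 h4
      omega

theorem PP_ne_zero (T : ℕ) : PP T 0 1 ≠ 0 := by
  have h0 : zz (T + 1) ∈ BrA (St (T + 1)) ∅ 0 := zz_br (Or.inl rfl) (fun _ _ _ h => h)
  have h1 : zz (T + 1) ∈ BrA (St (T + 1)) (∅ ∪ vis (ft 0) up (zz (T + 1))) 1 := by
    apply zz_br (Or.inr rfl)
    rintro i hi1 hi2 (h | ⟨j, hj1, hj2, hj⟩)
    · exact h
    · rw [zz_length] at hj2
      rw [(zz_vx 0 (T + 1)).2 j (by omega), Prod.mk.injEq] at hj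
      omega
  intro h
  have h2 : wE (zz (T + 1)) * gf (BrA (St (T + 1)) (∅ ∪ vis (ft 0) up (zz (T + 1))) 1) ≤ PP T 0 1 := by
    unfold PP P2A overA
    refine le_trans ?_ (ENNReal.le_tsum (zz (T + 1)))
    rw [Set.indicator_of_mem h0]
  have h3 : wE (zz (T + 1)) ≤ gf (BrA (St (T + 1)) (∅ ∪ vis (ft 0) up (zz (T + 1))) 1) :=
    ENNReal.le_tsum (⟨zz (T + 1), h1⟩ : BrA (St (T + 1)) (∅ ∪ vis (ft 0) up (zz (T + 1))) 1)
  have h4 : wE (zz (T + 1)) * wE (zz (T + 1)) ≤ PP T 0 1 := le_trans (mul_le_mul_right h3 _) h2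
  rw [h] at h4
  have h5 : wE (zz (T + 1)) * wE (zz (T + 1)) ≠ 0 := mul_ne_zero (wE_pos _).ne' (wE_pos _).ne'
  exact h5 (le_antisymm h4 (zero_le))

/-- the summed inequality. -/
theorem summed {T : ℕ} (hT : 1 ≤ T) (N : ℕ) : far T N ≠ ∞ ∧
    (1 - 1 / Real.sqrt 2) * (xc ^ 2 * (PP T 0 1).toReal) * ∑ d ∈ range N, (tail T (d + 1)).toReal +
      (far T N).toReal / Real.sqrt 2 ≤
      xc / Real.sqrt 2 * ((PP T 0 (N + 1)).toReal - (PP T 0 1).toReal) := by
  have hx2 : 0 ≤ xc ^ 2 := by positivity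
  have hs : 0 < sn 1 := by
    rw [sn_one]
    exact sin8_pos
  have hsym : ∀ x y, KK T x y = KK T y x := fun x y => tt_symm hT (by omega) (by omega)
  have hPtop : PP T 0 1 ≠ ∞ := PP_ne_top T 0 1
  have htail : ∀ d, tail T (d + 1) ≠ ∞ := fun d => CB.tail_ne_top hT (d + 1)
  set Q : ℝ≥0∞ := ENNReal.ofReal (xc ^ 2) * PP T 0 1 with hQ
  have hQtop : Q ≠ ∞ := ENNReal.mul_ne_top ENNReal.ofReal_ne_top hPtop
  set a : ℝ≥0∞ := ∑' k : ℕ, GG T (k + 1) with ha
  have harcs := arcs_total hT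
  have hATtop := AT_ne_top hT
  have hatop : a ≠ ∞ := by
    intro h
    rw [← ha, h, ENNReal.mul_top (by norm_num)] at harcs
    exact hATtop harcs
  have hKle : ∀ x y, y < x → KK T x y ≤ Q * GG T (x - y) := by
    intro x y hxy
    have h := tt_le hT (l := 2 + (x : ℤ)) (j := 2 + (y : ℤ)) (by omega) (by omega)
    have e : ((2 + (x : ℤ)) - (2 + (y : ℤ))).natAbs = x - y := by omega
    rw [e] at h
    refine le_trans h (le_of_eq ?_)
    rw [hQ]
    ring
  have hKin : ∀ d, inn T d + Q * tail T (d + 1) ≤ Q * a := by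
    intro d
    have h1 : inn T d ≤ Q * ∑ y ∈ range d, GG T (y + 1) := by
      unfold inn
      rw [Finset.mul_sum, ← Finset.sum_range_reflect (fun y => Q * GG T (y + 1)) d]
      apply Finset.sum_le_sum
      intro y hy
      rw [Finset.mem_range] at hy
      have := hKle d y hy
      have e : d - 1 - y + 1 = d - y := by omega
      rw [e]
      exact this
    calc inn T d + Q * tail T (d + 1) ≤ Q * ∑ y ∈ range d, GG T (y + 1) + Q * tail T (d + 1) := by gcongr
      _ = Q * a := by rw [← mul_add, head_add_tail, ha]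
  have hQa : Q * a ≠ ∞ := ENNReal.mul_ne_top hQtop hatop
  have hstep := fun d => step_l hT d
  have hintop : ∀ d, inn T d ≠ ∞ := fun d => (hstep d).1
  have houttop : ∀ d, outt T d ≠ ∞ := fun d => (hstep d).2.1
  have hsplit := out_split T N hsym
  have hfar : far T N ≠ ∞ := by
    have h1 : ∑ d ∈ range N, outt T d ≠ ∞ := ENNReal.sum_ne_top.2 (fun d _ => houttop d)
    refine ne_top_of_le_ne_top h1 ?_
    rw [← hsplit]
    exact le_add_self
  refine ⟨hfar, ?_⟩
  -- passage to the reals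
  set p : ℝ := (PP T 0 1).toReal with hp
  set q : ℝ := xc ^ 2 * p with hq
  have hQr : Q.toReal = q := by
    rw [hQ, ENNReal.toReal_mul, ENNReal.toReal_ofReal hx2]
  set ar : ℝ := a.toReal with har
  have hid := bT_add_aT hT
  have har2 : aT T = 2 * ar := by
    unfold aT
    rw [harcs, ENNReal.toReal_mul]
    simp [har, ha]
  have hu_eq : sn 1 * (1 - bT T) = (1 - 1 / Real.sqrt 2) * ar := by
    rw [cos38, har2] at hid
    rw [one_sub_inv_sqrt, sn_one]
    have : 1 - bT T = Real.sin (Real.pi / 8) * (2 * ar) := by linarith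
    rw [this]
    ring
  have hinr : ∀ d, (inn T d).toReal + q * (tail T (d + 1)).toReal ≤ q * ar := by
    intro d
    rw [← hQr, har, ← ENNReal.toReal_mul, ← ENNReal.toReal_mul,
      ← ENNReal.toReal_add (hintop d) (ENNReal.mul_ne_top hQtop (htail d))]
    exact ENNReal.toReal_mono hQa (hKin d)
  set SI : ℝ := ∑ d ∈ range N, (inn T d).toReal with hSI
  set SO : ℝ := ∑ d ∈ range N, (outt T d).toReal with hSO
  set ST : ℝ := ∑ d ∈ range N, (tail T (d + 1)).toReal with hST
  have hSr : SI + (far T N).toReal = SO := by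
    rw [hSI, hSO, ← ENNReal.toReal_sum (fun d _ => hintop d), ← ENNReal.toReal_sum (fun d _ => houttop d),
      ← ENNReal.toReal_add (ENNReal.sum_ne_top.2 (fun d _ => hintop d)) hfar, hsplit]
  have hI : SI + q * ST ≤ N * (q * ar) := by
    have h1 : ∑ d ∈ range N, ((inn T d).toReal + q * (tail T (d + 1)).toReal) ≤
        ∑ _d ∈ range N, q * ar := Finset.sum_le_sum (fun d _ => hinr d)
    rw [Finset.sum_add_distrib, ← Finset.mul_sum, Finset.sum_const, Finset.card_range,
      nsmul_eq_mul] at h1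
    exact h1
  have hsum : N * (sn 1 * (q * (1 - bT T))) + SO / Real.sqrt 2 - SI ≤
      xc / Real.sqrt 2 * ((PP T 0 (N + 1)).toReal - p) := by
    have h1 : ∑ d ∈ range N, (sn 1 * (q * (1 - bT T)) + (outt T d).toReal / Real.sqrt 2 - (inn T d).toReal) ≤
        ∑ d ∈ range N, xc / Real.sqrt 2 *
          ((PP T 0 (((d + 1 : ℕ) : ℤ) + 1)).toReal - (PP T 0 ((d : ℤ) + 1)).toReal) := by
      apply Finset.sum_le_sum
      intro d _
      have h2 := (hstep d).2.2
      have e1 : (2 : ℤ) + d = ((d + 1 : ℕ) : ℤ) + 1 := by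
        push_cast
        ring
      have e2 : (1 : ℤ) + d = (d : ℤ) + 1 := by ring
      rw [e1, e2] at h2
      exact h2
    rw [← Finset.mul_sum, Finset.sum_range_sub (fun d : ℕ => (PP T 0 ((d : ℤ) + 1)).toReal) N,
      Finset.sum_sub_distrib, Finset.sum_add_distrib, ← Finset.sum_div, Finset.sum_const, Finset.card_range,
      nsmul_eq_mul] at h1
    have e3 : ((0 : ℕ) : ℤ) + 1 = 1 := by norm_num
    rw [e3] at h1
    exact h1
  have hc : 0 ≤ 1 - 1 / Real.sqrt 2 := by
    rw [one_sub_inv_sqrt]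
    positivity
  have h5 := mul_le_mul_of_nonneg_left hI hc
  have h6 : (N : ℝ) * (sn 1 * (q * (1 - bT T))) = (1 - 1 / Real.sqrt 2) * (N * (q * ar)) := by
    calc (N : ℝ) * (sn 1 * (q * (1 - bT T))) = N * (q * (sn 1 * (1 - bT T))) := by ring
      _ = _ := by
        rw [hu_eq]
        ring
  have h7 : SO / Real.sqrt 2 = SI * (1 / Real.sqrt 2) + (far T N).toReal / Real.sqrt 2 := by
    rw [← hSr]
    ring
  rw [h6, h7] at hsum
  have h8 : (1 - 1 / Real.sqrt 2) * (SI + q * ST) =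
      (1 - 1 / Real.sqrt 2) * SI + (1 - 1 / Real.sqrt 2) * q * ST := by ring
  rw [h8] at h5
  have h9 : (1 - 1 / Real.sqrt 2) * SI = SI - SI * (1 / Real.sqrt 2) := by ring
  linarith

end B6

open B6

theorem two {T : ℕ} (hT : 1 ≤ T) : KT T ≠ ∞ ∧
    (PP T 0 1).toReal * ((KT T).toReal + Real.sqrt 2 * Real.cos (Real.pi / 8)) ≤
      Real.sqrt 2 * Real.cos (Real.pi / 8) * xc ^ 2 * (XX T).toReal * bT T := by
  have hx := xc_pos
  have hx2 : 0 ≤ xc ^ 2 := by positivity
  have hx2' : 0 < xc ^ 2 := by positivity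
  have hsq : 0 < Real.sqrt 2 := by positivity
  have hc : 0 ≤ 1 - 1 / Real.sqrt 2 := by
    rw [one_sub_inv_sqrt]
    positivity
  have hPtop : PP T 0 1 ≠ ∞ := PP_ne_top T 0 1
  set p : ℝ := (PP T 0 1).toReal with hp
  have hp0 : 0 < p := ENNReal.toReal_pos (PP_ne_zero T) hPtop
  set q : ℝ := xc ^ 2 * p with hq
  have hq0 : 0 < q := by positivity
  set U : ℝ := xc / Real.sqrt 2 * (xc ^ 2 * bT T * (XX T).toReal - p) with hU
  -- the bound for all N
  have hall : ∀ N : ℕ, (1 - 1 / Real.sqrt 2) * q * ∑ d ∈ range N, (tail T (d + 1)).toReal +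
      (far T N).toReal / Real.sqrt 2 ≤ U := by
    intro N
    refine le_trans (summed hT N).2 ?_
    apply mul_le_mul_of_nonneg_left _ (by positivity)
    have h1 : (PP T 0 (N + 1)).toReal ≤ xc ^ 2 * bT T * (XX T).toReal := by
      have h := ENNReal.toReal_mono (ENNReal.mul_ne_top (ENNReal.mul_ne_top ENNReal.ofReal_ne_top (BT_ne_top hT))
        (XX_ne_top T)) (PP_le hT (l := (N : ℤ) + 1) (by omega))
      rw [ENNReal.toReal_mul, ENNReal.toReal_mul, ENNReal.toReal_ofReal hx2] at h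
      exact h
    linarith
  have hST0 : ∀ N : ℕ, 0 ≤ ∑ d ∈ range N, (tail T (d + 1)).toReal := fun N =>
    Finset.sum_nonneg (fun _ _ => ENNReal.toReal_nonneg)
  have hfarle : ∀ N : ℕ, (far T N).toReal ≤ Real.sqrt 2 * U := by
    intro N
    have h1 := hall N
    have h2 : 0 ≤ (1 - 1 / Real.sqrt 2) * q * ∑ d ∈ range N, (tail T (d + 1)).toReal :=
      mul_nonneg (mul_nonneg hc hq0.le) (hST0 N)
    have h3 : (far T N).toReal / Real.sqrt 2 ≤ U := by linarith
    rw [div_le_iff₀ hsq] at h3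
    linarith
  have hfare : ∀ c : ℝ≥0∞, c < ENNReal.ofReal (xc ^ 2) * (PP T 0 1 * KT T) →
      ∃ N0 : ℕ, ∀ N, N0 ≤ N → c ≤ far T N := by
    intro c hc'
    obtain ⟨L0, hL0⟩ := far_arcs hT hc'
    refine ⟨L0.toNat, fun N hN => ?_⟩
    have h := hL0 ((N : ℤ) + 1) (by omega)
    rw [far_eq] at h
    exact h
  -- the first moment is finite
  set Z : ℝ≥0∞ := ENNReal.ofReal (xc ^ 2) * (PP T 0 1 * KT T) with hZ
  have hZle : Z ≤ ENNReal.ofReal (Real.sqrt 2 * U) := by
    apply le_of_forall_lt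
    intro c hcZ
    obtain ⟨c', h1, h2⟩ := exists_between hcZ
    obtain ⟨N0, hN0⟩ := hfare c' h2
    refine lt_of_lt_of_le h1 (le_trans (hN0 N0 le_rfl) ?_)
    rw [← ENNReal.ofReal_toReal (summed hT N0).1]
    exact ENNReal.ofReal_le_ofReal (hfarle N0)
  have hZtop : Z ≠ ∞ := ne_top_of_le_ne_top ENNReal.ofReal_ne_top hZle
  have hKtop : KT T ≠ ∞ := by
    intro h
    apply hZtop
    rw [hZ, h, ENNReal.mul_top (PP_ne_zero T), ENNReal.mul_top]
    rw [Ne, ENNReal.ofReal_eq_zero, not_le]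
    exact hx2'
  refine ⟨hKtop, ?_⟩
  set K : ℝ := (KT T).toReal with hK
  have hZr : Z.toReal = q * K := by
    rw [hZ, ENNReal.toReal_mul, ENNReal.toReal_ofReal hx2, ENNReal.toReal_mul]
    rw [hq, hp, hK]
    ring
  have htend : Filter.Tendsto (fun N : ℕ => ∑ d ∈ range N, (tail T (d + 1)).toReal) Filter.atTop (nhds K) := by
    have h1 := ENNReal.tendsto_nat_tsum (fun d => tail T (d + 1))
    rw [tsum_tail] at h1
    have h2 := (ENNReal.tendsto_toReal hKtop).comp h1
    refine h2.congr ?_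
    intro N
    show (∑ d ∈ range N, tail T (d + 1)).toReal = _
    rw [ENNReal.toReal_sum (fun d _ => CB.tail_ne_top hT (d + 1))]
  have hlim : ∀ c' : ℝ, 0 ≤ c' → c' < q * K → (1 - 1 / Real.sqrt 2) * q * K + c' / Real.sqrt 2 ≤ U := by
    intro c' hc0 hc1
    have h1 : ENNReal.ofReal c' < Z := by
      rw [← ENNReal.ofReal_toReal hZtop, hZr]
      exact (ENNReal.ofReal_lt_ofReal_iff (lt_of_le_of_lt hc0 hc1)).2 hc1
    obtain ⟨N0, hN0⟩ := hfare _ h1
    have h2 : Filter.Tendsto (fun N : ℕ => (1 - 1 / Real.sqrt 2) * q * ∑ d ∈ range N, (tail T (d + 1)).toReal +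
        c' / Real.sqrt 2) Filter.atTop (nhds ((1 - 1 / Real.sqrt 2) * q * K + c' / Real.sqrt 2)) :=
      (htend.const_mul _).add_const _
    refine le_of_tendsto h2 ?_
    filter_upwards [Filter.eventually_ge_atTop N0] with N hN
    refine le_trans ?_ (hall N)
    have h3 : c' ≤ (far T N).toReal := by
      rw [← ENNReal.ofReal_le_iff_le_toReal (summed hT N).1]
      exact hN0 N hN
    have h4 : c' / Real.sqrt 2 ≤ (far T N).toReal / Real.sqrt 2 := by gcongr
    linarith
  have hK0 : 0 ≤ K := ENNReal.toReal_nonneg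
  have hfin : q * K ≤ U := by
    rcases hK0.eq_or_lt with h | h
    · rw [← h, mul_zero]
      have h1 := hall 0
      have h2 := hfarle 0
      have h3 : 0 ≤ (far T 0).toReal := ENNReal.toReal_nonneg
      by_contra hcon
      rw [not_le] at hcon
      nlinarith
    · have hqK : 0 < q * K := mul_pos hq0 h
      have h1 : Filter.Tendsto (fun c' : ℝ => (1 - 1 / Real.sqrt 2) * q * K + c' / Real.sqrt 2)
          (nhdsWithin (q * K) (Set.Iio (q * K))) (nhds ((1 - 1 / Real.sqrt 2) * q * K + q * K / Real.sqrt 2)) := by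
        apply Filter.Tendsto.mono_left _ nhdsWithin_le_nhds
        exact (Continuous.tendsto (by fun_prop) _)
      have h2 : (1 - 1 / Real.sqrt 2) * q * K + q * K / Real.sqrt 2 ≤ U := by
        refine le_of_tendsto h1 ?_
        filter_upwards [Ico_mem_nhdsLT hqK] with c' hc'
        exact hlim c' hc'.1 hc'.2
      have h3 : (1 - 1 / Real.sqrt 2) * q * K + q * K / Real.sqrt 2 = q * K := by ring
      rw [h3] at h2
      exact h2
  -- the final computation
  have hcos := W47.cos8_pos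
  have hxc := xc_cos
  set c : ℝ := Real.cos (Real.pi / 8) with hcdef
  have h2c : 0 < Real.sqrt 2 * c * (Real.sqrt 2 / xc) := by positivity
  have h4 := mul_le_mul_of_nonneg_left hfin h2c.le
  have hs2 : Real.sqrt 2 * Real.sqrt 2 = 2 := Real.mul_self_sqrt (by norm_num)
  have e1 : Real.sqrt 2 * c * (Real.sqrt 2 / xc) * (q * K) = p * K := by
    have : Real.sqrt 2 * c * (Real.sqrt 2 / xc) * (q * K) =
        (Real.sqrt 2 * Real.sqrt 2) * (c * (xc ^ 2 / xc)) * (p * K) := by
      rw [hq]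
      ring
    rw [this, hs2, pow_two, mul_div_assoc, div_self hx.ne', mul_one, mul_comm c xc, hxc]
    ring
  have e2 : Real.sqrt 2 * c * (Real.sqrt 2 / xc) * U =
      Real.sqrt 2 * c * xc ^ 2 * (XX T).toReal * bT T - Real.sqrt 2 * c * p := by
    rw [hU]
    field_simp
  rw [e1, e2] at h4
  linarith

end SP

end HexObs
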