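import Pool.Agent.HexStep.Alg
import Pool.Agent.W47.Surgery

/-!
STEP, C1: the arcs of the strip of height T + 1, seen from the top. The arcs that visit the first row are cut at the
rightmost visited site of the first row.
-/

set_option autoImplicit false

namespace HexObs

namespace SP

open Complex Finset ENNReal

namespace ArcCut

lemma mS {T : ℕ} {v : Pt} : v ∈ St T ↔ (v.1 + 2 * v.2) % 3 ≠ 1 ∧ 0 < v.1 + 2 * v.2 ∧ v.1 + 2 * v.2 < 3 * T + 2 :=
  CC.mem_St

lemma nup_mem : (-up : Pt) ∈ dirs := by decide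

lemma ft0 : ft 0 = (0, 0) := by
  simp [ft, foot, oo]

lemma ft1 : ft 1 = (2, -1) := by
  simp [ft, foot, oo, hz, up, rotR]

lemma vx_tr (c v d : Pt) (t : List Bool) (i : ℕ) : vx (v + c) d t i = vx v d t i + c := by
  induction i with
  | zero => rfl
  | succ i ih =>
    rw [vx_succ, vx_succ, ih]
    abel

lemma st_even (t : List Bool) {j : ℕ} (h : Even j) :
    dx (-up) t j = (0, -1) ∨ dx (-up) t j = (1, 0) ∨ dx (-up) t j = (-1, 1) := by
  rcases step_even nup_mem t h with ⟨h1, _⟩ | ⟨h1, _⟩ | ⟨h1, _⟩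
  · exact Or.inl (h1.trans (by decide))
  · exact Or.inr (Or.inl (h1.trans (by decide)))
  · exact Or.inr (Or.inr (h1.trans (by decide)))

lemma st_odd (t : List Bool) {j : ℕ} (h : ¬ Even j) :
    dx (-up) t j = (0, 1) ∨ dx (-up) t j = (1, -1) ∨ dx (-up) t j = (-1, 0) := by
  rcases step_odd nup_mem t h with ⟨h1, _⟩ | ⟨h1, _⟩ | ⟨h1, _⟩
  · exact Or.inl (h1.trans (by decide))
  · exact Or.inr (Or.inl (h1.trans (by decide)))
  · exact Or.inr (Or.inr (h1.trans (by decide)))

/-- the level modulo 3. -/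
lemma lvm {w : Pt} (hw : (w.1 + 2 * w.2) % 3 = 2) (t : List Bool) (j : ℕ) :
    (Even j → ((vx w (-up) t j).1 + 2 * (vx w (-up) t j).2) % 3 = 2) ∧
      (¬ Even j → ((vx w (-up) t j).1 + 2 * (vx w (-up) t j).2) % 3 = 0) := by
  induction j with
  | zero => exact ⟨fun _ => hw, fun h => absurd (by decide) h⟩
  | succ j ih =>
    have hs : vx w (-up) t (j + 1) = vx w (-up) t j + dx (-up) t j := vx_succ w (-up) t j
    rw [hs]
    constructor
    · intro h
      have hj : ¬ Even j := by
        rw [Nat.even_add_one] at h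
        exact h
      have h1 := ih.2 hj
      rcases st_odd t hj with h2 | h2 | h2 <;> rw [h2] <;> simp only [Prod.fst_add, Prod.snd_add] <;> omega
    · intro h
      have hj : Even j := by
        rw [Nat.even_add_one, not_not] at h
        exact h
      have h1 := ih.1 hj
      rcases st_even t hj with h2 | h2 | h2 <;> rw [h2] <;> simp only [Prod.fst_add, Prod.snd_add] <;> omega

/-- the strip seen from the top. -/
lemma mStrip {T : ℕ} (S : ℕ) {w : Pt} (hw : w.1 + 2 * w.2 = 3 * T + 5) {v : Pt} :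
    v ∈ strip w (-up) S ↔ (v.1 + 2 * v.2) % 3 ≠ 1 ∧ 3 * (T : ℤ) + 5 - (3 * S + 2) < v.1 + 2 * v.2 ∧
      v.1 + 2 * v.2 < 3 * T + 5 := by
  have h0 : v ∈ strip w (-up) S ↔ IsHex w (-up) v ∧ 0 < ip (v - w) (-up) ∧ ip (v - w) (-up) < 3 * S + 2 := Iff.rfl
  have h1 : ip (v - w) (-up) = 3 * T + 5 - (v.1 + 2 * v.2) := by
    simp only [ip, up, Prod.fst_sub, Prod.snd_sub, Prod.fst_neg, Prod.snd_neg]
    linarith
  have h2 : IsHex w (-up) v ↔ (v.1 + 2 * v.2) % 3 ≠ 1 := by
    unfold IsHex
    have e3 : ∀ p : Pt, cl p = ((p.1 + 2 * p.2 : ℤ) : ZMod 3) := by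
      intro p
      unfold cl
      rw [ZMod.intCast_eq_intCast_iff]
      show (p.1 - p.2) % ((3 : ℕ) : ℤ) = (p.1 + 2 * p.2) % ((3 : ℕ) : ℤ)
      push_cast
      omega
    have e2 : cl (-up) = ((1 : ℤ) : ZMod 3) := by
      simp [cl, up]
    rw [e3 v, e3 w, e2, ← Int.cast_add, ZMod.intCast_eq_intCast_iff, ZMod.intCast_eq_intCast_iff]
    show ((v.1 + 2 * v.2) % ((3 : ℕ) : ℤ) = (w.1 + 2 * w.2) % ((3 : ℕ) : ℤ) ∨
      (v.1 + 2 * v.2) % ((3 : ℕ) : ℤ) = (w.1 + 2 * w.2 + 1) % ((3 : ℕ) : ℤ)) ↔ _
    rw [hw]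
    push_cast
    omega
  rw [h0, h1, h2]
  constructor
  · rintro ⟨a, b, c⟩
    exact ⟨a, by linarith, by linarith⟩
  · rintro ⟨a, b, c⟩
    exact ⟨a, by linarith, by linarith⟩

/-- the arc t from the top w comes from above to the rightmost site of the first row (its vertex number n + 1) and
turns right twice. -/
def Good (T : ℕ) (w : Pt) (t : List Bool) : Prop :=
  t ∈ out (St (T + 1)) w (-up) up ∧ ∃ n, n + 2 ≤ t.length ∧ tf t n = false ∧ tf t (n + 1) = false ∧
    dx (-up) t n = -up ∧ (vx w (-up) t (n + 1)).1 + 2 * (vx w (-up) t (n + 1)).2 = 3 ∧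
    ∀ j, 1 ≤ j → j ≤ t.length → (vx w (-up) t j).1 + 2 * (vx w (-up) t j).2 ≤ 3 →
      (vx w (-up) t j).1 - (vx w (-up) t j).2 ≤ (vx w (-up) t (n + 1)).1 - (vx w (-up) t (n + 1)).2

lemma key {T : ℕ} {w : Pt} (hw : w.1 + 2 * w.2 = 3 * T + 5) {t : List Bool}
    (ht : t ∈ out (St (T + 1)) w (-up) up) (hn : t ∉ out (strip w (-up) T) w (-up) up) :
    Good T w t ∨ Good T (tip w (-up) t) (rev t) := by
  classical
  obtain ⟨⟨hm, hinj⟩, ho, hd⟩ := ht
  set V : ℕ → Pt := fun j => vx w (-up) t j with hV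
  set D : ℕ → Pt := fun j => dx (-up) t j with hD
  have hV1 : ∀ j, (V (j + 1)).1 = (V j).1 + (D j).1 := fun j => rfl
  have hV2 : ∀ j, (V (j + 1)).2 = (V j).2 + (D j).2 := fun j => rfl
  have hDs : ∀ j, D (j + 1) = turn (tf t j) (D j) := fun j => rfl
  have hlv : ∀ j, 1 ≤ j → j ≤ t.length → ((V j).1 + 2 * (V j).2) % 3 ≠ 1 ∧ 0 < (V j).1 + 2 * (V j).2 := by
    intro j h1 h2
    have h3 := mS.1 (hm j h1 h2)
    exact ⟨h3.1, h3.2.1⟩
  have hup : D t.length = (0, 1) := hd
  have hV0 : (V 0).1 + 2 * (V 0).2 = 3 * T + 5 := hw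
  have hmod := lvm (w := w) (by rw [hw]; omega) t
  have h1 : ∃ i, 1 ≤ i ∧ i ≤ t.length ∧ (V i).1 + 2 * (V i).2 ≤ 3 := by
    by_contra hcon
    push Not at hcon
    apply hn
    refine ⟨⟨fun i a b => ?_, hinj⟩, fun h => ho ?_, hd⟩
    · have h2 := mS.1 (hm i a b)
      rw [mStrip T hw]
      have h3 := hcon i a b
      simp only [hV] at h3
      push_cast at h2
      exact ⟨h2.1, by linarith, by linarith [h2.2.2]⟩
    · rw [mStrip T hw] at h
      rw [mS]
      push_cast
      exact ⟨h.1, by linarith [h.2.1], by linarith [h.2.2]⟩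
  obtain ⟨i0, hi1, hi2, hi3⟩ := h1
  obtain ⟨i, hi, himax⟩ := Finset.exists_max_image
    ((Finset.Icc 1 t.length).filter (fun i => (V i).1 + 2 * (V i).2 ≤ 3)) (fun i => (V i).1 - (V i).2)
    ⟨i0, by rw [Finset.mem_filter, Finset.mem_Icc]; exact ⟨⟨hi1, hi2⟩, hi3⟩⟩
  rw [Finset.mem_filter, Finset.mem_Icc] at hi
  obtain ⟨⟨hi4, hi5⟩, hi6⟩ := hi
  have hmax : ∀ j, 1 ≤ j → j ≤ t.length → (V j).1 + 2 * (V j).2 ≤ 3 →
      (V j).1 - (V j).2 ≤ (V i).1 - (V i).2 := by
    intro j a b c
    exact himax j (by rw [Finset.mem_filter, Finset.mem_Icc]; exact ⟨⟨a, b⟩, c⟩)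
  obtain ⟨m, rfl⟩ : ∃ m, i = m + 1 := ⟨i - 1, by omega⟩
  have hlast : ∀ j, j ≤ t.length → D j ≠ (0, 1) → j + 1 ≤ t.length := by
    intro j a b
    by_contra hcon
    have h4 : j = t.length := by omega
    rw [h4] at b
    exact b hup
  have hl := hlv (m + 1) hi4 hi5
  by_cases hpar : Even m
  · -- the level is 3
    have hpar1 : ¬ Even (m + 1) := by
      rw [Nat.even_add_one, not_not]
      exact hpar
    have h3 : (V (m + 1)).1 + 2 * (V (m + 1)).2 = 3 := by
      have h4 : ((V (m + 1)).1 + 2 * (V (m + 1)).2) % 3 = 0 := (hmod (m + 1)).2 hpar1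
      omega
    rcases st_even t hpar with h4 | h4 | h4
    · -- from above
      have h4' : D m = (0, -1) := h4
      left
      have h5 : tf t m = false := by
        by_contra hcon
        rw [Bool.not_eq_false] at hcon
        have h6 : D (m + 1) = (1, -1) := by
          rw [hDs, hcon, h4']
          decide
        have h7 := hlast (m + 1) hi5 (by rw [h6]; decide)
        have h8 := hmax (m + 1 + 1) (by omega) h7 (by rw [hV1, hV2, h6]; simp only; omega)
        rw [hV1 (m + 1), hV2 (m + 1), h6] at h8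
        simp only at h8
        omega
      have h6 : D (m + 1) = (-1, 0) := by
        rw [hDs, h5, h4']
        decide
      have h7 := hlast (m + 1) hi5 (by rw [h6]; decide)
      have h8 : tf t (m + 1) = false := by
        by_contra hcon
        rw [Bool.not_eq_false] at hcon
        have h9 : D (m + 1 + 1) = (0, -1) := by
          rw [hDs, hcon, h6]
          decide
        have h10 := hlast (m + 1 + 1) h7 (by rw [h9]; decide)
        have h11 := (hlv (m + 1 + 1 + 1) (by omega) h10).2
        rw [hV1 (m + 1 + 1), hV2 (m + 1 + 1), h9, hV1 (m + 1), hV2 (m + 1), h6] at h11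
        simp only at h11
        omega
      exact ⟨⟨⟨hm, hinj⟩, ho, hd⟩, m, h7, h5, h8, h4, h3, hmax⟩
    · -- from the left
      have h4' : D m = (1, 0) := h4
      right
      have e1 := hV1 m
      have e2 := hV2 m
      rw [h4'] at e1 e2
      simp only at e1 e2
      have hm0 : m ≠ 0 := by
        rintro rfl
        omega
      obtain ⟨q, rfl⟩ : ∃ q, m = q + 1 := ⟨m - 1, by omega⟩
      have hq : ¬ Even q := by
        rw [Nat.even_add_one] at hpar
        exact hpar
      have hq0 : 1 ≤ q := by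
        rcases Nat.eq_zero_or_pos q with h | h
        · rw [h] at hq
          exact absurd (by decide) hq
        · exact h
      have e3 := hV1 q
      have e4 := hV2 q
      have h5 : D (q + 1) = turn (tf t q) (D q) := hDs q
      rw [h4'] at h5
      have h6 : D q = (1, -1) ∧ tf t q = true := by
        rcases st_odd t hq with h7 | h7 | h7
        · exfalso
          have h7' : D q = (0, 1) := h7
          rw [h7'] at e3 e4
          simp only at e3 e4
          have h8 := (hlv q hq0 (by omega)).2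
          omega
        · have h7' : D q = (1, -1) := h7
          refine ⟨h7', ?_⟩
          by_contra hcon
          rw [Bool.not_eq_true] at hcon
          rw [hcon, h7'] at h5
          exact absurd h5 (by decide)
        · exfalso
          have h7' : D q = (-1, 0) := h7
          rw [h7'] at h5
          rcases Bool.eq_false_or_eq_true (tf t q) with h8 | h8
          · rw [h8] at h5
            exact absurd h5 (by decide)
          · rw [h8] at h5
            exact absurd h5 (by decide)
      have h7 : tf t (q + 1) = true := by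
        by_contra hcon
        rw [Bool.not_eq_true] at hcon
        have h8 : D (q + 1 + 1) = (1, -1) := by
          rw [hDs, hcon, h4']
          decide
        have h9 := hlast (q + 1 + 1) hi5 (by rw [h8]; decide)
        have a1 := hV1 (q + 1 + 1)
        have a2 := hV2 (q + 1 + 1)
        rw [h8] at a1 a2
        change _ = _ + (1 : ℤ) at a1
        change _ = _ + (-1 : ℤ) at a2
        have h10 := hmax (q + 1 + 1 + 1) (by omega) h9 (by omega)
        omega
      have h8 : D (q + 1 + 1) = (0, 1) := by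
        rw [hDs, h7, h4']
        decide
      have hw0 : w ∉ St (T + 1) := by
        rw [mS, hw]
        push_cast
        intro h
        linarith [h.2.2]
      have hdn : -(dx (-up) t t.length) = -up := by rw [hd]
      have k1 := vx_rev w (-up) t
      have k2 := dx_rev (-up) t
      rw [hdn] at k1 k2
      have hmem : rev t ∈ outAt (St (T + 1)) (tip w (-up) t) (-up) w (-(-up)) :=
        rev_mem hw0 (⟨⟨⟨hm, hinj⟩, ho, hd⟩, rfl⟩ : t ∈ outAt (St (T + 1)) w (-up) (tip w (-up) t) up)
      refine ⟨by rw [neg_neg] at hmem; exact hmem.1, t.length - (q + 1 + 1), ?_, ?_, ?_, ?_, ?_, ?_⟩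
      · rw [rev_length]
        omega
      · rw [tf_rev (by omega)]
        have e : t.length - 1 - (t.length - (q + 1 + 1)) = q + 1 := by omega
        rw [e, h7]
        rfl
      · rw [tf_rev (by omega)]
        have e : t.length - 1 - (t.length - (q + 1 + 1) + 1) = q := by omega
        rw [e, h6.2]
        rfl
      · rw [k2 _ (by omega)]
        have e : t.length - (t.length - (q + 1 + 1)) = q + 1 + 1 := by omega
        rw [e]
        have : dx (-up) t (q + 1 + 1) = (0, 1) := h8
        rw [this]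
        rfl
      · rw [k1 _ (by omega)]
        have e : t.length + 1 - (t.length - (q + 1 + 1) + 1) = q + 1 + 1 := by omega
        rw [e]
        exact h3
      · intro j hj1 hj2 hj3
        rw [rev_length] at hj2
        rw [k1 _ (by omega)] at hj3 ⊢
        rw [k1 _ (by omega)]
        have e : t.length + 1 - (t.length - (q + 1 + 1) + 1) = q + 1 + 1 := by omega
        rw [e]
        exact hmax _ (by omega) (by omega) hj3
    · -- from the right
      exfalso
      have h4' : D m = (-1, 1) := h4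
      have e1 := hV1 m
      have e2 := hV2 m
      rw [h4'] at e1 e2
      simp only at e1 e2
      have hm0 : m ≠ 0 := by
        rintro rfl
        omega
      have h5 := hmax m (by omega) (by omega) (by omega)
      omega
  · -- the level is 2
    exfalso
    have hpar1 : Even (m + 1) := by
      rw [Nat.even_add_one]
      exact hpar
    have h3 : (V (m + 1)).1 + 2 * (V (m + 1)).2 = 2 := by
      have h4 : ((V (m + 1)).1 + 2 * (V (m + 1)).2) % 3 = 2 := (hmod (m + 1)).1 hpar1
      omega
    have hm0 : 1 ≤ m := by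
      rcases Nat.eq_zero_or_pos m with h | h
      · rw [h] at hpar
        exact absurd (by decide) hpar
      · exact h
    have e1 := hV1 m
    have e2 := hV2 m
    rcases st_odd t hpar with h4 | h4 | h4
    · have h4' : D m = (0, 1) := h4
      rw [h4'] at e1 e2
      simp only at e1 e2
      have h8 := (hlv m hm0 (by omega)).2
      omega
    · have h4' : D m = (1, -1) := h4
      rcases Bool.eq_false_or_eq_true (tf t m) with h5 | h5
      · have h6 : D (m + 1) = (1, 0) := by
          rw [hDs, h5, h4']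
          decide
        have h7 := hlast (m + 1) hi5 (by rw [h6]; decide)
        have h8 := hmax (m + 1 + 1) (by omega) h7 (by rw [hV1, hV2, h6]; simp only; omega)
        rw [hV1 (m + 1), hV2 (m + 1), h6] at h8
        simp only at h8
        omega
      · have h6 : D (m + 1) = (0, -1) := by
          rw [hDs, h5, h4']
          decide
        have h7 := hlast (m + 1) hi5 (by rw [h6]; decide)
        have h8 := (hlv (m + 1 + 1) (by omega) h7).2
        rw [hV1 (m + 1), hV2 (m + 1), h6] at h8
        simp only at h8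
        omega
    · have h4' : D m = (-1, 0) := h4
      rw [h4'] at e1 e2
      simp only at e1 e2
      have h5 := hmax m hm0 (by omega) (by omega)
      omega

lemma split2 {t : List Bool} {n : ℕ} {b c : Bool} (h : n + 2 ≤ t.length) (hb : tf t n = b) (hc : tf t (n + 1) = c) :
    t = t.take n ++ ([b] ++ ([c] ++ t.drop (n + 2))) := by
  have h1 : t[n]'(by omega) = b := by
    rw [← hb]
    unfold tf
    rw [List.getD_eq_getElem _ _ (by omega)]
  have h2 : t[n + 1]'(by omega) = c := by
    rw [← hc]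
    unfold tf
    rw [List.getD_eq_getElem _ _ (by omega)]
  conv_lhs => rw [← List.take_append_drop n t]
  rw [List.drop_eq_getElem_cons (by omega : n < t.length), List.drop_eq_getElem_cons (by omega : n + 1 < t.length),
    h1, h2]
  rfl

/-- the two pieces. -/
lemma pair_mem {T : ℕ} {w : Pt} (hw : w.1 + 2 * w.2 = 3 * T + 5) {a r : List Bool}
    (ht : a ++ ([false] ++ ([false] ++ r)) ∈ out (St (T + 1)) w (-up) up) (hda : dx (-up) a a.length = -up)
    (hv : (tip w (-up) a).1 + 2 * (tip w (-up) a).2 = 3)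
    (hmax : ∀ j, 1 ≤ j → j ≤ (a ++ ([false] ++ ([false] ++ r))).length →
      (vx w (-up) (a ++ ([false] ++ ([false] ++ r))) j).1 +
        2 * (vx w (-up) (a ++ ([false] ++ ([false] ++ r))) j).2 ≤ 3 →
      (vx w (-up) (a ++ ([false] ++ ([false] ++ r))) j).1 - (vx w (-up) (a ++ ([false] ++ ([false] ++ r))) j).2 ≤
        (tip w (-up) a).1 - (tip w (-up) a).2) :
    true :: r ∈ BrA (St (T + 1)) ∅ 0 ∧
      true :: false :: rev a ∈ BrA (St (T + 1)) (vis (ft 0) up (true :: r)) 1 := by
  set t := a ++ ([false] ++ ([false] ++ r)) with ht0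
  set v := tip w (-up) a with hv0
  obtain ⟨⟨hm, hinj⟩, ho, hd⟩ := ht
  have hlen : t.length = a.length + 2 + r.length := by
    rw [ht0]
    simp
    ring
  -- the vertices of t
  have hA : ∀ j, j ≤ a.length + 1 → vx w (-up) t j = vx w (-up) a j := fun j hj => vx_append hj
  have hmid := vx_split w (-up) a false ([false] ++ r)
  have hv1 : vx w (-up) t (a.length + 1) = v := hA _ le_rfl
  have hv2 : vx w (-up) t (a.length + 2) = v + (-1, 0) := by
    have h1 := (hmid 1).1
    rw [hda] at h1
    exact h1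
  have hd2 : dx (-up) t (a.length + 2) = (-1, 1) := by
    have h1 := (hmid 1).2
    rw [hda] at h1
    exact h1
  set f : Pt := v + (-1, -1) with hf
  -- the left piece
  set s : List Bool := true :: r with hs
  have hs1 : vx f up s 1 = v + (-1, 0) := by
    show v + (-1, -1) + (0, 1) = _
    rw [add_assoc]
    rfl
  have hds1 : dx up s 1 = (-1, 1) := rfl
  have hL : ∀ k, vx f up s (1 + k) = vx w (-up) t (a.length + 2 + k) ∧
      dx up s (1 + k) = dx (-up) t (a.length + 2 + k) := by
    apply surg_shift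
    · rw [hs1, hv2]
    · rw [hds1, hd2]
    · intro k
      have e1 : tf s (1 + k) = tf r k := tf_append_right (t := [true]) (s := r) k
      have e2 : t = (a ++ [false] ++ [false]) ++ r := by
        rw [ht0]
        simp
      have e3 : a.length + 2 + k = (a ++ [false] ++ [false]).length + k := by
        simp
      rw [e1, e2, e3, tf_append_right]
  -- the right piece
  set b : List Bool := true :: false :: rev a with hb
  set g : Pt := v + (1, -2) with hg
  have hb1 : vx g up b 1 = v + (1, -1) := by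
    show v + (1, -2) + (0, 1) = _
    rw [add_assoc]
    rfl
  have hb2 : vx g up b 2 = v := by
    show v + (1, -2) + (0, 1) + (-1, 1) = _
    rw [add_assoc, add_assoc]
    show v + (0, 0) = v
    exact add_zero v
  have hdb2 : dx up b 2 = up := rfl
  have k1 := vx_rev w (-up) a
  have k2 := dx_rev (-up) a
  rw [hda, neg_neg] at k1 k2
  have hRs : ∀ k, vx g up b (2 + k) = vx v up (rev a) (0 + k) ∧ dx up b (2 + k) = dx up (rev a) (0 + k) := by
    apply surg_shift
    · rw [hb2]
      rfl
    · rw [hdb2]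
      rfl
    · intro k
      have e1 : tf b (2 + k) = tf (rev a) k := tf_append_right (t := [true, false]) (s := rev a) k
      rw [e1, zero_add]
  have hR : ∀ k, k ≤ a.length + 1 → vx g up b (2 + k) = vx w (-up) t (a.length + 1 - k) := by
    intro k hk
    rw [(hRs k).1, zero_add, k1 k hk, hA _ (by omega)]
  have hRd : ∀ k, k ≤ a.length → dx up b (2 + k) = -dx (-up) a (a.length - k) := by
    intro k hk
    rw [(hRs k).2, zero_add, k2 k hk]
  -- translation
  have hT0 : ∀ i, vx f up s i = vx (ft 0) up s i + f := by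
    intro i
    rw [← vx_tr, ft0]
    congr 1
    exact (zero_add f).symm
  have hT1 : ∀ i, vx g up b i = vx (ft 1) up b i + f := by
    intro i
    rw [← vx_tr, ft1]
    congr 1
    rw [hg, hf]
    ext
    · show v.1 + 1 = 2 + (v.1 + -1)
      ring
    · show v.2 + -2 = -1 + (v.2 + -1)
      ring
  have hf1 : f.1 = v.1 - 1 := rfl
  have hf2 : f.2 = v.2 - 1 := rfl
  have hmem : ∀ p : Pt, p + f ∈ St (T + 1) → p ∈ St (T + 1) := by
    intro p hp
    rw [mS] at hp ⊢
    simp only [Prod.fst_add, Prod.snd_add, hf1, hf2] at hp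
    have e : p.1 + (v.1 - 1) + 2 * (p.2 + (v.2 - 1)) = p.1 + 2 * p.2 := by linarith
    rw [e] at hp
    exact hp
  have hmem' : ∀ p : Pt, p ∈ St (T + 1) → p + f ∈ St (T + 1) := by
    intro p hp
    rw [mS] at hp ⊢
    simp only [Prod.fst_add, Prod.snd_add, hf1, hf2]
    have e : p.1 + (v.1 - 1) + 2 * (p.2 + (v.2 - 1)) = p.1 + 2 * p.2 := by linarith
    rw [e]
    exact hp
  -- a visited site of the first row on the right of u is v or u
  have hOO : ∀ j, 1 ≤ j → j ≤ t.length → ∀ p : Pt, p + f = vx w (-up) t j → p ∈ OO →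
      j = a.length + 1 ∨ j = a.length + 2 := by
    intro j hj1 hj2 p hp hO
    obtain ⟨h1, h2⟩ : SP.lv p ≤ 3 ∧ -1 ≤ SP.nn p := hO
    have h3 := mS.1 (hm j hj1 hj2)
    have h4 := hmax j hj1 hj2
    rw [← hp] at h3 h4
    simp only [Prod.fst_add, Prod.snd_add, hf1, hf2] at h3 h4
    unfold SP.lv at h1
    unfold SP.nn at h2
    have h5 := h4 (by linarith)
    have h6 : (p.1 + (v.1 - 1) = v.1 ∧ p.2 + (v.2 - 1) = v.2) ∨
        (p.1 + (v.1 - 1) = v.1 - 1 ∧ p.2 + (v.2 - 1) = v.2) := by
      omega
    rcases h6 with h7 | h7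
    · left
      have h8 : vx w (-up) t j = vx w (-up) t (a.length + 1) := by
        rw [hv1, ← hp]
        exact Prod.ext h7.1 h7.2
      by_contra hcon
      rcases lt_or_gt_of_ne hcon with h9 | h9
      · exact hinj _ _ h9 (by omega) h8
      · exact hinj _ _ h9 hj2 h8.symm
    · right
      have h8 : vx w (-up) t j = vx w (-up) t (a.length + 2) := by
        rw [hv2, ← hp]
        refine Prod.ext ?_ ?_
        · show p.1 + f.1 = v.1 + -1
          rw [hf1]
          linarith [h7.1]
        · show p.2 + f.2 = v.2 + 0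
          rw [hf2]
          linarith [h7.2]
      by_contra hcon
      rcases lt_or_gt_of_ne hcon with h9 | h9
      · exact hinj _ _ h9 (by omega) h8
      · exact hinj _ _ h9 hj2 h8.symm
  -- the site on the right of v is free
  have hfree : ∀ j, 1 ≤ j → j ≤ t.length → vx w (-up) t j ≠ v + (1, -1) := by
    intro j hj1 hj2 heq
    have h4 := hmax j hj1 hj2
    rw [heq] at h4
    simp only [Prod.fst_add, Prod.snd_add] at h4
    have h5 := h4 (by linarith)
    linarith
  have hpos : ∀ p : Pt, p ∈ St (T + 1) → 0 < p.1 + 2 * p.2 := fun p hp => (mS.1 hp).2.1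
  have hls : s.length = 1 + r.length := by
    rw [hs]
    simp
    ring
  have hlb : b.length = 2 + a.length := by
    rw [hb]
    simp [rev_length]
    ring
  -- vertices of the pieces
  have hsmem : ∀ i, 1 ≤ i → i ≤ s.length → vx (ft 0) up s i ∈ St (T + 1) := by
    intro i h1 h2
    apply hmem
    rw [← hT0]
    obtain ⟨k, rfl⟩ : ∃ k, i = 1 + k := ⟨i - 1, by omega⟩
    rw [(hL k).1]
    exact hm _ (by omega) (by omega)
  have hbmem : ∀ i, 1 ≤ i → i ≤ b.length → vx (ft 1) up b i ∈ St (T + 1) := by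
    intro i h1 h2
    apply hmem
    rw [← hT1]
    rcases Nat.lt_or_ge 1 i with h3 | h3
    · obtain ⟨k, rfl⟩ : ∃ k, i = 2 + k := ⟨i - 2, by omega⟩
      rw [hR k (by omega)]
      exact hm _ (by omega) (by omega)
    · have h4 : i = 1 := by omega
      rw [h4, hb1, mS]
      show (v.1 + 1 + 2 * (v.2 + -1)) % 3 ≠ 1 ∧ 0 < v.1 + 1 + 2 * (v.2 + -1) ∧
        v.1 + 1 + 2 * (v.2 + -1) < 3 * ((T + 1 : ℕ) : ℤ) + 2
      have e : v.1 + 1 + 2 * (v.2 + -1) = 2 := by linarith
      rw [e]
      push_cast
      refine ⟨by norm_num, by norm_num, ?_⟩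
      have : (0 : ℤ) ≤ T := Int.natCast_nonneg T
      linarith
  have hf0lv : (ft 0).1 + 2 * (ft 0).2 = 0 := by
    rw [ft0]
    rfl
  have hf1lv : (ft 1).1 + 2 * (ft 1).2 = 0 := by
    rw [ft1]
    rfl
  constructor
  · refine ⟨⟨⟨fun i h1 h2 => ⟨hsmem i h1 h2, fun h => h⟩, ?_⟩, ?_, ?_⟩, ?_, ?_⟩
    · intro i k hik hk
      rcases Nat.eq_zero_or_pos i with h1 | h1
      · rw [h1]
        intro heq
        have h2 := hpos _ (hsmem k (by omega) hk)
        rw [← heq] at h2
        have h3 : vx (ft 0) up s 0 = ft 0 := rfl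
        rw [h3, hf0lv] at h2
        exact lt_irrefl _ h2
      · intro heq
        obtain ⟨i', rfl⟩ : ∃ i', i = 1 + i' := ⟨i - 1, by omega⟩
        obtain ⟨k', rfl⟩ : ∃ k', k = 1 + k' := ⟨k - 1, by omega⟩
        have h2 : vx f up s (1 + i') = vx f up s (1 + k') := by rw [hT0, hT0, heq]
        rw [(hL i').1, (hL k').1] at h2
        exact hinj _ _ (by omega) (by omega) h2
    · intro h
      have h1 := hmem' _ h
      have h2 : tip (ft 0) up s + f = tip w (-up) t := by
        unfold tip
        rw [← hT0, hls, show 1 + r.length + 1 = 1 + (r.length + 1) by ring, (hL _).1, hlen]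
        rfl
      rw [h2] at h1
      exact ho h1
    · rw [hls, (hL _).2, ← hlen]
      exact hd
    · exact ⟨r, rfl⟩
    · intro i h1 h2 h3
      have h1' : 1 < i := h1
      obtain ⟨k, rfl⟩ : ∃ k, i = 1 + k := ⟨i - 1, by omega⟩
      have h4 : vx (ft 0) up s (1 + k) + f = vx w (-up) t (a.length + 2 + k) := by
        rw [← hT0, (hL k).1]
      rcases hOO _ (by omega) (by omega) _ h4 h3 with h5 | h5 <;> omega
  · refine ⟨⟨⟨fun i h1 h2 => ⟨hbmem i h1 h2, ?_⟩, ?_⟩, ?_, ?_⟩, ?_, ?_⟩
    · rintro ⟨j, hj1, hj2, hj⟩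
      obtain ⟨l, rfl⟩ : ∃ l, j = 1 + l := ⟨j - 1, by omega⟩
      have h3 : vx g up b i = vx w (-up) t (a.length + 2 + l) := by
        rw [hT1, ← hj, ← hT0, (hL l).1]
      rcases Nat.lt_or_ge 1 i with h4 | h4
      · obtain ⟨k, rfl⟩ : ∃ k, i = 2 + k := ⟨i - 2, by omega⟩
        rw [hR k (by omega)] at h3
        exact hinj _ _ (by omega) (by omega) h3
      · have h5 : i = 1 := by omega
        rw [h5, hb1] at h3
        exact hfree _ (by omega) (by omega) h3.symm
    · intro i k hik hk
      rcases Nat.eq_zero_or_pos i with h1 | h1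
      · rw [h1]
        intro heq
        have h2 := hpos _ (hbmem k (by omega) hk)
        rw [← heq] at h2
        have h3 : vx (ft 1) up b 0 = ft 1 := rfl
        rw [h3, hf1lv] at h2
        exact lt_irrefl _ h2
      · intro heq
        have h2 : vx g up b i = vx g up b k := by rw [hT1, hT1, heq]
        obtain ⟨k', rfl⟩ : ∃ k', k = 2 + k' := ⟨k - 2, by omega⟩
        rw [hR k' (by omega)] at h2
        rcases Nat.lt_or_ge 1 i with h4 | h4
        · obtain ⟨i', rfl⟩ : ∃ i', i = 2 + i' := ⟨i - 2, by omega⟩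
          rw [hR i' (by omega)] at h2
          exact hinj _ _ (by omega) (by omega) h2.symm
        · have h5 : i = 1 := by omega
          rw [h5, hb1] at h2
          exact hfree _ (by omega) (by omega) h2.symm
    · intro h
      have h1 := hmem' _ h
      have h2 : tip (ft 1) up b + f = w := by
        unfold tip
        rw [← hT1, hlb, show 2 + a.length + 1 = 2 + (a.length + 1) by ring, hR _ le_rfl, Nat.sub_self]
        rfl
      rw [h2, mS, hw] at h1
      push_cast at h1
      linarith [h1.2.2]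
    · rw [hlb, hRd _ le_rfl, Nat.sub_self]
      show -(-up) = up
      exact neg_neg _
    · exact ⟨rev a, rfl⟩
    · intro i h1 h2 h3
      have h1' : 2 < i := h1
      obtain ⟨k, rfl⟩ : ∃ k, i = 2 + k := ⟨i - 2, by omega⟩
      have h4 : vx (ft 1) up b (2 + k) + f = vx w (-up) t (a.length + 1 - k) := by
        rw [← hT1, hR k (by omega)]
      rcases hOO _ (by omega) (by omega) _ h4 h3 with h5 | h5 <;> omega

/-- the pairs of disjoint admissible bridges. -/
def PR (T : ℕ) : Set (List Bool × List Bool) :=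
  {p | p.1 ∈ BrA (St (T + 1)) ∅ 0 ∧ p.2 ∈ BrA (St (T + 1)) (vis (ft 0) up p.1) 1}

lemma PR_sum (T : ℕ) : ∑' p : PR T, wE p.1.1 * wE p.1.2 = PP T 0 1 := by
  unfold PP P2A overA
  rw [tsum_subtype (PR T) (fun p => wE p.1 * wE p.2), ENNReal.tsum_prod']
  apply tsum_congr
  intro s
  by_cases hs : s ∈ BrA (St (T + 1)) ∅ 0
  · rw [Set.indicator_of_mem hs]
    show _ = wE s * gf (BrA (St (T + 1)) (∅ ∪ vis (ft 0) up s) 1)
    unfold gf
    rw [tsum_subtype (BrA (St (T + 1)) (∅ ∪ vis (ft 0) up s) 1) (fun t => wE t), ← ENNReal.tsum_mul_left]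
    apply tsum_congr
    intro t
    rw [Set.empty_union]
    by_cases ht : t ∈ BrA (St (T + 1)) (vis (ft 0) up s) 1
    · rw [Set.indicator_of_mem ht]
      exact Set.indicator_of_mem (show (s, t) ∈ PR T from ⟨hs, ht⟩) _
    · rw [Set.indicator_of_notMem ht, mul_zero]
      apply Set.indicator_of_notMem
      rintro ⟨_, h⟩
      exact ht h
  · rw [Set.indicator_of_notMem hs, ENNReal.tsum_eq_zero]
    intro t
    apply Set.indicator_of_notMem
    rintro ⟨h, _⟩
    exact hs h

/-- the weight of the words that are cut. -/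
lemma gf_good {T : ℕ} {P : Set (List Bool)} (φ : List Bool → List Bool)
    (h : ∀ t ∈ P, ∃ w : Pt, w.1 + 2 * w.2 = 3 * T + 5 ∧ Good T w (φ t))
    (hinj : ∀ s ∈ P, ∀ t ∈ P, φ s = φ t → s = t) (hl : ∀ t, (φ t).length = t.length) :
    gf P ≤ ENNReal.ofReal xc⁻¹ * PP T 0 1 := by
  classical
  have hD : ∀ t ∈ P, ∃ p : List Bool × List Bool, φ t = p.1 ++ ([false] ++ ([false] ++ p.2)) ∧
      (true :: p.2, true :: false :: rev p.1) ∈ PR T := by
    intro t ht
    obtain ⟨w, hw, ho, n, h1, h2, h3, h4, h5, h6⟩ := h t ht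
    generalize φ t = u at ho h1 h2 h3 h4 h5 h6 ⊢
    obtain ⟨a, r, hu, hla⟩ : ∃ a r, u = a ++ ([false] ++ ([false] ++ r)) ∧ a.length = n :=
      ⟨u.take n, u.drop (n + 2), split2 h1 h2 h3, by rw [List.length_take]; omega⟩
    subst hu
    subst hla
    have htip : vx w (-up) (a ++ ([false] ++ ([false] ++ r))) (a.length + 1) = tip w (-up) a := vx_append le_rfl
    rw [htip] at h5 h6
    have hdx : dx (-up) (a ++ ([false] ++ ([false] ++ r))) a.length = dx (-up) a a.length := dx_append le_rfl
    rw [hdx] at h4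
    exact ⟨(a, r), rfl, pair_mem hw ho h4 h5 h6⟩
  choose! p hp1 hp2 using hD
  unfold gf
  rw [← PR_sum, ← ENNReal.tsum_mul_left]
  let ψ : P → PR T := fun t => ⟨(true :: (p t).2, true :: false :: rev (p t).1), hp2 t t.2⟩
  have hψ : Function.Injective ψ := by
    intro a b hab
    have h1 : true :: (p a).2 = true :: (p b).2 := congrArg (fun p => (p.1.1 : List Bool)) hab
    have h2 : true :: false :: rev (p a).1 = true :: false :: rev (p b).1 :=
      congrArg (fun p => (p.1.2 : List Bool)) hab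
    simp only [List.cons.injEq, true_and] at h1 h2
    have h3 : (p a).1 = (p b).1 := by
      have := congrArg rev h2
      rwa [rev_rev, rev_rev] at this
    apply Subtype.ext
    apply hinj a a.2 b b.2
    rw [hp1 a a.2, hp1 b b.2, h1, h3]
  have hw : ∀ t : P, wE t ≤ ENNReal.ofReal xc⁻¹ * (wE (ψ t).1.1 * wE (ψ t).1.2) := by
    intro t
    apply surg_weight
    have h1 := congrArg List.length (hp1 t t.2)
    rw [hl] at h1
    rw [h1]
    show (true :: (p t).2).length + (true :: false :: rev (p t).1).length ≤ _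
    simp only [List.length_append, List.length_cons, List.length_nil, rev_length]
    omega
  calc ∑' t : P, wE t ≤ ∑' t : P, ENNReal.ofReal xc⁻¹ * (wE (ψ t).1.1 * wE (ψ t).1.2) := ENNReal.tsum_le_tsum hw
    _ ≤ ∑' p : PR T, ENNReal.ofReal xc⁻¹ * (wE p.1.1 * wE p.1.2) :=
        ENNReal.tsum_comp_le_tsum_of_injective hψ (fun p : PR T => ENNReal.ofReal xc⁻¹ * (wE p.1.1 * wE p.1.2))

end ArcCut

theorem AT_step2 {T : ℕ} (hT : 1 ≤ T) : AT (T + 1) ≤ AT T + 2 * (ENNReal.ofReal xc⁻¹ * PP T 0 1) := by
  classical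
  obtain ⟨w, hw⟩ : ∃ w : Pt, w.1 + 2 * w.2 = 3 * T + 5 := ⟨(3 * T + 5, 0), by simp⟩
  have hS : strip w (-up) (T + 1) = St (T + 1) := by
    ext v
    rw [ArcCut.mStrip (T + 1) hw, ArcCut.mS]
    push_cast
    constructor
    · rintro ⟨a, b, c⟩
      exact ⟨a, by linarith, by linarith⟩
    · rintro ⟨a, b, c⟩
      exact ⟨a, by linarith, by linarith⟩
  have e1 : AT (T + 1) = gf (out (St (T + 1)) w (-up) up) := by
    rw [← gf_A ArcCut.nup_mem w (T + 1), hS, neg_neg]
  have e2 : AT T = gf (out (strip w (-up) T) w (-up) up) := by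
    rw [← gf_A ArcCut.nup_mem w T, neg_neg]
  have hsub : out (St (T + 1)) w (-up) up ⊆ out (strip w (-up) T) w (-up) up ∪
      ({t | t ∈ out (St (T + 1)) w (-up) up ∧ ArcCut.Good T w t} ∪
        {t | t ∈ out (St (T + 1)) w (-up) up ∧ ArcCut.Good T (tip w (-up) t) (rev t)}) := by
    intro t ht
    by_cases h : t ∈ out (strip w (-up) T) w (-up) up
    · exact Or.inl h
    · rcases ArcCut.key hw ht h with h1 | h1
      · exact Or.inr (Or.inl ⟨ht, h1⟩)
      · exact Or.inr (Or.inr ⟨ht, h1⟩)
  rw [e1, e2]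
  refine (gf_mono hsub).trans ((gf_union_le _ _).trans ?_)
  gcongr
  refine (gf_union_le _ _).trans ?_
  rw [two_mul]
  refine add_le_add ?_ ?_
  · exact ArcCut.gf_good (fun t => t) (fun t ht => ⟨w, hw, ht.2⟩) (fun s _ t _ h => h) (fun t => rfl)
  · apply ArcCut.gf_good rev
    · intro t ht
      refine ⟨tip w (-up) t, ?_, ht.2⟩
      obtain ⟨h1, h2, h3⟩ := ht.1
      rw [← hS] at h1 h2
      rcases strip_exit ArcCut.nup_mem (by omega) h1 h2 with ⟨_, h4⟩ | ⟨h4, _⟩
      · have h5 : ip (tip w (-up) t - w) (-up) =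
            (w.1 + 2 * w.2) - ((tip w (-up) t).1 + 2 * (tip w (-up) t).2) := by
          simp only [ip, up, Prod.fst_sub, Prod.snd_sub, Prod.fst_neg, Prod.snd_neg]
          ring
        rw [h5] at h4
        linarith
      · rw [h3] at h4
        exact absurd h4 (by decide)
    · intro s _ t _ h
      have := congrArg rev h
      rwa [rev_rev, rev_rev] at this
    · exact rev_length

end SP

end HexObs
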