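import Pool.Agent.HexStep.Alg
import Pool.Agent.HexW.T3Lim
import Pool.Agent.W47.K1

/-!
STEP, C2: the imaginary part of the contour identity in the step domain from the top number z.
-/

set_option autoImplicit false

namespace HexObs

namespace SP

open Complex Finset ENNReal Filter Topology

namespace ImTop

lemma dtop : (-up : Pt) ∈ dirs := by decide

lemma lv_tq (T : ℕ) (z : ℤ) : lv (tq T z) = 3 * T + 5 := by
  unfold lv tq
  push_cast
  ring

lemma ip_top (T : ℕ) (z : ℤ) (v : Pt) : ip (v - tq T z) (-up) = 3 * T + 5 - lv v := by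
  have h := lv_tq T z
  unfold lv at h ⊢
  simp only [ip, up, Prod.fst_sub, Prod.snd_sub, Prod.fst_neg, Prod.snd_neg]
  linarith

lemma cl_cast (v : Pt) (a : ℤ) : cl v = ((a : ℤ) : ZMod 3) ↔ (lv v - a) % 3 = 0 := by
  unfold cl
  rw [ZMod.intCast_eq_intCast_iff_dvd_sub]
  unfold lv
  push_cast
  omega

lemma hex_oo (v : Pt) : IsHex oo up v ↔ lv v % 3 ≠ 1 := by
  unfold IsHex
  have e1 : cl oo = ((0 : ℤ) : ZMod 3) := by decide
  have e2 : cl oo + cl up = ((2 : ℤ) : ZMod 3) := by decide
  rw [e1]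
  rw [← e1, e2, e1, cl_cast, cl_cast]
  omega

lemma hex_top (T : ℕ) (z : ℤ) (v : Pt) : IsHex (tq T z) (-up) v ↔ lv v % 3 ≠ 1 := by
  unfold IsHex
  have e1 : cl (tq T z) = ((2 : ℤ) : ZMod 3) := by
    rw [cl_cast, lv_tq]
    omega
  have e2 : cl (tq T z) + cl (-up) = ((0 : ℤ) : ZMod 3) := by
    rw [e1]
    decide
  rw [e2, e1, cl_cast, cl_cast]
  omega

lemma mem_St1 {T : ℕ} {v : Pt} : v ∈ St T ↔ lv v % 3 ≠ 1 ∧ 0 < lv v ∧ lv v < 3 * T + 2 := by
  unfold St strip
  rw [Set.mem_ofPred_eq, hex_oo]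
  have e : ip (v - oo) up = lv v := by
    simp only [ip, up, oo, lv, Prod.fst_sub, Prod.snd_sub]
    ring
  rw [e]

/-- the strip seen from above. -/
lemma strip_top (T : ℕ) (z : ℤ) : strip (tq T z) (-up) (T + 1) = St (T + 1) := by
  ext v
  rw [mem_St1]
  unfold strip
  rw [Set.mem_ofPred_eq, hex_top, ip_top]
  push_cast
  constructor
  · rintro ⟨h1, h2, h3⟩
    exact ⟨h1, by omega, by omega⟩
  · rintro ⟨h1, h2, h3⟩
    exact ⟨h1, by omega, by omega⟩

open Classical in
/-- the finite domain. -/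
noncomputable def dn (T : ℕ) (z : ℤ) (L : ℕ) : Finset Pt :=
  (trapF (v0 := tq T z) dtop (T + 1) L).filter (fun v => v ∉ OO)

lemma dn_coe (T : ℕ) (z : ℤ) (L : ℕ) : ((dn T z L : Finset Pt) : Set Pt) = trap (tq T z) (-up) (T + 1) L \ OO := by
  classical
  unfold dn
  rw [Finset.coe_filter]
  ext v
  rw [Set.mem_ofPred_eq, Set.mem_sdiff, ← Finset.mem_coe, trapF_coe]

lemma mem_dn {T : ℕ} {z : ℤ} {L : ℕ} {v : Pt} : v ∈ dn T z L ↔ v ∈ trap (tq T z) (-up) (T + 1) L ∧ v ∉ OO := by
  rw [← Finset.mem_coe, dn_coe, Set.mem_sdiff]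

lemma mem_tr {T : ℕ} {z : ℤ} {L : ℕ} {v : Pt} :
    v ∈ trapF (v0 := tq T z) dtop (T + 1) L ↔ v ∈ trap (tq T z) (-up) (T + 1) L := by
  rw [← Finset.mem_coe, trapF_coe]

lemma good (T : ℕ) (z : ℤ) {L : ℕ} (hL : 1 ≤ L) : GoodDom (trapF (v0 := tq T z) dtop (T + 1) L) (tq T z) (-up) :=
  trap_good dtop (by omega) hL

lemma trap_lv {T : ℕ} {z : ℤ} {L : ℕ} {v : Pt} (h : v ∈ trap (tq T z) (-up) (T + 1) L) :
    lv v % 3 ≠ 1 ∧ 0 < lv v ∧ lv v < 3 * T + 5 := by
  have h1 := trap_sub _ _ _ _ h
  rw [strip_top, mem_St1] at h1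
  refine ⟨h1.1, h1.2.1, ?_⟩
  have := h1.2.2
  push_cast at this
  linarith

lemma isArr_tr {T : ℕ} {z : ℤ} {L : ℕ} {t : List Bool} (h : IsArr (dn T z L) (tq T z) (-up) t) :
    IsArr (trapF (v0 := tq T z) dtop (T + 1) L) (tq T z) (-up) t :=
  ⟨fun i h1 h2 => mem_tr.2 (mem_dn.1 (h.mem i h1 h2)).1, h.inj⟩

/-- sites at the level above the tops. -/
lemma top_eq {T : ℕ} {p : Pt} (h : lv p = 3 * T + 5) : ∃ b, p = tq T b := by
  obtain ⟨a, b⟩ := p
  refine ⟨2 * T + 3 - b, ?_⟩
  unfold lv at h
  simp only at h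
  unfold tq
  apply Prod.ext
  · show a = 2 * (2 * (T : ℤ) + 3 - b) - (T + 1)
    linarith
  · show b = 2 * (T : ℤ) + 3 - (2 * (T : ℤ) + 3 - b)
    ring

lemma cross_top (T : ℕ) (z b : ℤ) : cross (-up) (tq T b - tq T z) = 2 * (b - z) := by
  simp only [cross, up, tq, Prod.fst_sub, Prod.snd_sub, Prod.fst_neg, Prod.snd_neg]
  ring

lemma tq_inj {T : ℕ} {a b : ℤ} (h : tq T a = tq T b) : a = b := by
  have := congrArg Prod.snd h
  unfold tq at this
  simp only at this
  linarith

/-- the steps into the missing part. -/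
lemma step_OO {v d : Pt} (hd : d ∈ dirs) (h1 : lv v % 3 ≠ 1) (h2 : 0 < lv v) (h3 : v ∉ OO)
    (h4 : lv (v + d) % 3 ≠ 1) (h5 : 0 < lv (v + d)) (h6 : v + d ∈ OO) :
    (v + d = ue 0 ∧ d = (1, -1)) ∨ (d = -up ∧ lv (v + d) = 3) := by
  obtain ⟨a, b⟩ := v
  have h3' : ¬ (lv (a, b) ≤ 3 ∧ -1 ≤ nn (a, b)) := h3
  have h6' : lv ((a, b) + d) ≤ 3 ∧ -1 ≤ nn ((a, b) + d) := h6
  simp only [dirs, Finset.mem_insert, Finset.mem_singleton] at hd
  unfold lv nn at h3' h6'
  unfold lv at h1 h2 h4 h5
  rcases hd with rfl | rfl | rfl | rfl | rfl | rfl <;>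
    simp only [Prod.mk_add_mk] at h1 h2 h3' h4 h5 h6'
  · omega
  · omega
  · omega
  · omega
  · right
    refine ⟨by decide, ?_⟩
    unfold lv
    simp only [Prod.mk_add_mk]
    omega
  · left
    refine ⟨?_, rfl⟩
    unfold ue
    simp only [Prod.mk_add_mk]
    apply Prod.ext
    · show a + 1 = 2 * 0
      omega
    · show b + -1 = 1 - 0
      omega

lemma not_vis {T : ℕ} (hT : 1 ≤ T) {z : ℤ} {L : ℕ} {t : List Bool} (h : IsArr (dn T z L) (tq T z) (-up) t) {p : Pt}
    (hp : p ∈ OO) : ∀ i, i ≤ t.length → vx (tq T z) (-up) t i ≠ p := by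
  intro i hi he
  rcases Nat.eq_zero_or_pos i with h0 | h0
  · rw [h0] at he
    have he' : tq T z = p := he
    have h1 := lv_tq T z
    rw [he'] at h1
    have h2 : lv p ≤ 3 := hp.1
    omega
  · have h1 := (mem_dn.1 (h.mem i h0 hi)).2
    rw [he] at h1
    exact h1 hp

/-- THE EXITS. -/
lemma cases {T : ℕ} (hT : 1 ≤ T) {z : ℤ} {L : ℕ} (hL : 1 ≤ L) {t : List Bool}
    (ht : t ∈ exits (dn T z L) (tq T z) (-up)) :
    (dx (-up) t t.length = -up ∧ wind t = 0) ∨
    (dx (-up) t t.length = (1, -1) ∧ tip (tq T z) (-up) t = ue 0 ∧ wind t = 1) ∨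
    (dx (-up) t t.length = up ∧ (∃ b, z < b ∧ tip (tq T z) (-up) t = tq T b) ∧ wind t = 3) ∨
    (dx (-up) t t.length = up ∧ (∃ b, b < z ∧ tip (tq T z) (-up) t = tq T b) ∧ wind t = -3) ∨
    ∃ b, dx (-up) t t.length = turn b (-up) ∧ tip (tq T z) (-up) t ∉ trap (tq T z) (-up) (T + 1) L ∧
      wind t = sgn b := by
  obtain ⟨harr, hout⟩ := mem_exits.1 ht
  have hG := good T z hL
  have harr' := isArr_tr harr
  by_cases htr : tip (tq T z) (-up) t ∈ trap (tq T z) (-up) (T + 1) L
  · -- the walk enters the missing part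
    have hO : tip (tq T z) (-up) t ∈ OO := by
      by_contra hcon
      exact hout (mem_dn.2 ⟨htr, hcon⟩)
    have hlen : 1 ≤ t.length := by
      by_contra hcon
      have hz : t = [] := List.length_eq_zero_iff.1 (by omega)
      rw [hz] at hO
      have h1 : lv (tq T z + -up) ≤ 3 := hO.1
      have h2 := lv_tq T z
      unfold lv at h1 h2
      simp only [up, Prod.fst_add, Prod.snd_add, Prod.fst_neg, Prod.snd_neg] at h1 h2
      omega
    have hl := mem_dn.1 (harr.mem _ hlen le_rfl)
    have hlv := trap_lv hl.1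
    have htv := trap_lv htr
    have hd := dx_mem dtop t t.length
    have htip := tip_eq (v0 := tq T z) (d0 := -up) t
    rw [htip] at htv hO
    rcases step_OO hd hlv.1 hlv.2.1 hl.2 htv.1 htv.2.1 hO with ⟨h1, h2⟩ | ⟨h1, h2⟩
    · right
      left
      rw [← htip] at h1
      refine ⟨h2, h1, ?_⟩
      have hO' : tip (tq T z) (-up) t ∈ OO := by
        rw [htip]
        exact hO
      have hex : t ++ [false] ∈ exits (trapF (v0 := tq T z) dtop (T + 1) L) (tq T z) (-up) := by
        rw [mem_exits, isArr_append_one]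
        refine ⟨⟨harr', mem_tr.2 htr, not_vis hT harr hO'⟩, ?_⟩
        rw [mem_tr, tip_append_one, h1, h2]
        intro h3
        have h4 := (trap_lv h3).2.1
        revert h4
        decide
      have hdl : dx (-up) (t ++ [false]) (t ++ [false]).length = -up := by
        rw [dx_append_one, h2]
        decide
      have hw := hG.wind hex
      rw [hdl] at hw
      have hw0 : wind (t ++ [false]) = 0 := by
        rcases hw with h | h | h | h | h | h
        · exact h.2
        · exact absurd h.1 (by decide)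
        · exact absurd h.1 (by decide)
        · exact absurd h.1 (by decide)
        · exact absurd h.1 (by decide)
        · exact absurd h.1 (by decide)
      rw [wind_append] at hw0
      have : wind [false] = -1 := by decide
      omega
    · left
      refine ⟨h1, ?_⟩
      rw [← htip] at h2
      have hO' : tip (tq T z) (-up) t ∈ OO := by
        rw [htip]
        exact hO
      have e1 : turn true (dx (-up) t t.length) = (1, -1) := by
        rw [h1]
        decide
      have hA1 : IsArr (trapF (v0 := tq T z) dtop (T + 1) L) (tq T z) (-up) (t ++ [true]) := by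
        rw [isArr_append_one]
        exact ⟨harr', mem_tr.2 htr, not_vis hT harr hO'⟩
      have etip : tip (tq T z) (-up) (t ++ [true]) = tip (tq T z) (-up) t + (1, -1) := by
        rw [tip_append_one, e1]
      have edx : dx (-up) (t ++ [true]) (t ++ [true]).length = (1, -1) := by
        rw [dx_append_one, e1]
      by_cases hin : tip (tq T z) (-up) (t ++ [true]) ∈ trap (tq T z) (-up) (T + 1) L
      · have hex : t ++ [true] ++ [false] ∈ exits (trapF (v0 := tq T z) dtop (T + 1) L) (tq T z) (-up) := by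
          rw [mem_exits, isArr_append_one]
          refine ⟨⟨hA1, mem_tr.2 hin, ?_⟩, ?_⟩
          · have hO2 : tip (tq T z) (-up) (t ++ [true]) ∈ OO := by
              rw [etip]
              obtain ⟨o1, o2⟩ := hO'
              refine ⟨?_, ?_⟩
              · unfold lv at h2 ⊢
                simp only [Prod.fst_add, Prod.snd_add]
                omega
              · unfold nn at o2 ⊢
                simp only [Prod.fst_add, Prod.snd_add]
                omega
            intro i hi
            have hl2 : (t ++ [true]).length = t.length + 1 := by simp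
            rw [hl2] at hi
            rcases Nat.lt_or_ge t.length i with h5 | h5
            · have h6 : i = t.length + 1 := by omega
              rw [h6, vx_append le_rfl, etip]
              intro h7
              have h8 : tip (tq T z) (-up) t = tip (tq T z) (-up) t + (1, -1) := h7
              have h9 := congrArg Prod.fst h8
              simp only [Prod.fst_add] at h9
              omega
            · rw [vx_append (by omega)]
              exact not_vis hT harr hO2 i h5
          · rw [mem_tr, tip_append_one, edx, etip]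
            intro h3
            have h4 := (trap_lv h3).2.1
            have e2 : turn false ((1, -1) : Pt) = (0, -1) := by decide
            rw [e2] at h4
            unfold lv at h4 h2
            simp only [Prod.fst_add, Prod.snd_add] at h4 h2
            omega
        have hdl : dx (-up) (t ++ [true] ++ [false]) (t ++ [true] ++ [false]).length = -up := by
          rw [dx_append_one, edx]
          decide
        have hw := hG.wind hex
        rw [hdl] at hw
        have hw0 : wind (t ++ [true] ++ [false]) = 0 := by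
          rcases hw with h | h | h | h | h | h
          · exact h.2
          · exact absurd h.1 (by decide)
          · exact absurd h.1 (by decide)
          · exact absurd h.1 (by decide)
          · exact absurd h.1 (by decide)
          · exact absurd h.1 (by decide)
        rw [wind_append, wind_append] at hw0
        have w1 : wind [false] = -1 := by decide
        have w2 : wind [true] = 1 := by decide
        omega
      · have hex : t ++ [true] ∈ exits (trapF (v0 := tq T z) dtop (T + 1) L) (tq T z) (-up) := by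
          rw [mem_exits]
          exact ⟨hA1, fun h => hin (mem_tr.1 h)⟩
        have hw := hG.wind hex
        rw [edx] at hw
        have hw0 : wind (t ++ [true]) = 1 := by
          rcases hw with h | h | h | h | h | h
          · exact absurd h.1 (by decide)
          · exact h.2
          · exact absurd h.1 (by decide)
          · exact absurd h.1 (by decide)
          · exact absurd h.1 (by decide)
          · exact absurd h.1 (by decide)
        rw [wind_append] at hw0
        have w2 : wind [true] = 1 := by decide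
        omega
  · -- the walk leaves the trapezoid
    have hex : t ∈ exits (trapF (v0 := tq T z) dtop (T + 1) L) (tq T z) (-up) := by
      rw [mem_exits]
      exact ⟨harr', fun h => htr (mem_tr.1 h)⟩
    have hs : Saw (trap (tq T z) (-up) (T + 1) L) (tq T z) (-up) t := by
      rw [← trapF_coe (v0 := tq T z) dtop]
      exact saw_coe.2 harr'
    rcases trap_exit dtop (by omega) hL hs htr with ⟨h1, h2⟩ | ⟨h1, h2⟩ | ⟨b, h1, _⟩
    · have hlv : lv (tip (tq T z) (-up) t) = 3 * T + 5 := by
        rw [ip_top] at h2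
        linarith
      obtain ⟨b, hb⟩ := top_eq hlv
      have hup : dx (-up) t t.length = up := by
        rw [h1, neg_neg]
      rcases hG.bottom hex h1 with ⟨h3, h4⟩ | ⟨h3, h4⟩
      · rw [hb, cross_top] at h3
        exact Or.inr (Or.inr (Or.inl ⟨hup, ⟨b, by linarith, hb⟩, h4⟩))
      · rw [hb, cross_top] at h3
        exact Or.inr (Or.inr (Or.inr (Or.inl ⟨hup, ⟨b, by linarith, hb⟩, h4⟩)))
    · left
      refine ⟨h1, ?_⟩
      have hw := hG.wind hex
      rw [h1] at hw
      rcases hw with h | h | h | h | h | h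
      · exact h.2
      · exact absurd h.1 (by decide)
      · exact absurd h.1 (by decide)
      · exact absurd h.1 (by decide)
      · exact absurd h.1 (by decide)
      · exact absurd h.1 (by decide)
    · right
      right
      right
      right
      refine ⟨b, h1, htr, ?_⟩
      have hw := hG.wind hex
      rw [h1] at hw
      cases b
      · rcases hw with h | h | h | h | h | h
        · exact absurd h.1 (by decide)
        · exact absurd h.1 (by decide)
        · exact h.2
        · exact absurd h.1 (by decide)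
        · exact absurd h.1 (by decide)
        · exact absurd h.1 (by decide)
      · rcases hw with h | h | h | h | h | h
        · exact absurd h.1 (by decide)
        · exact h.2
        · exact absurd h.1 (by decide)
        · exact absurd h.1 (by decide)
        · exact absurd h.1 (by decide)
        · exact absurd h.1 (by decide)

/-! the families -/

/-- words of the domain Ω with the property R. -/
def Fm (Ω : Set Pt) (T : ℕ) (z : ℤ) (R : List Bool → Prop) : Set (List Bool) :=
  {t | Saw Ω (tq T z) (-up) t ∧ R t}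

/-- to the slanted edge. -/
def RX (T : ℕ) (z : ℤ) (t : List Bool) : Prop := tip (tq T z) (-up) t = ue 0 ∧ dx (-up) t t.length = (1, -1)

/-- to the tops on the right. -/
def RR (T : ℕ) (z : ℤ) (t : List Bool) : Prop :=
  (∃ b, z < b ∧ tip (tq T z) (-up) t = tq T b) ∧ dx (-up) t t.length = up

/-- to the tops on the left. -/
def RL (T : ℕ) (z : ℤ) (t : List Bool) : Prop :=
  (∃ b, b < z ∧ tip (tq T z) (-up) t = tq T b) ∧ dx (-up) t t.length = up

/-- lateral. -/
def RS (T : ℕ) (z : ℤ) (L : ℕ) (b : Bool) (t : List Bool) : Prop :=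
  tip (tq T z) (-up) t ∉ trap (tq T z) (-up) (T + 1) L ∧ dx (-up) t t.length = turn b (-up)

lemma fm_arr (T : ℕ) (z : ℤ) (L : ℕ) (R : List Bool → Prop) :
    InArr (dn T z L) (tq T z) (-up) (Fm (dn T z L : Set Pt) T z R) := fun _ h => saw_coe.1 h.1

open Classical in
lemma gr_exits (T : ℕ) (z : ℤ) (L : ℕ) (R : List Bool → Prop) (hR : ∀ t, R t → tip (tq T z) (-up) t ∉ dn T z L) :
    gr (dn T z L) (tq T z) (-up) (Fm (dn T z L : Set Pt) T z R) =
      ∑ t ∈ exits (dn T z L) (tq T z) (-up), (if R t then xc ^ t.length else 0) := by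
  unfold gr
  rw [← Finset.sum_filter]
  apply Finset.sum_congr _ (fun _ _ => rfl)
  ext t
  rw [mem_fam, Finset.mem_filter, mem_exits]
  constructor
  · rintro ⟨h1, h2, h3⟩
    exact ⟨⟨h1, hR t h3⟩, h3⟩
  · rintro ⟨⟨h1, h2⟩, h3⟩
    exact ⟨h1, saw_coe.2 h1, h3⟩

lemma tq_out (T : ℕ) (z : ℤ) (L : ℕ) (b : ℤ) : tq T b ∉ dn T z L := by
  intro h
  have h1 := (trap_lv (mem_dn.1 h).1).2.2
  rw [lv_tq] at h1
  exact lt_irrefl _ h1

lemma ue_out (T : ℕ) (z : ℤ) (L : ℕ) : ue 0 ∉ dn T z L := by
  intro h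
  apply (mem_dn.1 h).2
  show lv (ue 0) ≤ 3 ∧ -1 ≤ nn (ue 0)
  decide

lemma up_ne : (up : Pt) ≠ -up ∧ (up : Pt) ≠ (1, -1) ∧ (∀ b, turn b (-up : Pt) ≠ up) ∧ ((1, -1) : Pt) ≠ -up ∧
    turn false (-up : Pt) ≠ (1, -1) := by decide

open Classical in
/-- the pointwise estimate. -/
lemma point {T : ℕ} (hT : 1 ≤ T) {z : ℤ} {L : ℕ} (hL : 1 ≤ L) {t : List Bool}
    (ht : t ∈ exits (dn T z L) (tq T z) (-up)) :
    Real.sin (Real.pi / 8) * (if RX T z t then xc ^ t.length else 0) +
      Real.sin (3 * (Real.pi / 8)) * (if RR T z t then xc ^ t.length else 0) -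
      Real.sin (3 * (Real.pi / 8)) * (if RL T z t then xc ^ t.length else 0) -
      (if RS T z L true t then xc ^ t.length else 0) - (if RS T z L false t then xc ^ t.length else 0) ≤
      Real.sin (wind t * (Real.pi / 8)) * xc ^ t.length := by
  have hx : 0 ≤ xc ^ t.length := pow_nonneg xc_pos.le _
  have s1 : 0 ≤ Real.sin (Real.pi / 8) := Real.sin_nonneg_of_nonneg_of_le_pi (by positivity) (by linarith [Real.pi_pos])
  have s1' : Real.sin (Real.pi / 8) ≤ 1 := Real.sin_le_one _
  have s3 : 0 ≤ Real.sin (3 * (Real.pi / 8)) :=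
    Real.sin_nonneg_of_nonneg_of_le_pi (by positivity) (by linarith [Real.pi_pos])
  have i1 : ∀ (R : List Bool → Prop), 0 ≤ (if R t then xc ^ t.length else 0) := by
    intro R
    split_ifs
    · exact hx
    · exact le_rfl
  have a1 := i1 (RL T z)
  have a2 := i1 (RS T z L true)
  have a3 := i1 (RS T z L false)
  have m1 := mul_nonneg s3 a1
  obtain ⟨n1, n2, n3, n4, n5⟩ := up_ne
  rcases cases hT hL ht with ⟨h1, h2⟩ | ⟨h1, h2, h3⟩ | ⟨h1, h2, h3⟩ | ⟨h1, h2, h3⟩ | ⟨b, h1, h2, h3⟩
  · have e1 : ¬ RX T z t := fun h => n4 (h.2.symm.trans h1)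
    have e2 : ¬ RR T z t := fun h => n1 (h.2.symm.trans h1)
    rw [if_neg e1, if_neg e2, h2]
    push_cast
    rw [zero_mul, Real.sin_zero, zero_mul, mul_zero, mul_zero]
    linarith
  · have e2 : ¬ RR T z t := fun h => n2 (h.2.symm.trans h1)
    rw [if_neg e2, h3, if_pos (show RX T z t from ⟨h2, h1⟩)]
    push_cast
    rw [one_mul, mul_zero]
    linarith
  · have e1 : ¬ RX T z t := fun h => n2 (h1.symm.trans h.2)
    rw [if_neg e1, h3, if_pos (show RR T z t from ⟨h2, h1⟩)]
    push_cast
    rw [mul_zero]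
    linarith
  · have e1 : ¬ RX T z t := fun h => n2 (h1.symm.trans h.2)
    have e2 : ¬ RR T z t := by
      rintro ⟨⟨b, hb, hb'⟩, _⟩
      obtain ⟨c, hc, hc'⟩ := h2
      have := tq_inj (hb'.symm.trans hc')
      omega
    rw [if_neg e1, if_neg e2, h3, if_pos (show RL T z t from ⟨h2, h1⟩)]
    push_cast
    have e3 : Real.sin (-3 * (Real.pi / 8)) = -Real.sin (3 * (Real.pi / 8)) := by
      rw [neg_mul, Real.sin_neg]
    rw [e3, mul_zero, mul_zero]
    linarith
  · have e2 : ¬ RR T z t := fun h => n3 b (h1.symm.trans h.2)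
    rw [if_neg e2, h3, mul_zero]
    cases b
    · have e1 : ¬ RX T z t := fun h => n5 (h1.symm.trans h.2)
      rw [if_neg e1, if_pos (show RS T z L false t from ⟨h2, h1⟩), mul_zero]
      have e3 : Real.sin (((sgn false : ℤ) : ℝ) * (Real.pi / 8)) = -Real.sin (Real.pi / 8) := by
        have : ((sgn false : ℤ) : ℝ) = -1 := by
          unfold sgn
          simp
        rw [this, neg_one_mul, Real.sin_neg]
      rw [e3]
      have m2 : Real.sin (Real.pi / 8) * xc ^ t.length ≤ 1 * xc ^ t.length :=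
        mul_le_mul_of_nonneg_right s1' hx
      linarith
    · rw [if_pos (show RS T z L true t from ⟨h2, h1⟩)]
      have e3 : Real.sin (((sgn true : ℤ) : ℝ) * (Real.pi / 8)) = Real.sin (Real.pi / 8) := by
        have : ((sgn true : ℤ) : ℝ) = 1 := by
          unfold sgn
          simp
        rw [this, one_mul]
      rw [e3]
      have m3 : Real.sin (Real.pi / 8) * (if RX T z t then xc ^ t.length else 0) ≤
          Real.sin (Real.pi / 8) * xc ^ t.length := by
        apply mul_le_mul_of_nonneg_left _ s1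
        split_ifs
        · exact le_rfl
        · exact hx
      linarith

/-- the inequality in the finite domain. -/
lemma fin_ineq {T : ℕ} (hT : 1 ≤ T) (z : ℤ) {L : ℕ} (hL : 1 ≤ L) :
    ENNReal.ofReal (Real.sin (Real.pi / 8)) * gf (Fm (dn T z L : Set Pt) T z (RX T z)) +
      ENNReal.ofReal (Real.sin (3 * (Real.pi / 8))) * gf (Fm (dn T z L : Set Pt) T z (RR T z)) ≤
    ENNReal.ofReal (Real.sin (3 * (Real.pi / 8))) * gf (Fm (dn T z L : Set Pt) T z (RL T z)) +
      (gf (Fm (dn T z L : Set Pt) T z (RS T z L true)) + gf (Fm (dn T z L : Set Pt) T z (RS T z L false))) := by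
  classical
  have s1 : 0 ≤ Real.sin (Real.pi / 8) := Real.sin_nonneg_of_nonneg_of_le_pi (by positivity) (by linarith [Real.pi_pos])
  have s3 : 0 ≤ Real.sin (3 * (Real.pi / 8)) :=
    Real.sin_nonneg_of_nonneg_of_le_pi (by positivity) (by linarith [Real.pi_pos])
  have g0 : ∀ R, 0 ≤ gr (dn T z L) (tq T z) (-up) (Fm (dn T z L : Set Pt) T z R) := fun R => gr_nonneg _ _ _ _
  rw [gf_fam (fm_arr T z L (RX T z)), gf_fam (fm_arr T z L (RR T z)), gf_fam (fm_arr T z L (RL T z)),
    gf_fam (fm_arr T z L (RS T z L true)), gf_fam (fm_arr T z L (RS T z L false)),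
    ← ENNReal.ofReal_mul s1, ← ENNReal.ofReal_mul s3, ← ENNReal.ofReal_mul s3,
    ← ENNReal.ofReal_add (mul_nonneg s1 (g0 _)) (mul_nonneg s3 (g0 _)), ← ENNReal.ofReal_add (g0 _) (g0 _),
    ← ENNReal.ofReal_add (mul_nonneg s3 (g0 _)) (add_nonneg (g0 _) (g0 _))]
  apply ENNReal.ofReal_le_ofReal
  have hRX : ∀ t, RX T z t → tip (tq T z) (-up) t ∉ dn T z L := by
    intro t h
    rw [h.1]
    exact ue_out T z L
  have hRR : ∀ t, RR T z t → tip (tq T z) (-up) t ∉ dn T z L := by
    rintro t ⟨⟨b, _, h⟩, _⟩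
    rw [h]
    exact tq_out T z L b
  have hRL : ∀ t, RL T z t → tip (tq T z) (-up) t ∉ dn T z L := by
    rintro t ⟨⟨b, _, h⟩, _⟩
    rw [h]
    exact tq_out T z L b
  have hRS : ∀ b t, RS T z L b t → tip (tq T z) (-up) t ∉ dn T z L := fun b t h h2 => h.1 (mem_dn.1 h2).1
  rw [gr_exits T z L _ hRX, gr_exits T z L _ hRR, gr_exits T z L _ hRL, gr_exits T z L _ (hRS true),
    gr_exits T z L _ (hRS false)]
  have hhalf : ∀ v ∈ dn T z L, 0 < ip (v - tq T z) (-up) := by
    intro v hv
    rw [ip_top]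
    have := (trap_lv (mem_dn.1 hv).1).2.2
    linarith
  have hid := identity_im (dn T z L) dtop hhalf
  have hsum := Finset.sum_le_sum (s := exits (dn T z L) (tq T z) (-up)) (fun t ht => point hT hL ht)
  rw [hid, Finset.sum_sub_distrib, Finset.sum_sub_distrib, Finset.sum_sub_distrib, Finset.sum_add_distrib,
    ← Finset.mul_sum, ← Finset.mul_sum, ← Finset.mul_sum] at hsum
  linarith

/-! the limit -/

lemma om_eq (T : ℕ) (z : ℤ) : Om T = strip (tq T z) (-up) (T + 1) \ OO := by
  rw [strip_top]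
  rfl

lemma inc_fm (T : ℕ) (z : ℤ) (R : List Bool → Prop) :
    HexW.Inc (fun n : ℕ => Fm (dn T z (n + 1) : Set Pt) T z R) (Fm (Om T) T z R) := by
  constructor
  · rintro n m hnm t ⟨h1, h2⟩
    refine ⟨?_, h2⟩
    rw [dn_coe] at h1 ⊢
    exact h1.mono (Set.sdiff_subset_sdiff_left (trap_mono _ _ _ (by omega)))
  · intro t
    constructor
    · rintro ⟨h1, h2⟩
      rw [om_eq T z] at h1
      obtain ⟨L, hL⟩ := HexW.saw_trap' h1
      refine ⟨L, ?_, h2⟩
      rw [dn_coe]
      exact hL.mono (Set.sdiff_subset_sdiff_left (trap_mono _ _ _ (by omega)))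
    · rintro ⟨n, h1, h2⟩
      refine ⟨?_, h2⟩
      rw [dn_coe] at h1
      rw [om_eq T z]
      exact h1.mono (Set.sdiff_subset_sdiff_left (trap_sub _ _ _ _))

lemma tend_fm (T : ℕ) (z : ℤ) (R : List Bool → Prop) :
    Tendsto (fun n : ℕ => gf (Fm (dn T z (n + 1) : Set Pt) T z R)) atTop (𝓝 (gf (Fm (Om T) T z R))) := by
  have h := inc_fm T z R
  rw [h.gf_eq]
  exact tendsto_atTop_iSup h.gf_mono

lemma foot0 (v d : Pt) : foot v d 0 = v := by
  unfold foot
  rw [zero_smul, add_zero]

lemma tend_lat (T : ℕ) (z : ℤ) (b : Bool) :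
    Tendsto (fun n : ℕ => gf (Fm (dn T z (n + 1) : Set Pt) T z (RS T z (n + 1) b))) atTop (𝓝 0) := by
  have h := HexW.lat_tendsto (v0 := tq T z) dtop (T := T + 1) (N := 1) (by omega) (k := 0) (by norm_num) b ∅
  refine tendsto_of_tendsto_of_tendsto_of_le_of_le tendsto_const_nhds h (fun _ => zero_le) ?_
  intro n
  apply gf_mono
  rintro t ⟨h1, h2, h3⟩
  rw [foot0]
  refine ⟨?_, h2, h3⟩
  rw [dn_coe] at h1
  rw [Set.sdiff_empty]
  exact h1.mono Set.sdiff_subset

lemma lim_ineq {T : ℕ} (hT : 1 ≤ T) (z : ℤ) :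
    ENNReal.ofReal (Real.sin (Real.pi / 8)) * gf (Fm (Om T) T z (RX T z)) +
      ENNReal.ofReal (Real.sin (3 * (Real.pi / 8))) * gf (Fm (Om T) T z (RR T z)) ≤
    ENNReal.ofReal (Real.sin (3 * (Real.pi / 8))) * gf (Fm (Om T) T z (RL T z)) := by
  have c1 := (ENNReal.Tendsto.const_mul (tend_fm T z (RX T z))
    (Or.inr (ENNReal.ofReal_ne_top (r := Real.sin (Real.pi / 8))))).add
    (ENNReal.Tendsto.const_mul (tend_fm T z (RR T z))
      (Or.inr (ENNReal.ofReal_ne_top (r := Real.sin (3 * (Real.pi / 8))))))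
  have c2 := (ENNReal.Tendsto.const_mul (tend_fm T z (RL T z))
    (Or.inr (ENNReal.ofReal_ne_top (r := Real.sin (3 * (Real.pi / 8)))))).add
    ((tend_lat T z true).add (tend_lat T z false))
  rw [add_zero, add_zero] at c2
  exact le_of_tendsto_of_tendsto' c1 c2 (fun n => fin_ineq hT z (by omega))

/-- the tangent. -/
lemma tan_eq : Real.sin (3 * (Real.pi / 8)) * (Real.sqrt 2 - 1) = Real.sin (Real.pi / 8) := by
  have e1 : Real.sin (3 * (Real.pi / 8)) = Real.cos (Real.pi / 8) := by
    rw [← Real.sin_pi_div_two_sub]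
    congr 1
    ring
  rw [e1]
  have h1 := Real.sin_sq_add_cos_sq (Real.pi / 8)
  have h2 : 2 * Real.sin (Real.pi / 8) * Real.cos (Real.pi / 8) = Real.sqrt 2 / 2 := by
    rw [← Real.sin_two_mul, ← Real.sin_pi_div_four]
    congr 1
    ring
  have h3 : 2 * Real.cos (Real.pi / 8) ^ 2 - 1 = Real.sqrt 2 / 2 := by
    rw [← Real.cos_two_mul, ← Real.cos_pi_div_four]
    congr 1
    ring
  have hs : 0 < Real.sin (Real.pi / 8) := Real.sin_pos_of_pos_of_lt_pi (by positivity) (by linarith [Real.pi_pos])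
  have hc : 0 < Real.cos (Real.pi / 8) := Real.cos_pos_of_mem_Ioo ⟨by linarith [Real.pi_pos], by linarith [Real.pi_pos]⟩
  have hq : Real.sqrt 2 ^ 2 = 2 := Real.sq_sqrt (by norm_num)
  have hq0 : 0 < Real.sqrt 2 := by positivity
  have hpos : 0 < Real.cos (Real.pi / 8) * (Real.sqrt 2 + 1) + Real.sin (Real.pi / 8) := by positivity
  have hz : (Real.cos (Real.pi / 8) * (Real.sqrt 2 - 1) - Real.sin (Real.pi / 8)) *
      (Real.cos (Real.pi / 8) * (Real.sqrt 2 + 1) + Real.sin (Real.pi / 8)) = 0 := by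
    have e2 : (Real.cos (Real.pi / 8) * (Real.sqrt 2 - 1) - Real.sin (Real.pi / 8)) *
      (Real.cos (Real.pi / 8) * (Real.sqrt 2 + 1) + Real.sin (Real.pi / 8)) =
      Real.cos (Real.pi / 8) ^ 2 * (Real.sqrt 2 ^ 2 - 1) - 2 * Real.sin (Real.pi / 8) * Real.cos (Real.pi / 8) -
        Real.sin (Real.pi / 8) ^ 2 := by ring
    rw [e2, hq, h2]
    linarith
  rcases mul_eq_zero.1 hz with h | h
  · linarith
  · exact absurd h hpos.ne'

/-- the sums over the tops. -/
lemma sum_top (T : ℕ) (z : ℤ) (Q : ℤ → Prop) [DecidablePred Q] :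
    (∑' b : ℤ, if Q b then aT' T z b else 0) =
      gf (Fm (Om T) T z (fun t => (∃ b, Q b ∧ tip (tq T z) (-up) t = tq T b) ∧ dx (-up) t t.length = up)) := by
  have e : Fm (Om T) T z (fun t => (∃ b, Q b ∧ tip (tq T z) (-up) t = tq T b) ∧ dx (-up) t t.length = up) =
      ⋃ b : ℤ, {t | Q b ∧ Saw (Om T) (tq T z) (-up) t ∧ tip (tq T z) (-up) t = tq T b ∧
        dx (-up) t t.length = up} := by
    ext t
    rw [Set.mem_iUnion]
    constructor
    · rintro ⟨h1, ⟨b, h2, h3⟩, h4⟩
      exact ⟨b, h2, h1, h3, h4⟩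
    · rintro ⟨b, h2, h1, h3, h4⟩
      exact ⟨h1, ⟨b, h2, h3⟩, h4⟩
  rw [e, K1.gf_iUnion]
  · apply tsum_congr
    intro b
    split_ifs with h
    · unfold aT'
      congr 1
      ext t
      exact ⟨fun h1 => ⟨h, h1⟩, fun h1 => h1.2⟩
    · symm
      have : {t | Q b ∧ Saw (Om T) (tq T z) (-up) t ∧ tip (tq T z) (-up) t = tq T b ∧
        dx (-up) t t.length = up} = (∅ : Set (List Bool)) := by
        ext t
        constructor
        · intro h1
          exact absurd h1.1 h
        · intro h1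
          exact absurd h1 (Set.notMem_empty t)
      rw [this]
      unfold gf
      exact tsum_empty
  · rintro i j t ⟨_, _, h1, _⟩ ⟨_, _, h2, _⟩
    exact tq_inj (h1.symm.trans h2)

end ImTop

open ImTop in
theorem im_top {T : ℕ} (hT : 1 ≤ T) (z : ℤ) :
    ENNReal.ofReal (Real.sqrt 2 - 1) * xT T z + (∑' b : ℤ, if z < b then aT' T z b else 0) ≤
      ∑' b : ℤ, if b < z then aT' T z b else 0 := by
  have h := lim_ineq hT z
  have s3 : 0 < Real.sin (3 * (Real.pi / 8)) :=
    Real.sin_pos_of_pos_of_lt_pi (by positivity) (by linarith [Real.pi_pos])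
  have e0 : xT T z = gf (Fm (Om T) T z (RX T z)) := rfl
  rw [sum_top T z (fun b => z < b), sum_top T z (fun b => b < z), e0]
  have e1 : ENNReal.ofReal (Real.sin (Real.pi / 8)) =
      ENNReal.ofReal (Real.sin (3 * (Real.pi / 8))) * ENNReal.ofReal (Real.sqrt 2 - 1) := by
    rw [← ENNReal.ofReal_mul s3.le, ImTop.tan_eq]
  rw [e1, mul_assoc, ← mul_add] at h
  have h0 : ENNReal.ofReal (Real.sin (3 * (Real.pi / 8))) ≠ 0 := by
    rw [Ne, ENNReal.ofReal_eq_zero, not_le]
    exact s3
  exact (ENNReal.mul_le_mul_iff_right h0 ENNReal.ofReal_ne_top).1 h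

end SP

end HexObs
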