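import Pool.Agent.HexStep.Tops

/-!
STEP, C4: summation of the imaginary parts over the tops.
-/

set_option autoImplicit false

namespace HexObs

namespace SP

open Complex Finset ENNReal

private lemma ks_diag (g : ℕ → ℝ≥0∞) : ∑' i : ℕ, ∑' j : ℕ, g (i + j) = ∑' n : ℕ, ((n : ℝ≥0∞) + 1) * g n := by
  have h0 : ∑' i : ℕ, ∑' j : ℕ, g (i + j) = ∑' x : ℕ × ℕ, g (x.1 + x.2) :=
    (ENNReal.tsum_prod (f := fun i j => g (i + j))).symm
  rw [h0, ← Equiv.tsum_eq (Finset.HasAntidiagonal.sigmaAntidiagonalEquivProd (A := ℕ)) (fun x : ℕ × ℕ => g (x.1 + x.2)),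
    ENNReal.tsum_sigma']
  apply tsum_congr
  intro n
  rw [tsum_fintype]
  have h1 : ∀ x : (Finset.HasAntidiagonal.antidiagonal n : Finset (ℕ × ℕ)),
      g ((Finset.HasAntidiagonal.sigmaAntidiagonalEquivProd (A := ℕ) ⟨n, x⟩).1 + (Finset.HasAntidiagonal.sigmaAntidiagonalEquivProd (A := ℕ) ⟨n, x⟩).2) = g n := by
    rintro ⟨x, hx⟩
    rw [Finset.HasAntidiagonal.mem_antidiagonal] at hx
    show g (x.1 + x.2) = g n
    rw [hx]
  rw [Finset.sum_congr rfl (fun x _ => h1 x), Finset.sum_const, Finset.card_univ, Fintype.card_coe,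
    Finset.Nat.card_antidiagonal, nsmul_eq_mul]
  push_cast
  rfl

private lemma ks_le {I : Finset ℤ} {m : ℤ} (hI : ∀ z ∈ I, m < z) (g : ℕ → ℝ≥0∞) :
    ∑ z ∈ I, (∑' b : ℤ, if b ≤ m then g (z - b).natAbs else 0) ≤ ∑' n : ℕ, ((n : ℝ≥0∞) + 1) * g (n + 1) := by
  rw [← ks_diag (fun n => g (n + 1))]
  have h1 : ∀ z ∈ I, (∑' b : ℤ, if b ≤ m then g (z - b).natAbs else 0) =
      ∑' j : ℕ, g ((z - m - 1).toNat + j + 1) := by
    intro z hz
    have hzm := hI z hz
    have hinj : Function.Injective (fun j : ℕ => m - (j : ℤ)) := by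
      intro a b h
      simp only at h
      omega
    rw [← hinj.tsum_eq]
    · apply tsum_congr
      intro j
      rw [if_pos (by omega)]
      congr 1
      omega
    · intro b hb
      rw [Function.mem_support] at hb
      have hbm : b ≤ m := by
        by_contra h
        exact hb (if_neg h)
      exact ⟨(m - b).toNat, by simp only; omega⟩
  rw [Finset.sum_congr rfl h1]
  have h2 : Set.InjOn (fun z : ℤ => (z - m - 1).toNat) (I : Set ℤ) := by
    intro a ha b hb h
    have ha' := hI a ha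
    have hb' := hI b hb
    simp only at h
    omega
  rw [← Finset.sum_image (f := fun i : ℕ => ∑' j : ℕ, g (i + j + 1)) (g := fun z : ℤ => (z - m - 1).toNat) h2]
  exact ENNReal.sum_le_tsum _

private lemma ks_ge {I : Finset ℤ} {m : ℤ} {N : ℕ} (hI : ∀ z : ℤ, m - N < z → z ≤ m → z ∈ I)
    (hI2 : ∀ z ∈ I, z ≤ m) (g : ℕ → ℝ≥0∞) :
    ∑ n ∈ Finset.range N, ((n : ℝ≥0∞) + 1) * g (n + 1) ≤
      ∑ z ∈ I, (∑' b : ℤ, if m < b then g (z - b).natAbs else 0) := by
  have h1 : ∀ z ∈ I, ∑' j : ℕ, g ((m - z).toNat + j + 1) = (∑' b : ℤ, if m < b then g (z - b).natAbs else 0) := by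
    intro z hz
    have hzm := hI2 z hz
    have hinj : Function.Injective (fun j : ℕ => m + 1 + (j : ℤ)) := by
      intro a b h
      simp only at h
      omega
    rw [← hinj.tsum_eq (f := fun b : ℤ => if m < b then g (z - b).natAbs else 0)]
    · apply tsum_congr
      intro j
      rw [if_pos (by omega)]
      congr 1
      omega
    · intro b hb
      rw [Function.mem_support] at hb
      have hbm : m < b := by
        by_contra h
        exact hb (if_neg h)
      exact ⟨(b - m - 1).toNat, by simp only; omega⟩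
  rw [← Finset.sum_congr rfl h1]
  have h2 : Set.InjOn (fun z : ℤ => (m - z).toNat) (I : Set ℤ) := by
    intro a ha b hb h
    have ha' := hI2 a ha
    have hb' := hI2 b hb
    simp only at h
    omega
  rw [← Finset.sum_image (f := fun i : ℕ => ∑' j : ℕ, g (i + j + 1)) (g := fun z : ℤ => (m - z).toNat) h2]
  have h3 : Finset.range N ⊆ I.image (fun z : ℤ => (m - z).toNat) := by
    intro i hi
    rw [Finset.mem_range] at hi
    rw [Finset.mem_image]
    exact ⟨m - i, hI _ (by omega) (by omega), by omega⟩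
  refine le_trans ?_ (Finset.sum_le_sum_of_subset h3)
  set g' : ℕ → ℝ≥0∞ := fun n => if n < N then g (n + 1) else 0 with hg'
  have h4 : ∑ n ∈ Finset.range N, ((n : ℝ≥0∞) + 1) * g (n + 1) = ∑' n : ℕ, ((n : ℝ≥0∞) + 1) * g' n := by
    rw [tsum_eq_sum (s := Finset.range N)]
    · apply Finset.sum_congr rfl
      intro n hn
      rw [hg']
      simp only
      rw [if_pos (Finset.mem_range.1 hn)]
    · intro n hn
      rw [hg']
      simp only
      rw [if_neg (fun h => hn (Finset.mem_range.2 h)), mul_zero]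
  rw [h4, ← ks_diag, tsum_eq_sum (s := Finset.range N)]
  · apply Finset.sum_le_sum
    intro i _
    apply ENNReal.tsum_le_tsum
    intro j
    rw [hg']
    simp only
    split_ifs
    · exact le_rfl
    · exact zero_le
  · intro i hi
    rw [Finset.mem_range, not_lt] at hi
    rw [ENNReal.tsum_eq_zero]
    intro j
    rw [hg']
    simp only
    rw [if_neg (by omega)]

private lemma ks_top {T : ℕ} {z b : ℤ} (h : z ≠ b) : aT' T z b ≠ ∞ := by
  have h1 : (z - b).natAbs = (z - b).natAbs - 1 + 1 := by omega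
  have h2 : GG (T + 1) (z - b).natAbs ≤ ∑' k : ℕ, GG (T + 1) (k + 1) := by
    rw [h1]
    exact ENNReal.le_tsum (f := fun k : ℕ => GG (T + 1) (k + 1)) _
  have h3 : ∑' k : ℕ, GG (T + 1) (k + 1) ≤ AT (T + 1) := by
    rw [arcs_total (by omega), two_mul]
    exact le_self_add
  exact ne_top_of_le_ne_top (AT_ne_top (by omega)) ((aT'_le T z b).trans (h2.trans h3))

private lemma ks_fin {T : ℕ} (him : ∀ z : ℤ, ENNReal.ofReal (Real.sqrt 2 - 1) * xT T z +
      (∑' b : ℤ, if z < b then aT' T z b else 0) ≤ ∑' b : ℤ, if b < z then aT' T z b else 0)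
    {m1 m2 : ℤ} (I : Finset ℤ) (hI : I = Finset.Ioc m1 m2) :
    ENNReal.ofReal (Real.sqrt 2 - 1) * (∑ z ∈ I, xT T z) +
      ∑ z ∈ I, (∑' b : ℤ, if m2 < b then aT' T z b else 0) ≤
      ∑ z ∈ I, (∑' b : ℤ, if b ≤ m1 then aT' T z b else 0) := by
  have hmem : ∀ z, z ∈ I ↔ m1 < z ∧ z ≤ m2 := by
    intro z
    rw [hI, Finset.mem_Ioc]
  set P : ℝ≥0∞ := ∑ z ∈ I, ∑ b ∈ I, (if z < b then aT' T z b else 0) with hP
  have hPQ : ∑ z ∈ I, ∑ b ∈ I, (if b < z then aT' T z b else 0) = P := by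
    rw [hP, Finset.sum_comm]
    apply Finset.sum_congr rfl
    intro z _
    apply Finset.sum_congr rfl
    intro b _
    rw [aT'_symm]
  have hPtop : P ≠ ∞ := by
    rw [hP]
    apply ENNReal.sum_ne_top.2
    intro z _
    apply ENNReal.sum_ne_top.2
    intro b _
    split_ifs with h
    · exact ks_top (by omega)
    · exact ENNReal.zero_ne_top
  have h1 : ∀ z ∈ I, (∑' b : ℤ, if z < b then aT' T z b else 0) =
      ∑ b ∈ I, (if z < b then aT' T z b else 0) + ∑' b : ℤ, (if m2 < b then aT' T z b else 0) := by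
    intro z hz
    rw [hmem] at hz
    have e1 : ∑ b ∈ I, (if z < b then aT' T z b else 0) = ∑' b : ℤ, (if z < b ∧ b ≤ m2 then aT' T z b else 0) := by
      rw [tsum_eq_sum (s := I)]
      · apply Finset.sum_congr rfl
        intro b hb
        rw [hmem] at hb
        by_cases h : z < b
        · rw [if_pos h, if_pos ⟨h, hb.2⟩]
        · rw [if_neg h, if_neg (fun h' => h h'.1)]
      · intro b hb
        rw [hmem] at hb
        apply if_neg
        rintro ⟨h, h'⟩
        exact hb ⟨by omega, h'⟩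
    rw [e1, ← ENNReal.tsum_add]
    apply tsum_congr
    intro b
    by_cases h : z < b
    · by_cases h' : b ≤ m2
      · rw [if_pos h, if_pos ⟨h, h'⟩, if_neg (by omega), add_zero]
      · rw [if_pos h, if_neg (fun h2 => h' h2.2), if_pos (by omega), zero_add]
    · rw [if_neg h, if_neg (fun h2 => h h2.1), if_neg (by omega), add_zero]
  have h2 : ∀ z ∈ I, (∑' b : ℤ, if b < z then aT' T z b else 0) =
      ∑ b ∈ I, (if b < z then aT' T z b else 0) + ∑' b : ℤ, (if b ≤ m1 then aT' T z b else 0) := by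
    intro z hz
    rw [hmem] at hz
    have e1 : ∑ b ∈ I, (if b < z then aT' T z b else 0) = ∑' b : ℤ, (if b < z ∧ m1 < b then aT' T z b else 0) := by
      rw [tsum_eq_sum (s := I)]
      · apply Finset.sum_congr rfl
        intro b hb
        rw [hmem] at hb
        by_cases h : b < z
        · rw [if_pos h, if_pos ⟨h, hb.1⟩]
        · rw [if_neg h, if_neg (fun h' => h h'.1)]
      · intro b hb
        rw [hmem] at hb
        apply if_neg
        rintro ⟨h, h'⟩
        exact hb ⟨h', by omega⟩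
    rw [e1, ← ENNReal.tsum_add]
    apply tsum_congr
    intro b
    by_cases h : b < z
    · by_cases h' : m1 < b
      · rw [if_pos h, if_pos ⟨h, h'⟩, if_neg (by omega), add_zero]
      · rw [if_pos h, if_neg (fun h2 => h' h2.2), if_pos (by omega), zero_add]
    · rw [if_neg h, if_neg (fun h2 => h h2.1), if_neg (by omega), add_zero]
  have h3 : ∑ z ∈ I, (ENNReal.ofReal (Real.sqrt 2 - 1) * xT T z + (∑' b : ℤ, if z < b then aT' T z b else 0)) ≤
      ∑ z ∈ I, (∑' b : ℤ, if b < z then aT' T z b else 0) := Finset.sum_le_sum (fun z _ => him z)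
  rw [Finset.sum_add_distrib, ← Finset.mul_sum, Finset.sum_congr rfl h1, Finset.sum_congr rfl h2,
    Finset.sum_add_distrib, Finset.sum_add_distrib, hPQ, ← hP] at h3
  have h4 : P + (ENNReal.ofReal (Real.sqrt 2 - 1) * (∑ z ∈ I, xT T z) +
      ∑ z ∈ I, (∑' b : ℤ, if m2 < b then aT' T z b else 0)) ≤
      P + ∑ z ∈ I, (∑' b : ℤ, if b ≤ m1 then aT' T z b else 0) := by
    refine le_trans (le_of_eq ?_) h3
    ring
  exact (ENNReal.add_le_add_iff_left hPtop).1 h4

/-- C4. summation over the tops (him = im_top hT). -/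
theorem K_step_of {T : ℕ} (hT : 1 ≤ T) (him : ∀ z : ℤ, ENNReal.ofReal (Real.sqrt 2 - 1) * xT T z +
      (∑' b : ℤ, if z < b then aT' T z b else 0) ≤ ∑' b : ℤ, if b < z then aT' T z b else 0) :
    ENNReal.ofReal (Real.sqrt 2 - 1) * (∑' z : ℤ, xT T z) + KT T ≤ KT (T + 1) := by
  have key : ∀ (s : Finset ℤ) (N : ℕ), ENNReal.ofReal (Real.sqrt 2 - 1) * (∑ z ∈ s, xT T z) +
      ∑ n ∈ Finset.range N, ((n : ℝ≥0∞) + 1) * GG T (n + 1) ≤ KT (T + 1) := by
    intro s N
    obtain ⟨M, hM⟩ : ∃ M : ℕ, ∀ z ∈ s, z.natAbs ≤ M := by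
      refine ⟨s.sup (fun z => z.natAbs), fun z hz => ?_⟩
      exact Finset.le_sup (f := fun z : ℤ => z.natAbs) hz
    have h1 := ks_fin him (m1 := -(M : ℤ) - N - 1) (m2 := (M : ℤ)) _ rfl
    set I : Finset ℤ := Finset.Ioc (-(M : ℤ) - N - 1) (M : ℤ) with hI
    have hmem : ∀ z, z ∈ I ↔ -(M : ℤ) - N - 1 < z ∧ z ≤ M := by
      intro z
      rw [hI, Finset.mem_Ioc]
    have h2 : s ⊆ I := by
      intro z hz
      have := hM z hz
      rw [hmem]
      omega
    have h3 : ∑ n ∈ Finset.range N, ((n : ℝ≥0∞) + 1) * GG T (n + 1) ≤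
        ∑ z ∈ I, (∑' b : ℤ, if (M : ℤ) < b then aT' T z b else 0) := by
      refine (ks_ge (I := I) (m := (M : ℤ)) (N := N) ?_ ?_ (GG T)).trans ?_
      · intro z h4 h5
        rw [hmem]
        omega
      · intro z hz
        exact ((hmem z).1 hz).2
      · apply Finset.sum_le_sum
        intro z _
        apply ENNReal.tsum_le_tsum
        intro b
        split_ifs
        · exact le_aT' hT z b
        · exact le_rfl
    have h4 : ∑ z ∈ I, (∑' b : ℤ, if b ≤ -(M : ℤ) - N - 1 then aT' T z b else 0) ≤ KT (T + 1) := by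
      refine le_trans ?_ (ks_le (I := I) (m := -(M : ℤ) - N - 1) (fun z hz => ((hmem z).1 hz).1) (GG (T + 1)))
      apply Finset.sum_le_sum
      intro z _
      apply ENNReal.tsum_le_tsum
      intro b
      split_ifs
      · exact aT'_le T z b
      · exact le_rfl
    calc _ ≤ ENNReal.ofReal (Real.sqrt 2 - 1) * (∑ z ∈ I, xT T z) +
          ∑ z ∈ I, (∑' b : ℤ, if (M : ℤ) < b then aT' T z b else 0) :=
          add_le_add (mul_le_mul_right (Finset.sum_le_sum_of_subset h2) _) h3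
      _ ≤ _ := h1
      _ ≤ _ := h4
  have e1 : ENNReal.ofReal (Real.sqrt 2 - 1) * (∑' z : ℤ, xT T z) =
      ⨆ s : Finset ℤ, ENNReal.ofReal (Real.sqrt 2 - 1) * (∑ z ∈ s, xT T z) := by
    rw [ENNReal.tsum_eq_iSup_sum, ENNReal.mul_iSup]
  have e2 : KT T = ⨆ N : ℕ, ∑ n ∈ Finset.range N, ((n : ℝ≥0∞) + 1) * GG T (n + 1) := by
    unfold KT
    exact ENNReal.tsum_eq_iSup_nat
  rw [e1, e2]
  exact ENNReal.iSup_add_iSup_le key

end SP

end HexObs
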