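import Mathlib

/-!
STEP, D1: real analysis (helper45). From the step inequality (b T - b (T + 1)) * (K T + sqrt 2 cos) <= ... and the
growth of K to the power laws b T >= c T ^ (1 - sqrt 2), K (T + 1) >= c T ^ (2 - sqrt 2).
-/

set_option autoImplicit false

namespace HexObs

namespace SP

section D1

namespace NumStep_aux

open Real

lemma q_sq : Real.sqrt 2 * Real.sqrt 2 = 2 := Real.mul_self_sqrt (by norm_num)

lemma q_lo : (1.414 : ℝ) < Real.sqrt 2 := by
  rw [Real.lt_sqrt (by norm_num)]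
  norm_num

lemma q_hi : Real.sqrt 2 < (1.415 : ℝ) := by
  rw [Real.sqrt_lt' (by norm_num)]
  norm_num

lemma one_div_q : 1 / Real.sqrt 2 = Real.sqrt 2 / 2 := by
  have h := q_sq
  have h0 : Real.sqrt 2 ≠ 0 := by have := q_lo; positivity
  rw [div_eq_div_iff h0 (by norm_num)]
  linarith

/-- the elementary inequality of one step. -/
lemma log_step {z : ℝ} (hz0 : 0 ≤ z) (hz : z ≤ 1 / 4) :
    -(3 * z ^ 2) ≤ Real.log (1 - z) + 1 / Real.sqrt 2 * Real.log (1 + Real.sqrt 2 * z) := by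
  have hq := q_sq
  have hl := q_lo
  have hh := q_hi
  have h1 : -z - 4 / 3 * z ^ 2 ≤ Real.log (1 - z) := by
    have h := Real.one_sub_inv_le_log_of_pos (show (0 : ℝ) < 1 - z by linarith)
    refine le_trans ?_ h
    have h2 : (0 : ℝ) < 1 - z := by linarith
    have h3 : (1 - z)⁻¹ ≤ 1 + z + 4 / 3 * z ^ 2 := by
      rw [inv_le_iff_one_le_mul₀ h2]
      nlinarith [mul_nonneg (mul_nonneg hz0 hz0) (show (0 : ℝ) ≤ 1 / 4 - z by linarith)]
    linarith
  have h2 : z - z ^ 2 ≤ 1 / Real.sqrt 2 * Real.log (1 + Real.sqrt 2 * z) := by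
    have hy : 0 ≤ Real.sqrt 2 * z := by positivity
    have h := Real.le_log_one_add_of_nonneg hy
    have h3 : Real.sqrt 2 * z - (Real.sqrt 2 * z) ^ 2 / 2 ≤ 2 * (Real.sqrt 2 * z) / (Real.sqrt 2 * z + 2) := by
      rw [le_div_iff₀ (by positivity)]
      nlinarith [mul_nonneg (mul_nonneg hy hy) hy]
    have h4 : Real.sqrt 2 * z - z ^ 2 ≤ Real.log (1 + Real.sqrt 2 * z) := by
      have h5 : (Real.sqrt 2 * z) ^ 2 / 2 = z ^ 2 := by
        rw [mul_pow, sq (Real.sqrt 2), hq]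
        ring
      linarith
    rw [one_div_q]
    nlinarith [sq_nonneg z]
  nlinarith [sq_nonneg z]

variable {β κ y : ℕ → ℝ} {c0 C : ℝ}

/-- the data of the recursion. -/
structure Dat (β κ y : ℕ → ℝ) (c0 C : ℝ) : Prop where
  hc0 : 0 < c0
  hC : 0 < C
  hC1 : C ≤ 1
  hb : ∀ n, 0 < β n
  hb1 : ∀ n, β n ≤ 1
  anti : ∀ n, β (n + 1) ≤ β n
  k0 : κ 0 = Real.sqrt 2 * C
  ks : ∀ n, κ (n + 1) = κ n + (Real.sqrt 2 - 1) * y n
  st : ∀ n, (β n - β (n + 1)) * κ n ≤ (1 - 1 / Real.sqrt 2) * y n * β n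
  lo : ∀ n, c0 * β n ≤ y n
  hi : ∀ n, y n ≤ C * β (n + 1)

lemma y_pos (D : Dat β κ y c0 C) (n : ℕ) : 0 < y n := lt_of_lt_of_le (mul_pos D.hc0 (D.hb n)) (D.lo n)

lemma y_le (D : Dat β κ y c0 C) (n : ℕ) : y n ≤ C :=
  (D.hi n).trans (by nlinarith [D.hb1 (n + 1), D.hC])

lemma k_mono (D : Dat β κ y c0 C) : Monotone κ := by
  apply monotone_nat_of_le_succ
  intro n
  rw [D.ks n]
  have h1 := q_lo
  have h2 := y_pos D n
  nlinarith

lemma k_ge (D : Dat β κ y c0 C) (n : ℕ) : Real.sqrt 2 * C ≤ κ n := by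
  rw [← D.k0]
  exact k_mono D (Nat.zero_le n)

lemma k_pos (D : Dat β κ y c0 C) (n : ℕ) : 0 < κ n := by
  have h := k_ge D n
  have h1 := q_lo
  have h2 := D.hC
  have h3 : 0 < Real.sqrt 2 * C := by positivity
  linarith

/-- the potential. -/
noncomputable def L (β κ : ℕ → ℝ) (n : ℕ) : ℝ := -1 / κ n + Real.log (β n) + 1 / Real.sqrt 2 * Real.log (κ n)

lemma L_succ (D : Dat β κ y c0 C) (n : ℕ) : L β κ n ≤ L β κ (n + 1) := by
  have hq := q_sq
  have hl := q_lo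
  have hh := q_hi
  have hk := k_pos D n
  have hk1 := k_pos D (n + 1)
  have hb := D.hb n
  have hb1 := D.hb (n + 1)
  have hy := y_pos D n
  have hyC := y_le D n
  have hkC := k_ge D n
  have hC := D.hC
  have hC1 := D.hC1
  obtain ⟨z, hz⟩ : ∃ z, z = (1 - 1 / Real.sqrt 2) * y n / κ n := ⟨_, rfl⟩
  have hzk : z * κ n = (1 - 1 / Real.sqrt 2) * y n := by
    rw [hz]
    field_simp
  have hcoef : (1 - 1 / Real.sqrt 2) = (2 - Real.sqrt 2) / 2 := by rw [one_div_q]; ring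
  have hz0 : 0 ≤ z := by
    rw [hz, hcoef]
    apply div_nonneg _ hk.le
    apply mul_nonneg _ hy.le
    linarith
  have hzk' : z * κ n ≤ 0.2931 := by
    rw [hzk, hcoef]
    nlinarith
  have hz4 : z ≤ 1 / 4 := by
    by_contra hcon
    push Not at hcon
    have h1 : (1 - 1 / Real.sqrt 2) * y n ≤ (1 - 1 / Real.sqrt 2) * C := by
      apply mul_le_mul_of_nonneg_left hyC
      rw [hcoef]
      linarith
    have h2 : 1 / 4 * (Real.sqrt 2 * C) < z * κ n :=
      lt_of_lt_of_le (mul_lt_mul_of_pos_right hcon (by positivity)) (mul_le_mul_of_nonneg_left hkC hz0)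
    rw [hzk] at h2
    have h3 : 1 / 4 * (Real.sqrt 2 * C) < (1 - 1 / Real.sqrt 2) * C := lt_of_lt_of_le h2 h1
    rw [hcoef] at h3
    nlinarith
  have hks : κ (n + 1) = κ n * (1 + Real.sqrt 2 * z) := by
    rw [D.ks n, mul_add, mul_one]
    congr 1
    have h5 : κ n * (Real.sqrt 2 * z) = Real.sqrt 2 * (z * κ n) := by ring
    rw [h5, hzk, hcoef]
    nlinarith
  have hbs : β n * (1 - z) ≤ β (n + 1) := by
    have h := D.st n
    have h6 : (β n - β (n + 1)) * κ n ≤ (β n * z) * κ n := by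
      calc (β n - β (n + 1)) * κ n ≤ (1 - 1 / Real.sqrt 2) * y n * β n := h
        _ = z * κ n * β n := by rw [hzk]
        _ = (β n * z) * κ n := by ring
    have h7 := le_of_mul_le_mul_right h6 hk
    linarith
  have h1z : 0 < 1 - z := by linarith
  have hpz : 0 < 1 + Real.sqrt 2 * z := by positivity
  have hlb : Real.log (β n) + Real.log (1 - z) ≤ Real.log (β (n + 1)) := by
    rw [← Real.log_mul hb.ne' h1z.ne']
    exact Real.log_le_log (by positivity) hbs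
  have hlk : Real.log (κ (n + 1)) = Real.log (κ n) + Real.log (1 + Real.sqrt 2 * z) := by
    rw [hks, Real.log_mul hk.ne' hpz.ne']
  have hls := log_step hz0 hz4
  have hinv : 3 * z ^ 2 ≤ 1 / κ n - 1 / κ (n + 1) := by
    have h8 : 1 / κ n - 1 / κ (n + 1) = Real.sqrt 2 * z / (κ n * (1 + Real.sqrt 2 * z)) := by
      rw [hks]
      field_simp
      ring
    rw [h8, le_div_iff₀ (by positivity)]
    have h9 : 3 * (z * κ n) * (1 + Real.sqrt 2 * z) ≤ Real.sqrt 2 := by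
      have h10 : Real.sqrt 2 * z ≤ 0.354 := by nlinarith
      have h11 : 3 * (z * κ n) * (1 + Real.sqrt 2 * z) ≤ 3 * 0.2931 * (1 + 0.354) := by
        apply mul_le_mul _ _ hpz.le (by norm_num)
        · linarith
        · linarith
      have : (3 * 0.2931 * (1 + 0.354) : ℝ) ≤ 1.414 := by norm_num
      linarith
    calc 3 * z ^ 2 * (κ n * (1 + Real.sqrt 2 * z)) = z * (3 * (z * κ n) * (1 + Real.sqrt 2 * z)) := by ring
      _ ≤ z * Real.sqrt 2 := mul_le_mul_of_nonneg_left h9 hz0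
      _ = Real.sqrt 2 * z := by ring
  unfold L
  rw [hlk]
  have e1 : -1 / κ n = -(1 / κ n) := by ring
  have e2 : -1 / κ (n + 1) = -(1 / κ (n + 1)) := by ring
  rw [e1, e2, mul_add]
  linarith

/-- the constant. -/
noncomputable def EE (C : ℝ) : ℝ := Real.exp (1 / (Real.sqrt 2 * C))

lemma EE_pos (C : ℝ) : 0 < EE C := Real.exp_pos _

/-- the product. -/
noncomputable def w (β κ : ℕ → ℝ) (n : ℕ) : ℝ := β n * κ n ^ (1 / Real.sqrt 2)

lemma w_pos (D : Dat β κ y c0 C) (n : ℕ) : 0 < w β κ n := mul_pos (D.hb n) (Real.rpow_pos_of_pos (k_pos D n) _)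

lemma w_le (D : Dat β κ y c0 C) {m n : ℕ} (h : m ≤ n) : w β κ m ≤ EE C * w β κ n := by
  have hL : L β κ m ≤ L β κ n := monotone_nat_of_le_succ (L_succ D) h
  have hlog : ∀ i, Real.log (w β κ i) = L β κ i + 1 / κ i := by
    intro i
    unfold w L
    rw [Real.log_mul (D.hb i).ne' (Real.rpow_pos_of_pos (k_pos D i) _).ne', Real.log_rpow (k_pos D i)]
    ring
  have h1 : Real.log (w β κ m) ≤ Real.log (EE C * w β κ n) := by
    rw [Real.log_mul (EE_pos C).ne' (w_pos D n).ne', hlog, hlog]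
    unfold EE
    rw [Real.log_exp]
    have h2 : 1 / κ m ≤ 1 / (Real.sqrt 2 * C) := by
      apply one_div_le_one_div_of_le _ (k_ge D m)
      have := D.hC
      have := q_lo
      positivity
    have h3 : 0 < 1 / κ n := one_div_pos.mpr (k_pos D n)
    linarith
  exact (Real.log_le_log_iff (w_pos D m) (mul_pos (EE_pos C) (w_pos D n))).mp h1

/-- the exponent s. -/
lemma s_inv : (1 + 1 / Real.sqrt 2)⁻¹ = 2 - Real.sqrt 2 := by
  have hq := q_sq
  have hl := q_lo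
  rw [one_div_q]
  apply inv_eq_of_mul_eq_one_right
  nlinarith

lemma pow_s (D : Dat β κ y c0 C) (n : ℕ) :
    κ n ^ (1 + 1 / Real.sqrt 2) = κ n * κ n ^ (1 / Real.sqrt 2) := by
  rw [Real.rpow_add (k_pos D n), Real.rpow_one]

lemma grow_lo (D : Dat β κ y c0 C) : ∃ c2 : ℝ, 0 < c2 ∧ ∀ n : ℕ, c2 * ((n : ℝ) + 1) ≤ κ n ^ (1 + 1 / Real.sqrt 2) := by
  have hE := EE_pos C
  have hw0 := w_pos D 0
  have hl := q_lo
  obtain ⟨c1, hc1⟩ : ∃ c1, c1 = (Real.sqrt 2 - 1) * (c0 * (w β κ 0 / EE C)) := ⟨_, rfl⟩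
  have hc1p : 0 < c1 := by
    rw [hc1]
    have := D.hc0
    have : 0 < Real.sqrt 2 - 1 := by linarith
    positivity
  have hk0 : 0 < κ 0 ^ (1 + 1 / Real.sqrt 2) := Real.rpow_pos_of_pos (k_pos D 0) _
  refine ⟨min (κ 0 ^ (1 + 1 / Real.sqrt 2)) c1, lt_min hk0 hc1p, ?_⟩
  have key : ∀ n : ℕ, κ 0 ^ (1 + 1 / Real.sqrt 2) + n * c1 ≤ κ n ^ (1 + 1 / Real.sqrt 2) := by
    intro n
    induction n with
    | zero => simp
    | succ n ih =>
      have h1 : κ n ^ (1 + 1 / Real.sqrt 2) + c1 ≤ κ (n + 1) ^ (1 + 1 / Real.sqrt 2) := by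
        rw [pow_s D n, pow_s D (n + 1)]
        have h2 : κ n ^ (1 / Real.sqrt 2) ≤ κ (n + 1) ^ (1 / Real.sqrt 2) :=
          Real.rpow_le_rpow (k_pos D n).le (k_mono D (Nat.le_succ n)) (by positivity)
        have h3 : κ (n + 1) * κ n ^ (1 / Real.sqrt 2) ≤ κ (n + 1) * κ (n + 1) ^ (1 / Real.sqrt 2) :=
          mul_le_mul_of_nonneg_left h2 (k_pos D (n + 1)).le
        have h4 : κ (n + 1) * κ n ^ (1 / Real.sqrt 2) =
            κ n * κ n ^ (1 / Real.sqrt 2) + (Real.sqrt 2 - 1) * (y n * κ n ^ (1 / Real.sqrt 2)) := by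
          rw [D.ks n]
          ring
        have h5 : c1 ≤ (Real.sqrt 2 - 1) * (y n * κ n ^ (1 / Real.sqrt 2)) := by
          rw [hc1]
          apply mul_le_mul_of_nonneg_left _ (by linarith)
          have h6 : w β κ 0 / EE C ≤ w β κ n := by
            rw [div_le_iff₀ hE]
            have := w_le D (Nat.zero_le n)
            linarith
          calc c0 * (w β κ 0 / EE C) ≤ c0 * w β κ n := mul_le_mul_of_nonneg_left h6 D.hc0.le
            _ = c0 * β n * κ n ^ (1 / Real.sqrt 2) := by unfold w; ring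
            _ ≤ y n * κ n ^ (1 / Real.sqrt 2) :=
              mul_le_mul_of_nonneg_right (D.lo n) (Real.rpow_nonneg (k_pos D n).le _)
        linarith
      push_cast
      linarith
  intro n
  refine le_trans ?_ (key n)
  have hm1 : min (κ 0 ^ (1 + 1 / Real.sqrt 2)) c1 ≤ κ 0 ^ (1 + 1 / Real.sqrt 2) := min_le_left _ _
  have hm2 : min (κ 0 ^ (1 + 1 / Real.sqrt 2)) c1 ≤ c1 := min_le_right _ _
  have hn : (0 : ℝ) ≤ n := Nat.cast_nonneg n
  nlinarith

lemma grow_hi (D : Dat β κ y c0 C) : ∃ c4 : ℝ, 0 < c4 ∧ ∀ N : ℕ, κ N ≤ c4 * ((N : ℝ) + 1) * β N := by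
  have hE := EE_pos C
  have hw0 := w_pos D 0
  have hl := q_lo
  have hh := q_hi
  have hk0 : 0 < κ 0 ^ (1 + 1 / Real.sqrt 2) := Real.rpow_pos_of_pos (k_pos D 0) _
  obtain ⟨a, ha⟩ : ∃ a, a = κ 0 ^ (1 + 1 / Real.sqrt 2) * (EE C / w β κ 0) := ⟨_, rfl⟩
  have hap : 0 < a := by
    rw [ha]
    positivity
  refine ⟨a + 2 * EE C, by positivity, ?_⟩
  intro N
  have hwN := w_pos D N
  have key : ∀ n : ℕ, n ≤ N → κ n ^ (1 + 1 / Real.sqrt 2) ≤
      κ 0 ^ (1 + 1 / Real.sqrt 2) + n * (2 * EE C * w β κ N) := by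
    intro n
    induction n with
    | zero => intro _; simp
    | succ n ih =>
      intro hn
      have ih' := ih (by omega)
      have hk := k_pos D n
      have hk1 := k_pos D (n + 1)
      have hy := y_pos D n
      have hrp : 0 < κ n ^ (1 / Real.sqrt 2) := Real.rpow_pos_of_pos hk _
      have hr1 : κ (n + 1) ^ (1 / Real.sqrt 2) ≤ κ n ^ (1 / Real.sqrt 2) * (κ (n + 1) / κ n) := by
        have h2 : κ (n + 1) = κ n * (κ (n + 1) / κ n) := by field_simp
        have h3 : 1 ≤ κ (n + 1) / κ n := by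
          rw [one_le_div hk]
          exact k_mono D (Nat.le_succ n)
        calc κ (n + 1) ^ (1 / Real.sqrt 2) = (κ n * (κ (n + 1) / κ n)) ^ (1 / Real.sqrt 2) := by rw [← h2]
          _ = κ n ^ (1 / Real.sqrt 2) * (κ (n + 1) / κ n) ^ (1 / Real.sqrt 2) :=
            Real.mul_rpow hk.le (by positivity)
          _ ≤ κ n ^ (1 / Real.sqrt 2) * (κ (n + 1) / κ n) ^ (1 : ℝ) := by
            apply mul_le_mul_of_nonneg_left _ hrp.le
            apply Real.rpow_le_rpow_of_exponent_le h3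
            rw [one_div_q]
            linarith
          _ = κ n ^ (1 / Real.sqrt 2) * (κ (n + 1) / κ n) := by rw [Real.rpow_one]
      have hdk : κ (n + 1) - κ n = (Real.sqrt 2 - 1) * y n := by
        rw [D.ks n]
        ring
      have hk12 : κ (n + 1) ≤ 1.3 * κ n := by
        have h1 := k_ge D n
        have h2 := y_le D n
        have h3 := D.hC
        nlinarith
      have h5 : κ (n + 1) ^ (1 + 1 / Real.sqrt 2) ≤ κ n ^ (1 + 1 / Real.sqrt 2) +
          2.3 * (κ n ^ (1 / Real.sqrt 2) * (κ (n + 1) - κ n)) := by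
        rw [pow_s D n, pow_s D (n + 1)]
        have h6 : κ (n + 1) * κ (n + 1) ^ (1 / Real.sqrt 2) ≤
            κ (n + 1) * (κ n ^ (1 / Real.sqrt 2) * (κ (n + 1) / κ n)) :=
          mul_le_mul_of_nonneg_left hr1 hk1.le
        have h7 : κ (n + 1) * (κ n ^ (1 / Real.sqrt 2) * (κ (n + 1) / κ n)) =
            κ n ^ (1 / Real.sqrt 2) * (κ (n + 1) * κ (n + 1) / κ n) := by ring
        have h8 : κ (n + 1) * κ (n + 1) / κ n ≤ κ n + 2.3 * (κ (n + 1) - κ n) := by
          rw [div_le_iff₀ hk]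
          have h9 : 0 ≤ κ (n + 1) - κ n := sub_nonneg.mpr (k_mono D (Nat.le_succ n))
          nlinarith
        have h10 := mul_le_mul_of_nonneg_left h8 hrp.le
        rw [h7] at h6
        have h11 : κ n ^ (1 / Real.sqrt 2) * (κ n + 2.3 * (κ (n + 1) - κ n)) =
            κ n * κ n ^ (1 / Real.sqrt 2) + 2.3 * (κ n ^ (1 / Real.sqrt 2) * (κ (n + 1) - κ n)) := by ring
        linarith
      have h12 : κ n ^ (1 / Real.sqrt 2) * (κ (n + 1) - κ n) ≤ 0.415 * w β κ n := by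
        rw [hdk]
        have h13 : y n ≤ β n := by
          have h14 := D.hi n
          have h15 := D.anti n
          have h16 := D.hC1
          have h17 := D.hC
          have h18 := D.hb (n + 1)
          nlinarith
        have h19 : (Real.sqrt 2 - 1) * y n ≤ 0.415 * β n := by nlinarith
        calc κ n ^ (1 / Real.sqrt 2) * ((Real.sqrt 2 - 1) * y n) ≤ κ n ^ (1 / Real.sqrt 2) * (0.415 * β n) :=
              mul_le_mul_of_nonneg_left h19 hrp.le
          _ = 0.415 * w β κ n := by unfold w; ring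
      have h20 : w β κ n ≤ EE C * w β κ N := w_le D (by omega)
      have h21 : 0 < EE C * w β κ N := mul_pos hE hwN
      push_cast
      nlinarith
  have h1 := key N le_rfl
  have h2 : κ 0 ^ (1 + 1 / Real.sqrt 2) ≤ a * w β κ N := by
    have h3 : w β κ 0 ≤ EE C * w β κ N := w_le D (Nat.zero_le N)
    have h4 : 1 ≤ EE C / w β κ 0 * w β κ N := by
      rw [div_mul_eq_mul_div, one_le_div hw0]
      exact h3
    calc κ 0 ^ (1 + 1 / Real.sqrt 2) = κ 0 ^ (1 + 1 / Real.sqrt 2) * 1 := by rw [mul_one]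
      _ ≤ κ 0 ^ (1 + 1 / Real.sqrt 2) * (EE C / w β κ 0 * w β κ N) := mul_le_mul_of_nonneg_left h4 hk0.le
      _ = a * w β κ N := by rw [ha]; ring
  have hrp : 0 < κ N ^ (1 / Real.sqrt 2) := Real.rpow_pos_of_pos (k_pos D N) _
  have hn : (0 : ℝ) ≤ N := Nat.cast_nonneg N
  have h5 : κ N * κ N ^ (1 / Real.sqrt 2) ≤ ((a + 2 * EE C) * ((N : ℝ) + 1) * β N) * κ N ^ (1 / Real.sqrt 2) := by
    rw [← pow_s D N]
    have h6 : ((a + 2 * EE C) * ((N : ℝ) + 1) * β N) * κ N ^ (1 / Real.sqrt 2) =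
        (a + 2 * EE C) * ((N : ℝ) + 1) * w β κ N := by unfold w; ring
    rw [h6]
    have h7 : 0 ≤ a * (N : ℝ) * w β κ N := by positivity
    have h8 : 0 ≤ 2 * EE C * w β κ N := by positivity
    nlinarith
  exact le_of_mul_le_mul_right h5 hrp

end NumStep_aux

open NumStep_aux in
/-- b antitone positive, x stands for XX / xc. -/
theorem num_step {b K x : ℕ → ℝ} {c0 : ℝ} (hc0 : 0 < c0) (hb : ∀ T, 1 ≤ T → 0 < b T)
    (hanti : ∀ T, 1 ≤ T → b (T + 1) ≤ b T) (hb1 : b 1 ≤ 1) (hK0 : ∀ T, 1 ≤ T → 0 ≤ K T)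
    (h1 : ∀ T, 1 ≤ T → (b T - b (T + 1)) * (K T + Real.sqrt 2 * Real.cos (Real.pi / 8)) ≤
      (1 - 1 / Real.sqrt 2) * x T * b T)
    (h2 : ∀ T, 1 ≤ T → K T + (Real.sqrt 2 - 1) * x T ≤ K (T + 1))
    (h3 : ∀ T, 1 ≤ T → c0 * b T ≤ x T) (h4 : ∀ T, 1 ≤ T → x T ≤ Real.cos (Real.pi / 8) * b (T + 1)) :
    ∃ c : ℝ, 0 < c ∧ (∀ T : ℕ, 1 ≤ T → c * (T : ℝ) ^ (1 - Real.sqrt 2) ≤ b T) ∧
      (∀ T : ℕ, 1 ≤ T → c * (T : ℝ) ^ (2 - Real.sqrt 2) ≤ K (T + 1)) := by
  have hl := q_lo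
  have hh := q_hi
  have hC : 0 < Real.cos (Real.pi / 8) := by
    apply Real.cos_pos_of_mem_Ioo
    constructor <;> linarith [Real.pi_pos]
  have hC1 : Real.cos (Real.pi / 8) ≤ 1 := Real.cos_le_one _
  obtain ⟨C, hCd⟩ : ∃ C, C = Real.cos (Real.pi / 8) := ⟨_, rfl⟩
  rw [← hCd] at h1 h4 hC hC1
  obtain ⟨κ, hκ⟩ : ∃ κ : ℕ → ℝ, κ = fun n => Real.sqrt 2 * C + ∑ t ∈ Finset.range n, (Real.sqrt 2 - 1) * x (t + 1) :=
    ⟨_, rfl⟩
  have hks : ∀ n, κ (n + 1) = κ n + (Real.sqrt 2 - 1) * x (n + 1) := by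
    intro n
    rw [hκ]
    simp only [Finset.sum_range_succ]
    ring
  have hk0 : κ 0 = Real.sqrt 2 * C := by
    rw [hκ]
    simp
  have hKk : ∀ n, κ n ≤ K (n + 1) + Real.sqrt 2 * C := by
    intro n
    induction n with
    | zero =>
      rw [hk0]
      have := hK0 1 le_rfl
      simpa using this
    | succ n ih =>
      rw [hks n]
      have := h2 (n + 1) (by omega)
      linarith
  have hble : ∀ n, b (n + 1) ≤ 1 := by
    intro n
    induction n with
    | zero => simpa using hb1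
    | succ n ih => exact (hanti (n + 1) (by omega)).trans ih
  have D : Dat (fun n => b (n + 1)) κ (fun n => x (n + 1)) c0 C :=
    { hc0 := hc0
      hC := hC
      hC1 := hC1
      hb := fun n => hb _ (by omega)
      hb1 := hble
      anti := fun n => hanti (n + 1) (by omega)
      k0 := hk0
      ks := hks
      st := fun n => by
        have h5 := h1 (n + 1) (by omega)
        have h6 := hanti (n + 1) (by omega)
        have h7 := hKk n
        refine le_trans ?_ h5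
        exact mul_le_mul_of_nonneg_left h7 (by linarith)
      lo := fun n => h3 (n + 1) (by omega)
      hi := fun n => h4 (n + 1) (by omega) }
  obtain ⟨c2, hc2, hlo⟩ := grow_lo D
  obtain ⟨c4, hc4, hhi⟩ := grow_hi D
  have hkp := k_pos D
  have hpow : ∀ n : ℕ, c2 ^ (2 - Real.sqrt 2) * ((n : ℝ) + 1) ^ (2 - Real.sqrt 2) ≤ κ n := by
    intro n
    have hn : (0 : ℝ) ≤ (n : ℝ) + 1 := by positivity
    have h5 := Real.rpow_le_rpow (by positivity) (hlo n) (show (0 : ℝ) ≤ 2 - Real.sqrt 2 by linarith)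
    rw [Real.mul_rpow hc2.le hn] at h5
    refine h5.trans (le_of_eq ?_)
    rw [← Real.rpow_mul (hkp n).le, ← s_inv, mul_inv_cancel₀, Real.rpow_one]
    positivity
  obtain ⟨g, hg⟩ : ∃ g, g = (Real.sqrt 2 - 1) * (c0 * b 1) := ⟨_, rfl⟩
  have hgp : 0 < g := by
    rw [hg]
    have := hb 1 le_rfl
    have : 0 < Real.sqrt 2 - 1 := by linarith
    positivity
  have hc2p : 0 < c2 ^ (2 - Real.sqrt 2) := Real.rpow_pos_of_pos hc2 _
  have hkk : 0 < 1 + Real.sqrt 2 * C / g := by positivity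
  refine ⟨min (c2 ^ (2 - Real.sqrt 2) / c4) (c2 ^ (2 - Real.sqrt 2) / (1 + Real.sqrt 2 * C / g)), ?_, ?_, ?_⟩
  · exact lt_min (by positivity) (by positivity)
  · intro T hT
    obtain ⟨n, rfl⟩ : ∃ n, T = n + 1 := ⟨T - 1, by omega⟩
    have hTp : (0 : ℝ) < ((n + 1 : ℕ) : ℝ) := by positivity
    have h5 := hpow n
    have h6 := hhi n
    have h7 : ((n + 1 : ℕ) : ℝ) ^ (1 - Real.sqrt 2) * ((n + 1 : ℕ) : ℝ) = ((n + 1 : ℕ) : ℝ) ^ (2 - Real.sqrt 2) := by
      have e1 : (2 - Real.sqrt 2) = (1 - Real.sqrt 2) + 1 := by ring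
      rw [e1, Real.rpow_add hTp, Real.rpow_one]
    have hcast : ((n + 1 : ℕ) : ℝ) = (n : ℝ) + 1 := by push_cast; ring
    have h8 : c2 ^ (2 - Real.sqrt 2) * ((n + 1 : ℕ) : ℝ) ^ (1 - Real.sqrt 2) * ((n + 1 : ℕ) : ℝ) ≤
        c4 * b (n + 1) * ((n + 1 : ℕ) : ℝ) := by
      calc c2 ^ (2 - Real.sqrt 2) * ((n + 1 : ℕ) : ℝ) ^ (1 - Real.sqrt 2) * ((n + 1 : ℕ) : ℝ) =
            c2 ^ (2 - Real.sqrt 2) * ((n + 1 : ℕ) : ℝ) ^ (2 - Real.sqrt 2) := by rw [mul_assoc, h7]
        _ = c2 ^ (2 - Real.sqrt 2) * ((n : ℝ) + 1) ^ (2 - Real.sqrt 2) := by rw [hcast]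
        _ ≤ κ n := h5
        _ ≤ c4 * ((n : ℝ) + 1) * b (n + 1) := h6
        _ = c4 * b (n + 1) * ((n + 1 : ℕ) : ℝ) := by rw [hcast]; ring
    have h9 := le_of_mul_le_mul_right h8 hTp
    have h10 : c2 ^ (2 - Real.sqrt 2) / c4 * ((n + 1 : ℕ) : ℝ) ^ (1 - Real.sqrt 2) ≤ b (n + 1) := by
      rw [div_mul_eq_mul_div, div_le_iff₀ hc4]
      linarith
    refine le_trans ?_ h10
    exact mul_le_mul_of_nonneg_right (min_le_left _ _) (Real.rpow_nonneg hTp.le _)
  · intro T hT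
    have hTp : (0 : ℝ) < (T : ℝ) := by exact_mod_cast hT
    have h5 : c2 ^ (2 - Real.sqrt 2) * (T : ℝ) ^ (2 - Real.sqrt 2) ≤ κ T := by
      refine le_trans ?_ (hpow T)
      apply mul_le_mul_of_nonneg_left _ hc2p.le
      exact Real.rpow_le_rpow hTp.le (by linarith) (by linarith)
    have h6 := hKk T
    have h7 : g ≤ κ T - Real.sqrt 2 * C := by
      have h8 : κ 1 ≤ κ T := k_mono D hT
      have h9 : κ 1 = Real.sqrt 2 * C + (Real.sqrt 2 - 1) * x 1 := by
        have := hks 0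
        rw [hk0] at this
        simpa using this
      have h10 := h3 1 le_rfl
      have h11 : (Real.sqrt 2 - 1) * (c0 * b 1) ≤ (Real.sqrt 2 - 1) * x 1 :=
        mul_le_mul_of_nonneg_left h10 (by linarith)
      rw [hg]
      linarith
    have h12 : κ T ≤ K (T + 1) * (1 + Real.sqrt 2 * C / g) := by
      have h13 : g ≤ K (T + 1) := by linarith
      have h14 : Real.sqrt 2 * C ≤ K (T + 1) * (Real.sqrt 2 * C / g) := by
        have h15 : 1 ≤ K (T + 1) / g := by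
          rw [one_le_div hgp]
          exact h13
        have h16 : 0 < Real.sqrt 2 * C := by positivity
        calc Real.sqrt 2 * C = 1 * (Real.sqrt 2 * C) := by rw [one_mul]
          _ ≤ K (T + 1) / g * (Real.sqrt 2 * C) := mul_le_mul_of_nonneg_right h15 h16.le
          _ = K (T + 1) * (Real.sqrt 2 * C / g) := by ring
      linarith
    have h17 : c2 ^ (2 - Real.sqrt 2) / (1 + Real.sqrt 2 * C / g) * (T : ℝ) ^ (2 - Real.sqrt 2) ≤ K (T + 1) := by
      rw [div_mul_eq_mul_div, div_le_iff₀ hkk]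
      linarith
    refine le_trans ?_ h17
    exact mul_le_mul_of_nonneg_right (min_le_right _ _) (Real.rpow_nonneg hTp.le _)

end D1

end SP

end HexObs
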