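import Pool.Agent.HexStep.Alg

/-!
STEP, C5: bounds for XX (helper8).
-/

set_option autoImplicit false

namespace HexObs

namespace SP

open Complex Finset ENNReal

namespace XB

lemma ft_eq' (k : ℤ) : ft k = (2 * k, -k) := k4_foot k

lemma ft_zero : ft 0 = oo := by
  rw [ft_eq']
  rfl

lemma mem_St'' {T : ℕ} {v : Pt} : v ∈ St T ↔ lv v % 3 ≠ 1 ∧ 0 < lv v ∧ lv v < 3 * T + 2 := CC.mem_St

lemma lv_up (v w : Pt) : ip (v - w) up = lv v - lv w := by
  unfold ip lv up
  simp only [Prod.fst_sub, Prod.snd_sub]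
  ring

lemma lv_oo' : lv oo = 0 := by
  unfold lv oo
  ring

lemma lv_le' (k : ℤ) : lv (le k) = 3 := by
  unfold lv le
  ring

lemma lv_ue' (k : ℤ) : lv (ue k) = 2 := by
  unfold lv ue
  ring

lemma cl_le (k : ℤ) : cl (le k) = cl oo := by
  unfold cl le oo
  have h3 : (3 : ZMod 3) = 0 := by decide
  push_cast
  linear_combination (k - 1 : ZMod 3) * h3

/-- the strip above le k. -/
lemma mem_strip_le {T : ℕ} {k : ℤ} {v : Pt} :
    v ∈ strip (le k) up T ↔ v ∈ St (T + 1) ∧ 3 < lv v := by
  have h1 : IsHex (le k) up v ↔ IsHex oo up v := by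
    unfold IsHex
    rw [cl_le]
  have e1 : ip (v - le k) up = lv v - 3 := by
    rw [lv_up, lv_le']
  have e2 : ip (v - oo) up = lv v := by
    rw [lv_up, lv_oo', sub_zero]
  show (IsHex (le k) up v ∧ 0 < ip (v - le k) up ∧ ip (v - le k) up < 3 * T + 2) ↔
    (IsHex oo up v ∧ 0 < ip (v - oo) up ∧ ip (v - oo) up < 3 * ((T + 1 : ℕ) : ℤ) + 2) ∧ 3 < lv v
  rw [h1, e1, e2]
  push_cast
  constructor
  · rintro ⟨a, b, c⟩
    exact ⟨⟨a, by omega, by omega⟩, by omega⟩
  · rintro ⟨⟨a, b, c⟩, d⟩
    exact ⟨a, by omega, by omega⟩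

/-- the zigzag to the left along the first row. -/
def zz : ℕ → List Bool
  | 0 => [true]
  | j + 1 => zz j ++ [true] ++ [false]

lemma zz_length (j : ℕ) : (zz j).length = 2 * j + 1 := by
  induction j with
  | zero => rfl
  | succ j ih =>
    show (zz j ++ [true] ++ [false]).length = _
    rw [List.length_append, List.length_append, ih]
    simp only [List.length_cons, List.length_nil]
    ring

lemma zz_pre (j : ℕ) : [true] <+: zz j := by
  induction j with
  | zero => exact List.prefix_refl _
  | succ j ih =>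
    show [true] <+: zz j ++ [true] ++ [false]
    rw [List.append_assoc]
    exact ih.trans (List.prefix_append _ _)

lemma zz_dx (j : ℕ) : dx up (zz j) (zz j).length = (-1, 1) := by
  induction j with
  | zero => decide
  | succ j ih =>
    show dx up (zz j ++ [true] ++ [false]) (zz j ++ [true] ++ [false]).length = _
    rw [dx_append_one, dx_append_one, ih]
    decide

lemma zz_vx (j : ℕ) : ∀ i, i ≤ j → vx oo up (zz j) (2 * i + 1) = ue (-i) ∧ vx oo up (zz j) (2 * i + 2) = le (-i) := by
  induction j with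
  | zero =>
    intro i hi
    have : i = 0 := by omega
    subst this
    constructor <;> decide
  | succ j ih =>
    intro i hi
    have hl : (zz j).length = 2 * j + 1 := zz_length j
    have htip : tip oo up (zz j) = le (-(j : ℤ)) := by
      have h := (ih j le_rfl).2
      unfold tip
      rw [hl]
      exact h
    have e1 : tip oo up (zz j ++ [true]) = ue (-((j : ℤ) + 1)) := by
      rw [tip_append_one, htip, zz_dx]
      unfold le ue turn rotL
      simp only [if_true, Prod.mk_add_mk]
      apply Prod.ext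
      · show 2 * -(j : ℤ) - 1 + -1 = 2 * -((j : ℤ) + 1)
        ring
      · show 2 - -(j : ℤ) + (-1 + 1) = 1 - -((j : ℤ) + 1)
        ring
    have hl1 : (zz j ++ [true]).length = 2 * j + 2 := by
      rw [List.length_append, hl]
      rfl
    have e2 : tip oo up (zz j ++ [true] ++ [false]) = le (-((j : ℤ) + 1)) := by
      rw [tip_append_one, e1, dx_append_one, zz_dx]
      unfold le ue turn rotL rotR
      simp only [if_true, Bool.false_eq_true, if_false, Prod.mk_add_mk]
      apply Prod.ext
      · show 2 * -((j : ℤ) + 1) + (-1 + (-1 + 1)) = 2 * -((j : ℤ) + 1) - 1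
        ring
      · show 1 - -((j : ℤ) + 1) + - -1 = 2 - -((j : ℤ) + 1)
        ring
    rcases Nat.lt_or_ge j i with h | h
    · have hij : i = j + 1 := by omega
      subst hij
      constructor
      · show vx oo up (zz j ++ [true] ++ [false]) (2 * (j + 1) + 1) = _
        rw [vx_append (by omega)]
        have : 2 * (j + 1) + 1 = (zz j ++ [true]).length + 1 := by omega
        rw [this]
        show tip oo up (zz j ++ [true]) = _
        rw [e1]
        push_cast
        rfl
      · have : 2 * (j + 1) + 2 = (zz j ++ [true] ++ [false]).length + 1 := by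
          rw [List.length_append, hl1]
          rfl
        show vx oo up (zz j ++ [true] ++ [false]) (2 * (j + 1) + 2) = _
        rw [this]
        show tip oo up (zz j ++ [true] ++ [false]) = _
        rw [e2]
        push_cast
        rfl
    · obtain ⟨h1, h2⟩ := ih i h
      constructor
      · show vx oo up (zz j ++ [true] ++ [false]) (2 * i + 1) = _
        rw [vx_append (by omega), vx_append (by omega)]
        exact h1
      · show vx oo up (zz j ++ [true] ++ [false]) (2 * i + 2) = _
        rw [vx_append (by omega), vx_append (by omega)]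
        exact h2

lemma zz_tip (j : ℕ) : tip oo up (zz j) = le (-(j : ℤ)) := by
  have h := (zz_vx j j le_rfl).2
  unfold tip
  rw [zz_length]
  exact h

/-- the whole word. -/
def ww (j : ℕ) (t : List Bool) : List Bool := zz j ++ ([false] ++ t)

lemma ww_length (j : ℕ) (t : List Bool) : (ww j t).length = 2 * j + 2 + t.length := by
  unfold ww
  rw [List.length_append, List.length_append, zz_length]
  simp only [List.length_cons, List.length_nil]
  ring

lemma ww_vx_hi (j : ℕ) (t : List Bool) (k : ℕ) :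
    vx oo up (ww j t) (2 * j + 2 + k) = vx (le (-(j : ℤ))) up t k ∧
      dx up (ww j t) (2 * j + 2 + k) = dx up t k := by
  have h := vx_split oo up (zz j) false t k
  rw [zz_dx, zz_tip, zz_length] at h
  have e : turn false ((-1, 1) : Pt) = up := by decide
  rw [e] at h
  exact h

lemma ww_vx_lo (j : ℕ) (t : List Bool) {i : ℕ} (hi : i ≤ j) :
    vx oo up (ww j t) (2 * i + 1) = ue (-i) ∧ vx oo up (ww j t) (2 * i + 2) = le (-i) := by
  have h := zz_vx j i hi
  have hl := zz_length j
  unfold ww
  rw [vx_append (by omega), vx_append (by omega)]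
  exact h

/-- the vertices of the first part. -/
lemma ww_lo (j : ℕ) (t : List Bool) {i : ℕ} (h1 : 1 ≤ i) (h2 : i ≤ 2 * j + 2) :
    (lv (vx oo up (ww j t) i) = 2 ∨ lv (vx oo up (ww j t) i) = 3) ∧
      ((∃ m, i = 2 * m + 1 ∧ nn (vx oo up (ww j t) i) = -3 * m - 1) ∨
      (∃ m, i = 2 * m + 2 ∧ nn (vx oo up (ww j t) i) = -3 * m - 3)) := by
  rcases Nat.even_or_odd' i with ⟨m, rfl | rfl⟩
  · obtain ⟨m', rfl⟩ : ∃ m', m = m' + 1 := ⟨m - 1, by omega⟩
    have h3 := (ww_vx_lo j t (i := m') (by omega)).2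
    have e : 2 * (m' + 1) = 2 * m' + 2 := by ring
    rw [e, h3]
    refine ⟨Or.inr (lv_le' _), Or.inr ⟨m', rfl, ?_⟩⟩
    unfold nn le
    ring
  · have h3 := (ww_vx_lo j t (i := m) (by omega)).1
    rw [h3]
    refine ⟨Or.inl (lv_ue' _), Or.inl ⟨m, rfl, ?_⟩⟩
    unfold nn ue
    ring

lemma ww_mem {T : ℕ} (hT : 1 ≤ T) (j : ℕ) {t : List Bool}
    (ht : t ∈ out (strip (le (-(j : ℤ))) up T) (le (-(j : ℤ))) up up) :
    ww j t ∈ BrA (St (T + 1)) ∅ 0 := by
  obtain ⟨hs, hout, hd⟩ := ht
  have hup : up ∈ dirs := by decide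
  have hhi : ∀ k, 1 ≤ k → k ≤ t.length → vx oo up (ww j t) (2 * j + 2 + k) ∈ St (T + 1) ∧
      3 < lv (vx oo up (ww j t) (2 * j + 2 + k)) := by
    intro k h1 h2
    rw [(ww_vx_hi j t k).1]
    exact mem_strip_le.1 (hs.mem k h1 h2)
  have hlen := ww_length j t
  refine ⟨?_, ?_⟩
  · rw [br_empty, ft_zero]
    refine ⟨⟨?_, ?_⟩, ?_, ?_⟩
    · intro i h1 h2
      rcases Nat.lt_or_ge (2 * j + 2) i with h | h
      · obtain ⟨k, rfl⟩ : ∃ k, i = 2 * j + 2 + k := ⟨i - (2 * j + 2), by omega⟩
        exact (hhi k (by omega) (by omega)).1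
      · rw [mem_St'']
        have h3 := (ww_lo j t h1 h).1
        push_cast
        omega
    · intro i k hik hk heq
      rcases Nat.lt_or_ge (2 * j + 2) k with h | h
      · obtain ⟨k', rfl⟩ : ∃ k', k = 2 * j + 2 + k' := ⟨k - (2 * j + 2), by omega⟩
        have h3 := (hhi k' (by omega) (by omega)).2
        rcases Nat.lt_or_ge (2 * j + 2) i with h4 | h4
        · obtain ⟨i', rfl⟩ : ∃ i', i = 2 * j + 2 + i' := ⟨i - (2 * j + 2), by omega⟩
          rw [(ww_vx_hi j t i').1, (ww_vx_hi j t k').1] at heq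
          exact hs.inj i' k' (by omega) (by omega) heq
        · rcases Nat.eq_zero_or_pos i with h5 | h5
          · subst h5
            rw [← heq] at h3
            have h6 : vx oo up (ww j t) 0 = oo := rfl
            rw [h6, lv_oo'] at h3
            omega
          · have h6 := (ww_lo j t h5 h4).1
            rw [heq] at h6
            omega
      · have h3 := ww_lo j t (i := k) (by omega) h
        rcases Nat.eq_zero_or_pos i with h5 | h5
        · subst h5
          have h6 : vx oo up (ww j t) 0 = oo := rfl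
          rw [← heq, h6, lv_oo'] at h3
          omega
        · have h4 := ww_lo j t h5 (by omega)
          rw [heq] at h4
          rcases h3.2 with ⟨m, hm, hm'⟩ | ⟨m, hm, hm'⟩ <;> rcases h4.2 with ⟨l, hl, hl'⟩ | ⟨l, hl, hl'⟩ <;>
            rw [hm'] at hl' <;> omega
    · have h1 : tip oo up (ww j t) = tip (le (-(j : ℤ))) up t := by
        unfold tip
        rw [hlen, add_assoc (2 * j + 2)]
        exact (ww_vx_hi j t (t.length + 1)).1
      rw [h1]
      intro hcon
      rcases strip_exit hup hT hs hout with h2 | h2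
      · rw [hd] at h2
        exact absurd h2.1 (by decide)
      · have h3 := h2.2
        rw [lv_up, lv_le'] at h3
        rw [mem_St''] at hcon
        push_cast at hcon
        omega
    · rw [hlen, (ww_vx_hi j t t.length).2]
      exact hd
  · refine ⟨?_, ?_⟩
    · show pre 0 <+: ww j t
      have : pre 0 = [true] := if_pos rfl
      rw [this]
      exact (zz_pre j).trans (List.prefix_append _ _)
    · intro i h1 h2
      have h0 : (pre 0).length = 1 := rfl
      rw [h0] at h1
      rw [ft_zero]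
      rintro ⟨h3, h4⟩
      rcases Nat.lt_or_ge (2 * j + 2) i with h | h
      · obtain ⟨k, rfl⟩ : ∃ k, i = 2 * j + 2 + k := ⟨i - (2 * j + 2), by omega⟩
        have := (hhi k (by omega) (by omega)).2
        omega
      · rcases (ww_lo j t (by omega) h).2 with ⟨m, hm, hm'⟩ | ⟨m, hm, hm'⟩ <;> omega

/-- the words with j steps of the zigzag. -/
def WW (T j : ℕ) : Set (List Bool) := {w | ∃ t ∈ out (strip (le (-(j : ℤ))) up T) (le (-(j : ℤ))) up up, w = ww j t}

lemma ww_disj_aux {T : ℕ} {i j : ℕ} (hij : i < j) {w : List Bool} (h1 : w ∈ WW T i)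
    (h2 : w ∈ WW T j) : False := by
  obtain ⟨s, hs, rfl⟩ := h1
  obtain ⟨t, _, h⟩ := h2
  have e1 := (ww_vx_hi i s 1).1
  have e2 := (ww_vx_lo j t (i := i + 1) (by omega)).1
  rw [← h] at e2
  have e3 : 2 * (i + 1) + 1 = 2 * i + 2 + 1 := by ring
  rw [e3, e1] at e2
  have e4 := congrArg lv e2
  rw [lv_ue'] at e4
  have e5 : vx (le (-(i : ℤ))) up s 1 = le (-(i : ℤ)) + up := rfl
  rw [e5] at e4
  unfold lv le up at e4
  simp only [Prod.fst_add, Prod.snd_add] at e4
  omega

lemma ww_disj (T : ℕ) : ∀ i j, ∀ w, w ∈ WW T i → w ∈ WW T j → i = j := by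
  intro i j w h1 h2
  rcases lt_trichotomy i j with h | h | h
  · exact (ww_disj_aux h h1 h2).elim
  · exact h
  · exact (ww_disj_aux h h2 h1).elim

lemma gf_singleton (a : List Bool) : gf {a} = wE a := by
  unfold gf
  exact tsum_singleton a wE

lemma gf_WW (T j : ℕ) : ENNReal.ofReal (xc ^ (2 * j + 2)) * BT T ≤ gf (WW T j) := by
  have h1 := mul_le_gf (P := WW T j) (Q := {zz j ++ [false]})
    (R := out (strip (le (-(j : ℤ))) up T) (le (-(j : ℤ))) up up) (by
      intro a ha b hb
      rw [Set.mem_singleton_iff] at ha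
      subst ha
      refine ⟨b, hb, ?_⟩
      unfold ww
      rw [List.append_assoc]) (by
      intro a ha b _ a' ha' b' _ _
      rw [Set.mem_singleton_iff] at ha ha'
      rw [ha, ha'])
  have hup : up ∈ dirs := by decide
  rw [gf_singleton, gf_B hup] at h1
  have e : wE (zz j ++ [false]) = ENNReal.ofReal (xc ^ (2 * j + 2)) := by
    unfold wE
    rw [List.length_append, zz_length]
    rfl
  rw [e] at h1
  exact h1

lemma xc_num : HasSum (fun j : ℕ => xc ^ (2 * j + 2)) (Real.sqrt 2 * xc ^ 2) := by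
  have h1 : xc ^ 2 = 1 / (2 + Real.sqrt 2) := xc_sq
  have h2 : Real.sqrt 2 * Real.sqrt 2 = 2 := Real.mul_self_sqrt (by norm_num)
  have h3 : 0 < Real.sqrt 2 := Real.sqrt_pos.2 (by norm_num)
  have h4 : xc ^ 2 < 1 := by
    rw [h1, div_lt_one (by positivity)]
    linarith
  have h5 := (hasSum_geometric_of_lt_one (sq_nonneg xc) h4).mul_right (xc ^ 2)
  have e1 : (fun j : ℕ => (xc ^ 2) ^ j * xc ^ 2) = fun j : ℕ => xc ^ (2 * j + 2) := by
    funext j
    rw [pow_add, pow_mul]
  have e2 : (1 - xc ^ 2)⁻¹ = Real.sqrt 2 := by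
    rw [inv_eq_iff_eq_inv, h1]
    field_simp
    nlinarith
  rw [e1, e2] at h5
  exact h5

end XB

/-! ## C5 -/

theorem two_XX_le (T : ℕ) : 2 * XX T ≤ BT (T + 1) := by
  have hP : XX T ≤ gf {t | t ∈ out (St (T + 1)) oo up up ∧ [true] <+: t} := by
    apply gf_mono
    rintro t ⟨h1, h2⟩
    rw [br_empty, XB.ft_zero] at h1
    refine ⟨h1, ?_⟩
    have h3 := h2.pre
    have : pre 0 = [true] := if_pos rfl
    rwa [this] at h3
  have hu : nrm ((-1, 1) : Pt) = 1 := by decide
  have hm2 : mulE (-1, 1) (conjE up) = up := by decide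
  have hPQ : gf {t | t ∈ out (St (T + 1)) oo up up ∧ [true] <+: t} ≤
      gf {t | t ∈ out (St (T + 1)) oo up up ∧ [false] <+: t} := by
    have h := gf_le_of_inj (P := {t | t ∈ out (St (T + 1)) oo up up ∧ [true] <+: t})
      (Q := {t | t ∈ out (St (T + 1)) oo up up ∧ [false] <+: t}) (fun t => t.map not) (by
        rintro t ⟨h1, s, rfl⟩
        have h3 := (out_refl_aux hu oo oo up up (Ω := St (T + 1)) (Ω' := St (T + 1))
          (fun v => k4_refl_mem)).1 h1
        rw [hm2] at h3
        refine ⟨h3, s.map not, ?_⟩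
        rw [List.map_append]
        rfl) (by
        intro s _ t _ hst
        have := congrArg (List.map not) hst
        rwa [map_not_not, map_not_not] at this) 1 (by
        intro t _
        rw [one_mul, wE_map_not])
    rwa [one_mul] at h
  have hdis : Disjoint {t | t ∈ out (St (T + 1)) oo up up ∧ [true] <+: t}
      {t | t ∈ out (St (T + 1)) oo up up ∧ [false] <+: t} := by
    rw [Set.disjoint_left]
    rintro t ⟨_, s, rfl⟩ ⟨_, r, h⟩
    have h1 : [false] ++ r = [true] ++ s := h
    simp only [List.cons_append, List.nil_append, List.cons.injEq, Bool.false_eq_true, false_and] at h1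
  calc 2 * XX T = XX T + XX T := two_mul _
    _ ≤ gf {t | t ∈ out (St (T + 1)) oo up up ∧ [true] <+: t} +
        gf {t | t ∈ out (St (T + 1)) oo up up ∧ [false] <+: t} := add_le_add hP (hP.trans hPQ)
    _ = gf ({t | t ∈ out (St (T + 1)) oo up up ∧ [true] <+: t} ∪
        {t | t ∈ out (St (T + 1)) oo up up ∧ [false] <+: t}) := (gf_union hdis).symm
    _ ≤ gf (out (St (T + 1)) oo up up) := by
      apply gf_mono
      rintro t (h | h)
      · exact h.1
      · exact h.1
    _ = BT (T + 1) := rfl

theorem le_XX {T : ℕ} (hT : 1 ≤ T) : ENNReal.ofReal (Real.sqrt 2 * xc ^ 2) * BT T ≤ XX T := by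
  have h1 : gf (⋃ j, XB.WW T j) ≤ XX T := by
    apply gf_mono
    intro w hw
    rw [Set.mem_iUnion] at hw
    obtain ⟨j, t, ht, rfl⟩ := hw
    exact XB.ww_mem hT j ht
  rw [K1.gf_iUnion _ (XB.ww_disj T)] at h1
  refine le_trans ?_ h1
  have h2 : ENNReal.ofReal (Real.sqrt 2 * xc ^ 2) = ∑' j : ℕ, ENNReal.ofReal (xc ^ (2 * j + 2)) := by
    rw [← XB.xc_num.tsum_eq]
    exact ENNReal.ofReal_tsum_of_nonneg (fun j => pow_nonneg xc_pos.le _) XB.xc_num.summable
  rw [h2, ← ENNReal.tsum_mul_right]
  exact ENNReal.tsum_le_tsum (fun j => XB.gf_WW T j)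

end SP

end HexObs
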