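import Pool.Agent.HexStep.Alg

/-!
STEP, C3b: reversal of the single walks.
-/

set_option autoImplicit false

namespace HexObs

namespace SP

open Complex Finset ENNReal

private lemma c3b_IsHex {v : Pt} (h : IsHex oo up v) : (v.1 - v.2) % 3 ≠ 1 := by
  have h1 : cl oo = 0 := by decide
  have h2 : cl up = -1 := by decide
  unfold IsHex at h
  rw [h1, h2] at h
  intro h3
  have h4 : cl v = 1 := by
    unfold cl
    have : (v.1 - v.2) = 3 * ((v.1 - v.2) / 3) + 1 := by omega
    rw [this]
    push_cast
    have h5 : (3 : ZMod 3) = 0 := by decide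
    rw [h5]
    ring
  rw [h4] at h
  revert h
  decide

private lemma c3b_ip (v : Pt) : ip (v - oo) up = lv v := by
  unfold ip up oo lv
  simp only [Prod.fst_sub, Prod.snd_sub]
  ring

/-- the end of a bridge is above a top. -/
private lemma c3b_tip {T : ℕ} {t : List Bool} (h : t ∈ Br (St (T + 1)) ∅ (ft 0) up) (h1 : 1 ≤ t.length) :
    ∃ z : ℤ, tip (ft 0) up t = tq T z := by
  have hft : ft 0 = oo := by
    unfold ft foot
    rw [zero_smul, add_zero]
  rw [hft] at h ⊢
  obtain ⟨hs, ht, hd⟩ := h
  have hv := (hs.mem t.length h1 le_rfl).1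
  have hx : IsHex oo up (tip oo up t) := vx_hex oo up t (t.length + 1)
  have htv : tip oo up t = vx oo up t t.length + up := by
    have h8 : tip oo up t = vx oo up t t.length + dx up t t.length := rfl
    rw [h8, hd]
  obtain ⟨w, hw⟩ : ∃ w, w = vx oo up t t.length := ⟨_, rfl⟩
  rw [← hw] at hv htv
  obtain ⟨hv1, hv2, hv3⟩ := hv
  have h3 := c3b_IsHex hx
  have h4 := c3b_IsHex hv1
  have h5 : ¬ (0 < lv (tip oo up t) ∧ lv (tip oo up t) < 3 * ((T + 1 : ℕ) : ℤ) + 2) := by
    intro h6
    apply ht
    refine ⟨hx, ?_, ?_⟩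
    · rw [c3b_ip]
      exact h6.1
    · rw [c3b_ip]
      exact h6.2
  rw [c3b_ip] at hv2 hv3
  rw [htv] at h3 h5 ⊢
  obtain ⟨a, b⟩ := w
  unfold lv up at *
  simp only [Prod.fst_add, Prod.snd_add, Prod.mk_add_mk] at *
  refine ⟨2 * T + 3 - (b + 1), ?_⟩
  unfold tq
  ext
  · push_cast at *
    omega
  · push_cast at *
    omega

theorem XX_le (T : ℕ) : XX T ≤ ENNReal.ofReal xc * ∑' z : ℤ, xT T z := by
  have key : ∀ t ∈ BrA (St (T + 1)) ∅ 0, ∃ u : List Bool, rev t = u ++ [false] ∧ ∃ z : ℤ,
      Saw (Om T) (tq T z) (-up) u ∧ tip (tq T z) (-up) u = ue 0 ∧ dx (-up) u u.length = (1, -1) := by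
    rintro t ⟨hB, hpre, hout⟩
    have e0 : SP.pre 0 = [true] := if_pos rfl
    rw [e0] at hpre hout
    obtain ⟨t', rfl⟩ := hpre
    have hl : ([true] ++ t').length = t'.length + 1 := by simp
    obtain ⟨z, hz⟩ := c3b_tip hB (by rw [hl]; omega)
    obtain ⟨hs, ht, hd⟩ := hB
    have hft : ft 0 = oo := by
      unfold ft foot
      rw [zero_smul, add_zero]
    have hrev : rev ([true] ++ t') = rev t' ++ [false] := by
      simp [rev]
    have hul : (rev t').length = t'.length := rev_length t'
    have key := vx_rev (ft 0) up ([true] ++ t')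
    rw [hz, hd, hrev, hl] at key
    have keyd := dx_rev up ([true] ++ t')
    rw [hd, hrev, hl] at keyd
    refine ⟨rev t', hrev, z, ⟨?_, ?_⟩, ?_, ?_⟩
    · intro i hi1 hi2
      rw [hul] at hi2
      have h1 := key i (by omega)
      rw [vx_append (by rw [hul]; omega)] at h1
      rw [h1]
      refine ⟨(hs.mem _ (by omega) (by rw [hl]; omega)).1, hout _ ?_ (by rw [hl]; omega)⟩
      simp only [List.length_cons, List.length_nil]
      omega
    · intro i k hik hk
      rw [hul] at hk
      have h1 := key i (by omega)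
      have h2 := key k (by omega)
      rw [vx_append (by rw [hul]; omega)] at h1 h2
      rw [h1, h2]
      rcases Nat.eq_zero_or_pos i with hi | hi
      · rw [hi, Nat.sub_zero]
        intro heq
        have h3 : vx (ft 0) up ([true] ++ t') (t'.length + 1 + 1 - k) ∈ St (T + 1) :=
          (hs.mem _ (by omega) (by rw [hl]; omega)).1
        rw [← heq] at h3
        apply ht
        unfold tip
        rw [hl]
        exact h3
      · exact (hs.inj _ _ (by omega) (by rw [hl]; omega)).symm
    · have h1 := key (t'.length + 1) (by omega)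
      unfold tip
      rw [hul]
      rw [vx_append (by rw [hul])] at h1
      rw [h1, hft]
      have e : t'.length + 1 + 1 - (t'.length + 1) = 1 := by omega
      rw [e]
      show oo + up = ue 0
      decide
    · have h1 := keyd t'.length (by omega)
      rw [dx_append (by rw [hul])] at h1
      rw [hul, h1]
      have e : t'.length + 1 - t'.length = 1 := by omega
      rw [e]
      show -(turn true up) = (1, -1)
      decide
  -- the map
  have h1 : XX T ≤ ENNReal.ofReal xc * gf (⋃ z : ℤ, {t | Saw (Om T) (tq T z) (-up) t ∧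
      tip (tq T z) (-up) t = ue 0 ∧ dx (-up) t t.length = (1, -1)}) := by
    unfold XX
    refine gf_le_of_inj (fun t => (rev t).dropLast) ?_ ?_ (ENNReal.ofReal xc) ?_
    · intro t ht
      obtain ⟨u, hu, z, hz⟩ := key t ht
      rw [Set.mem_iUnion]
      refine ⟨z, ?_⟩
      show Saw (Om T) (tq T z) (-up) (rev t).dropLast ∧ _
      rw [hu, List.dropLast_concat]
      exact hz
    · intro s hs t ht hst
      obtain ⟨u, hu, -⟩ := key s hs
      obtain ⟨u', hu', -⟩ := key t ht
      have h2 : (rev s).dropLast = (rev t).dropLast := hst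
      rw [hu, hu', List.dropLast_concat, List.dropLast_concat] at h2
      have h3 : rev s = rev t := by rw [hu, hu', h2]
      rw [← rev_rev s, h3, rev_rev]
    · intro t ht
      obtain ⟨u, hu, -⟩ := key t ht
      show wE t ≤ ENNReal.ofReal xc * wE (rev t).dropLast
      rw [← wE_rev t, hu, List.dropLast_concat, wE_append, mul_comm]
      refine mul_le_mul_left (le_of_eq ?_) _
      unfold wE
      simp
  refine h1.trans (mul_le_mul_right ?_ _)
  unfold gf xT gf
  exact ENNReal.tsum_iUnion_le_tsum wE _

end SP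

end HexObs
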