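import Pool.Agent.HexStep.Two
import Pool.Agent.HexStep.ArcCut
import Pool.Agent.HexStep.ImTop
import Pool.Agent.HexStep.KStep
import Pool.Agent.HexStep.XRev
import Pool.Agent.HexStep.XBound
import Pool.Agent.HexStep.NumStep

/-!
STEP, D2: B_T >= c T^(1 - sqrt 2).
-/

set_option autoImplicit false

namespace HexObs

namespace SP

open Complex Finset ENNReal

theorem K_step {T : ℕ} (hT : 1 ≤ T) :
    ENNReal.ofReal (Real.sqrt 2 - 1) * (∑' z : ℤ, xT T z) + KT T ≤ KT (T + 1) :=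
  K_step_of hT (fun z => im_top hT z)

namespace Mn

lemma xc_cos : 2 * xc * Real.cos (Real.pi / 8) = 1 := by
  have h := W47.cos8_pos
  unfold xc
  field_simp

lemma xc_sq' : xc ^ 2 = 1 - 1 / Real.sqrt 2 := by
  rw [xc_sq]
  have h2 : Real.sqrt 2 * Real.sqrt 2 = 2 := Real.mul_self_sqrt (by norm_num)
  have h3 : 0 < Real.sqrt 2 := by positivity
  rw [eq_sub_iff_add_eq, div_add_div _ _ (by positivity) h3.ne', div_eq_one_iff_eq (by positivity)]
  nlinarith

lemma loss2 {T : ℕ} (hT : 1 ≤ T) : bT T - bT (T + 1) ≤ Real.sqrt 2 * (PP T 0 1).toReal := by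
  have hx : 0 < xc⁻¹ := inv_pos.2 xc_pos
  have h1 : AT (T + 1) ≤ AT T + 2 * (ENNReal.ofReal xc⁻¹ * PP T 0 1) := AT_step2 hT
  have hfin : AT T + 2 * (ENNReal.ofReal xc⁻¹ * PP T 0 1) ≠ ∞ := by
    apply ENNReal.add_ne_top.2 ⟨AT_ne_top hT, ?_⟩
    exact ENNReal.mul_ne_top (by norm_num)
      (ENNReal.mul_ne_top ENNReal.ofReal_ne_top (PP_ne_top T 0 1))
  have h2 := ENNReal.toReal_mono hfin h1
  rw [ENNReal.toReal_add (AT_ne_top hT) (ENNReal.mul_ne_top (by norm_num)
      (ENNReal.mul_ne_top ENNReal.ofReal_ne_top (PP_ne_top T 0 1))),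
    ENNReal.toReal_mul, ENNReal.toReal_mul, ENNReal.toReal_ofReal hx.le] at h2
  have h3 : aT (T + 1) ≤ aT T + 2 * (xc⁻¹ * (PP T 0 1).toReal) := by
    simpa [aT] using h2
  have h4 := bT_add_aT hT
  have h5 := bT_add_aT (T := T + 1) (by omega)
  have h6 := kappa_eq
  have h7 : Real.cos (3 * Real.pi / 8) * aT (T + 1) ≤
      Real.cos (3 * Real.pi / 8) * (aT T + 2 * (xc⁻¹ * (PP T 0 1).toReal)) :=
    mul_le_mul_of_nonneg_left h3 cos3_pos.le
  have h8 : Real.cos (3 * Real.pi / 8) * (2 * (xc⁻¹ * (PP T 0 1).toReal)) =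
      Real.sqrt 2 * (PP T 0 1).toReal := by
    calc Real.cos (3 * Real.pi / 8) * (2 * (xc⁻¹ * (PP T 0 1).toReal)) =
        2 * (Real.cos (3 * Real.pi / 8) * xc⁻¹) * (PP T 0 1).toReal := by ring
      _ = _ := by rw [h6]; ring
  linarith

end Mn

open Mn in
theorem step_all : ∃ c : ℝ, 0 < c ∧ (∀ T : ℕ, 1 ≤ T → c * (T : ℝ) ^ (1 - Real.sqrt 2) ≤ bT T) ∧
    (∀ T : ℕ, 1 ≤ T → c * (T : ℝ) ^ (2 - Real.sqrt 2) ≤ (KT (T + 1)).toReal) := by
  have hx := xc_pos
  have hc := W47.cos8_pos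
  have hxc := xc_cos
  have hs2 : 0 < Real.sqrt 2 := by positivity
  have h22 : Real.sqrt 2 * Real.sqrt 2 = 2 := Real.mul_self_sqrt (by norm_num)
  refine num_step (b := bT) (K := fun T => (KT T).toReal) (x := fun T => (XX T).toReal / xc)
    (c0 := Real.sqrt 2 * xc) (by positivity) (fun T hT => bT_pos hT) (fun T hT => bT_antitone hT)
    ?_ (fun T _ => ENNReal.toReal_nonneg) ?_ ?_ ?_ ?_
  · have h := bT_add_aT le_rfl
    have := mul_nonneg cos3_pos.le (aT_nonneg 1)
    linarith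
  · intro T hT
    obtain ⟨_, h2⟩ := two hT
    have h1 := loss2 hT
    have hK : 0 ≤ (KT T).toReal + Real.sqrt 2 * Real.cos (Real.pi / 8) := by positivity
    calc (bT T - bT (T + 1)) * ((KT T).toReal + Real.sqrt 2 * Real.cos (Real.pi / 8)) ≤
        Real.sqrt 2 * (PP T 0 1).toReal * ((KT T).toReal + Real.sqrt 2 * Real.cos (Real.pi / 8)) :=
          mul_le_mul_of_nonneg_right h1 hK
      _ = Real.sqrt 2 * ((PP T 0 1).toReal * ((KT T).toReal + Real.sqrt 2 * Real.cos (Real.pi / 8))) := by ring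
      _ ≤ Real.sqrt 2 * (Real.sqrt 2 * Real.cos (Real.pi / 8) * xc ^ 2 * (XX T).toReal * bT T) :=
          mul_le_mul_of_nonneg_left h2 hs2.le
      _ = (Real.sqrt 2 * Real.sqrt 2) * Real.cos (Real.pi / 8) * xc ^ 2 * (XX T).toReal * bT T := by ring
      _ = (2 * xc * Real.cos (Real.pi / 8)) * xc * (XX T).toReal * bT T := by rw [h22]; ring
      _ = xc ^ 2 * ((XX T).toReal / xc) * bT T := by
          rw [hxc]
          field_simp
      _ = (1 - 1 / Real.sqrt 2) * ((XX T).toReal / xc) * bT T := by rw [xc_sq']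
  · intro T hT
    have h1 := K_step hT
    have h2 := XX_le T
    obtain ⟨hK, _⟩ := two hT
    obtain ⟨hK', _⟩ := two (T := T + 1) (by omega)
    have h3 := ENNReal.toReal_mono hK' h1
    have ht : 0 < Real.sqrt 2 - 1 := by
      have : 1 < Real.sqrt 2 := by
        rw [Real.lt_sqrt (by norm_num)]; norm_num
      linarith
    have hS : (∑' z : ℤ, xT T z) ≠ ∞ := by
      intro hS
      rw [hS, ENNReal.mul_top (by
        rw [Ne, ENNReal.ofReal_eq_zero]
        push Not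
        exact ht), top_add, top_le_iff] at h1
      exact hK' h1
    rw [ENNReal.toReal_add (ENNReal.mul_ne_top ENNReal.ofReal_ne_top hS) hK, ENNReal.toReal_mul,
      ENNReal.toReal_ofReal ht.le] at h3
    have h4 := ENNReal.toReal_mono (ENNReal.mul_ne_top ENNReal.ofReal_ne_top hS) h2
    rw [ENNReal.toReal_mul, ENNReal.toReal_ofReal hx.le] at h4
    have h5 : (XX T).toReal / xc ≤ (∑' z : ℤ, xT T z).toReal := by
      rw [div_le_iff₀ hx]
      linarith
    have h6 := mul_le_mul_of_nonneg_left h5 ht.le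
    show (KT T).toReal + (Real.sqrt 2 - 1) * ((XX T).toReal / xc) ≤ (KT (T + 1)).toReal
    linarith
  · intro T hT
    have h1 := ENNReal.toReal_mono (XX_ne_top T) (le_XX hT)
    rw [ENNReal.toReal_mul, ENNReal.toReal_ofReal (by positivity)] at h1
    show Real.sqrt 2 * xc * bT T ≤ (XX T).toReal / xc
    rw [le_div_iff₀ hx]
    calc Real.sqrt 2 * xc * bT T * xc = Real.sqrt 2 * xc ^ 2 * bT T := by ring
      _ ≤ (XX T).toReal := h1
  · intro T hT
    have h1 := ENNReal.toReal_mono (BT_ne_top (T := T + 1) (by omega)) (two_XX_le T)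
    rw [ENNReal.toReal_mul] at h1
    have h2 : 2 * (XX T).toReal ≤ bT (T + 1) := by
      simpa [bT] using h1
    show (XX T).toReal / xc ≤ Real.cos (Real.pi / 8) * bT (T + 1)
    rw [div_le_iff₀ hx]
    calc (XX T).toReal ≤ (1 / 2) * bT (T + 1) := by linarith
      _ = Real.cos (Real.pi / 8) * bT (T + 1) * xc := by
          have : (1 : ℝ) / 2 = xc * Real.cos (Real.pi / 8) := by linarith
          rw [this]
          ring

theorem step_main : ∃ c : ℝ, 0 < c ∧ ∀ T : ℕ, 1 ≤ T → c * (T : ℝ) ^ (1 - Real.sqrt 2) ≤ bT T := by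
  obtain ⟨c, h0, h1, _⟩ := step_all
  exact ⟨c, h0, h1⟩

end SP

end HexObs
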