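import Pool.Agent.HexStep.ImTopGe
import Pool.Agent.HexStep.Main

/-!
STEP: the upper half of the identity K (T + 1) = K T + (sqrt 2 - 1) sum xT, and K (T + 1) <= K T + C B (T + 1).
-/

set_option autoImplicit false

namespace HexObs

namespace SP

open Complex Finset ENNReal Filter Topology

namespace KU

/-- bad sets that every point leaves have small mass. -/
lemma tannery {α : Type*} {f : α → ℝ≥0∞} (hf : ∑' a, f a ≠ ∞) {B : ℕ → Set α}
    (hB : ∀ a, ∃ M, ∀ m, M ≤ m → a ∉ B m) {ε : ℝ≥0∞} (hε : 0 < ε) :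
    ∃ M, ∀ m, M ≤ m → ∑' a, (B m).indicator f a ≤ ε := by
  classical
  have h1 := ENNReal.tendsto_tsum_compl_atTop_zero hf
  obtain ⟨s, hs⟩ := (h1.eventually (ge_mem_nhds hε)).exists
  choose M0 hM0 using hB
  refine ⟨s.sup M0, fun m hm => ?_⟩
  refine le_trans ?_ hs
  have h2 : (∑' b : {x // x ∉ s}, f b) = ∑' a, ({x | x ∉ s} : Set α).indicator f a :=
    tsum_subtype {x | x ∉ s} f
  rw [h2]
  apply ENNReal.tsum_le_tsum
  intro a
  by_cases ha : a ∈ B m
  · have has : a ∉ s := by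
      intro has
      exact hM0 a m ((Finset.le_sup (f := M0) has).trans hm) ha
    rw [Set.indicator_of_mem ha, Set.indicator_of_mem (show a ∈ {x | x ∉ s} from has)]
  · rw [Set.indicator_of_notMem ha]
    exact zero_le

lemma diag (g : ℕ → ℝ≥0∞) : ∑' i : ℕ, ∑' j : ℕ, g (i + j) = ∑' n : ℕ, ((n : ℝ≥0∞) + 1) * g n := by
  have h0 : ∑' i : ℕ, ∑' j : ℕ, g (i + j) = ∑' x : ℕ × ℕ, g (x.1 + x.2) :=
    (ENNReal.tsum_prod (f := fun i j => g (i + j))).symm
  rw [h0, ← Equiv.tsum_eq (Finset.HasAntidiagonal.sigmaAntidiagonalEquivProd (A := ℕ)) (fun x : ℕ × ℕ => g (x.1 + x.2)),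
    ENNReal.tsum_sigma']
  apply tsum_congr
  intro n
  rw [tsum_fintype]
  have h1 : ∀ x : (Finset.HasAntidiagonal.antidiagonal n : Finset (ℕ × ℕ)),
      g ((Finset.HasAntidiagonal.sigmaAntidiagonalEquivProd (A := ℕ) ⟨n, x⟩).1 + (Finset.HasAntidiagonal.sigmaAntidiagonalEquivProd (A := ℕ) ⟨n, x⟩).2) = g n := by
    rintro ⟨x, hx⟩
    rw [Finset.HasAntidiagonal.mem_antidiagonal] at hx
    show g (x.1 + x.2) = g n
    rw [hx]
  rw [Finset.sum_congr rfl (fun x _ => h1 x), Finset.sum_const, Finset.card_univ, Fintype.card_coe,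
    Finset.Nat.card_antidiagonal, nsmul_eq_mul]
  push_cast
  rfl

/-- windows: rows on the left of m, columns on the right. -/
lemma reR {I : Finset ℤ} {m : ℤ} (hI : ∀ z ∈ I, z ≤ m) (h : ℤ → ℤ → ℝ≥0∞) :
    ∑ z ∈ I, (∑' b : ℤ, if m < b then h z b else 0) ≤ ∑' i : ℕ, ∑' j : ℕ, h (m - i) (m + 1 + j) := by
  have h1 : ∀ z ∈ I, (∑' b : ℤ, if m < b then h z b else 0) = ∑' j : ℕ, h (m - ((m - z).toNat : ℕ)) (m + 1 + j) := by
    intro z hz
    have hzm := hI z hz
    have hinj : Function.Injective (fun j : ℕ => m + 1 + (j : ℤ)) := by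
      intro a b h
      simp only at h
      omega
    rw [← hinj.tsum_eq]
    · apply tsum_congr
      intro j
      rw [if_pos (by omega)]
      congr 1
      omega
    · intro b hb
      rw [Function.mem_support] at hb
      have hbm : m < b := by
        by_contra h
        exact hb (if_neg h)
      exact ⟨(b - m - 1).toNat, by simp only; omega⟩
  rw [Finset.sum_congr rfl h1]
  have h2 : Set.InjOn (fun z : ℤ => (m - z).toNat) (I : Set ℤ) := by
    intro a ha b hb h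
    have ha' := hI a ha
    have hb' := hI b hb
    simp only at h
    omega
  rw [← Finset.sum_image (f := fun i : ℕ => ∑' j : ℕ, h (m - (i : ℤ)) (m + 1 + j)) (g := fun z : ℤ => (m - z).toNat) h2]
  exact ENNReal.sum_le_tsum _

/-- windows: rows on the right of m, columns on the left. -/
lemma reL {I : Finset ℤ} {m : ℤ} (hI : ∀ z ∈ I, m < z) (h : ℤ → ℤ → ℝ≥0∞) :
    ∑ z ∈ I, (∑' b : ℤ, if b ≤ m then h z b else 0) ≤ ∑' i : ℕ, ∑' j : ℕ, h (m + 1 + i) (m - j) := by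
  have h1 : ∀ z ∈ I, (∑' b : ℤ, if b ≤ m then h z b else 0) =
      ∑' j : ℕ, h (m + 1 + ((z - m - 1).toNat : ℕ)) (m - j) := by
    intro z hz
    have hzm := hI z hz
    have hinj : Function.Injective (fun j : ℕ => m - (j : ℤ)) := by
      intro a b h
      simp only at h
      omega
    rw [← hinj.tsum_eq]
    · apply tsum_congr
      intro j
      rw [if_pos (by omega)]
      congr 1
      omega
    · intro b hb
      rw [Function.mem_support] at hb
      have hbm : b ≤ m := by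
        by_contra h
        exact hb (if_neg h)
      exact ⟨(m - b).toNat, by simp only; omega⟩
  rw [Finset.sum_congr rfl h1]
  have h2 : Set.InjOn (fun z : ℤ => (z - m - 1).toNat) (I : Set ℤ) := by
    intro a ha b hb h
    have ha' := hI a ha
    have hb' := hI b hb
    simp only at h
    omega
  rw [← Finset.sum_image (f := fun i : ℕ => ∑' j : ℕ, h (m + 1 + (i : ℤ)) (m - j)) (g := fun z : ℤ => (z - m - 1).toNat) h2]
  exact ENNReal.sum_le_tsum _

lemma geL {I : Finset ℤ} {m : ℤ} {N : ℕ} (hI : ∀ z : ℤ, m < z → z ≤ m + N → z ∈ I)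
    (hI2 : ∀ z ∈ I, m < z) (g : ℕ → ℝ≥0∞) :
    ∑ n ∈ Finset.range N, ((n : ℝ≥0∞) + 1) * g (n + 1) ≤
      ∑ z ∈ I, (∑' b : ℤ, if b ≤ m then g (z - b).natAbs else 0) := by
  have h1 : ∀ z ∈ I, ∑' j : ℕ, g ((z - m - 1).toNat + j + 1) = (∑' b : ℤ, if b ≤ m then g (z - b).natAbs else 0) := by
    intro z hz
    have hzm := hI2 z hz
    have hinj : Function.Injective (fun j : ℕ => m - (j : ℤ)) := by
      intro a b h
      simp only at h
      omega
    rw [← hinj.tsum_eq (f := fun b : ℤ => if b ≤ m then g (z - b).natAbs else 0)]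
    · apply tsum_congr
      intro j
      rw [if_pos (by omega)]
      congr 1
      omega
    · intro b hb
      rw [Function.mem_support] at hb
      have hbm : b ≤ m := by
        by_contra h
        exact hb (if_neg h)
      exact ⟨(m - b).toNat, by simp only; omega⟩
  rw [← Finset.sum_congr rfl h1]
  have h2 : Set.InjOn (fun z : ℤ => (z - m - 1).toNat) (I : Set ℤ) := by
    intro a ha b hb h
    have ha' := hI2 a ha
    have hb' := hI2 b hb
    simp only at h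
    omega
  rw [← Finset.sum_image (f := fun i : ℕ => ∑' j : ℕ, g (i + j + 1)) (g := fun z : ℤ => (z - m - 1).toNat) h2]
  have h3 : Finset.range N ⊆ I.image (fun z : ℤ => (z - m - 1).toNat) := by
    intro i hi
    rw [Finset.mem_range] at hi
    rw [Finset.mem_image]
    exact ⟨m + 1 + i, hI _ (by omega) (by omega), by omega⟩
  refine le_trans ?_ (Finset.sum_le_sum_of_subset h3)
  set g' : ℕ → ℝ≥0∞ := fun n => if n < N then g (n + 1) else 0 with hg'
  have h4 : ∑ n ∈ Finset.range N, ((n : ℝ≥0∞) + 1) * g (n + 1) = ∑' n : ℕ, ((n : ℝ≥0∞) + 1) * g' n := by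
    rw [tsum_eq_sum (s := Finset.range N)]
    · apply Finset.sum_congr rfl
      intro n hn
      rw [hg']
      simp only
      rw [if_pos (Finset.mem_range.1 hn)]
    · intro n hn
      rw [hg']
      simp only
      rw [if_neg (fun h => hn (Finset.mem_range.2 h)), mul_zero]
  rw [h4, ← diag, tsum_eq_sum (s := Finset.range N)]
  · apply Finset.sum_le_sum
    intro i _
    apply ENNReal.tsum_le_tsum
    intro j
    rw [hg']
    simp only
    split_ifs
    · exact le_rfl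
    · exact zero_le
  · intro i hi
    rw [Finset.mem_range, not_lt] at hi
    rw [ENNReal.tsum_eq_zero]
    intro j
    rw [hg']
    simp only
    rw [if_neg (by omega)]

lemma aT'_top {T : ℕ} {z b : ℤ} (h : z ≠ b) : aT' T z b ≠ ∞ := by
  have h1 : (z - b).natAbs = (z - b).natAbs - 1 + 1 := by omega
  have h2 : GG (T + 1) (z - b).natAbs ≤ ∑' k : ℕ, GG (T + 1) (k + 1) := by
    rw [h1]
    exact ENNReal.le_tsum (f := fun k : ℕ => GG (T + 1) (k + 1)) _
  have h3 : ∑' k : ℕ, GG (T + 1) (k + 1) ≤ AT (T + 1) := by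
    rw [arcs_total (by omega), two_mul]
    exact le_self_add
  exact ne_top_of_le_ne_top (AT_ne_top (by omega)) ((aT'_le T z b).trans (h2.trans h3))

/-- the finite sum of the identities, upper half. -/
lemma fin_up {T : ℕ} (hT : 1 ≤ T) {m1 m2 : ℤ} (I : Finset ℤ) (hI : I = Finset.Ioc m1 m2) :
    ∑ z ∈ I, (∑' b : ℤ, if b ≤ m1 then aT' T z b else 0) ≤
    ENNReal.ofReal (Real.sqrt 2 - 1) * (∑ z ∈ I, xT T z) +
      ∑ z ∈ I, (∑' b : ℤ, if m2 < b then aT' T z b else 0) := by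
  have hmem : ∀ z, z ∈ I ↔ m1 < z ∧ z ≤ m2 := by
    intro z
    rw [hI, Finset.mem_Ioc]
  set P : ℝ≥0∞ := ∑ z ∈ I, ∑ b ∈ I, (if z < b then aT' T z b else 0) with hP
  have hPQ : ∑ z ∈ I, ∑ b ∈ I, (if b < z then aT' T z b else 0) = P := by
    rw [hP, Finset.sum_comm]
    apply Finset.sum_congr rfl
    intro z _
    apply Finset.sum_congr rfl
    intro b _
    rw [aT'_symm]
  have hPtop : P ≠ ∞ := by
    rw [hP]
    apply ENNReal.sum_ne_top.2
    intro z _
    apply ENNReal.sum_ne_top.2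
    intro b _
    split_ifs with h
    · exact aT'_top (by omega)
    · exact ENNReal.zero_ne_top
  have h1 : ∀ z ∈ I, (∑' b : ℤ, if z < b then aT' T z b else 0) =
      ∑ b ∈ I, (if z < b then aT' T z b else 0) + ∑' b : ℤ, (if m2 < b then aT' T z b else 0) := by
    intro z hz
    rw [hmem] at hz
    have e1 : ∑ b ∈ I, (if z < b then aT' T z b else 0) = ∑' b : ℤ, (if z < b ∧ b ≤ m2 then aT' T z b else 0) := by
      rw [tsum_eq_sum (s := I)]
      · apply Finset.sum_congr rfl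
        intro b hb
        rw [hmem] at hb
        by_cases h : z < b
        · rw [if_pos h, if_pos ⟨h, hb.2⟩]
        · rw [if_neg h, if_neg (fun h' => h h'.1)]
      · intro b hb
        rw [hmem] at hb
        apply if_neg
        rintro ⟨h, h'⟩
        exact hb ⟨by omega, h'⟩
    rw [e1, ← ENNReal.tsum_add]
    apply tsum_congr
    intro b
    by_cases h : z < b
    · by_cases h' : b ≤ m2
      · rw [if_pos h, if_pos ⟨h, h'⟩, if_neg (by omega), add_zero]
      · rw [if_pos h, if_neg (fun h2 => h' h2.2), if_pos (by omega), zero_add]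
    · rw [if_neg h, if_neg (fun h2 => h h2.1), if_neg (by omega), add_zero]
  have h2 : ∀ z ∈ I, (∑' b : ℤ, if b < z then aT' T z b else 0) =
      ∑ b ∈ I, (if b < z then aT' T z b else 0) + ∑' b : ℤ, (if b ≤ m1 then aT' T z b else 0) := by
    intro z hz
    rw [hmem] at hz
    have e1 : ∑ b ∈ I, (if b < z then aT' T z b else 0) = ∑' b : ℤ, (if b < z ∧ m1 < b then aT' T z b else 0) := by
      rw [tsum_eq_sum (s := I)]
      · apply Finset.sum_congr rfl
        intro b hb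
        rw [hmem] at hb
        by_cases h : b < z
        · rw [if_pos h, if_pos ⟨h, hb.1⟩]
        · rw [if_neg h, if_neg (fun h' => h h'.1)]
      · intro b hb
        rw [hmem] at hb
        apply if_neg
        rintro ⟨h, h'⟩
        exact hb ⟨h', by omega⟩
    rw [e1, ← ENNReal.tsum_add]
    apply tsum_congr
    intro b
    by_cases h : b < z
    · by_cases h' : m1 < b
      · rw [if_pos h, if_pos ⟨h, h'⟩, if_neg (by omega), add_zero]
      · rw [if_pos h, if_neg (fun h2 => h' h2.2), if_pos (by omega), zero_add]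
    · rw [if_neg h, if_neg (fun h2 => h h2.1), if_neg (by omega), add_zero]
  have h3 : ∑ z ∈ I, (∑' b : ℤ, if b < z then aT' T z b else 0) ≤
      ∑ z ∈ I, (ENNReal.ofReal (Real.sqrt 2 - 1) * xT T z + (∑' b : ℤ, if z < b then aT' T z b else 0)) :=
    Finset.sum_le_sum (fun z _ => im_top_ge hT z)
  rw [Finset.sum_add_distrib, ← Finset.mul_sum, Finset.sum_congr rfl h1, Finset.sum_congr rfl h2,
    Finset.sum_add_distrib, Finset.sum_add_distrib, hPQ, ← hP] at h3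
  have h4 : P + ∑ z ∈ I, (∑' b : ℤ, if b ≤ m1 then aT' T z b else 0) ≤
      P + (ENNReal.ofReal (Real.sqrt 2 - 1) * (∑ z ∈ I, xT T z) +
      ∑ z ∈ I, (∑' b : ℤ, if m2 < b then aT' T z b else 0)) := by
    refine le_trans h3 (le_of_eq ?_)
    ring
  exact (ENNReal.add_le_add_iff_left hPtop).1 h4

/-! ### the arcs as words from the origin -/

/-- arcs of St (T + 1) with displacement k. -/
def AA (T : ℕ) (k : ℤ) : Set (List Bool) := Arc (St (T + 1)) ∅ oo up (foot oo up k)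

/-- arcs that touch the first row on the left of the step. -/
def BR (T : ℕ) (z b : ℤ) : Set (List Bool) :=
  {t | t ∈ AA T (z - b) ∧ ∃ l, 1 ≤ l ∧ l ≤ t.length ∧ lv (tq T z - vx oo up t l) ≤ 3 ∧ nn (tq T z - vx oo up t l) < -1}

/-- arcs that touch OO. -/
def BL (T : ℕ) (z b : ℤ) : Set (List Bool) :=
  {t | t ∈ AA T (z - b) ∧ ∃ l, 1 ≤ l ∧ l ≤ t.length ∧ tq T z - vx oo up t l ∈ OO}

lemma dx_neg (t : List Bool) (i : ℕ) : dx (-up) t i = - dx up t i := by
  have h := dx_mulE (-1, 0) up t i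
  have e : mulE (-1, 0) up = -up := by decide
  have e2 : ∀ p : Pt, mulE (-1, 0) p = -p := by
    intro p
    ext <;> simp [mulE]
  rw [e, e2] at h
  exact h

lemma lv_sub (T : ℕ) (z : ℤ) (v : Pt) : lv (tq T z - v) = 3 * T + 5 - lv v := by
  unfold tq lv
  simp only [Prod.fst_sub, Prod.snd_sub]
  ring

lemma tq_foot (T : ℕ) (z b : ℤ) : tq T z - foot oo up (z - b) = tq T b := by
  rw [k4_foot]
  unfold tq
  ext
  · show 2 * z - (T + 1) - 2 * (z - b) = 2 * b - (T + 1)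
    ring
  · show 2 * (T : ℤ) + 3 - z - -(z - b) = 2 * T + 3 - b
    ring

lemma tq_notMem (T : ℕ) (z : ℤ) : tq T z ∉ St (T + 1) := by
  intro h
  have h1 := (ImTop.mem_St1.1 h).2.2
  have h2 := ImTop.lv_tq T z
  rw [h2] at h1
  push_cast at h1
  omega

lemma st_turn {T : ℕ} (z : ℤ) {v : Pt} : tq T z - v ∈ St (T + 1) ↔ v ∈ St (T + 1) := by
  rw [ImTop.mem_St1, ImTop.mem_St1, lv_sub]
  push_cast
  constructor <;> rintro ⟨h1, h2, h3⟩ <;> refine ⟨?_, ?_, ?_⟩ <;> omega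

lemma mem_AA {T : ℕ} {z b : ℤ} {t : List Bool} : t ∈ AA T (z - b) ↔
    Saw (St (T + 1)) (tq T z) (-up) t ∧ tip (tq T z) (-up) t = tq T b ∧ dx (-up) t t.length = up := by
  have hv : ∀ i, vx (tq T z) (-up) t i = tq T z - vx oo up t i := fun i => vx_turned _ _ _
  have htip : tip (tq T z) (-up) t = tq T b ↔ tip oo up t = foot oo up (z - b) := by
    unfold tip
    rw [hv]
    constructor
    · intro h
      have h2 := tq_foot T z b
      exact sub_right_injective (h.trans h2.symm)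
    · intro h
      rw [h, tq_foot]
  have hdx : dx (-up) t t.length = up ↔ dx up t t.length = -up := by
    rw [dx_neg]
    exact neg_eq_iff_eq_neg
  unfold AA Arc Dn
  simp only [Set.mem_ofPred_eq, Set.sdiff_empty]
  rw [htip, hdx]
  constructor
  · rintro ⟨⟨⟨h1, h2⟩, h3, h4⟩, h5⟩
    refine ⟨⟨?_, ?_⟩, h5, h4⟩
    · intro i hi hl
      rw [hv, st_turn]
      exact h1 i hi hl
    · intro i k hik hk heq
      rw [hv, hv] at heq
      exact h2 i k hik hk (sub_right_injective heq)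
  · rintro ⟨⟨h1, h2⟩, h5, h4⟩
    refine ⟨⟨⟨?_, ?_⟩, ?_, h4⟩, h5⟩
    · intro i hi hl
      have := h1 i hi hl
      rw [hv, st_turn] at this
      exact this
    · intro i k hik hk heq
      apply h2 i k hik hk
      rw [hv, hv, heq]
    · rw [h5]
      exact k2_foot_notMem (T + 1) (z - b)

lemma gf_AA (T : ℕ) (k : ℤ) : gf (AA T k) = GG (T + 1) k.natAbs := by
  have h := k3_gf (T + 1) 0 k k.natAbs (by rw [sub_zero]; exact Int.natCast_natAbs k)
  rw [show foot oo up 0 = oo by decide] at h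
  exact h

lemma gf_AA' (T : ℕ) (k : ℤ) : gf (Arc (St T) ∅ oo up (foot oo up k)) = GG T k.natAbs := by
  have h := k3_gf T 0 k k.natAbs (by rw [sub_zero]; exact Int.natCast_natAbs k)
  rw [show foot oo up 0 = oo by decide] at h
  exact h

lemma gf_or {A B C : Set (List Bool)} (h : ∀ t ∈ A, t ∈ B ∨ t ∈ C) : gf A ≤ gf B + gf C := by
  rw [K1.gf_indicator, K1.gf_indicator, K1.gf_indicator, ← ENNReal.tsum_add]
  apply ENNReal.tsum_le_tsum
  intro t
  by_cases ht : t ∈ A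
  · rw [Set.indicator_of_mem ht]
    rcases h t ht with h1 | h1
    · rw [Set.indicator_of_mem h1]
      exact le_self_add
    · rw [Set.indicator_of_mem h1]
      exact le_add_self
  · rw [Set.indicator_of_notMem ht]
    exact zero_le

/-- right half: the arcs of the step domain. -/
lemma right_le (T : ℕ) (z b : ℤ) : aT' T z b ≤ GG T (z - b).natAbs + gf (BR T z b) := by
  rw [← gf_AA' T (z - b)]
  unfold aT'
  apply gf_or
  rintro t ⟨hs, htip, hdx⟩
  have hv : ∀ i, vx (tq T z) (-up) t i = tq T z - vx oo up t i := fun i => vx_turned _ _ _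
  have hA : t ∈ AA T (z - b) :=
    mem_AA.2 ⟨⟨fun i h1 h2 => (hs.mem i h1 h2).1, hs.inj⟩, htip, hdx⟩
  by_cases hlow : ∃ l, 1 ≤ l ∧ l ≤ t.length ∧ lv (tq T z - vx oo up t l) ≤ 3
  · right
    obtain ⟨l, h1, h2, h3⟩ := hlow
    refine ⟨hA, l, h1, h2, h3, ?_⟩
    by_contra h4
    push Not at h4
    have h5 := (hs.mem l h1 h2).2
    rw [hv] at h5
    exact h5 ⟨h3, h4⟩
  · left
    push Not at hlow
    obtain ⟨⟨⟨h1, h2⟩, h3, h4⟩, h5⟩ := hA
    refine ⟨⟨⟨?_, h2⟩, ?_, h4⟩, h5⟩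
    · intro i hi hl
      have h6 := h1 i hi hl
      rw [Set.sdiff_empty] at h6 ⊢
      have h7 := hlow i hi hl
      rw [lv_sub] at h7
      rw [ImTop.mem_St1] at h6 ⊢
      obtain ⟨h8, h9, h10⟩ := h6
      push_cast at h10
      refine ⟨h8, h9, ?_⟩
      omega
    · rw [h5]
      exact k2_foot_notMem T (z - b)

/-- left half. -/
lemma left_le (T : ℕ) (z b : ℤ) : GG (T + 1) (z - b).natAbs ≤ aT' T z b + gf (BL T z b) := by
  rw [← gf_AA T (z - b)]
  unfold aT'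
  apply gf_or
  intro t hA
  have hv : ∀ i, vx (tq T z) (-up) t i = tq T z - vx oo up t i := fun i => vx_turned _ _ _
  by_cases hO : ∃ l, 1 ≤ l ∧ l ≤ t.length ∧ tq T z - vx oo up t l ∈ OO
  · exact Or.inr ⟨hA, hO⟩
  · left
    push Not at hO
    obtain ⟨h1, h2, h3⟩ := mem_AA.1 hA
    refine ⟨⟨?_, h1.inj⟩, h2, h3⟩
    intro i hi hl
    refine ⟨h1.mem i hi hl, ?_⟩
    rw [hv]
    exact hO i hi hl

lemma nn_dir {d : Pt} (hd : d ∈ dirs) : |nn d| ≤ 2 := by
  revert d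
  decide

lemma nn_bd (t : List Bool) (l : ℕ) : |nn (vx oo up t l)| ≤ 2 * l := by
  induction l with
  | zero =>
    show |nn oo| ≤ _
    simp [nn, oo]
  | succ l ih =>
    have h1 : vx oo up t (l + 1) = vx oo up t l + dx up t l := rfl
    have h2 : nn (vx oo up t (l + 1)) = nn (vx oo up t l) + nn (dx up t l) := by
      rw [h1]
      unfold nn
      simp only [Prod.fst_add, Prod.snd_add]
      ring
    have h3 := nn_dir (dx_mem (show up ∈ dirs by decide) t l)
    rw [h2]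
    push_cast
    have h4 := abs_add_le (nn (vx oo up t l)) (nn (dx up t l))
    linarith

lemma nn_sub (T : ℕ) (z : ℤ) (v : Pt) : nn (tq T z - v) = 3 * z - 3 * T - 4 - nn v := by
  unfold tq nn
  simp only [Prod.fst_sub, Prod.snd_sub]
  ring

/-- the total mass. -/
lemma total (T : ℕ) (s : ℤ) (hs : s = 1 ∨ s = -1) :
    ∑' a : ℕ × ℕ × List Bool, (AA T (s * (a.1 + a.2.1 + 1))).indicator wE a.2.2 = KT (T + 1) := by
  rw [ENNReal.tsum_prod' (f := fun a : ℕ × ℕ × List Bool => (AA T (s * (a.1 + a.2.1 + 1))).indicator wE a.2.2)]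
  have h1 : ∀ i : ℕ, ∑' b : ℕ × List Bool, (AA T (s * ((i : ℤ) + b.1 + 1))).indicator wE b.2 =
      ∑' j : ℕ, GG (T + 1) (i + j + 1) := by
    intro i
    rw [ENNReal.tsum_prod' (f := fun b : ℕ × List Bool => (AA T (s * ((i : ℤ) + b.1 + 1))).indicator wE b.2)]
    apply tsum_congr
    intro j
    show ∑' t : List Bool, (AA T (s * ((i : ℤ) + j + 1))).indicator wE t = _
    rw [← K1.gf_indicator, gf_AA]
    congr 1
    rcases hs with h | h <;> rw [h] <;> omega
  rw [tsum_congr h1, diag (fun n => GG (T + 1) (n + 1))]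
  rfl

lemma tailR {T : ℕ} (hT : 1 ≤ T) {ε : ℝ≥0∞} (hε : 0 < ε) :
    ∃ M : ℕ, ∀ m : ℕ, M ≤ m → ∑' i : ℕ, ∑' j : ℕ, gf (BR T ((m : ℤ) - i) (m + 1 + j)) ≤ ε := by
  have hK : KT (T + 1) ≠ ∞ := (two (T := T + 1) (by omega)).1
  have hf := total T (-1) (Or.inr rfl)
  rw [← hf] at hK
  obtain ⟨M, hM⟩ := tannery hK (B := fun m => {a : ℕ × ℕ × List Bool | a.2.2 ∈ BR T ((m : ℤ) - a.1) (m + 1 + a.2.1)})
    (fun a => by
      refine ⟨a.1 + T + 1 + a.2.2.length, fun m hm ha => ?_⟩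
      obtain ⟨-, l, h1, h2, -, h4⟩ := ha
      rw [nn_sub] at h4
      have h5 := abs_le.1 (nn_bd a.2.2 l)
      have h6 : (l : ℤ) ≤ a.2.2.length := by exact_mod_cast h2
      have h7 : ((a.1 + T + 1 + a.2.2.length : ℕ) : ℤ) ≤ m := by exact_mod_cast hm
      push_cast at h7
      linarith [h5.2]) hε
  refine ⟨M, fun m hm => le_trans (le_of_eq ?_) (hM m hm)⟩
  rw [ENNReal.tsum_prod']
  apply tsum_congr
  intro i
  rw [ENNReal.tsum_prod']
  apply tsum_congr
  intro j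
  rw [K1.gf_indicator]
  apply tsum_congr
  intro t
  by_cases ht : t ∈ BR T ((m : ℤ) - i) (m + 1 + j)
  · have h1 : ((i, j, t) : ℕ × ℕ × List Bool) ∈ {a : ℕ × ℕ × List Bool | a.2.2 ∈ BR T ((m : ℤ) - a.1) (m + 1 + a.2.1)} := ht
    rw [Set.indicator_of_mem ht, Set.indicator_of_mem h1]
    have h2 : t ∈ AA T (-1 * ((i : ℤ) + j + 1)) := by
      have h3 := ht.1
      rw [show (m : ℤ) - i - (m + 1 + j) = -1 * ((i : ℤ) + j + 1) by ring] at h3
      exact h3
    show wE t = (AA T (-1 * ((i : ℤ) + j + 1))).indicator wE t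
    rw [Set.indicator_of_mem h2]
  · have h1 : ((i, j, t) : ℕ × ℕ × List Bool) ∉ {a : ℕ × ℕ × List Bool | a.2.2 ∈ BR T ((m : ℤ) - a.1) (m + 1 + a.2.1)} := ht
    rw [Set.indicator_of_notMem ht, Set.indicator_of_notMem h1]

lemma tailL {T : ℕ} (hT : 1 ≤ T) {ε : ℝ≥0∞} (hε : 0 < ε) :
    ∃ M : ℕ, ∀ m : ℕ, M ≤ m → ∑' i : ℕ, ∑' j : ℕ, gf (BL T (-(m : ℤ) + 1 + i) (-(m : ℤ) - j)) ≤ ε := by
  have hK : KT (T + 1) ≠ ∞ := (two (T := T + 1) (by omega)).1
  have hf := total T 1 (Or.inl rfl)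
  rw [← hf] at hK
  obtain ⟨M, hM⟩ := tannery hK (B := fun m => {a : ℕ × ℕ × List Bool | a.2.2 ∈ BL T (-(m : ℤ) + 1 + a.1) (-(m : ℤ) - a.2.1)})
    (fun a => by
      refine ⟨a.1 + 1 + a.2.2.length, fun m hm ha => ?_⟩
      obtain ⟨-, l, h1, h2, -, h4⟩ := ha
      rw [nn_sub] at h4
      have h5 := abs_le.1 (nn_bd a.2.2 l)
      have h6 : (l : ℤ) ≤ a.2.2.length := by exact_mod_cast h2
      have h7 : ((a.1 + 1 + a.2.2.length : ℕ) : ℤ) ≤ m := by exact_mod_cast hm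
      push_cast at h7
      linarith [h5.1]) hε
  refine ⟨M, fun m hm => le_trans (le_of_eq ?_) (hM m hm)⟩
  rw [ENNReal.tsum_prod']
  apply tsum_congr
  intro i
  rw [ENNReal.tsum_prod']
  apply tsum_congr
  intro j
  rw [K1.gf_indicator]
  apply tsum_congr
  intro t
  by_cases ht : t ∈ BL T (-(m : ℤ) + 1 + i) (-(m : ℤ) - j)
  · have h1 : ((i, j, t) : ℕ × ℕ × List Bool) ∈
        {a : ℕ × ℕ × List Bool | a.2.2 ∈ BL T (-(m : ℤ) + 1 + a.1) (-(m : ℤ) - a.2.1)} := ht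
    rw [Set.indicator_of_mem ht, Set.indicator_of_mem h1]
    have h2 : t ∈ AA T (1 * ((i : ℤ) + j + 1)) := by
      have h3 := ht.1
      rw [show -(m : ℤ) + 1 + i - (-(m : ℤ) - j) = 1 * ((i : ℤ) + j + 1) by ring] at h3
      exact h3
    show wE t = (AA T (1 * ((i : ℤ) + j + 1))).indicator wE t
    rw [Set.indicator_of_mem h2]
  · have h1 : ((i, j, t) : ℕ × ℕ × List Bool) ∉
        {a : ℕ × ℕ × List Bool | a.2.2 ∈ BL T (-(m : ℤ) + 1 + a.1) (-(m : ℤ) - a.2.1)} := ht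
    rw [Set.indicator_of_notMem ht, Set.indicator_of_notMem h1]

end KU

open KU in
/-- the upper half. -/
theorem K_up {T : ℕ} (hT : 1 ≤ T) : KT (T + 1) ≤ KT T + ENNReal.ofReal (Real.sqrt 2 - 1) * ∑' z : ℤ, xT T z := by
  apply ENNReal.le_of_forall_pos_le_add
  intro ε hε _
  have hε2 : (0 : ℝ≥0∞) < (ε : ℝ≥0∞) / 2 := ENNReal.div_pos (by exact_mod_cast hε.ne') (by norm_num)
  obtain ⟨M1, hM1⟩ := tailR hT hε2
  obtain ⟨M2, hM2⟩ := tailL hT hε2
  unfold KT
  rw [ENNReal.tsum_eq_iSup_nat]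
  apply iSup_le
  intro N
  set M := M1 + M2 with hM
  have hI2 : ∀ z ∈ Finset.Ioc (-(M : ℤ)) ((M + N : ℕ) : ℤ), -(M : ℤ) < z := fun z hz => (Finset.mem_Ioc.1 hz).1
  have hI3 : ∀ z ∈ Finset.Ioc (-(M : ℤ)) ((M + N : ℕ) : ℤ), z ≤ ((M + N : ℕ) : ℤ) := fun z hz => (Finset.mem_Ioc.1 hz).2
  have h1 := geL (I := Finset.Ioc (-(M : ℤ)) ((M + N : ℕ) : ℤ)) (m := -(M : ℤ)) (N := N)
    (fun z h1 h2 => Finset.mem_Ioc.2 ⟨h1, by push_cast; omega⟩) hI2 (fun k => GG (T + 1) k)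
  refine h1.trans ?_
  have h2 : ∑ z ∈ Finset.Ioc (-(M : ℤ)) ((M + N : ℕ) : ℤ), (∑' b : ℤ, if b ≤ -(M : ℤ) then GG (T + 1) (z - b).natAbs else 0) ≤
      ∑ z ∈ Finset.Ioc (-(M : ℤ)) ((M + N : ℕ) : ℤ), (∑' b : ℤ, if b ≤ -(M : ℤ) then aT' T z b else 0) +
      ∑ z ∈ Finset.Ioc (-(M : ℤ)) ((M + N : ℕ) : ℤ), (∑' b : ℤ, if b ≤ -(M : ℤ) then gf (BL T z b) else 0) := by
    rw [← Finset.sum_add_distrib]
    apply Finset.sum_le_sum
    intro z _
    rw [← ENNReal.tsum_add]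
    apply ENNReal.tsum_le_tsum
    intro b
    split_ifs
    · exact left_le T z b
    · exact zero_le
  have h3 := (reL hI2 (fun z b => gf (BL T z b))).trans (hM2 M (by omega))
  have h4 := fin_up hT (m1 := -(M : ℤ)) (m2 := ((M + N : ℕ) : ℤ)) _ rfl
  have h5 : ∑ z ∈ Finset.Ioc (-(M : ℤ)) ((M + N : ℕ) : ℤ), (∑' b : ℤ, if ((M + N : ℕ) : ℤ) < b then aT' T z b else 0) ≤
      (∑' n : ℕ, ((n : ℝ≥0∞) + 1) * GG T (n + 1)) + (ε : ℝ≥0∞) / 2 := by
    refine (reR hI3 (fun z b => aT' T z b)).trans ?_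
    have h6 : ∑' i : ℕ, ∑' j : ℕ, aT' T (((M + N : ℕ) : ℤ) - i) (((M + N : ℕ) : ℤ) + 1 + j) ≤
        ∑' i : ℕ, ∑' j : ℕ, GG T (i + j + 1) +
        ∑' i : ℕ, ∑' j : ℕ, gf (BR T (((M + N : ℕ) : ℤ) - i) (((M + N : ℕ) : ℤ) + 1 + j)) := by
      rw [← ENNReal.tsum_add]
      apply ENNReal.tsum_le_tsum
      intro i
      rw [← ENNReal.tsum_add]
      apply ENNReal.tsum_le_tsum
      intro j
      have h7 := right_le T (((M + N : ℕ) : ℤ) - i) (((M + N : ℕ) : ℤ) + 1 + j)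
      have h8 : ((((M + N : ℕ) : ℤ) - i) - (((M + N : ℕ) : ℤ) + 1 + j)).natAbs = i + j + 1 := by omega
      rw [h8] at h7
      exact h7
    refine h6.trans (add_le_add ?_ (hM1 (M + N) (by omega)))
    rw [diag (fun n => GG T (n + 1))]
  have h6 : ∑ z ∈ Finset.Ioc (-(M : ℤ)) ((M + N : ℕ) : ℤ), xT T z ≤ ∑' z : ℤ, xT T z := ENNReal.sum_le_tsum _
  refine h2.trans ?_
  refine (add_le_add (h4.trans (add_le_add (mul_le_mul_right h6 _) h5)) h3).trans (le_of_eq ?_)
  have h7 : (ε : ℝ≥0∞) / 2 + (ε : ℝ≥0∞) / 2 = ε := ENNReal.add_halves _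
  calc ENNReal.ofReal (Real.sqrt 2 - 1) * ∑' z : ℤ, xT T z +
        ((∑' n : ℕ, ((n : ℝ≥0∞) + 1) * GG T (n + 1)) + (ε : ℝ≥0∞) / 2) + (ε : ℝ≥0∞) / 2 =
      (∑' n : ℕ, ((n : ℝ≥0∞) + 1) * GG T (n + 1)) + ENNReal.ofReal (Real.sqrt 2 - 1) * ∑' z : ℤ, xT T z +
        ((ε : ℝ≥0∞) / 2 + (ε : ℝ≥0∞) / 2) := by ring
    _ = _ := by rw [h7]

/-- the identity (I). -/
theorem K_eq {T : ℕ} (hT : 1 ≤ T) : KT (T + 1) = KT T + ENNReal.ofReal (Real.sqrt 2 - 1) * ∑' z : ℤ, xT T z := by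
  apply le_antisymm (K_up hT)
  rw [add_comm]
  exact K_step hT

/-- the growth of K is at most a constant times B. -/
theorem K_succ_le {T : ℕ} (hT : 1 ≤ T) :
    KT (T + 1) ≤ KT T + ENNReal.ofReal ((Real.sqrt 2 - 1) / (2 * xc)) * BT (T + 1) := by
  refine (K_up hT).trans (add_le_add le_rfl ?_)
  have hx := xc_pos
  have hs : 0 ≤ Real.sqrt 2 - 1 := by
    have : 1 ≤ Real.sqrt 2 := by
      rw [Real.le_sqrt (by norm_num) (by norm_num)]
      norm_num
    linarith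
  have h1 := xc_sum_le T
  have h2 := two_XX_le T
  have h3 : ENNReal.ofReal (2 * xc) * ∑' z : ℤ, xT T z ≤ BT (T + 1) := by
    rw [ENNReal.ofReal_mul (by norm_num), mul_assoc]
    refine le_trans ?_ h2
    rw [show ENNReal.ofReal 2 = 2 by norm_num]
    exact mul_le_mul_right h1 _
  have h4 : (Real.sqrt 2 - 1) = (Real.sqrt 2 - 1) / (2 * xc) * (2 * xc) := by
    field_simp
  calc ENNReal.ofReal (Real.sqrt 2 - 1) * ∑' z : ℤ, xT T z =
      ENNReal.ofReal ((Real.sqrt 2 - 1) / (2 * xc) * (2 * xc)) * ∑' z : ℤ, xT T z := by rw [← h4]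
    _ = ENNReal.ofReal ((Real.sqrt 2 - 1) / (2 * xc)) * (ENNReal.ofReal (2 * xc) * ∑' z : ℤ, xT T z) := by
        rw [ENNReal.ofReal_mul (by positivity), mul_assoc]
    _ ≤ _ := mul_le_mul_right h3 _

end SP

end HexObs
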