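import Pool.Agent.W47.Final
import Pool.Agent.W47.Bridge
import Pool.Agent.HexObs.Ex
import Pool.Agent.HexW.T3Lim
import Pool.Agent.PHW.Base

/-!
STEP: the step domain. Strip of T + 1 rows (St (T + 1)), base line through the origin, feet ft k = (2k, -k).
The first row has the vertices ue k (level 2, above the foot k) and le k (level 3, between ue (k-1) and ue k).
The set OO is the part ue 0, le 1, ue 1, le 2, ... of the first row; the step domain is St (T + 1) without OO.
Walks of the step domain are coded by the words from the foot k with the prefix pre k: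
k = 0: ft 0 -> ue 0 -> (left) le 0: start at the slanted edge ue 0 -> le 0;
k >= 1: ft k -> ue k -> (left) le k -> (right) up: start at the vertical edge above le k.
-/

set_option autoImplicit false

namespace HexObs

namespace SP

open Complex Finset ENNReal

/-- the level. -/
def lv (v : Pt) : ℤ := v.1 + 2 * v.2

/-- the other coordinate. -/
def nn (v : Pt) : ℤ := v.1 - v.2

/-- the missing part of the first row. -/
def OO : Set Pt := {v | lv v ≤ 3 ∧ -1 ≤ nn v}

/-- the feet. -/
def ft (k : ℤ) : Pt := foot oo up k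

/-- the vertex above the foot k. -/
def ue (k : ℤ) : Pt := (2 * k, 1 - k)

/-- the vertex between ue (k - 1) and ue k; it is the foot number k of the rows 2, ..., T + 1. -/
def le (k : ℤ) : Pt := (2 * k - 1, 2 - k)

/-- the prefix. -/
def pre (k : ℤ) : List Bool := if k = 0 then [true] else [true, false]

/-- the words from the foot k that code walks of the step domain. -/
structure Adm (k : ℤ) (t : List Bool) : Prop where
  pre : SP.pre k <+: t
  out : ∀ i, (SP.pre k).length < i → i ≤ t.length → vx (ft k) up t i ∉ OO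

/-- admissible bridges. -/
def BrA (Ω X : Set Pt) (k : ℤ) : Set (List Bool) := {t | t ∈ Br Ω X (ft k) up ∧ Adm k t}

/-- sum over the admissible bridges. -/
noncomputable def overA (Ω : Set Pt) (k : ℤ) (F : Set Pt → ℝ≥0∞) (X : Set Pt) : ℝ≥0∞ :=
  ∑' s : List Bool, (BrA Ω X k).indicator (fun s => wE s * F (X ∪ vis (ft k) up s)) s

/-- pairs of disjoint admissible bridges. -/
noncomputable def P2A (Ω : Set Pt) (a b : ℤ) (X : Set Pt) : ℝ≥0∞ := overA Ω a (fun Y => gf (BrA Ω Y b)) X

/-- triples. -/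
noncomputable def P3A (Ω : Set Pt) (a b c : ℤ) (X : Set Pt) : ℝ≥0∞ := overA Ω a (fun Y => P2A Ω b c Y) X

/-- a pair of admissible bridges and a word of the family D. -/
noncomputable def Q2A (Ω : Set Pt) (a b : ℤ) (D : Set Pt → Set (List Bool)) (X : Set Pt) : ℝ≥0∞ :=
  overA Ω a (fun Y => overA Ω b (fun Z => gf (D Z)) Y) X

/-- explorers from the foot k that come down to le j. -/
def Ld (Ω Z : Set Pt) (k j : ℤ) : Set (List Bool) :=
  {u | Saw (Ω \ Z) (ft k) up u ∧ Adm k u ∧ tip (ft k) up u = le j ∧ dx up u u.length = -up}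

/-- landing on the right. -/
def LdR (Ω Z : Set Pt) (k : ℤ) : Set (List Bool) := {u | ∃ j, k < j ∧ u ∈ Ld Ω Z k j}

/-- landing between 1 and k. -/
def LdL (Ω Z : Set Pt) (k : ℤ) : Set (List Bool) := {u | ∃ j, 1 < j ∧ j < k ∧ u ∈ Ld Ω Z k j}

/-- lateral exits. -/
def LtA (Ω Z : Set Pt) (k : ℤ) : Set (List Bool) :=
  {u | Saw (Ω \ Z) (ft k) up u ∧ Adm k u ∧ tip (ft k) up u ∉ Ω ∧ dx up u u.length ≠ up ∧ dx up u u.length ≠ -up}

/-! the quantities of the infinite step domain (T rows plus the left part of one more row) -/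

/-- pairs. -/
noncomputable def PP (T : ℕ) (a b : ℤ) : ℝ≥0∞ := P2A (St (T + 1)) a b ∅

/-- single walks from the slanted edge. -/
noncomputable def XX (T : ℕ) : ℝ≥0∞ := gf (BrA (St (T + 1)) ∅ 0)

/-- triples 0, 1, l. -/
noncomputable def TT (T : ℕ) (l : ℤ) : ℝ≥0∞ := P3A (St (T + 1)) 0 1 l ∅

/-- pairs 0, 1 and an arc from l to j. -/
noncomputable def tt (T : ℕ) (l j : ℤ) : ℝ≥0∞ := Q2A (St (T + 1)) 0 1 (fun Z => Ld (St (T + 1)) Z l j) ∅

/-- sum of d times the weight of the arcs over distance d. -/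
noncomputable def KT (T : ℕ) : ℝ≥0∞ := ∑' k : ℕ, ((k : ℝ≥0∞) + 1) * GG T (k + 1)

/-! finite domains -/

/-- the trapezoid: T + 1 rows. -/
noncomputable def tz (T n : ℕ) : Finset Pt := trapF (v0 := oo) upd (T + 1) n

/-- the real form of overA. -/
noncomputable def obA (Ω : Finset Pt) (k : ℤ) (F : Set Pt → ℝ) (X : Set Pt) : ℝ :=
  ∑ s ∈ fam Ω (ft k) up (BrA (Ω : Set Pt) X k), xc ^ s.length * F (X ∪ vis (ft k) up s)

/-- explorers from p, obstacles X and Y, that stop on Y outside OO. -/
noncomputable def hitA (Ω : Finset Pt) (X Y : Set Pt) (p : ℤ) : Finset (List Bool) :=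
  fam (slit Ω (X ∪ Y)) (ft p) up {u | Adm p u ∧ tip (ft p) up u ∈ Y ∧ tip (ft p) up u ∉ OO}

/-- explorers that leave the domain or land on OO. -/
noncomputable def freeA (Ω : Finset Pt) (X : Set Pt) (p : ℤ) : Finset (List Bool) :=
  fam (slit Ω X) (ft p) up {u | Adm p u ∧ (tip (ft p) up u ∉ Ω ∨ tip (ft p) up u ∈ OO)}

/-- walker from q, explorer from p that stops on the walker. -/
noncomputable def ZhA (Ω : Finset Pt) (X : Set Pt) (p q : ℤ) (f : ℤ → ℝ) : ℝ :=
  ∑ s ∈ fam Ω (ft q) up (BrA (Ω : Set Pt) X q), ∑ u ∈ hitA Ω X (vis (ft q) up s) p,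
    xc ^ (s.length + u.length) * f (wind u)

/-- sum over the free exits. -/
noncomputable def frA (Ω : Finset Pt) (p : ℤ) (f : ℤ → ℝ) (Y : Set Pt) : ℝ :=
  ∑ u ∈ freeA Ω Y p, xc ^ u.length * f (wind u)

/-- the sine with the phase m. -/
noncomputable def sn (m : ℝ) : ℝ := Real.sin (m * (Real.pi / 8))

/-- the weight of the prefix. -/
noncomputable def pw (k : ℤ) (m : ℝ) : ℝ := if k = 0 then xc * sn (m + 1) else xc ^ 2 * sn m

/-! the step domain seen from the top -/

/-- the step domain. -/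
def Om (T : ℕ) : Set Pt := St (T + 1) \ OO

/-- the site above the top number z of St (T + 1). -/
def tq (T : ℕ) (z : ℤ) : Pt := (2 * z - (T + 1), 2 * T + 3 - z)

/-- arcs of the step domain from the top z to the top b. -/
noncomputable def aT' (T : ℕ) (z b : ℤ) : ℝ≥0∞ :=
  gf {t | Saw (Om T) (tq T z) (-up) t ∧ tip (tq T z) (-up) t = tq T b ∧ dx (-up) t t.length = up}

/-- walks of the step domain from the top z to the slanted edge. -/
noncomputable def xT (T : ℕ) (z : ℤ) : ℝ≥0∞ :=
  gf {t | Saw (Om T) (tq T z) (-up) t ∧ tip (tq T z) (-up) t = ue 0 ∧ dx (-up) t t.length = (1, -1)}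

end SP

end HexObs
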