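import Pool.Agent.HexStep.Fin
import Pool.Agent.W47.K1

/-!
STEP, module A7: the limit n -> infinity.
-/

set_option autoImplicit false

namespace HexObs

namespace SP

open Complex Finset ENNReal Filter Topology HexW

section A7

/-! ### increasing families -/

private lemma A7_up_overA {Om : ℕ → Set Pt} {Ω : Set Pt} {k : ℤ}
    (h : ∀ X, Inc (fun n => BrA (Om n) X k) (BrA Ω X k)) {F : ℕ → Set Pt → ℝ≥0∞} {G : Set Pt → ℝ≥0∞}
    (hF : Up F G) : Up (fun n => overA (Om n) k (F n)) (overA Ω k G) := by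
  have hm : ∀ X : Set Pt, Monotone (fun (n : ℕ) (s : List Bool) => wE s * F n (X ∪ vis (ft k) up s)) := by
    intro X n m hnm s
    exact mul_le_mul_right (hF.mono hnm _) _
  constructor
  · intro n m hnm X
    unfold overA
    apply ENNReal.tsum_le_tsum
    intro s
    exact (h X).ind_mono _ (hm X) hnm s
  · intro X
    unfold overA
    rw [← tsum_iSup_mono _ ((h X).ind_mono _ (hm X))]
    apply tsum_congr
    intro s
    rw [← (h X).ind _ (hm X) s]
    congr 1
    funext s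
    rw [hF.sup, ENNReal.mul_iSup]

private lemma A7_inc_BrA {T N : ℕ} {k : ℤ} (hk : |k| < N) (X : Set Pt) :
    Inc (fun n => BrA (trap oo up (T + 1) (n + N)) X k) (BrA (St (T + 1)) X k) :=
  (inc_Br up_mem (Nat.le_add_left 1 T) hk X).inter {t | Adm k t}

private lemma A7_inc_Ld {T N : ℕ} {k j : ℤ} (X : Set Pt) :
    Inc (fun n => Ld (trap oo up (T + 1) (n + N)) X k j) (Ld (St (T + 1)) X k j) := by
  constructor
  · rintro n m hnm t ⟨h1, h2⟩
    exact ⟨h1.mono (Set.sdiff_subset_sdiff_left (trap_mono oo up (T + 1) (by omega))), h2⟩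
  · intro t
    constructor
    · rintro ⟨h1, h2⟩
      obtain ⟨L, hL⟩ := saw_trap' h1
      exact ⟨L, hL.mono (Set.sdiff_subset_sdiff_left (trap_mono oo up (T + 1) (by omega))), h2⟩
    · rintro ⟨n, h1, h2⟩
      exact ⟨h1.mono (Set.sdiff_subset_sdiff_left (trap_sub oo up (T + 1) _)), h2⟩

private lemma A7_inc_LdR {T N : ℕ} {k : ℤ} (X : Set Pt) :
    Inc (fun n => LdR (trap oo up (T + 1) (n + N)) X k) (LdR (St (T + 1)) X k) := by
  constructor
  · rintro n m hnm t ⟨j, hj, ht⟩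
    exact ⟨j, hj, (A7_inc_Ld (T := T) (N := N) X).mono hnm ht⟩
  · intro t
    constructor
    · rintro ⟨j, hj, ht⟩
      obtain ⟨n, hn⟩ := ((A7_inc_Ld (T := T) (N := N) X).union t).1 ht
      exact ⟨n, j, hj, hn⟩
    · rintro ⟨n, j, hj, hn⟩
      exact ⟨j, hj, ((A7_inc_Ld (T := T) (N := N) X).union t).2 ⟨n, hn⟩⟩

private lemma A7_inc_LdL {T N : ℕ} {k : ℤ} (X : Set Pt) :
    Inc (fun n => LdL (trap oo up (T + 1) (n + N)) X k) (LdL (St (T + 1)) X k) := by
  constructor
  · rintro n m hnm t ⟨j, hj, hj', ht⟩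
    exact ⟨j, hj, hj', (A7_inc_Ld (T := T) (N := N) X).mono hnm ht⟩
  · intro t
    constructor
    · rintro ⟨j, hj, hj', ht⟩
      obtain ⟨n, hn⟩ := ((A7_inc_Ld (T := T) (N := N) X).union t).1 ht
      exact ⟨n, j, hj, hj', hn⟩
    · rintro ⟨n, j, hj, hj', hn⟩
      exact ⟨j, hj, hj', ((A7_inc_Ld (T := T) (N := N) X).union t).2 ⟨n, hn⟩⟩

private lemma A7_up_P2A {T N : ℕ} {a b : ℤ} (ha : |a| < N) (hb : |b| < N) :
    Up (fun n => P2A (trap oo up (T + 1) (n + N)) a b) (P2A (St (T + 1)) a b) :=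
  A7_up_overA (fun X => A7_inc_BrA ha X) (up_gf (fun X => A7_inc_BrA hb X))

private lemma A7_up_P3A {T N : ℕ} {a b c : ℤ} (ha : |a| < N) (hb : |b| < N) (hc : |c| < N) :
    Up (fun n => P3A (trap oo up (T + 1) (n + N)) a b c) (P3A (St (T + 1)) a b c) :=
  A7_up_overA (fun X => A7_inc_BrA ha X) (A7_up_P2A hb hc)

private lemma A7_up_Q2A {T N : ℕ} {a b : ℤ} (ha : |a| < N) (hb : |b| < N)
    {P : ℕ → Set Pt → Set (List Bool)} {Q : Set Pt → Set (List Bool)} (h : ∀ X, Inc (fun n => P n X) (Q X)) :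
    Up (fun n => Q2A (trap oo up (T + 1) (n + N)) a b (P n)) (Q2A (St (T + 1)) a b Q) :=
  A7_up_overA (fun X => A7_inc_BrA ha X) (A7_up_overA (fun X => A7_inc_BrA hb X) (up_gf h))

/-! ### finiteness -/

private lemma A7_brA_le (T : ℕ) (k : ℤ) (X : Set Pt) : gf (BrA (St (T + 1)) X k) ≤ 1 :=
  (HexObs.gf_mono brA_sub).trans ((gf_Br_le_one (v0 := oo) up_mem (Nat.le_add_left 1 T) k X).trans
    (BT_le_one (Nat.le_add_left 1 T)))

private lemma A7_brA_trap_le {T L : ℕ} {k : ℤ} (hk : |k| < L) (X : Set Pt) :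
    gf (BrA (trap oo up (T + 1) L) X k) ≤ 1 :=
  (HexObs.gf_mono brA_sub).trans ((gf_Br_trap_le (v0 := oo) up_mem (Nat.le_add_left 1 T) hk X).trans
    (BT_le_one (Nat.le_add_left 1 T)))

private lemma A7_P2A_le (T : ℕ) (a b : ℤ) (X : Set Pt) : P2A (St (T + 1)) a b X ≤ 1 := by
  have h := overA_le (Ω := St (T + 1)) (k := a) (F := fun Y => gf (BrA (St (T + 1)) Y b))
    (fun Y => A7_brA_le T b Y) (A7_brA_le T a X)
  rw [mul_one] at h
  exact h

private lemma A7_P3A_le (T : ℕ) (a b c : ℤ) (X : Set Pt) : P3A (St (T + 1)) a b c X ≤ 1 := by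
  have h := overA_le (Ω := St (T + 1)) (k := a) (F := fun Y => P2A (St (T + 1)) b c Y)
    (fun Y => A7_P2A_le T b c Y) (A7_brA_le T a X)
  rw [mul_one] at h
  exact h

private lemma A7_Q2A_le {T : ℕ} (a b : ℤ) {Q : Set Pt → Set (List Bool)} {c : ℝ≥0∞} (hQ : ∀ Z, gf (Q Z) ≤ c)
    (X : Set Pt) : Q2A (St (T + 1)) a b Q X ≤ c := by
  have e2 := fun Y => overA_le (Ω := St (T + 1)) (k := b) (F := fun Z => gf (Q Z)) hQ (A7_brA_le T b Y)
  have e3 := overA_le (Ω := St (T + 1)) (k := a) e2 (A7_brA_le T a X)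
  rw [mul_one, mul_one] at e3
  exact e3

theorem PP_ne_top (T : ℕ) (a b : ℤ) : PP T a b ≠ ∞ :=
  ne_top_of_le_ne_top ENNReal.one_ne_top (A7_P2A_le T a b ∅)

theorem TT_ne_top (T : ℕ) (l : ℤ) : TT T l ≠ ∞ :=
  ne_top_of_le_ne_top ENNReal.one_ne_top (A7_P3A_le T 0 1 l ∅)

theorem XX_ne_top (T : ℕ) : XX T ≠ ∞ :=
  ne_top_of_le_ne_top ENNReal.one_ne_top (A7_brA_le T 0 ∅)

/-! ### words that come down to le j are extended to arcs -/

private lemma A7_ft (k : ℤ) : ft k = (2 * k, -k) := by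
  unfold ft foot
  have h : hz up = (2, -1) := by decide
  rw [h]
  have h2 : k • ((2, -1) : Pt) = (2 * k, -k) := by
    rw [Prod.smul_mk]
    simp only [smul_eq_mul]
    congr 1
    · ring
    · ring
  rw [h2]
  show (0, 0) + ((2 * k, -k) : Pt) = _
  rw [Prod.mk_add_mk, zero_add, zero_add]

private lemma A7_mem_St {T : ℕ} {v : Pt} (hc : cl v = 0 ∨ cl v = 2) (h1 : 0 < lv v) (h2 : lv v < 3 * (T + 1) + 2) :
    v ∈ St (T + 1) := by
  have e : ip (v - oo) up = lv v := by
    unfold ip lv up oo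
    simp only [Prod.fst_sub, Prod.snd_sub]
    ring
  refine ⟨?_, ?_, ?_⟩
  · rcases hc with hc | hc
    · left
      rw [hc]
      decide
    · right
      rw [hc]
      decide
  · rw [e]
    exact h1
  · rw [e]
    push_cast
    exact h2

private lemma A7_not_St {T : ℕ} {v : Pt} (h1 : lv v = 0) : v ∉ St (T + 1) := by
  rintro ⟨_, h2, _⟩
  have e : ip (v - oo) up = lv v := by
    unfold ip lv up oo
    simp only [Prod.fst_sub, Prod.snd_sub]
    ring
  rw [e, h1] at h2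
  exact lt_irrefl _ h2

private lemma A7_cl_le (j : ℤ) : cl (le j) = 0 := by
  unfold cl le
  have : (2 * j - 1 - (2 - j) : ℤ) = 3 * (j - 1) := by ring
  simp only [this]
  push_cast
  rw [three_eq, zero_mul]

private lemma A7_cl_ue (j : ℤ) : cl (ue j) = 2 := by
  unfold cl ue
  have : (2 * j - (1 - j) : ℤ) = 3 * j - 1 := by ring
  simp only [this]
  push_cast
  rw [three_eq, zero_mul]
  decide

private lemma A7_lv_le (j : ℤ) : lv (le j) = 3 := by
  unfold lv le
  ring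

private lemma A7_lv_ue (j : ℤ) : lv (ue j) = 2 := by
  unfold lv ue
  ring

private lemma A7_pre_vx (k : ℤ) : vx (ft k) up (pre k) 0 = ft k ∧ vx (ft k) up (pre k) 1 = ue k ∧
    ((pre k).length = 2 → vx (ft k) up (pre k) 2 = le k) := by
  refine ⟨rfl, ?_, ?_⟩
  · show ft k + up = ue k
    rw [A7_ft]
    unfold up ue
    rw [Prod.mk_add_mk]
    congr 1
    · ring
    · ring
  · intro h
    have hk : pre k = [true, false] := by
      unfold pre at h ⊢
      split_ifs at h ⊢ with h0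
      · simp at h
      · rfl
    rw [hk]
    show ft k + up + rotL up = le k
    rw [A7_ft]
    unfold up le rotL
    rw [Prod.mk_add_mk, Prod.mk_add_mk]
    congr 1
    · ring
    · ring

private lemma A7_pre_len (k : ℤ) : (pre k).length = 1 ∨ (pre k).length = 2 := by
  unfold pre
  split_ifs
  · left
    rfl
  · right
    rfl

private lemma A7_ne {k : ℤ} {u : List Bool} (hA : Adm k u) {p : Pt} (hO : p ∈ OO) (h0 : lv p ≠ 0)
    (h1 : p ≠ ue k) (h2 : p ≠ le k) : ∀ i, i ≤ u.length → vx (ft k) up u i ≠ p := by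
  intro i hi h
  obtain ⟨r, hr⟩ := hA.pre
  obtain ⟨e0, e1, e2⟩ := A7_pre_vx k
  by_cases h3 : (pre k).length < i
  · exact hA.out i h3 hi (h ▸ hO)
  · push Not at h3
    have h4 : vx (ft k) up u i = vx (ft k) up (pre k) i := by
      rw [← hr]
      exact vx_append (by omega)
    rw [h4] at h
    rcases A7_pre_len k with h5 | h5
    · rcases (by omega : i = 0 ∨ i = 1) with h6 | h6
      · rw [h6, e0] at h
        apply h0
        rw [← h, A7_ft]
        unfold lv
        ring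
      · rw [h6, e1] at h
        exact h1 h.symm
    · rcases (by omega : i = 0 ∨ i = 1 ∨ i = 2) with h6 | h6 | h6
      · rw [h6, e0] at h
        apply h0
        rw [← h, A7_ft]
        unfold lv
        ring
      · rw [h6, e1] at h
        exact h1 h.symm
      · rw [h6, e2 h5] at h
        exact h2 h.symm

private lemma A7_ext {T : ℕ} {k j : ℤ} (hj : 1 ≤ j) (hjk : j ≠ k) {Z : Set Pt} {u : List Bool}
    (hu : u ∈ Ld (St (T + 1)) Z k j) : u ++ [true] ++ [false] ∈ Dn (St (T + 1)) ∅ (ft k) up := by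
  obtain ⟨hs, hA, htip, hdx⟩ := hu
  have hlO : le j ∈ OO := by
    refine ⟨?_, ?_⟩
    · rw [A7_lv_le]
    · unfold nn le
      show -1 ≤ 2 * j - 1 - (2 - j)
      linarith
  have huO : ue j ∈ OO := by
    refine ⟨?_, ?_⟩
    · rw [A7_lv_ue]
      norm_num
    · unfold nn ue
      show -1 ≤ 2 * j - (1 - j)
      linarith
  have hle : le j ≠ ue k := by
    intro h
    have := congrArg lv h
    rw [A7_lv_le, A7_lv_ue] at this
    norm_num at this
  have hue : ue j ≠ le k := by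
    intro h
    have := congrArg lv h
    rw [A7_lv_le, A7_lv_ue] at this
    norm_num at this
  have hll : le j ≠ le k := by
    intro h
    have := congrArg Prod.fst h
    unfold le at this
    simp only at this
    exact hjk (by linarith)
  have huu : ue j ≠ ue k := by
    intro h
    have := congrArg Prod.fst h
    unfold ue at this
    simp only at this
    exact hjk (by linarith)
  have hT : (0 : ℤ) ≤ T := Int.natCast_nonneg T
  have n1 := A7_ne hA hlO (by rw [A7_lv_le]; norm_num) hle hll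
  have n2 := A7_ne hA huO (by rw [A7_lv_ue]; norm_num) huu hue
  have m1 : le j ∈ St (T + 1) := A7_mem_St (Or.inl (A7_cl_le j)) (by rw [A7_lv_le]; norm_num)
    (by rw [A7_lv_le]; linarith)
  have m2 : ue j ∈ St (T + 1) := A7_mem_St (Or.inr (A7_cl_ue j)) (by rw [A7_lv_ue]; norm_num)
    (by rw [A7_lv_ue]; linarith)
  have hs' : Saw (St (T + 1) \ ∅) (ft k) up u := hs.mono (Set.sdiff_subset_sdiff_right (Set.empty_subset _))
  have s1 : Saw (St (T + 1) \ ∅) (ft k) up (u ++ [true]) :=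
    saw_append_one.2 ⟨hs', by rw [htip]; exact ⟨m1, fun h => h⟩, by rw [htip]; exact n1⟩
  have t1 : tip (ft k) up (u ++ [true]) = ue j := by
    rw [tip_append_one, htip, hdx]
    show le j + rotL (-up) = ue j
    unfold le ue up rotL
    simp only [Prod.neg_mk, Prod.mk_add_mk]
    congr 1
    · ring
    · ring
  have d1 : dx up (u ++ [true]) (u ++ [true]).length = (1, -1) := by
    rw [dx_append_one, hdx]
    decide
  have s2 : Saw (St (T + 1) \ ∅) (ft k) up (u ++ [true] ++ [false]) := by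
    refine saw_append_one.2 ⟨s1, by rw [t1]; exact ⟨m2, fun h => h⟩, ?_⟩
    rw [t1]
    intro i hi
    rw [List.length_append] at hi
    simp only [List.length_cons, List.length_nil] at hi
    rw [vx_append (by omega)]
    rcases Nat.lt_or_ge u.length i with h | h
    · have h3 : i = u.length + 1 := by omega
      rw [h3]
      show tip (ft k) up u ≠ ue j
      rw [htip]
      intro h4
      have := congrArg lv h4
      rw [A7_lv_le, A7_lv_ue] at this
      norm_num at this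
    · exact n2 i h
  refine ⟨s2, ?_, ?_⟩
  · rw [tip_append_one, t1, d1]
    apply A7_not_St
    show lv (ue j + rotR (1, -1)) = 0
    unfold ue rotR lv
    simp only [Prod.mk_add_mk]
    ring
  · rw [dx_append_one, d1]
    decide

private lemma A7_ld_le {T : ℕ} {k : ℤ} (Z : Set Pt) :
    gf {u | ∃ j, 1 ≤ j ∧ j ≠ k ∧ u ∈ Ld (St (T + 1)) Z k j} ≤ ENNReal.ofReal ((xc ^ 2)⁻¹) * AT (T + 1) := by
  refine (gf_le_of_inj (Q := Dn (St (T + 1)) ∅ (ft k) up) (fun t => t ++ [true] ++ [false]) ?_ ?_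
    (ENNReal.ofReal ((xc ^ 2)⁻¹)) ?_).trans (mul_le_mul_right (gf_Dn_le (v0 := oo) up_mem k ∅) _)
  · rintro u ⟨j, h1, h2, h3⟩
    exact A7_ext h1 h2 h3
  · intro t _ s _ hts
    exact List.append_cancel_right (List.append_cancel_right hts)
  · intro t _
    rw [wE_append, wE_append]
    have e1 : ∀ b : Bool, wE [b] = ENNReal.ofReal xc := by
      intro b
      unfold wE
      simp
    rw [e1, e1, mul_assoc (wE t), ← ENNReal.ofReal_mul xc_pos.le, mul_comm (wE t), ← mul_assoc,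
      ← ENNReal.ofReal_mul (by positivity), ← pow_two, inv_mul_cancel₀ (pow_ne_zero _ xc_pos.ne'),
      ENNReal.ofReal_one, one_mul]

private lemma A7_ldR_le {T : ℕ} {l : ℤ} (hl : 2 ≤ l) (Z : Set Pt) :
    gf (LdR (St (T + 1)) Z l) ≤ ENNReal.ofReal ((xc ^ 2)⁻¹) * AT (T + 1) := by
  refine (HexObs.gf_mono ?_).trans (A7_ld_le (T := T) (k := l) Z)
  rintro u ⟨j, h1, h2⟩
  exact ⟨j, by omega, by omega, h2⟩

private lemma A7_ldL_le {T : ℕ} {l : ℤ} (Z : Set Pt) :
    gf (LdL (St (T + 1)) Z l) ≤ ENNReal.ofReal ((xc ^ 2)⁻¹) * AT (T + 1) := by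
  refine (HexObs.gf_mono ?_).trans (A7_ld_le (T := T) (k := l) Z)
  rintro u ⟨j, h1, h2, h3⟩
  exact ⟨j, by omega, by omega, h3⟩

/-! ### sums over the landing sites -/

private lemma A7_overA_tsum {ι : Type*} (Ω : Set Pt) (k : ℤ) (F : ι → Set Pt → ℝ≥0∞) (X : Set Pt) :
    overA Ω k (fun Y => ∑' i, F i Y) X = ∑' i, overA Ω k (F i) X := by
  unfold overA
  rw [ENNReal.tsum_comm]
  apply tsum_congr
  intro s
  by_cases hs : s ∈ BrA Ω X k
  · simp only [Set.indicator_of_mem hs]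
    rw [ENNReal.tsum_mul_left]
  · simp only [Set.indicator_of_notMem hs]
    rw [tsum_zero]

private lemma A7_Q2A_iUnion {ι : Type*} (Ω : Set Pt) (a b : ℤ) (A : ι → Set Pt → Set (List Bool))
    (hA : ∀ Z, ∀ i j, ∀ t, t ∈ A i Z → t ∈ A j Z → i = j) :
    Q2A Ω a b (fun Z => ⋃ i, A i Z) ∅ = ∑' i, Q2A Ω a b (A i) ∅ := by
  unfold Q2A
  have h1 : (fun Z => gf (⋃ i, A i Z)) = fun Z => ∑' i, gf (A i Z) := by
    funext Z
    exact K1.gf_iUnion (fun i => A i Z) (hA Z)
  have h2 : (fun Y => overA Ω b (fun Z => gf (⋃ i, A i Z)) Y) =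
      fun Y => ∑' i, overA Ω b (fun Z => gf (A i Z)) Y := by
    rw [h1]
    funext Y
    exact A7_overA_tsum Ω b (fun i Z => gf (A i Z)) Y
  rw [h2]
  exact A7_overA_tsum Ω a (fun i Y => overA Ω b (fun Z => gf (A i Z)) Y) ∅

private lemma A7_Q2A_empty (Ω : Set Pt) (a b : ℤ) : Q2A Ω a b (fun _ => ∅) ∅ = 0 := by
  have h := overA_le (Ω := Ω) (k := a) (F := fun Y => overA Ω b (fun _ => gf ∅) Y) (c := 0) (X := ∅)
    (B := gf (BrA Ω ∅ a)) (by
      intro Y
      have h2 := overA_le (Ω := Ω) (k := b) (F := fun _ => gf ∅) (c := 0) (X := Y) (B := gf (BrA Ω Y b)) (by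
        intro _
        unfold gf
        simp) le_rfl
      rw [zero_mul] at h2
      exact h2) le_rfl
  rw [zero_mul] at h
  exact le_antisymm h zero_le

private lemma A7_Q2A_Ld {T : ℕ} (l : ℤ) (p : ℤ → Prop) [DecidablePred p]
    (D : Set Pt → Set (List Bool)) (hD : ∀ Z u, u ∈ D Z ↔ ∃ j, p j ∧ u ∈ Ld (St (T + 1)) Z l j) :
    Q2A (St (T + 1)) 0 1 D ∅ = ∑' j : ℤ, if p j then tt T l j else 0 := by
  have h1 : D = fun Z => ⋃ j : ℤ, {u | p j ∧ u ∈ Ld (St (T + 1)) Z l j} := by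
    funext Z
    ext u
    rw [hD, Set.mem_iUnion]
    rfl
  rw [h1, A7_Q2A_iUnion]
  · apply tsum_congr
    intro j
    by_cases hp : p j
    · rw [if_pos hp]
      unfold tt
      congr 1
      funext Z
      ext u
      constructor
      · exact fun h => h.2
      · exact fun h => ⟨hp, h⟩
    · rw [if_neg hp]
      have h2 : (fun Z => {u | p j ∧ u ∈ Ld (St (T + 1)) Z l j}) = fun _ : Set Pt => (∅ : Set (List Bool)) := by
        funext Z
        ext u
        constructor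
        · exact fun h => absurd h.1 hp
        · exact fun h => absurd h (Set.notMem_empty u)
      rw [h2, A7_Q2A_empty]
  · rintro Z i j t ⟨_, _, _, h3, _⟩ ⟨_, _, _, h4, _⟩
    rw [h3] at h4
    have := congrArg Prod.fst h4
    unfold le at this
    simp only at this
    linarith

/-! ### the error terms -/

private lemma A7_err {T N : ℕ} {a b k : ℤ} (ha : |a| < N) (hb : |b| < N) (hk : |k| < N) :
    Tendsto (fun n => Q2A (trap oo up (T + 1) (n + N)) a b
      (fun Z => LtA (trap oo up (T + 1) (n + N)) Z k) ∅) atTop (𝓝 0) := by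
  have hN : ∀ {j : ℤ}, |j| < N → ∀ n : ℕ, |j| < ((n + N : ℕ) : ℤ) := by
    intro j hj n
    push_cast
    linarith
  have h1 : Tendsto (fun n => gf (HexW.Lat (trap oo up (T + 1) (n + N)) ∅ true (foot oo up k) up) +
      gf (HexW.Lat (trap oo up (T + 1) (n + N)) ∅ false (foot oo up k) up)) atTop (𝓝 (0 + 0)) :=
    (lat_tendsto up_mem (Nat.le_add_left 1 T) hk true ∅).add (lat_tendsto up_mem (Nat.le_add_left 1 T) hk false ∅)
  rw [add_zero] at h1
  refine tendsto_of_tendsto_of_tendsto_of_le_of_le tendsto_const_nhds h1 (fun _ => zero_le) ?_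
  intro n
  have e0 : ∀ Z, gf (LtA (trap oo up (T + 1) (n + N)) Z k) ≤
      gf (HexW.Lat (trap oo up (T + 1) (n + N)) ∅ true (foot oo up k) up) +
      gf (HexW.Lat (trap oo up (T + 1) (n + N)) ∅ false (foot oo up k) up) := by
    intro Z
    refine (HexObs.gf_mono ?_).trans (latA_le (v0 := oo) up_mem (Nat.le_add_left 1 T) (hN hk n) Z)
    rintro u ⟨h1, _, h2⟩
    exact ⟨h1, h2⟩
  have e2 := fun Y => overA_le (Ω := trap oo up (T + 1) (n + N)) (k := b)
    (F := fun Z => gf (LtA (trap oo up (T + 1) (n + N)) Z k)) e0 (A7_brA_trap_le (hN hb n) Y)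
  have e3 := overA_le (Ω := trap oo up (T + 1) (n + N)) (k := a) (X := ∅) e2 (A7_brA_trap_le (hN ha n) ∅)
  rw [mul_one, mul_one] at e3
  exact e3

theorem step3 {T : ℕ} {l : ℤ} (hl : 2 ≤ l) :
    (∑' j : ℤ, if 1 < j ∧ j < l then tt T l j else 0) ≠ ∞ ∧ (∑' j : ℤ, if l < j then tt T l j else 0) ≠ ∞ ∧
    xc ^ 2 * sn 1 * (PP T 0 1).toReal + (∑' j : ℤ, if l < j then tt T l j else 0).toReal / Real.sqrt 2 +
        xc / Real.sqrt 2 * (PP T 1 l).toReal ≤
      xc ^ 2 * sn 3 * (PP T 0 l).toReal + sn 1 * (TT T l).toReal +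
        (∑' j : ℤ, if 1 < j ∧ j < l then tt T l j else 0).toReal := by
  have eL := A7_Q2A_Ld (T := T) l (fun j => 1 < j ∧ j < l) (fun Z => LdL (St (T + 1)) Z l) (by
    intro Z u
    constructor
    · rintro ⟨j, h1, h2, h3⟩
      exact ⟨j, ⟨h1, h2⟩, h3⟩
    · rintro ⟨j, ⟨h1, h2⟩, h3⟩
      exact ⟨j, h1, h2, h3⟩)
  have eR := A7_Q2A_Ld (T := T) l (fun j => l < j) (fun Z => LdR (St (T + 1)) Z l) (fun Z u => Iff.rfl)
  have hA : AT (T + 1) ≠ ∞ := AT_ne_top (Nat.le_add_left 1 T)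
  have hc : ENNReal.ofReal ((xc ^ 2)⁻¹) * AT (T + 1) ≠ ∞ := ENNReal.mul_ne_top ENNReal.ofReal_ne_top hA
  have tL : Q2A (St (T + 1)) 0 1 (fun Z => LdL (St (T + 1)) Z l) ∅ ≠ ∞ :=
    ne_top_of_le_ne_top hc (A7_Q2A_le 0 1 (fun Z => A7_ldL_le Z) ∅)
  have tR : Q2A (St (T + 1)) 0 1 (fun Z => LdR (St (T + 1)) Z l) ∅ ≠ ∞ :=
    ne_top_of_le_ne_top hc (A7_Q2A_le 0 1 (fun Z => A7_ldR_le hl Z) ∅)
  rw [← eL, ← eR]
  refine ⟨tL, tR, ?_⟩
  obtain ⟨N, hN⟩ : ∃ N : ℕ, l < N := ⟨(l + 1).toNat, by omega⟩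
  have k0 : |(0 : ℤ)| < (N : ℤ) := by
    rw [abs_zero]
    linarith
  have k1 : |(1 : ℤ)| < (N : ℤ) := by
    rw [abs_one]
    linarith
  have kl : |l| < (N : ℤ) := by
    rw [abs_of_nonneg (by linarith)]
    exact hN
  have l01 := (ENNReal.tendsto_toReal (PP_ne_top T 0 1)).comp ((A7_up_P2A (T := T) k0 k1).tendsto ∅)
  have l0l := (ENNReal.tendsto_toReal (PP_ne_top T 0 l)).comp ((A7_up_P2A (T := T) k0 kl).tendsto ∅)
  have l1l := (ENNReal.tendsto_toReal (PP_ne_top T 1 l)).comp ((A7_up_P2A (T := T) k1 kl).tendsto ∅)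
  have l3 := (ENNReal.tendsto_toReal (TT_ne_top T l)).comp ((A7_up_P3A (T := T) k0 k1 kl).tendsto ∅)
  have lL := (ENNReal.tendsto_toReal tL).comp ((A7_up_Q2A k0 k1 (fun X => A7_inc_LdL (T := T) (N := N) X)).tendsto ∅)
  have lR := (ENNReal.tendsto_toReal tR).comp ((A7_up_Q2A k0 k1 (fun X => A7_inc_LdR (T := T) (N := N) X)).tendsto ∅)
  have le0 := (ENNReal.tendsto_toReal ENNReal.zero_ne_top).comp (A7_err (T := T) k1 kl k0)
  have le1 := (ENNReal.tendsto_toReal ENNReal.zero_ne_top).comp (A7_err (T := T) k0 k1 kl)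
  have hleft := ((l01.const_mul (xc ^ 2 * sn 1)).add (lR.div_const (Real.sqrt 2))).add
    (l1l.const_mul (xc / Real.sqrt 2))
  have hright := ((((l0l.const_mul (xc ^ 2 * sn 3)).add (l3.const_mul (sn 1))).add lL).add le0).add le1
  have hlim := le_of_tendsto_of_tendsto' hleft hright (by
    intro n
    have h := step_fin (T := T) (n := n + N) hl (by push_cast; linarith)
    have e : ((tz T (n + N) : Finset Pt) : Set Pt) = trap oo up (T + 1) (n + N) := by
      unfold tz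
      exact trapF_coe _ _ _
    rw [e] at h
    exact h)
  simp only [ENNReal.toReal_zero, add_zero] at hlim
  exact hlim

end A7

end SP

end HexObs
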