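import Pool.Agent.HexStep.Words

/-!
STEP, A2: the theta swap for admissible words.
-/

set_option autoImplicit false

namespace HexObs

namespace SP

open Complex Finset ENNReal

/-- the vertices of the prefix are in OO. -/
lemma a2_pre_OO {k : ℤ} (hk : 0 ≤ k) {t : List Bool} (h : Adm k t) {i : ℕ} (hi : 1 ≤ i)
    (hi' : i ≤ (pre k).length) : vx (ft k) up t i ∈ OO := by
  obtain ⟨h1, h2, _⟩ := adm_vx h
  unfold pre at hi'
  by_cases hk0 : k = 0
  · rw [if_pos hk0] at hi'
    have hi1 : i = 1 := by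
      simp only [List.length_singleton] at hi'
      omega
    rw [hi1, h1]
    exact ue_mem_OO.2 hk
  · rw [if_neg hk0] at hi'
    have hi1 : i = 1 ∨ i = 2 := by
      simp only [List.length_cons, List.length_nil] at hi'
      omega
    rcases hi1 with hi1 | hi1
    · rw [hi1, h1]
      exact ue_mem_OO.2 hk
    · rw [hi1, h2]
      exact le_mem_OO.2 (by omega)

/-- the swap keeps the admissible words. -/
lemma a2_adm {p q : ℤ} (hq : 0 ≤ q) {l r m : List Bool} {c : Bool} (hs : Adm q (r ++ ([c] ++ m))) (hl : Adm p l)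
    (ht : tip (ft p) up l = tip (ft q) up r)
    (hd : turn (!c) (dx up l l.length) = turn c (dx up r r.length)) (ho : tip (ft p) up l ∉ OO) :
    Adm p (l ++ ([!c] ++ m)) ∧ Adm q r ∧ tip (ft q) up r ∉ OO := by
  have hv : vx (ft q) up (r ++ ([c] ++ m)) (r.length + 1) = tip (ft q) up r := vx_append le_rfl
  have hlen : (pre q).length ≤ r.length := by
    by_contra hcon
    exact ho (by rw [ht, ← hv]; exact a2_pre_OO hq hs (by omega) (by omega))
  refine ⟨⟨hl.pre.trans (List.prefix_append _ _), ?_⟩, ⟨?_, ?_⟩, by rw [← ht]; exact ho⟩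
  · intro i hi hil
    simp only [List.length_append, List.length_singleton] at hil
    rcases Nat.lt_or_ge l.length i with h | h
    · rcases Nat.lt_or_ge (l.length + 1) i with h' | h'
      · obtain ⟨k, rfl⟩ : ∃ k, i = l.length + 1 + k := ⟨i - (l.length + 1), by omega⟩
        rw [(vx_stem (m := m) ht hd k).1]
        apply hs.out
        · omega
        · simp only [List.length_append, List.length_singleton]
          omega
      · have hi1 : i = l.length + 1 := by omega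
        rw [hi1, vx_append le_rfl]
        exact ho
    · rw [vx_append (by omega)]
      exact hl.out i hi h
  · exact List.prefix_of_prefix_length_le hs.pre (List.prefix_append _ _) hlen
  · intro i hi hil
    have := hs.out i hi (by simp only [List.length_append, List.length_singleton]; omega)
    rwa [vx_append (by omega)] at this

lemma mem_hitA {Ω : Finset Pt} {X Y : Set Pt} {p : ℤ} {u : List Bool} :
    u ∈ hitA Ω X Y p ↔ Saw ((Ω : Set Pt) \ (X ∪ Y)) (ft p) up u ∧ Adm p u ∧ tip (ft p) up u ∈ Y ∧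
      tip (ft p) up u ∉ OO := by
  unfold hitA
  rw [mem_fam, saw_slit]
  exact Iff.rfl

/-- one direction of the swap. -/
lemma a2_swap {Ω : Finset Pt} {X : Set Pt} {p q : ℤ} (hq0 : 0 ≤ q) (hne : ft p ≠ ft q) (hp : GoodDom Ω (ft p) up)
    {s u : List Bool} (hs : s ∈ BrA (Ω : Set Pt) X q) (hu : u ∈ hitA Ω X (vis (ft q) up s) p) :
    (swp (ft q) (ft p) up (s, u)).1 ∈ BrA (Ω : Set Pt) X p ∧
    (swp (ft q) (ft p) up (s, u)).2 ∈ hitA Ω X (vis (ft p) up (swp (ft q) (ft p) up (s, u)).1) q ∧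
    swp (ft p) (ft q) up ((swp (ft q) (ft p) up (s, u)).1, (swp (ft q) (ft p) up (s, u)).2) = (s, u) := by
  rw [mem_hitA] at hu
  obtain ⟨hu, hua, ht, hto⟩ := hu
  obtain ⟨r, c, m, rfl, ht'⟩ := hit_pieces hs.1 hu ht
  obtain ⟨k1, _, h1, h2⟩ := swap_geo hp.dir (fun v hv => hp.half v hv) (t3_ip_foot _ _ _ _) hne
    (by unfold ft; rw [t3_cl_foot, t3_cl_foot]) hs.1 hu ht'
  obtain ⟨b1, b2, b3⟩ := a2_adm hq0 hs.2 hua ht' k1 hto
  simp only [swp_eq hs.1 ht']
  refine ⟨⟨h1, b1⟩, ?_, ?_⟩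
  · rw [mem_hitA]
    refine ⟨h2, b2, ⟨u.length + 1, by omega, by simp, ?_⟩, b3⟩
    rw [vx_append le_rfl, ← ht']
    rfl
  · rw [swp_eq h1 ht'.symm, Bool.not_not]

theorem swap_sumA {Ω : Finset Pt} {X : Set Pt} {p q : ℤ} (hp0 : 0 ≤ p) (hpq : p < q) (hp : GoodDom Ω (ft p) up)
    (hq : GoodDom Ω (ft q) up) (f : ℤ → ℝ) : ZhA Ω X q p f = ZhA Ω X p q (fun w => f (w + 2)) := by
  have hright : cross up (ft q - ft p) < 0 := by
    unfold ft
    rw [t3_cross_foot hp.dir]
    have : (p : ℤ) < q := hpq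
    linarith
  have hne : ft p ≠ ft q := by
    intro he
    rw [he, sub_self] at hright
    simp [cross] at hright
  unfold ZhA
  rw [Finset.sum_sigma', Finset.sum_sigma']
  symm
  refine Finset.sum_bij' (fun a _ => ⟨(swp (ft q) (ft p) up (a.1, a.2)).1, (swp (ft q) (ft p) up (a.1, a.2)).2⟩)
    (fun a _ => ⟨(swp (ft p) (ft q) up (a.1, a.2)).1, (swp (ft p) (ft q) up (a.1, a.2)).2⟩) ?_ ?_ ?_ ?_ ?_
  · rintro ⟨s, u⟩ ha
    rw [Finset.mem_sigma] at ha
    simp only at ha
    rw [mem_brAF] at ha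
    obtain ⟨h1, h2, _⟩ := a2_swap (by omega) hne hp ha.1 ha.2
    rw [Finset.mem_sigma]
    simp only
    rw [mem_brAF]
    exact ⟨h1, h2⟩
  · rintro ⟨s, u⟩ ha
    rw [Finset.mem_sigma] at ha
    simp only at ha
    rw [mem_brAF] at ha
    obtain ⟨h1, h2, _⟩ := a2_swap hp0 hne.symm hq ha.1 ha.2
    rw [Finset.mem_sigma]
    simp only
    rw [mem_brAF]
    exact ⟨h1, h2⟩
  · rintro ⟨s, u⟩ ha
    rw [Finset.mem_sigma] at ha
    simp only at ha
    rw [mem_brAF] at ha
    obtain ⟨_, _, h3⟩ := a2_swap (by omega) hne hp ha.1 ha.2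
    simp only [h3]
  · rintro ⟨s, u⟩ ha
    rw [Finset.mem_sigma] at ha
    simp only at ha
    rw [mem_brAF] at ha
    obtain ⟨_, _, h3⟩ := a2_swap hp0 hne.symm hq ha.1 ha.2
    simp only [h3]
  · rintro ⟨s, u⟩ ha
    rw [Finset.mem_sigma] at ha
    simp only at ha
    rw [mem_brAF, mem_hitA] at ha
    obtain ⟨hs, hu, _, ht, _⟩ := ha
    obtain ⟨r, c, m, rfl, ht'⟩ := hit_pieces hs.1 hu ht
    have hw := swap_wind hp hq (t3_ip_foot _ _ _ _) (by unfold ft; rw [t3_cl_foot, t3_cl_foot]) hright hs.1 hu ht'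
    simp only [swp_eq hs.1 ht']
    rw [hw]
    congr 2
    simp only [List.length_append, List.length_singleton]
    omega

/-- a hit sum over an unreachable walker. -/
theorem zhA_far {Ω : Finset Pt} {k1 k2 k3 : ℤ} (h2 : GoodDom Ω (ft k2) up)
    (hside : (k1 < k2 ∧ k2 < k3) ∨ (k3 < k2 ∧ k2 < k1)) (f : ℤ → ℝ) :
    ∑ s ∈ fam Ω (ft k2) up (BrA (Ω : Set Pt) ∅ k2), xc ^ s.length * ZhA Ω (vis (ft k2) up s) k1 k3 f = 0 := by
  have hc : ∀ a b : ℤ, cross up (ft a - ft b) = -2 * (a - b) := fun a b => t3_cross_foot h2.dir _ _ _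
  have hcl : ∀ a b : ℤ, cl (ft a) = cl (ft b) := fun a b => by unfold ft; rw [t3_cl_foot, t3_cl_foot]
  have hside' : (0 < cross up (ft k1 - ft k2) ∧ cross up (ft k3 - ft k2) < 0) ∨
      (cross up (ft k1 - ft k2) < 0 ∧ 0 < cross up (ft k3 - ft k2)) := by
    rw [hc, hc]
    rcases hside with ⟨a, b⟩ | ⟨a, b⟩
    · left
      constructor <;> linarith
    · right
      constructor <;> linarith
  apply Finset.sum_eq_zero
  intro s hs
  rw [mem_brAF] at hs
  have : ZhA Ω (vis (ft k2) up s) k1 k3 f = 0 := by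
    unfold ZhA
    apply Finset.sum_eq_zero
    intro g hg
    rw [mem_brAF] at hg
    apply Finset.sum_eq_zero
    intro u hu
    rw [mem_hitA] at hu
    exact absurd hu.2.2.1 (far_hit h2 (hcl _ _) (hcl _ _) (t3_ip_foot _ _ _ _) (t3_ip_foot _ _ _ _) hside' hs.1 hg.1 hu.1)
  rw [this, mul_zero]

end SP

end HexObs
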