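import Pool.Agent.HexStep.Land

/-!
STEP, A5b: the sums over the free exits, from A5a.
-/

set_option autoImplicit false

namespace HexObs

namespace SP

open Complex Finset ENNReal

lemma ft_inj {j k : ℤ} (h : ft j = ft k) : j = k := by
  rw [ft_eq, ft_eq] at h
  have h1 := congrArg Prod.snd h
  simp only at h1
  omega

lemma le_inj {j k : ℤ} (h : le j = le k) : j = k := by
  have h1 := congrArg Prod.snd h
  unfold le at h1
  simp only at h1
  omega

lemma up_ne_neg : up ≠ -up := by decide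

/-- membership in the free exits. -/
lemma mem_freeA {Ω : Finset Pt} {Y : Set Pt} {k : ℤ} {u : List Bool} :
    u ∈ freeA Ω Y k ↔ Saw ((Ω : Set Pt) \ Y) (ft k) up u ∧ Adm k u ∧
      (tip (ft k) up u ∉ (Ω : Set Pt) ∨ tip (ft k) up u ∈ OO) := by
  unfold freeA
  rw [mem_fam, saw_slit]
  exact Iff.rfl

/-- the weight of a family of free exits. -/
lemma gr_free {Ω : Finset Pt} {Y : Set Pt} {k : ℤ} {D : Set (List Bool)} [DecidablePred (fun u => u ∈ D)]
    (hD : ∀ u ∈ D, Saw ((Ω : Set Pt) \ Y) (ft k) up u ∧ Adm k u ∧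
      (tip (ft k) up u ∉ (Ω : Set Pt) ∨ tip (ft k) up u ∈ OO)) :
    gr Ω (ft k) up D = ∑ u ∈ freeA Ω Y k, xc ^ u.length * (if u ∈ D then 1 else 0) := by
  have h1 : fam Ω (ft k) up D = (freeA Ω Y k).filter (fun u => u ∈ D) := by
    ext u
    rw [Finset.mem_filter, mem_fam, mem_freeA]
    exact ⟨fun h => ⟨hD u h.2, h.2⟩, fun h => ⟨saw_arr h.1.1, h.2⟩⟩
  unfold gr
  rw [h1, Finset.sum_filter]
  apply Finset.sum_congr rfl
  intro u _
  split_ifs <;> simp

lemma brA_free {Ω : Finset Pt} {Y : Set Pt} {k : ℤ} : ∀ u ∈ BrA (Ω : Set Pt) Y k,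
    Saw ((Ω : Set Pt) \ Y) (ft k) up u ∧ Adm k u ∧ (tip (ft k) up u ∉ (Ω : Set Pt) ∨ tip (ft k) up u ∈ OO) :=
  fun _ h => ⟨h.1.1, h.2, Or.inl h.1.2.1⟩

lemma ltA_free {Ω : Finset Pt} {Y : Set Pt} {k : ℤ} : ∀ u ∈ LtA (Ω : Set Pt) Y k,
    Saw ((Ω : Set Pt) \ Y) (ft k) up u ∧ Adm k u ∧ (tip (ft k) up u ∉ (Ω : Set Pt) ∨ tip (ft k) up u ∈ OO) :=
  fun _ h => ⟨h.1, h.2.1, Or.inl h.2.2.1⟩

lemma ld_free {Ω : Finset Pt} {Y : Set Pt} {k j : ℤ} (hj : 1 ≤ j) : ∀ u ∈ Ld (Ω : Set Pt) Y k j,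
    Saw ((Ω : Set Pt) \ Y) (ft k) up u ∧ Adm k u ∧ (tip (ft k) up u ∉ (Ω : Set Pt) ∨ tip (ft k) up u ∈ OO) := by
  intro u h
  refine ⟨h.1, h.2.1, Or.inr ?_⟩
  rw [h.2.2.1]
  exact le_mem_OO.2 hj

/-- the last vertex of an admissible walk that goes down is not in OO. -/
lemma adm_last {k : ℤ} {u : List Bool} (hA : Adm k u) (hd : dx up u u.length = -up) :
    vx (ft k) up u u.length ∉ OO := by
  apply hA.out _ _ le_rfl
  obtain ⟨s, hs⟩ := hA.pre
  rcases Nat.eq_zero_or_pos s.length with h | h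
  · exfalso
    rw [List.length_eq_zero_iff.1 h, List.append_nil] at hs
    rw [← hs] at hd
    unfold pre at hd
    split_ifs at hd
    · revert hd
      decide
    · revert hd
      decide
  · rw [← hs, List.length_append]
    omega

/-- admissible walks that leave downwards land left of 0. -/
lemma dn_adm {T n : ℕ} {k : ℤ} (hg : GoodDom (tz T n) (ft k) up) {Y : Set Pt} {u : List Bool}
    (hu : u ∈ Dn (tz T n : Set Pt) Y (ft k) up) (hA : Adm k u) : ∃ j < 0, tip (ft k) up u = ft j := by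
  obtain ⟨h1, h2, h3⟩ := hu
  have hex : u ∈ exits (tz T n) (ft k) up := mem_exits.2 ⟨saw_arr h1, h2⟩
  have hlev := hg.bottom_level hex h3
  have hlast := adm_last hA h3
  have hlast' : vx (ft k) up u u.length = tip (ft k) up u + up := by
    rw [tip_eq, h3]
    abel
  rw [hlast'] at hlast
  obtain ⟨q, hq⟩ : ∃ q, q = tip (ft k) up u := ⟨_, rfl⟩
  rw [← hq] at hlev hlast ⊢
  obtain ⟨a, b⟩ := q
  rw [ft_eq] at hlev
  unfold ip up at hlev
  simp only [Prod.mk_sub_mk] at hlev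
  refine ⟨-b, ?_, ?_⟩
  · by_contra hcon
    apply hlast
    have e : ((a, b) : Pt) + up = ue (-b) := by
      unfold ue up
      rw [Prod.mk_add_mk]
      congr 1 <;> linarith
    rw [e]
    exact ue_mem_OO.2 (by omega)
  · rw [ft_eq]
    congr 1 <;> linarith

lemma sn_nonneg {m : ℝ} (h0 : 0 ≤ m) (h8 : m ≤ 8) : 0 ≤ sn m := by
  unfold sn
  have := Real.pi_pos
  exact Real.sin_nonneg_of_nonneg_of_le_pi (by positivity) (by nlinarith)

lemma sn_le_one (m : ℝ) : sn m ≤ 1 := Real.sin_le_one _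

lemma sn_four : sn 4 = 1 := sin_vals.1

lemma sn_eight : sn 8 = 0 := sin_vals.2.2.1

lemma sn_five : sn 5 = sn 3 := by
  unfold sn
  rw [sin_vals.2.2.2]
  congr 1
  ring

lemma sn_neg_two : sn (-2) = -(1 / Real.sqrt 2) := by
  unfold sn
  rw [← sin_vals.2.1, ← Real.sin_neg]
  congr 1
  ring

theorem free1 {T n : ℕ} (hn : 1 < n) {Y : Set Pt} (hle : le 0 ∈ Y) :
    sn 3 * gr (tz T n) (ft 1) up (BrA (tz T n : Set Pt) Y 1) ≤ frA (tz T n) 1 (fun w => sn (3 + w)) Y := by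
  classical
  rw [gr_free brA_free, Finset.mul_sum]
  unfold frA
  apply Finset.sum_le_sum
  intro u hu
  have hx := pow_nonneg xc_pos.le u.length
  have h := land_wind (k := 1) (by norm_num) (by exact_mod_cast hn) (Or.inr hle) hu
  have key : ∀ w : ℤ, -3 ≤ w → w ≤ 3 → 0 ≤ sn (3 + (w : ℝ)) := by
    intro w h1 h2
    have h1' : (-3 : ℝ) ≤ w := by exact_mod_cast h1
    have h2' : (w : ℝ) ≤ 3 := by exact_mod_cast h2
    exact sn_nonneg (by linarith) (by linarith)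
  by_cases hB : u ∈ BrA (tz T n : Set Pt) Y 1
  · have hw : wind u = 0 := by
      rcases h with h | h | h | ⟨j, _, _, h, _⟩
      · exact h.2
      · exact absurd (hB.1.2.2.symm.trans h.1.2.2) up_ne_neg
      · exact absurd hB.1.2.2 h.1.2.2.2.1
      · exact absurd (hB.1.2.2.symm.trans h.2.2.2) up_ne_neg
    rw [if_pos hB, hw]
    simp only [Int.cast_zero, add_zero, mul_one]
    rw [mul_comm]
  · rw [if_neg hB, mul_zero, mul_zero]
    apply mul_nonneg hx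
    apply key
    · rcases h with h | ⟨_, h | h⟩ | ⟨_, h | h | h | h⟩ | ⟨j, _, _, _, h | h⟩ <;> omega
    · rcases h with h | ⟨_, h | h⟩ | ⟨_, h | h | h | h⟩ | ⟨j, _, _, _, h | h⟩ <;> omega

theorem free0 {T n : ℕ} (hn : 1 < n) {Y : Set Pt} {s : List Bool} (hs : s ∈ BrA (tz T n : Set Pt) ∅ 1)
    (hY : vis (ft 1) up s ⊆ Y) :
    frA (tz T n) 0 (fun w => sn (5 + w)) Y ≤ sn 3 * gr (tz T n) (ft 0) up (BrA (tz T n : Set Pt) Y 0) +
      gr (tz T n) (ft 0) up (LtA (tz T n : Set Pt) Y 0) := by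
  classical
  rw [gr_free brA_free, gr_free ltA_free, Finset.mul_sum, ← Finset.sum_add_distrib]
  unfold frA
  apply Finset.sum_le_sum
  intro u hu
  have hx := pow_nonneg xc_pos.le u.length
  have h := land_wind (k := 0) le_rfl (by exact_mod_cast (by omega : 0 < n)) (Or.inl rfl) hu
  have h3 : 0 ≤ sn 3 := sn_nonneg (by norm_num) (by norm_num)
  have hg : GoodDom (tz T n) (ft 0) up := tz_good (by rw [abs_zero]; exact_mod_cast (by omega : 0 < n))
  have hA := (mem_freeA.1 hu).2.1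
  have p1 : 0 ≤ (if u ∈ BrA (tz T n : Set Pt) Y 0 then (1 : ℝ) else 0) := by split_ifs <;> norm_num
  have p2 : 0 ≤ (if u ∈ LtA (tz T n : Set Pt) Y 0 then (1 : ℝ) else 0) := by split_ifs <;> norm_num
  have e : sn 3 * (xc ^ u.length * (if u ∈ BrA (tz T n : Set Pt) Y 0 then (1 : ℝ) else 0)) +
      xc ^ u.length * (if u ∈ LtA (tz T n : Set Pt) Y 0 then (1 : ℝ) else 0) =
      xc ^ u.length * (sn 3 * (if u ∈ BrA (tz T n : Set Pt) Y 0 then (1 : ℝ) else 0) +
        (if u ∈ LtA (tz T n : Set Pt) Y 0 then (1 : ℝ) else 0)) := by ring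
  rw [e]
  apply mul_le_mul_of_nonneg_left _ hx
  rcases h with ⟨hB, hw⟩ | ⟨hD, h | h⟩ | ⟨hL, _⟩ | ⟨j, hj1, _, hL, _⟩
  · rw [if_pos hB, hw]
    simp only [Int.cast_zero, add_zero, mul_one]
    rw [sn_five]
    linarith
  · rw [h.2]
    have e2 : (5 : ℝ) + ((3 : ℤ) : ℝ) = 8 := by norm_num
    show sn ((5 : ℝ) + ((3 : ℤ) : ℝ)) ≤ _
    rw [e2, sn_eight]
    exact add_nonneg (mul_nonneg h3 p1) p2
  · exfalso
    obtain ⟨j, hj, ht⟩ := dn_adm hg hD hA
    have hc := h.1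
    rw [ht, ft_eq, ft_eq] at hc
    unfold cross up at hc
    simp only [Prod.mk_sub_mk] at hc
    omega
  · rw [if_pos hL]
    have := sn_le_one (5 + (wind u : ℝ))
    have h4 := mul_nonneg h3 p1
    linarith
  · exfalso
    have := far_landA (a := 1) (by norm_num) (by exact_mod_cast hn) le_rfl (by exact_mod_cast (by omega : 0 < n))
      (by norm_num) hj1 hs hY hL
    obtain ⟨h5, h6⟩ := this
    omega

theorem freel {T n : ℕ} {l : ℤ} (hl : 2 ≤ l) (hn : l < n) {Y : Set Pt} (hle : le 0 ∈ Y) {s : List Bool}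
    (hs : s ∈ BrA (tz T n : Set Pt) ∅ 1) (hY : vis (ft 1) up s ⊆ Y) :
    frA (tz T n) l (fun w => sn (1 + w)) Y ≤ sn 1 * gr (tz T n) (ft l) up (BrA (tz T n : Set Pt) Y l) -
      gr (tz T n) (ft l) up (LdR (tz T n : Set Pt) Y l) / Real.sqrt 2 +
      gr (tz T n) (ft l) up (LdL (tz T n : Set Pt) Y l) + gr (tz T n) (ft l) up (LtA (tz T n : Set Pt) Y l) := by
  classical
  have fR : ∀ u ∈ LdR (tz T n : Set Pt) Y l, Saw ((tz T n : Set Pt) \ Y) (ft l) up u ∧ Adm l u ∧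
      (tip (ft l) up u ∉ (tz T n : Set Pt) ∨ tip (ft l) up u ∈ OO) := by
    rintro u ⟨j, hj, h⟩
    exact ld_free (by omega) u h
  have fL : ∀ u ∈ LdL (tz T n : Set Pt) Y l, Saw ((tz T n : Set Pt) \ Y) (ft l) up u ∧ Adm l u ∧
      (tip (ft l) up u ∉ (tz T n : Set Pt) ∨ tip (ft l) up u ∈ OO) := by
    rintro u ⟨j, hj, _, h⟩
    exact ld_free (by omega) u h
  rw [gr_free brA_free, gr_free ltA_free, gr_free fR, gr_free fL, Finset.mul_sum, Finset.sum_div,
    ← Finset.sum_sub_distrib, ← Finset.sum_add_distrib, ← Finset.sum_add_distrib]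
  unfold frA
  apply Finset.sum_le_sum
  intro u hu
  have hx := pow_nonneg xc_pos.le u.length
  have h := land_wind (k := l) (by omega) hn (Or.inr hle) hu
  have s1 : 0 ≤ sn 1 := sn_nonneg (by norm_num) (by norm_num)
  have hg : GoodDom (tz T n) (ft l) up := tz_good (by rw [abs_of_nonneg (by omega)]; exact hn)
  have hg1 : GoodDom (tz T n) (ft 1) up := tz_good (by rw [abs_one]; omega)
  have hA := (mem_freeA.1 hu).2.1
  have p1 : 0 ≤ (if u ∈ BrA (tz T n : Set Pt) Y l then (1 : ℝ) else 0) := by split_ifs <;> norm_num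
  have p2 : 0 ≤ (if u ∈ LtA (tz T n : Set Pt) Y l then (1 : ℝ) else 0) := by split_ifs <;> norm_num
  have p3 : 0 ≤ (if u ∈ LdL (tz T n : Set Pt) Y l then (1 : ℝ) else 0) := by split_ifs <;> norm_num
  have e : sn 1 * (xc ^ u.length * (if u ∈ BrA (tz T n : Set Pt) Y l then (1 : ℝ) else 0)) -
      xc ^ u.length * (if u ∈ LdR (tz T n : Set Pt) Y l then (1 : ℝ) else 0) / Real.sqrt 2 +
      xc ^ u.length * (if u ∈ LdL (tz T n : Set Pt) Y l then (1 : ℝ) else 0) +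
      xc ^ u.length * (if u ∈ LtA (tz T n : Set Pt) Y l then (1 : ℝ) else 0) =
      xc ^ u.length * (sn 1 * (if u ∈ BrA (tz T n : Set Pt) Y l then (1 : ℝ) else 0) -
        (if u ∈ LdR (tz T n : Set Pt) Y l then (1 : ℝ) else 0) * (1 / Real.sqrt 2) +
        (if u ∈ LdL (tz T n : Set Pt) Y l then (1 : ℝ) else 0) +
        (if u ∈ LtA (tz T n : Set Pt) Y l then (1 : ℝ) else 0)) := by ring
  rw [e]
  apply mul_le_mul_of_nonneg_left _ hx
  rcases h with ⟨hB, hw⟩ | ⟨hD, _⟩ | ⟨hL, _⟩ | ⟨j, hj1, _, hL, ⟨hj, hw⟩ | ⟨hj, hw⟩⟩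
  · have hR : u ∉ LdR (tz T n : Set Pt) Y l := by
      rintro ⟨j, _, hj⟩
      exact up_ne_neg (hB.1.2.2.symm.trans hj.2.2.2)
    rw [if_pos hB, if_neg hR, hw]
    simp only [Int.cast_zero, add_zero, mul_one]
    linarith
  · exfalso
    obtain ⟨j, hj, ht⟩ := dn_adm hg hD hA
    have key := far_land hg hg1 (by rw [ft, ft, t3_cl_foot, t3_cl_foot]) (t3_ip_foot _ _ _ _)
      (fun h => by have := ft_inj h; omega) hs.1 hY hD
    rw [ht, ft_eq, ft_eq, ft_eq] at key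
    unfold cross up at key
    simp only [Prod.mk_sub_mk] at key
    omega
  · have hR : u ∉ LdR (tz T n : Set Pt) Y l := by
      rintro ⟨j, _, hj⟩
      exact hL.2.2.2.2 hj.2.2.2
    rw [if_pos hL, if_neg hR]
    have := sn_le_one (1 + (wind u : ℝ))
    have h4 := mul_nonneg s1 p1
    linarith
  · have hR : u ∈ LdR (tz T n : Set Pt) Y l := ⟨j, hj, hL⟩
    rw [if_pos hR, hw]
    have e2 : (1 : ℝ) + ((-3 : ℤ) : ℝ) = -2 := by norm_num
    show sn ((1 : ℝ) + ((-3 : ℤ) : ℝ)) ≤ _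
    rw [e2, sn_neg_two]
    have h4 := mul_nonneg s1 p1
    linarith
  · obtain ⟨h5, h6⟩ := far_landA (a := 1) (by norm_num) (by omega) (by omega) hn (by omega) hj1 hs hY hL
    have hLL : u ∈ LdL (tz T n : Set Pt) Y l := ⟨j, by omega, hj, hL⟩
    have hR : u ∉ LdR (tz T n : Set Pt) Y l := by
      rintro ⟨i, hi, h7⟩
      have := le_inj (h7.2.2.1.symm.trans hL.2.2.1)
      omega
    rw [if_pos hLL, if_neg hR, hw]
    have e2 : (1 : ℝ) + ((3 : ℤ) : ℝ) = 4 := by norm_num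
    show sn ((1 : ℝ) + ((3 : ℤ) : ℝ)) ≤ _
    rw [e2, sn_four]
    have h4 := mul_nonneg s1 p1
    linarith

end SP

end HexObs
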