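import Pool.Agent.HexStep.Alg

/-!
STEP, A1: coordinates, prefix, the trapezoid.
-/

set_option autoImplicit false

namespace HexObs

namespace SP

open Complex Finset ENNReal

lemma ft_eq (k : ℤ) : ft k = (2 * k, -k) := by
  have h : hz up = (2, -1) := by decide
  unfold ft foot
  rw [h]
  show ((0 : ℤ), (0 : ℤ)) + (k * 2, k * (-1)) = _
  rw [Prod.mk_add_mk]
  congr 1 <;> ring

lemma mem_St' {T : ℕ} {v : Pt} : v ∈ St T ↔ lv v % 3 ≠ 1 ∧ 0 < lv v ∧ lv v < 3 * T + 2 := by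
  have h0 : ip (v - oo) up = lv v := by
    unfold ip lv up oo
    simp only [Prod.fst_sub, Prod.snd_sub]
    ring
  have h1 : v ∈ St T ↔ IsHex oo up v ∧ 0 < ip (v - oo) up ∧ ip (v - oo) up < 3 * T + 2 := Iff.rfl
  rw [h1, h0]
  have h2 : IsHex oo up v ↔ lv v % 3 ≠ 1 := by
    unfold IsHex
    have e1 : cl oo = ((0 : ℤ) : ZMod 3) := by
      simp [cl, oo]
    have e2 : cl up = ((-1 : ℤ) : ZMod 3) := by
      simp [cl, up]
    have e3 : cl v = ((lv v : ℤ) : ZMod 3) := by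
      have h3 : (3 : ZMod 3) = 0 := three_eq
      unfold cl lv
      push_cast
      linear_combination (-(v.2 : ZMod 3)) * h3
    rw [e1, e2, e3, ← Int.cast_add, ZMod.intCast_eq_intCast_iff, ZMod.intCast_eq_intCast_iff]
    unfold Int.ModEq
    push_cast
    omega
  rw [h2]

lemma mem_tz {T n : ℕ} {v : Pt} : v ∈ tz T n ↔ v ∈ St (T + 1) ∧ v.2 - v.1 < 3 * n ∧ 2 * v.1 + v.2 < 3 * n := by
  have hmem : v ∈ tz T n ↔ v ∈ trap oo up (T + 1) n := by
    unfold tz
    rw [← Finset.mem_coe, trapF_coe]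
  have h1 : ip (v - oo) (rotL up) = v.2 - v.1 := by
    unfold ip rotL up oo
    simp only [Prod.fst_sub, Prod.snd_sub]
    ring
  have h2 : ip (v - oo) (rotR up) = 2 * v.1 + v.2 := by
    unfold ip rotR up oo
    simp only [Prod.fst_sub, Prod.snd_sub]
    ring
  have h3 : v ∈ trap oo up (T + 1) n ↔ v ∈ St (T + 1) ∧ ip (v - oo) (rotL up) < 3 * n ∧
      ip (v - oo) (rotR up) < 3 * n := Iff.rfl
  rw [hmem, h3, h1, h2]

lemma tz_good {T n : ℕ} {k : ℤ} (hk : |k| < n) : GoodDom (tz T n) (ft k) up :=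
  HexW.trap_good_foot (v0 := oo) upd (by omega) hk

/-- neighbours in the first row. -/
lemma nbr_ue {T : ℕ} {k : ℤ} {v : Pt} (hv : v ∈ St T) (d : Pt) (hd : d ∈ dirs) (h : v + d = ue k) :
    v = le k ∨ v = le (k + 1) := by
  rw [mem_St'] at hv
  obtain ⟨a, b⟩ := v
  unfold dirs at hd
  simp only [Finset.mem_insert, Finset.mem_singleton] at hd
  unfold lv at hv
  simp only at hv
  unfold ue at h
  unfold le
  rcases hd with rfl | rfl | rfl | rfl | rfl | rfl <;>
    simp only [Prod.mk_add_mk, Prod.mk.injEq] at h ⊢ <;> omega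

lemma nbr_le {T : ℕ} {k : ℤ} {v : Pt} (hv : v ∈ St T) (d : Pt) (hd : d ∈ dirs) (h : v + d = le k) :
    v = le k + up ∨ v = ue (k - 1) ∨ v = ue k := by
  rw [mem_St'] at hv
  obtain ⟨a, b⟩ := v
  unfold dirs at hd
  simp only [Finset.mem_insert, Finset.mem_singleton] at hd
  unfold lv at hv
  simp only at hv
  unfold le at h
  unfold le ue up
  rcases hd with rfl | rfl | rfl | rfl | rfl | rfl <;>
    simp only [Prod.mk_add_mk, Prod.mk.injEq] at h ⊢ <;> omega

/-- the sites of the first row. -/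
lemma row_one {T : ℕ} {v : Pt} (hv : v ∈ St T) (h : lv v ≤ 3) : ∃ k, v = ue k ∨ v = le k := by
  rw [mem_St'] at hv
  obtain ⟨a, b⟩ := v
  unfold lv at hv h
  simp only at hv h
  unfold ue le
  simp only [Prod.mk.injEq]
  rcases (by omega : a + 2 * b = 2 ∨ a + 2 * b = 3) with h1 | h1
  · exact ⟨1 - b, Or.inl (by omega)⟩
  · exact ⟨2 - b, Or.inr (by omega)⟩

lemma ue_mem_OO {k : ℤ} : ue k ∈ OO ↔ 0 ≤ k := by
  have h : ue k ∈ OO ↔ 2 * k + 2 * (1 - k) ≤ 3 ∧ -1 ≤ 2 * k - (1 - k) := Iff.rfl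
  rw [h]
  omega

lemma le_mem_OO {k : ℤ} : le k ∈ OO ↔ 1 ≤ k := by
  have h : le k ∈ OO ↔ 2 * k - 1 + 2 * (2 - k) ≤ 3 ∧ -1 ≤ 2 * k - 1 - (2 - k) := Iff.rfl
  rw [h]
  omega

lemma lv_ue (k : ℤ) : lv (ue k) = 2 := by
  unfold lv ue
  simp only
  ring

lemma lv_le (k : ℤ) : lv (le k) = 3 := by
  unfold lv le
  simp only
  ring

/-- the vertices of the prefix and the next one. -/
lemma adm_vx {k : ℤ} {t : List Bool} (h : Adm k t) : vx (ft k) up t 1 = ue k ∧ vx (ft k) up t 2 = le k ∧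
    (k ≠ 0 → vx (ft k) up t 3 = le k + up) := by
  have h1 : vx (ft k) up t 1 = ue k := by
    show ft k + up = ue k
    rw [ft_eq]
    unfold up ue
    rw [Prod.mk_add_mk]
    congr 1 <;> ring
  have h0 : tf t 0 = true := by
    obtain ⟨s, hs⟩ := h.pre
    rw [← hs]
    unfold pre
    split_ifs
    · rfl
    · rfl
  have h2 : vx (ft k) up t 2 = le k := by
    have e1 : vx (ft k) up t 2 = vx (ft k) up t 1 + turn (tf t 0) up := rfl
    rw [e1, h1, h0]
    have e : turn true up = (-1, 1) := by decide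
    rw [e]
    unfold ue le
    rw [Prod.mk_add_mk]
    congr 1 <;> ring
  refine ⟨h1, h2, fun hk => ?_⟩
  have h3 : tf t 1 = false := by
    obtain ⟨s, hs⟩ := h.pre
    rw [← hs]
    unfold pre
    rw [if_neg hk]
    rfl
  have e1 : vx (ft k) up t 3 = vx (ft k) up t 2 + turn (tf t 1) (turn (tf t 0) up) := rfl
  rw [e1, h2, h0, h3]
  have e : turn false (turn true up) = up := by decide
  rw [e]

/-- the visited vertices in OO. -/
lemma adm_OO {k : ℤ} {t : List Bool} (h : Adm k t) {v : Pt} (hv : v ∈ vis (ft k) up t) (hO : v ∈ OO) :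
    v = ue k ∨ (k ≠ 0 ∧ v = le k) := by
  obtain ⟨i, h1, h2, rfl⟩ := hv
  obtain ⟨e1, e2, -⟩ := adm_vx h
  rcases Nat.lt_or_ge (pre k).length i with h3 | h3
  · exact absurd hO (h.out i h3 h2)
  · by_cases hk : k = 0
    · have h4 : (pre k).length = 1 := by
        unfold pre
        rw [if_pos hk]
        rfl
      have h5 : i = 1 := by omega
      subst h5
      exact Or.inl e1
    · have h4 : (pre k).length = 2 := by
        unfold pre
        rw [if_neg hk]
        rfl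
      rcases (by omega : i = 1 ∨ i = 2) with h5 | h5
      · subst h5
        exact Or.inl e1
      · subst h5
        exact Or.inr ⟨hk, e2⟩

end SP

end HexObs
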