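import Pool.Agent.HexStep.Defs

/-!
STEP, A0: algebra of the sums over admissible bridges (copy of HexObs/Ex).
-/

set_option autoImplicit false

namespace HexObs

namespace SP

open Complex Finset ENNReal

lemma brA_sub {Ω X : Set Pt} {k : ℤ} : BrA Ω X k ⊆ Br Ω X (ft k) up := fun _ h => h.1

lemma mem_brA {Ω X : Set Pt} {k : ℤ} {t : List Bool} :
    t ∈ BrA Ω X k ↔ t ∈ BrA Ω ∅ k ∧ Disjoint X (vis (ft k) up t) := by
  unfold BrA
  simp only [Set.mem_ofPred_eq]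
  rw [mem_br]
  constructor
  · rintro ⟨⟨h1, h2⟩, h3⟩
    exact ⟨⟨h1, h3⟩, h2⟩
  · rintro ⟨⟨h1, h3⟩, h2⟩
    exact ⟨⟨h1, h2⟩, h3⟩

lemma brA_arr (Ω : Finset Pt) (X : Set Pt) (k : ℤ) : InArr Ω (ft k) up (BrA (Ω : Set Pt) X k) :=
  fun t h => br_arr Ω X (ft k) up t h.1

lemma overA_mono {Ω : Set Pt} {k : ℤ} {F G : Set Pt → ℝ≥0∞}
    (h : ∀ X, F X ≤ G X) (X : Set Pt) : overA Ω k F X ≤ overA Ω k G X := by
  unfold overA
  apply ENNReal.tsum_le_tsum
  intro s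
  by_cases hs : s ∈ BrA Ω X k
  · rw [Set.indicator_of_mem hs, Set.indicator_of_mem hs]
    exact mul_le_mul_right (h _) _
  · rw [Set.indicator_of_notMem hs]
    exact zero_le

/-- only the obstacles that occur count. -/
lemma overA_mono' {Ω : Set Pt} {k : ℤ} {F G : Set Pt → ℝ≥0∞} {X : Set Pt}
    (h : ∀ s ∈ BrA Ω X k, F (X ∪ vis (ft k) up s) ≤ G (X ∪ vis (ft k) up s)) : overA Ω k F X ≤ overA Ω k G X := by
  unfold overA
  apply ENNReal.tsum_le_tsum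
  intro s
  by_cases hs : s ∈ BrA Ω X k
  · rw [Set.indicator_of_mem hs, Set.indicator_of_mem hs]
    exact mul_le_mul_right (h s hs) _
  · rw [Set.indicator_of_notMem hs]
    exact zero_le

lemma overA_one (Ω : Set Pt) (k : ℤ) (X : Set Pt) : overA Ω k (fun _ => 1) X = gf (BrA Ω X k) := by
  unfold overA gf
  rw [tsum_subtype (BrA Ω X k) (fun s => wE s)]
  simp only [mul_one]

lemma overA_const_mul (Ω : Set Pt) (k : ℤ) (c : ℝ≥0∞) (F : Set Pt → ℝ≥0∞) (X : Set Pt) :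
    overA Ω k (fun Y => c * F Y) X = c * overA Ω k F X := by
  unfold overA
  rw [← ENNReal.tsum_mul_left]
  apply tsum_congr
  intro s
  by_cases hs : s ∈ BrA Ω X k
  · rw [Set.indicator_of_mem hs, Set.indicator_of_mem hs]
    ring
  · rw [Set.indicator_of_notMem hs, Set.indicator_of_notMem hs, mul_zero]

/-- the sum over bridges of a bounded function. -/
lemma overA_le {Ω : Set Pt} {k : ℤ} {F : Set Pt → ℝ≥0∞} {c B : ℝ≥0∞} (hF : ∀ Y, F Y ≤ c)
    {X : Set Pt} (hB : gf (BrA Ω X k) ≤ B) : overA Ω k F X ≤ c * B := by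
  calc overA Ω k F X ≤ overA Ω k (fun _ => c * 1) X :=
        overA_mono (fun Y => by rw [mul_one]; exact hF Y) X
    _ = c * overA Ω k (fun _ => 1) X := overA_const_mul Ω k c (fun _ => 1) X
    _ = c * gf (BrA Ω X k) := by rw [overA_one]
    _ ≤ c * B := mul_le_mul_right hB c

/-! finite domains -/

lemma mem_brAF {Ω : Finset Pt} {X : Set Pt} {k : ℤ} {t : List Bool} :
    t ∈ fam Ω (ft k) up (BrA (Ω : Set Pt) X k) ↔ t ∈ BrA (Ω : Set Pt) X k := by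
  rw [mem_fam]
  exact ⟨fun h => h.2, fun h => ⟨brA_arr _ _ _ _ h, h⟩⟩

lemma overA_sum (Ω : Finset Pt) (k : ℤ) (F : Set Pt → ℝ≥0∞) (X : Set Pt) :
    overA (Ω : Set Pt) k F X =
      ∑ s ∈ fam Ω (ft k) up (BrA (Ω : Set Pt) X k), wE s * F (X ∪ vis (ft k) up s) := by
  unfold overA
  rw [tsum_eq_sum (s := fam Ω (ft k) up (BrA (Ω : Set Pt) X k))]
  · apply Finset.sum_congr rfl
    intro s hs
    rw [Set.indicator_of_mem (mem_brAF.1 hs)]
  · intro s hs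
    rw [Set.indicator_of_notMem (fun h => hs (mem_brAF.2 h))]

lemma overA_ne_top (Ω : Finset Pt) (k : ℤ) (F : Set Pt → ℝ≥0∞) (hF : ∀ Y, F Y ≠ ∞) (X : Set Pt) :
    overA (Ω : Set Pt) k F X ≠ ∞ := by
  rw [overA_sum]
  apply ENNReal.sum_ne_top.2
  intro s _
  exact ENNReal.mul_ne_top (wE_ne_top s) (hF _)

lemma overA_toReal (Ω : Finset Pt) (k : ℤ) (F : Set Pt → ℝ≥0∞) (hF : ∀ Y, F Y ≠ ∞) (X : Set Pt) :
    (overA (Ω : Set Pt) k F X).toReal = obA Ω k (fun Y => (F Y).toReal) X := by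
  rw [overA_sum, ENNReal.toReal_sum]
  · unfold obA
    apply Finset.sum_congr rfl
    intro s _
    rw [ENNReal.toReal_mul, wE_toReal]
  · intro s _
    exact ENNReal.mul_ne_top (wE_ne_top s) (hF _)

lemma obA_add (Ω : Finset Pt) (k : ℤ) (F G : Set Pt → ℝ) (X : Set Pt) :
    obA Ω k (fun Y => F Y + G Y) X = obA Ω k F X + obA Ω k G X := by
  unfold obA
  rw [← Finset.sum_add_distrib]
  apply Finset.sum_congr rfl
  intro s _
  ring

lemma obA_mul (Ω : Finset Pt) (k : ℤ) (c : ℝ) (F : Set Pt → ℝ) (X : Set Pt) :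
    obA Ω k (fun Y => c * F Y) X = c * obA Ω k F X := by
  unfold obA
  rw [Finset.mul_sum]
  apply Finset.sum_congr rfl
  intro s _
  ring

lemma obA_mono (Ω : Finset Pt) (k : ℤ) (F G : Set Pt → ℝ) (X : Set Pt)
    (h : ∀ s ∈ BrA (Ω : Set Pt) X k, F (X ∪ vis (ft k) up s) ≤ G (X ∪ vis (ft k) up s)) :
    obA Ω k F X ≤ obA Ω k G X := by
  unfold obA
  apply Finset.sum_le_sum
  intro s hs
  exact mul_le_mul_of_nonneg_left (h s (mem_brAF.1 hs)) (pow_nonneg xc_pos.le _)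

lemma obA_congr (Ω : Finset Pt) (k : ℤ) (F G : Set Pt → ℝ) (X : Set Pt)
    (h : ∀ s ∈ BrA (Ω : Set Pt) X k, F (X ∪ vis (ft k) up s) = G (X ∪ vis (ft k) up s)) :
    obA Ω k F X = obA Ω k G X := by
  unfold obA
  apply Finset.sum_congr rfl
  intro s hs
  rw [h s (mem_brAF.1 hs)]

lemma obA_nonneg (Ω : Finset Pt) (k : ℤ) (F : Set Pt → ℝ) (X : Set Pt) (h : ∀ Y, 0 ≤ F Y) :
    0 ≤ obA Ω k F X :=
  Finset.sum_nonneg (fun _ _ => mul_nonneg (pow_nonneg xc_pos.le _) (h _))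

lemma obA_one (Ω : Finset Pt) (k : ℤ) (X : Set Pt) :
    obA Ω k (fun _ => 1) X = gr Ω (ft k) up (BrA (Ω : Set Pt) X k) := by
  unfold obA gr
  simp only [mul_one]

/-- two bridges, in any order. -/
lemma mem_brA_swap {Ω X : Set Pt} {v w : ℤ} {s t : List Bool} :
    (s ∈ BrA Ω X v ∧ t ∈ BrA Ω (X ∪ vis (ft v) up s) w) ↔
      (t ∈ BrA Ω X w ∧ s ∈ BrA Ω (X ∪ vis (ft w) up t) v) := by
  have h := mem_br_swap (Ω := Ω) (X := X) (v := ft v) (w := ft w) (d0 := up) (s := s) (t := t)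
  constructor
  · rintro ⟨⟨a1, a2⟩, b1, b2⟩
    obtain ⟨c1, c2⟩ := h.1 ⟨a1, b1⟩
    exact ⟨⟨c1, b2⟩, c2, a2⟩
  · rintro ⟨⟨a1, a2⟩, b1, b2⟩
    obtain ⟨c1, c2⟩ := h.2 ⟨a1, b1⟩
    exact ⟨⟨c1, b2⟩, c2, a2⟩

lemma sum_brA_comm (Ω : Finset Pt) (X : Set Pt) (v w : ℤ) (h : List Bool → List Bool → ℝ) :
    ∑ s ∈ fam Ω (ft v) up (BrA (Ω : Set Pt) X v),
      ∑ t ∈ fam Ω (ft w) up (BrA (Ω : Set Pt) (X ∪ vis (ft v) up s) w), h s t =
    ∑ t ∈ fam Ω (ft w) up (BrA (Ω : Set Pt) X w),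
      ∑ s ∈ fam Ω (ft v) up (BrA (Ω : Set Pt) (X ∪ vis (ft w) up t) v), h s t := by
  apply Finset.sum_comm'
  intro s t
  rw [mem_brAF, mem_brAF, mem_brAF, mem_brAF]
  exact mem_brA_swap.trans and_comm

lemma obA_comm (Ω : Finset Pt) (v w : ℤ) (F : Set Pt → ℝ) (X : Set Pt) :
    obA Ω v (obA Ω w F) X = obA Ω w (obA Ω v F) X := by
  unfold obA
  simp only [Finset.mul_sum]
  rw [sum_brA_comm]
  apply Finset.sum_congr rfl
  intro t _
  apply Finset.sum_congr rfl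
  intro s _
  rw [Set.union_assoc, Set.union_comm (vis (ft v) up s), ← Set.union_assoc]
  ring

/-- the last two of three walkers. -/
lemma obA_gr (Ω : Finset Pt) (v w : ℤ) (X : Set Pt) :
    obA Ω v (fun Y => gr Ω (ft w) up (BrA (Ω : Set Pt) Y w)) X =
      obA Ω w (fun Y => gr Ω (ft v) up (BrA (Ω : Set Pt) Y v)) X := by
  have e : ∀ (p : ℤ), (fun Y => gr Ω (ft p) up (BrA (Ω : Set Pt) Y p)) = obA Ω p (fun _ => 1) := by
    intro p
    funext Y
    rw [obA_one]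
  rw [e, e]
  exact obA_comm Ω v w (fun _ => 1) X

/-- pairs of walkers from q, r and a family of words disjoint from them, as a real number. -/
noncomputable def ooA (Ω : Finset Pt) (q r : ℤ) (p : Pt) (D : Set Pt → Set (List Bool)) : ℝ :=
  obA Ω q (obA Ω r (fun Z => gr Ω p up (D Z))) ∅

lemma ooA_nonneg (Ω : Finset Pt) (q r : ℤ) (p : Pt) (D : Set Pt → Set (List Bool)) : 0 ≤ ooA Ω q r p D :=
  obA_nonneg _ _ _ _ (fun _ => obA_nonneg _ _ _ _ (fun _ => gr_nonneg _ _ _ _))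

lemma ooA_comm (Ω : Finset Pt) (q r : ℤ) (p : Pt) (D : Set Pt → Set (List Bool)) :
    ooA Ω q r p D = ooA Ω r q p D :=
  obA_comm Ω q r _ ∅

lemma ooA_last (Ω : Finset Pt) (q r p : ℤ) :
    ooA Ω q r (ft p) (fun Z => BrA (Ω : Set Pt) Z p) = ooA Ω q p (ft r) (fun Z => BrA (Ω : Set Pt) Z r) := by
  unfold ooA
  congr 1
  funext Y
  exact obA_gr Ω r p Y

lemma obA_obA_toReal {Ω : Finset Pt} {q r : ℤ} {p : Pt} {D : Set Pt → Set (List Bool)}
    (hD : ∀ Z, InArr Ω p up (D Z)) :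
    (overA (Ω : Set Pt) q (fun Y => overA (Ω : Set Pt) r (fun Z => gf (D Z)) Y) ∅).toReal = ooA Ω q r p D := by
  have h1 : ∀ Z, gf (D Z) ≠ ∞ := fun Z => gf_ne_top (hD Z)
  rw [overA_toReal _ _ _ (fun Y => overA_ne_top _ _ _ h1 Y)]
  unfold ooA
  congr 1
  funext Y
  rw [overA_toReal _ _ _ h1]
  congr 1
  funext Z
  exact gf_toReal (hD Z)

lemma P2A_toReal (Ω : Finset Pt) (a b : ℤ) :
    (P2A (Ω : Set Pt) a b ∅).toReal = obA Ω a (fun Y => gr Ω (ft b) up (BrA (Ω : Set Pt) Y b)) ∅ := by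
  unfold P2A
  rw [overA_toReal _ _ _ (fun Y => gf_ne_top (brA_arr Ω Y _))]
  congr 1
  funext Y
  exact gf_toReal (brA_arr Ω Y _)

lemma Q2A_toReal {Ω : Finset Pt} {p : Pt} {a b : ℤ} {D : Set Pt → Set (List Bool)}
    (hD : ∀ Z, InArr Ω p up (D Z)) :
    (Q2A (Ω : Set Pt) a b D ∅).toReal = ooA Ω a b p D :=
  obA_obA_toReal hD

lemma P3A_toReal (Ω : Finset Pt) (a b c : ℤ) :
    (P3A (Ω : Set Pt) a b c ∅).toReal = ooA Ω a b (ft c) (fun Z => BrA (Ω : Set Pt) Z c) :=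
  obA_obA_toReal (fun Z => brA_arr Ω Z _)

lemma ooA_lin (Ω : Finset Pt) (q r : ℤ) (F G : Set Pt → ℝ) (a b : ℝ) :
    obA Ω q (obA Ω r (fun Z => a * F Z + b * G Z)) ∅ =
      a * obA Ω q (obA Ω r F) ∅ + b * obA Ω q (obA Ω r G) ∅ := by
  have e1 : obA Ω r (fun Z => a * F Z + b * G Z) = fun Y => a * obA Ω r F Y + b * obA Ω r G Y := by
    funext Y
    rw [obA_add Ω r (fun Z => a * F Z) (fun Z => b * G Z), obA_mul, obA_mul]
  rw [e1, obA_add Ω q (fun Y => a * obA Ω r F Y) (fun Y => b * obA Ω r G Y), obA_mul, obA_mul]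

lemma ld_arr (Ω : Finset Pt) (Z : Set Pt) (k j : ℤ) : InArr Ω (ft k) up (Ld (Ω : Set Pt) Z k j) :=
  fun _ h => saw_arr h.1

lemma ldR_arr (Ω : Finset Pt) (Z : Set Pt) (k : ℤ) : InArr Ω (ft k) up (LdR (Ω : Set Pt) Z k) := by
  rintro t ⟨j, _, h⟩
  exact ld_arr Ω Z k j t h

lemma ldL_arr (Ω : Finset Pt) (Z : Set Pt) (k : ℤ) : InArr Ω (ft k) up (LdL (Ω : Set Pt) Z k) := by
  rintro t ⟨j, _, _, h⟩
  exact ld_arr Ω Z k j t h

lemma ltA_arr (Ω : Finset Pt) (Z : Set Pt) (k : ℤ) : InArr Ω (ft k) up (LtA (Ω : Set Pt) Z k) :=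
  fun _ h => saw_arr h.1

/-- walkers can be summed in any order. -/
theorem overA_comm (Ω : Set Pt) (v w : ℤ) (F : Set Pt → ℝ≥0∞) (X : Set Pt) :
    overA Ω v (overA Ω w F) X = overA Ω w (overA Ω v F) X := by
  have key : ∀ v w : ℤ, overA Ω v (overA Ω w F) X =
      ∑' s : List Bool, ∑' t : List Bool,
        ({p : List Bool × List Bool | p.1 ∈ BrA Ω X v ∧ p.2 ∈ BrA Ω X w ∧
          Disjoint (vis (ft v) up p.1) (vis (ft w) up p.2)}.indicator
          (fun p => wE p.1 * wE p.2 * F (X ∪ (vis (ft v) up p.1 ∪ vis (ft w) up p.2)))) (s, t) := by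
    intro v w
    unfold overA
    apply tsum_congr
    intro s
    by_cases hs : s ∈ BrA Ω X v
    · rw [Set.indicator_of_mem hs, ← ENNReal.tsum_mul_left]
      apply tsum_congr
      intro t
      by_cases ht : t ∈ BrA Ω (X ∪ vis (ft v) up s) w
      · have h1 := mem_brA.1 ht
        rw [Set.disjoint_union_left] at h1
        have h2 : (s, t) ∈ {p : List Bool × List Bool | p.1 ∈ BrA Ω X v ∧ p.2 ∈ BrA Ω X w ∧
          Disjoint (vis (ft v) up p.1) (vis (ft w) up p.2)} := ⟨hs, mem_brA.2 ⟨h1.1, h1.2.1⟩, h1.2.2⟩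
        rw [Set.indicator_of_mem ht, Set.indicator_of_mem h2]
        simp only
        rw [Set.union_assoc]
        ring
      · have h2 : (s, t) ∉ {p : List Bool × List Bool | p.1 ∈ BrA Ω X v ∧ p.2 ∈ BrA Ω X w ∧
          Disjoint (vis (ft v) up p.1) (vis (ft w) up p.2)} := by
          rintro ⟨_, h3, h4⟩
          apply ht
          have h5 := mem_brA.1 h3
          exact mem_brA.2 ⟨h5.1, Set.disjoint_union_left.2 ⟨h5.2, h4⟩⟩
        rw [Set.indicator_of_notMem ht, Set.indicator_of_notMem h2, mul_zero]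
    · rw [Set.indicator_of_notMem hs]
      symm
      rw [ENNReal.tsum_eq_zero]
      intro t
      apply Set.indicator_of_notMem
      rintro ⟨h3, _⟩
      exact hs h3
  rw [key v w, key w v, ENNReal.tsum_comm]
  apply tsum_congr
  intro t
  apply tsum_congr
  intro s
  by_cases h : s ∈ BrA Ω X v ∧ t ∈ BrA Ω X w ∧ Disjoint (vis (ft v) up s) (vis (ft w) up t)
  · have h1 : (s, t) ∈ {p : List Bool × List Bool | p.1 ∈ BrA Ω X v ∧ p.2 ∈ BrA Ω X w ∧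
          Disjoint (vis (ft v) up p.1) (vis (ft w) up p.2)} := h
    have h2 : (t, s) ∈ {p : List Bool × List Bool | p.1 ∈ BrA Ω X w ∧ p.2 ∈ BrA Ω X v ∧
          Disjoint (vis (ft w) up p.1) (vis (ft v) up p.2)} := ⟨h.2.1, h.1, h.2.2.symm⟩
    rw [Set.indicator_of_mem h1, Set.indicator_of_mem h2]
    simp only
    rw [mul_comm (wE s) (wE t), Set.union_comm (vis (ft v) up s)]
  · have h1 : (s, t) ∉ {p : List Bool × List Bool | p.1 ∈ BrA Ω X v ∧ p.2 ∈ BrA Ω X w ∧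
          Disjoint (vis (ft v) up p.1) (vis (ft w) up p.2)} := h
    have h2 : (t, s) ∉ {p : List Bool × List Bool | p.1 ∈ BrA Ω X w ∧ p.2 ∈ BrA Ω X v ∧
          Disjoint (vis (ft w) up p.1) (vis (ft v) up p.2)} := fun h3 => h ⟨h3.2.1, h3.1, h3.2.2.symm⟩
    rw [Set.indicator_of_notMem h1, Set.indicator_of_notMem h2]

end SP

end HexObs
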