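import Pool.Agent.HexStep.Ident

/-!
STEP, A4: the slit identity for admissible words.
-/

set_option autoImplicit false

namespace HexObs

namespace SP

open Complex Finset ENNReal

/-- the start after the prefix. -/
def sv4 (k : ℤ) : Pt := if k = 0 then ue 0 else le k

/-- the direction after the prefix. -/
def sd4 (k : ℤ) : Pt := if k = 0 then (-1, 1) else up

/-- the vertices after the prefix. -/
lemma pre_vx4 (k : ℤ) (u : List Bool) (j : ℕ) :
    vx (ft k) up (pre k ++ u) ((pre k).length + j) = vx (sv4 k) (sd4 k) u j := by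
  have e1 : (fun i => tf (pre k ++ u) ((pre k).length + i)) = tf u := by
    funext i
    exact tf_append_right i
  unfold vx
  rw [vs_shift, e1]
  by_cases hk : k = 0
  · subst hk
    have e2 : vs (ft 0) up (tf (pre 0 ++ u)) (pre 0).length = sv4 0 := by
      have : vs (ft 0) up (tf (pre 0 ++ u)) (pre 0).length = ft 0 + up := rfl
      rw [this, ft_eq]
      rfl
    have e3 : ds up (tf (pre 0 ++ u)) (pre 0).length = sd4 0 := rfl
    rw [e2, e3]
  · have hp : pre k = [true, false] := by
      unfold pre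
      rw [if_neg hk]
    rw [hp]
    have e2 : vs (ft k) up (tf ([true, false] ++ u)) [true, false].length = sv4 k := by
      have : vs (ft k) up (tf ([true, false] ++ u)) [true, false].length = ft k + up + (-1, 1) := rfl
      rw [this, ft_eq]
      unfold sv4 le up
      rw [if_neg hk]
      ext
      · simp
        ring
      · simp
        ring
    have e3 : ds up (tf ([true, false] ++ u)) [true, false].length = sd4 k := by
      unfold sd4
      rw [if_neg hk]
      rfl
    rw [e2, e3]

lemma pre_tip4 (k : ℤ) (u : List Bool) : tip (ft k) up (pre k ++ u) = tip (sv4 k) (sd4 k) u := by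
  unfold tip
  rw [← pre_vx4, List.length_append, add_assoc]

/-- the vertices of the prefix. -/
lemma pre_in4 (k : ℤ) (u : List Bool) : vx (ft k) up (pre k ++ u) 0 = ft k ∧ vx (ft k) up (pre k ++ u) 1 = ue k ∧
    (k ≠ 0 → vx (ft k) up (pre k ++ u) 2 = le k) := by
  refine ⟨rfl, ?_, ?_⟩
  · have : vx (ft k) up (pre k ++ u) 1 = ft k + up := rfl
    rw [this, ft_eq]
    unfold ue up
    ext
    · simp
    · simp
      ring
  · intro hk
    have h := pre_vx4 k u 0
    have hp : (pre k).length + 0 = 2 := by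
      unfold pre
      rw [if_neg hk]
      rfl
    rw [hp] at h
    rw [h]
    have : vx (sv4 k) (sd4 k) u 0 = sv4 k := rfl
    rw [this]
    unfold sv4
    rw [if_neg hk]

lemma lv_pos4 {Ω : Finset Pt} {k : ℤ} (hg : GoodDom Ω (ft k) up) {v : Pt} (hv : v ∈ Ω) : 0 < lv v := by
  have h := hg.half v hv
  rw [ft_eq] at h
  unfold ip up at h
  unfold lv
  simp only [Prod.fst_sub, Prod.snd_sub] at h
  linarith

/-- the words that stop outside, on OO or on the obstacles. -/
noncomputable def endA (Ω : Finset Pt) (Z : Set Pt) (k : ℤ) : Finset (List Bool) :=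
  fam (slit Ω Z) (ft k) up {u | Adm k u ∧ tip (ft k) up u ∉ slit Ω (Z ∪ OO)}

lemma mem_endA4 {Ω : Finset Pt} {Z : Set Pt} {k : ℤ} {u : List Bool} : u ∈ endA Ω Z k ↔
    IsArr (slit Ω Z) (ft k) up u ∧ Adm k u ∧ tip (ft k) up u ∉ slit Ω (Z ∪ OO) := by
  unfold endA
  rw [mem_fam]
  exact Iff.rfl

lemma endA_eq {Ω : Finset Pt} {k : ℤ} (hk : 0 ≤ k) (hg : GoodDom Ω (ft k) up) (hu : ue k ∈ Ω) (hl : le k ∈ Ω)
    {Z : Set Pt} (h1 : ue k ∉ Z) (h2 : k ≠ 0 → le k ∉ Z) :
    endA Ω Z k = (exits (slit Ω (Z ∪ OO)) (sv4 k) (sd4 k)).image (fun u => pre k ++ u) := by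
  ext u
  rw [mem_endA4, Finset.mem_image]
  constructor
  · rintro ⟨a1, a2, a3⟩
    obtain ⟨u', rfl⟩ := a2.pre
    refine ⟨u', mem_exits.2 ⟨⟨?_, ?_⟩, ?_⟩, rfl⟩
    · intro i hi hil
      rw [← pre_vx4]
      have b1 := mem_slit.1 (a1.mem ((pre k).length + i) (by omega) (by rw [List.length_append]; omega))
      have b2 := a2.out ((pre k).length + i) (by omega) (by rw [List.length_append]; omega)
      refine mem_slit.2 ⟨b1.1, ?_⟩
      rintro (b3 | b3)
      · exact b1.2 b3
      · exact b2 b3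
    · intro i j hij hj
      rw [← pre_vx4, ← pre_vx4]
      exact a1.inj _ _ (by omega) (by rw [List.length_append]; omega)
    · rw [← pre_tip4]
      exact a3
  · rintro ⟨u', hu', rfl⟩
    obtain ⟨c1, c2⟩ := mem_exits.1 hu'
    obtain ⟨p0, p1, p2⟩ := pre_in4 k u'
    have hlen : (pre k).length = 1 ∧ k = 0 ∨ (pre k).length = 2 ∧ k ≠ 0 := by
      by_cases h0 : k = 0
      · left
        refine ⟨?_, h0⟩
        unfold pre
        rw [if_pos h0]
        rfl
      · right
        refine ⟨?_, h0⟩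
        unfold pre
        rw [if_neg h0]
        rfl
    have l0 : lv (ft k) = 0 := by
      rw [ft_eq]
      unfold lv
      ring
    have l1 : lv (ue k) = 2 := by
      unfold lv ue
      ring
    have l2 : lv (le k) = 3 := by
      unfold lv le
      ring
    have D : ∀ i, (pre k).length < i → i ≤ (pre k ++ u').length →
        vx (ft k) up (pre k ++ u') i ∈ slit Ω (Z ∪ OO) := by
      intro i hi hil
      rw [List.length_append] at hil
      obtain ⟨j, rfl⟩ := Nat.exists_eq_add_of_le hi.le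
      rw [pre_vx4]
      exact c1.mem j (by omega) (by omega)
    refine ⟨⟨?_, ?_⟩, ⟨List.prefix_append _ _, ?_⟩, ?_⟩
    · intro i hi hil
      rcases Nat.lt_or_ge (pre k).length i with h | h
      · have := mem_slit.1 (D i h hil)
        exact mem_slit.2 ⟨this.1, fun h => this.2 (Or.inl h)⟩
      · have hi' : i = 1 ∨ (i = 2 ∧ k ≠ 0) := by
          rcases hlen with ⟨h3, h4⟩ | ⟨h3, h4⟩
          · left; omega
          · rcases Nat.lt_or_ge i 2 with h5 | h5
            · left; omega
            · right; exact ⟨by omega, h4⟩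
        rcases hi' with rfl | ⟨rfl, h4⟩
        · rw [p1]
          exact mem_slit.2 ⟨hu, h1⟩
        · rw [p2 h4]
          exact mem_slit.2 ⟨hl, h2 h4⟩
    · intro i j hij hj
      rcases Nat.lt_or_ge i (pre k).length with h | h
      · rcases Nat.lt_or_ge (pre k).length j with h' | h'
        · have hD := mem_slit.1 (D j h' hj)
          have hi' : i = 0 ∨ (i = 1 ∧ k ≠ 0) := by
            rcases hlen with ⟨h3, h4⟩ | ⟨h3, h4⟩
            · left; omega
            · rcases Nat.lt_or_ge i 1 with h5 | h5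
              · left; omega
              · right; exact ⟨by omega, h4⟩
          rcases hi' with rfl | ⟨rfl, h4⟩
          · rw [p0]
            intro he
            have := lv_pos4 hg hD.1
            rw [← he, l0] at this
            exact lt_irrefl _ this
          · rw [p1]
            intro he
            apply hD.2
            right
            rw [← he]
            exact ue_mem_OO.2 hk
        · have hi' : (i = 0 ∧ j = 1) ∨ (i = 0 ∧ j = 2 ∧ k ≠ 0) ∨ (i = 1 ∧ j = 2 ∧ k ≠ 0) := by
            rcases hlen with ⟨h3, h4⟩ | ⟨h3, h4⟩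
            · left; omega
            · rcases Nat.lt_or_ge i 1 with h5 | h5
              · rcases Nat.lt_or_ge j 2 with h6 | h6
                · left; omega
                · right; left; exact ⟨by omega, by omega, h4⟩
              · right; right; exact ⟨by omega, by omega, h4⟩
          rcases hi' with ⟨rfl, rfl⟩ | ⟨rfl, rfl, h4⟩ | ⟨rfl, rfl, h4⟩
          · rw [p0, p1]
            intro he
            rw [he, l1] at l0
            norm_num at l0
          · rw [p0, p2 h4]
            intro he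
            rw [he, l2] at l0
            norm_num at l0
          · rw [p1, p2 h4]
            intro he
            rw [he, l2] at l1
            norm_num at l1
      · obtain ⟨i', rfl⟩ := Nat.exists_eq_add_of_le h
        obtain ⟨j', rfl⟩ := Nat.exists_eq_add_of_le (h.trans hij.le)
        rw [pre_vx4, pre_vx4]
        rw [List.length_append] at hj
        exact c1.inj i' j' (by omega) (by omega)
    · intro i hi hil hO
      exact (mem_slit.1 (D i hi hil)).2 (Or.inr hO)
    · rw [pre_tip4]
      exact c2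

/-- the identity for the explorer from the foot k. -/
lemma sum_end {Ω : Finset Pt} {k : ℤ} (hk : 0 ≤ k) (hg : GoodDom Ω (ft k) up) (hu : ue k ∈ Ω) (hl : le k ∈ Ω)
    {Z : Set Pt} (h1 : ue k ∉ Z) (h2 : k ≠ 0 → le k ∉ Z) (m : ℝ) :
    ∑ u ∈ endA Ω Z k, xc ^ u.length * sn (m + wind u) = pw k m := by
  rw [endA_eq hk hg hu hl h1 h2, Finset.sum_image (fun a _ b _ h => List.append_cancel_left h)]
  have hD : ∀ v ∈ slit Ω (Z ∪ OO), 0 < lv v := fun v hv => lv_pos4 hg (mem_slit.1 hv).1
  have hO : ∀ v, v ∈ OO → v ∉ slit Ω (Z ∪ OO) := fun v hv h => (mem_slit.1 h).2 (Or.inr hv)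
  by_cases h0 : k = 0
  · subst h0
    have e1 : sv4 0 = ue 0 := rfl
    have e2 : sd4 0 = (-1, 1) := rfl
    have e3 : pre 0 = [true] := rfl
    have e4 : pw 0 m = xc * sn (m + 1) := by
      unfold pw
      rw [if_pos rfl]
    rw [e1, e2, e3, e4, ← ident0 (slit Ω (Z ∪ OO)) hD (hO _ (ue_mem_OO.2 le_rfl)) (hO _ (le_mem_OO.2 le_rfl)) (m + 1),
      Finset.mul_sum]
    apply Finset.sum_congr rfl
    intro u _
    have e5 : wind ([true] ++ u) = 1 + wind u := by
      rw [wind_append]
      rfl
    rw [e5, List.length_append, pow_add]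
    push_cast
    have e6 : m + (1 + (wind u : ℝ)) = m + 1 + wind u := by ring
    rw [e6]
    have e7 : ([true] : List Bool).length = 1 := rfl
    rw [e7, pow_one]
    ring
  · have e1 : sv4 k = le k := by
      unfold sv4
      rw [if_neg h0]
    have e2 : sd4 k = up := by
      unfold sd4
      rw [if_neg h0]
    have e3 : pre k = [true, false] := by
      unfold pre
      rw [if_neg h0]
    have e4 : pw k m = xc ^ 2 * sn m := by
      unfold pw
      rw [if_neg h0]
    rw [e1, e2, e3, e4, ← identk (slit Ω (Z ∪ OO)) hD (hO _ (le_mem_OO.2 (by omega))) (hO _ (ue_mem_OO.2 hk))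
      (hO _ (ue_mem_OO.2 (by omega))) (hO _ (le_mem_OO.2 (by omega))) m, Finset.mul_sum]
    apply Finset.sum_congr rfl
    intro u _
    have e5 : wind ([true, false] ++ u) = wind u := by
      rw [wind_append]
      have : wind [true, false] = 0 := rfl
      rw [this, zero_add]
    rw [e5, List.length_append, pow_add]
    have e7 : ([true, false] : List Bool).length = 2 := rfl
    rw [e7]
    ring

lemma mem_hitA4 {Ω : Finset Pt} {X Y : Set Pt} {p : ℤ} {u : List Bool} : u ∈ hitA Ω X Y p ↔
    IsArr (slit Ω (X ∪ Y)) (ft p) up u ∧ Adm p u ∧ tip (ft p) up u ∈ Y ∧ tip (ft p) up u ∉ OO := by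
  unfold hitA
  rw [mem_fam]
  exact Iff.rfl

lemma mem_freeA4 {Ω : Finset Pt} {X : Set Pt} {p : ℤ} {u : List Bool} : u ∈ freeA Ω X p ↔
    IsArr (slit Ω X) (ft p) up u ∧ Adm p u ∧ (tip (ft p) up u ∉ Ω ∨ tip (ft p) up u ∈ OO) := by
  unfold freeA
  rw [mem_fam]
  exact Iff.rfl

/-- the kinds of stops. -/
lemma sum_endA (Ω : Finset Pt) {X Y : Set Pt} (hXY : Disjoint X Y) (hX : X ⊆ Ω) (hY : Y ⊆ Ω) (k : ℤ)
    (g : List Bool → ℝ) :
    ∑ u ∈ endA Ω (X ∪ Y) k, g u =
      ∑ u ∈ freeA Ω (X ∪ Y) k, g u + ∑ u ∈ hitA Ω Y X k, g u + ∑ u ∈ hitA Ω X Y k, g u := by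
  classical
  have e : endA Ω (X ∪ Y) k = (freeA Ω (X ∪ Y) k ∪ hitA Ω Y X k) ∪ hitA Ω X Y k := by
    ext u
    rw [mem_endA4, Finset.mem_union, Finset.mem_union, mem_freeA4, mem_hitA4, mem_hitA4, mem_slit, Set.union_comm Y X]
    constructor
    · rintro ⟨h1, h2, h3⟩
      by_cases h4 : tip (ft k) up u ∈ Ω
      · by_cases h5 : tip (ft k) up u ∈ OO
        · exact Or.inl (Or.inl ⟨h1, h2, Or.inr h5⟩)
        · by_cases h6 : tip (ft k) up u ∈ X
          · exact Or.inl (Or.inr ⟨h1, h2, h6, h5⟩)
          · by_cases h7 : tip (ft k) up u ∈ Y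
            · exact Or.inr ⟨h1, h2, h7, h5⟩
            · exfalso
              apply h3
              refine ⟨h4, ?_⟩
              rintro ((h | h) | h)
              · exact h6 h
              · exact h7 h
              · exact h5 h
      · exact Or.inl (Or.inl ⟨h1, h2, Or.inl h4⟩)
    · rintro ((⟨h1, h2, h3⟩ | ⟨h1, h2, h3, h4⟩) | ⟨h1, h2, h3, h4⟩)
      · refine ⟨h1, h2, ?_⟩
        rcases h3 with h3 | h3
        · exact fun h => h3 h.1
        · exact fun h => h.2 (Or.inr h3)
      · exact ⟨h1, h2, fun h => h.2 (Or.inl (Or.inl h3))⟩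
      · exact ⟨h1, h2, fun h => h.2 (Or.inl (Or.inr h3))⟩
  rw [e, Finset.sum_union, Finset.sum_union]
  · rw [Finset.disjoint_left]
    intro u h1 h2
    rw [mem_freeA4] at h1
    rw [mem_hitA4] at h2
    rcases h1.2.2 with h | h
    · exact h (hX h2.2.2.1)
    · exact h2.2.2.2 h
  · rw [Finset.disjoint_left]
    intro u h1 h2
    rw [mem_hitA4] at h2
    rw [Finset.mem_union, mem_freeA4, mem_hitA4] at h1
    rcases h1 with h1 | h1
    · rcases h1.2.2 with h | h
      · exact h (hY h2.2.2.1)
      · exact h2.2.2.2 h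
    · exact Set.disjoint_left.1 hXY h1.2.2.1 h2.2.2.1

/-- a walker from another foot avoids the prefix. -/
lemma walker_pre4 {Ω : Set Pt} {a k : ℤ} (hk : 0 ≤ k) (hka : k ≠ a) {s : List Bool} (hs : s ∈ BrA Ω ∅ a) :
    ue k ∉ vis (ft a) up s ∧ (k ≠ 0 → le k ∉ vis (ft a) up s) := by
  constructor
  · intro h
    rcases adm_OO hs.2 h (ue_mem_OO.2 hk) with h1 | ⟨_, h1⟩
    · apply hka
      have := congrArg Prod.fst h1
      simp only [ue] at this
      linarith
    · have := congrArg Prod.fst h1
      simp only [ue, le] at this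
      omega
  · intro h0 h
    rcases adm_OO hs.2 h (le_mem_OO.2 (by omega)) with h1 | ⟨_, h1⟩
    · have := congrArg Prod.fst h1
      simp only [ue, le] at this
      omega
    · apply hka
      have := congrArg Prod.fst h1
      simp only [le] at this
      linarith

/-- explorer from k, walkers from a and b. -/
theorem slit3A {Ω : Finset Pt} {k a b : ℤ} (hk : 0 ≤ k) (ha : 0 ≤ a) (hb : 0 ≤ b) (hka : k ≠ a) (hkb : k ≠ b)
    (hg : GoodDom Ω (ft k) up) (hu : ue k ∈ Ω) (hl : le k ∈ Ω) (m : ℝ) :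
    pw k m * obA Ω a (fun Y => gr Ω (ft b) up (BrA (Ω : Set Pt) Y b)) ∅ =
      obA Ω a (obA Ω b (frA Ω k (fun w => sn (m + w)))) ∅ +
      ∑ t ∈ fam Ω (ft b) up (BrA (Ω : Set Pt) ∅ b), xc ^ t.length *
        ZhA Ω (vis (ft b) up t) k a (fun w => sn (m + w)) +
      ∑ s ∈ fam Ω (ft a) up (BrA (Ω : Set Pt) ∅ a), xc ^ s.length *
        ZhA Ω (vis (ft a) up s) k b (fun w => sn (m + w)) := by
  set f : ℤ → ℝ := fun w => sn (m + w) with hf
  have hcomm := sum_brA_comm Ω ∅ a b (fun s t => ∑ u ∈ hitA Ω (vis (ft b) up t) (vis (ft a) up s) k,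
    xc ^ (s.length + t.length + u.length) * f (wind u))
  have e1 : ∑ t ∈ fam Ω (ft b) up (BrA (Ω : Set Pt) ∅ b), xc ^ t.length * ZhA Ω (vis (ft b) up t) k a f =
      ∑ t ∈ fam Ω (ft b) up (BrA (Ω : Set Pt) ∅ b),
        ∑ s ∈ fam Ω (ft a) up (BrA (Ω : Set Pt) (∅ ∪ vis (ft b) up t) a),
        ∑ u ∈ hitA Ω (vis (ft b) up t) (vis (ft a) up s) k, xc ^ (s.length + t.length + u.length) * f (wind u) := by
    apply Finset.sum_congr rfl
    intro t _
    unfold ZhA
    rw [Set.empty_union, Finset.mul_sum]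
    apply Finset.sum_congr rfl
    intro s _
    rw [Finset.mul_sum]
    apply Finset.sum_congr rfl
    intro u _
    ring
  rw [e1, ← hcomm]
  unfold obA gr ZhA
  simp only [Finset.mul_sum]
  rw [← Finset.sum_add_distrib, ← Finset.sum_add_distrib]
  apply Finset.sum_congr rfl
  intro s hs
  rw [mem_brAF] at hs
  simp only [Set.empty_union]
  rw [← Finset.sum_add_distrib, ← Finset.sum_add_distrib]
  apply Finset.sum_congr rfl
  intro t ht
  rw [mem_brAF] at ht
  have hdis : Disjoint (vis (ft a) up s) (vis (ft b) up t) := (mem_brA.1 ht).2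
  have ht0 : t ∈ BrA (Ω : Set Pt) ∅ b := (mem_brA.1 ht).1
  obtain ⟨w1, w2⟩ := walker_pre4 hk hka hs
  obtain ⟨w3, w4⟩ := walker_pre4 hk hkb ht0
  have hid := sum_end hk hg hu hl (Z := vis (ft a) up s ∪ vis (ft b) up t)
    (by rintro (h | h); exacts [w1 h, w3 h]) (fun h0 => by rintro (h | h); exacts [w2 h0 h, w4 h0 h]) m
  have key := sum_endA Ω hdis (vis_sub hs.1) (vis_sub ht.1) k (fun u => xc ^ u.length * f (wind u))
  rw [hid] at key
  have e2 : ∑ u ∈ hitA Ω (vis (ft b) up t) (vis (ft a) up s) k,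
      xc ^ (s.length + t.length + u.length) * f (wind u) =
      xc ^ s.length * xc ^ t.length *
        ∑ u ∈ hitA Ω (vis (ft b) up t) (vis (ft a) up s) k, xc ^ u.length * f (wind u) := by
    rw [Finset.mul_sum]
    apply Finset.sum_congr rfl
    intro u _
    ring
  have e3 : ∑ u ∈ hitA Ω (vis (ft a) up s) (vis (ft b) up t) k,
      xc ^ s.length * (xc ^ (t.length + u.length) * f (wind u)) =
      xc ^ s.length * xc ^ t.length *
        ∑ u ∈ hitA Ω (vis (ft a) up s) (vis (ft b) up t) k, xc ^ u.length * f (wind u) := by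
    rw [Finset.mul_sum]
    apply Finset.sum_congr rfl
    intro u _
    ring
  rw [e2, e3, key]
  unfold frA
  ring

end SP

end HexObs
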