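import Pool.Agent.HexStep.SwapA
import Pool.Agent.HexStep.SlitA
import Pool.Agent.HexStep.Free

/-!
STEP, module A6: the three walk inequality in a finite domain (as T3_fin).
-/

set_option autoImplicit false

namespace HexObs

namespace SP

open Complex Finset ENNReal

section A6

private lemma fin_ue {T n : ℕ} {k : ℤ} (h0 : 0 ≤ k) (hk : k < n) : ue k ∈ tz T n := by
  rw [mem_tz, mem_St']
  unfold ue lv
  push_cast
  omega

private lemma fin_le {T n : ℕ} {k : ℤ} (h0 : 0 ≤ k) (hk : k < n) (hn : 1 < n) : le k ∈ tz T n := by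
  rw [mem_tz, mem_St']
  unfold le lv
  push_cast
  omega

/-- the walker 0 visits le 0. -/
private lemma fin_vis {T n : ℕ} (hn : 1 < n) {X : Set Pt} {s : List Bool} (hs : s ∈ BrA (tz T n : Set Pt) X 0) :
    le 0 ∈ vis (ft 0) up s := by
  obtain ⟨⟨h1, h2, h3⟩, h4⟩ := hs
  have h5 := (adm_vx h4).2.1
  have h6 : 1 ≤ s.length := by
    have h7 := h4.pre.length_le
    unfold SP.pre at h7
    rw [if_pos rfl] at h7
    exact h7
  refine ⟨2, by norm_num, ?_, h5⟩
  by_contra h7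
  have h8 : s.length = 1 := by omega
  apply h2
  unfold tip
  rw [h8]
  rw [show vx (ft 0) up s (1 + 1) = le 0 from h5]
  exact fin_le le_rfl (by omega) hn

private lemma fin_sn6 : sn 6 = 1 / Real.sqrt 2 := by
  obtain ⟨s4, s2, s8, s5⟩ := sin_vals
  unfold sn
  rw [← s2, show (6 : ℝ) * (Real.pi / 8) = Real.pi - 2 * (Real.pi / 8) by ring, Real.sin_pi_sub]

theorem step_fin {T n : ℕ} {l : ℤ} (hl : 2 ≤ l) (hn : l < n) :
    xc ^ 2 * sn 1 * (P2A (tz T n : Set Pt) 0 1 ∅).toReal +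
        (Q2A (tz T n : Set Pt) 0 1 (fun Z => LdR (tz T n : Set Pt) Z l) ∅).toReal / Real.sqrt 2 +
        xc / Real.sqrt 2 * (P2A (tz T n : Set Pt) 1 l ∅).toReal ≤
      xc ^ 2 * sn 3 * (P2A (tz T n : Set Pt) 0 l ∅).toReal + sn 1 * (P3A (tz T n : Set Pt) 0 1 l ∅).toReal +
        (Q2A (tz T n : Set Pt) 0 1 (fun Z => LdL (tz T n : Set Pt) Z l) ∅).toReal +
        (Q2A (tz T n : Set Pt) 1 l (fun Z => LtA (tz T n : Set Pt) Z 0) ∅).toReal +
        (Q2A (tz T n : Set Pt) 0 1 (fun Z => LtA (tz T n : Set Pt) Z l) ∅).toReal := by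
  have hn1 : 1 < n := by omega
  have g0 : GoodDom (tz T n) (ft 0) up := tz_good (by rw [abs_zero]; omega)
  have g1 : GoodDom (tz T n) (ft 1) up := tz_good (by rw [abs_one]; omega)
  have gl : GoodDom (tz T n) (ft l) up := tz_good (by rw [abs_of_nonneg (by omega)]; exact hn)
  rw [P2A_toReal, P2A_toReal, P2A_toReal, P3A_toReal, Q2A_toReal (fun Z => ldR_arr (tz T n) Z l),
    Q2A_toReal (fun Z => ldL_arr (tz T n) Z l), Q2A_toReal (fun Z => ltA_arr (tz T n) Z 0),
    Q2A_toReal (fun Z => ltA_arr (tz T n) Z l)]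
  have u0 : ue 0 ∈ tz T n := fin_ue le_rfl (by omega)
  have u1 : ue 1 ∈ tz T n := fin_ue (by norm_num) (by omega)
  have ul : ue l ∈ tz T n := fin_ue (by omega) hn
  have e0 : le 0 ∈ tz T n := fin_le le_rfl (by omega) hn1
  have e1 : le 1 ∈ tz T n := fin_le (by norm_num) (by omega) hn1
  have el : le l ∈ tz T n := fin_le (by omega) hn hn1
  have M := slit3A (k := 1) (a := 0) (b := l) (by norm_num) le_rfl (by omega) (by norm_num) (by omega) g1 u1 e1 3
  have L := slit3A (k := 0) (a := 1) (b := l) le_rfl (by norm_num) (by omega) (by norm_num) (by omega) g0 u0 e0 5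
  have R := slit3A (k := l) (a := 0) (b := 1) (by omega) le_rfl (by norm_num) (by omega) (by omega) gl ul el 1
  -- unreachable walkers
  have far1 := zhA_far (k1 := 0) (k2 := 1) (k3 := l) g1 (Or.inl ⟨by norm_num, by omega⟩) (fun w => sn (5 + w))
  have far2 := zhA_far (k1 := l) (k2 := 1) (k3 := 0) g1 (Or.inr ⟨by norm_num, by omega⟩) (fun w => sn (1 + w))
  -- swaps
  have swap1 : ∀ X, ZhA (tz T n) X 1 0 (fun w => sn (3 + w)) = ZhA (tz T n) X 0 1 (fun w => sn (5 + w)) := by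
    intro X
    rw [swap_sumA (p := 0) (q := 1) le_rfl (by norm_num) g0 g1]
    congr 1
    funext w
    congr 1
    push_cast
    ring
  have swap2 : ∀ X, ZhA (tz T n) X l 1 (fun w => sn (1 + w)) = ZhA (tz T n) X 1 l (fun w => sn (3 + w)) := by
    intro X
    rw [swap_sumA (p := 1) (q := l) (by norm_num) (by omega) g1 gl]
    congr 1
    funext w
    congr 1
    push_cast
    ring
  -- free parts
  have FM : sn 3 * ooA (tz T n) 0 1 (ft l) (fun Z => BrA (tz T n : Set Pt) Z l) ≤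
      obA (tz T n) 0 (obA (tz T n) l (frA (tz T n) 1 (fun w => sn (3 + w)))) ∅ := by
    rw [ooA_last]
    unfold ooA
    rw [← obA_mul]
    apply obA_mono
    intro s hs
    rw [← obA_mul]
    apply obA_mono
    intro t _
    exact free1 hn1 (Or.inl (Or.inr (fin_vis hn1 hs)))
  have FL : obA (tz T n) 1 (obA (tz T n) l (frA (tz T n) 0 (fun w => sn (5 + w)))) ∅ ≤
      sn 3 * ooA (tz T n) 0 1 (ft l) (fun Z => BrA (tz T n : Set Pt) Z l) +
        ooA (tz T n) 1 l (ft 0) (fun Z => LtA (tz T n : Set Pt) Z 0) := by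
    have e2 : ooA (tz T n) 0 1 (ft l) (fun Z => BrA (tz T n : Set Pt) Z l) =
        ooA (tz T n) 1 l (ft 0) (fun Z => BrA (tz T n : Set Pt) Z 0) := by
      rw [ooA_comm, ooA_last]
    rw [e2]
    have e3 := ooA_lin (tz T n) 1 l (fun Z => gr (tz T n) (ft 0) up (BrA (tz T n : Set Pt) Z 0))
      (fun Z => gr (tz T n) (ft 0) up (LtA (tz T n : Set Pt) Z 0)) (sn 3) 1
    rw [one_mul] at e3
    unfold ooA
    rw [← e3]
    apply obA_mono
    intro s hs
    apply obA_mono
    intro t _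
    rw [one_mul]
    exact free0 hn1 hs (fun x hx => Or.inl (Or.inr hx))
  have FR : obA (tz T n) 0 (obA (tz T n) 1 (frA (tz T n) l (fun w => sn (1 + w)))) ∅ ≤
      sn 1 * ooA (tz T n) 0 1 (ft l) (fun Z => BrA (tz T n : Set Pt) Z l) -
        ooA (tz T n) 0 1 (ft l) (fun Z => LdR (tz T n : Set Pt) Z l) / Real.sqrt 2 +
        ooA (tz T n) 0 1 (ft l) (fun Z => LdL (tz T n : Set Pt) Z l) +
        ooA (tz T n) 0 1 (ft l) (fun Z => LtA (tz T n : Set Pt) Z l) := by
    have e2 := ooA_lin (tz T n) 0 1 (fun Z => gr (tz T n) (ft l) up (BrA (tz T n : Set Pt) Z l))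
      (fun Z => gr (tz T n) (ft l) up (LdR (tz T n : Set Pt) Z l)) (sn 1) (-(1 / Real.sqrt 2))
    have e3 := ooA_lin (tz T n) 0 1 (fun Z => gr (tz T n) (ft l) up (LdL (tz T n : Set Pt) Z l))
      (fun Z => gr (tz T n) (ft l) up (LtA (tz T n : Set Pt) Z l)) 1 1
    have e4 := ooA_lin (tz T n) 0 1 (fun Z => sn 1 * gr (tz T n) (ft l) up (BrA (tz T n : Set Pt) Z l) +
      -(1 / Real.sqrt 2) * gr (tz T n) (ft l) up (LdR (tz T n : Set Pt) Z l))
      (fun Z => 1 * gr (tz T n) (ft l) up (LdL (tz T n : Set Pt) Z l) +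
      1 * gr (tz T n) (ft l) up (LtA (tz T n : Set Pt) Z l)) 1 1
    rw [e2, e3] at e4
    have e5 : sn 1 * ooA (tz T n) 0 1 (ft l) (fun Z => BrA (tz T n : Set Pt) Z l) -
        ooA (tz T n) 0 1 (ft l) (fun Z => LdR (tz T n : Set Pt) Z l) / Real.sqrt 2 +
        ooA (tz T n) 0 1 (ft l) (fun Z => LdL (tz T n : Set Pt) Z l) +
        ooA (tz T n) 0 1 (ft l) (fun Z => LtA (tz T n : Set Pt) Z l) =
        obA (tz T n) 0 (obA (tz T n) 1 (fun Z =>
          1 * (sn 1 * gr (tz T n) (ft l) up (BrA (tz T n : Set Pt) Z l) +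
            -(1 / Real.sqrt 2) * gr (tz T n) (ft l) up (LdR (tz T n : Set Pt) Z l)) +
          1 * (1 * gr (tz T n) (ft l) up (LdL (tz T n : Set Pt) Z l) +
            1 * gr (tz T n) (ft l) up (LtA (tz T n : Set Pt) Z l)))) ∅ := by
      rw [e4]
      unfold ooA
      ring
    rw [e5]
    apply obA_mono
    intro s hs
    apply obA_mono
    intro t ht
    have h1 := freel hl hn (Y := ∅ ∪ vis (ft 0) up s ∪ vis (ft 1) up t) (Or.inl (Or.inr (fin_vis hn1 hs)))
      (mem_brA.1 ht).1 (fun x hx => Or.inr hx)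
    refine h1.trans (le_of_eq ?_)
    ring
  -- assembly
  have w1 : pw 1 3 = xc ^ 2 * sn 3 := by
    unfold pw
    rw [if_neg (by norm_num)]
  have w2 : pw 0 5 = xc / Real.sqrt 2 := by
    unfold pw
    rw [if_pos rfl, show (5 : ℝ) + 1 = 6 by norm_num, fin_sn6]
    ring
  have w3 : pw l 1 = xc ^ 2 * sn 1 := by
    unfold pw
    rw [if_neg (by omega)]
  rw [w1] at M
  rw [w2, far1, add_zero] at L
  rw [w3, far2, add_zero] at R
  simp only [swap1] at M
  simp only [swap2] at R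
  linarith

end A6

end SP

end HexObs
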