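import Pool.Agent.HexStep.Words
import Pool.Agent.W47.D2

/-!
STEP, A3: the contour identity from the sources of the step domain.
-/

set_option autoImplicit false

namespace HexObs

namespace SP

open Complex Finset ENNReal

private lemma A3_arr_cons {Ω : Finset Pt} {v d : Pt} {b : Bool} {t : List Bool} (hw : v + d ∉ Ω)
    (hv : v ∉ Ω) (hd : v ≠ v + d) :
    IsArr (insert (v + d) Ω) v d (b :: t) ↔ IsArr Ω (v + d) (turn b d) t := by
  rw [← saw_coe, ← saw_coe]
  constructor
  · intro h
    obtain ⟨-, -, h3⟩ := D2aux.saw_tail h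
    refine ⟨fun i h1 h2 => ?_, h3.inj⟩
    have h4 := h3.mem i h1 h2
    rw [Finset.mem_coe, Finset.mem_insert] at h4
    rcases h4 with h4 | h4
    · exact absurd h4.symm (h3.inj 0 i (by omega) h2)
    · exact h4
  · intro h
    apply D2aux.saw_cons
    · rw [Finset.mem_coe]
      exact Finset.mem_insert_self _ _
    · intro k hk
      rcases Nat.eq_zero_or_pos k with rfl | hk0
      · exact hd.symm
      · intro he
        have h1 := h.mem k hk0 hk
        rw [he] at h1
        exact hv h1
    · refine ⟨fun i h1 h2 => ?_, h.inj⟩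
      rw [Finset.mem_coe]
      exact Finset.mem_insert_of_mem (h.mem i h1 h2)

/-- the first turn of the exits. -/
private lemma A3_peel {Ω : Finset Pt} {v d : Pt} (hw : v + d ∉ Ω) (hv : v ∉ Ω) (hd : v ≠ v + d)
    (hr : ∀ b, ∀ t ∈ exits Ω (v + d) (turn b d), tip (v + d) (turn b d) t ≠ v + d)
    (f : List Bool → ℝ) :
    ∑ t ∈ exits (insert (v + d) Ω) v d, f t =
      ∑ t ∈ exits Ω (v + d) (turn true d), f (true :: t) +
      ∑ t ∈ exits Ω (v + d) (turn false d), f (false :: t) := by
  classical
  have key : ∀ (b : Bool) (t : List Bool), (b :: t) ∈ exits (insert (v + d) Ω) v d ↔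
      t ∈ exits Ω (v + d) (turn b d) := by
    intro b t
    rw [mem_exits, mem_exits, A3_arr_cons hw hv hd, D2aux.tip_cons, Finset.mem_insert]
    constructor
    · rintro ⟨h1, h2⟩
      exact ⟨h1, fun h => h2 (Or.inr h)⟩
    · rintro ⟨h1, h2⟩
      refine ⟨h1, ?_⟩
      rintro (h | h)
      · exact hr b t (mem_exits.2 ⟨h1, h2⟩) h
      · exact h2 h
  have e : exits (insert (v + d) Ω) v d =
      (exits Ω (v + d) (turn true d)).image (fun t => true :: t) ∪
      (exits Ω (v + d) (turn false d)).image (fun t => false :: t) := by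
    ext t
    rw [Finset.mem_union, Finset.mem_image, Finset.mem_image]
    constructor
    · intro h
      rcases t with _ | ⟨b, t⟩
      · exfalso
        rw [mem_exits] at h
        apply h.2
        show v + d ∈ _
        exact Finset.mem_insert_self _ _
      · cases b
        · exact Or.inr ⟨t, (key _ _).1 h, rfl⟩
        · exact Or.inl ⟨t, (key _ _).1 h, rfl⟩
    · rintro (⟨s, hs, rfl⟩ | ⟨s, hs, rfl⟩)
      · exact (key _ _).2 hs
      · exact (key _ _).2 hs
  rw [e, Finset.sum_union, Finset.sum_image, Finset.sum_image]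
  · intro a _ b _ h
    exact (List.cons.inj h).2
  · intro a _ b _ h
    exact (List.cons.inj h).2
  · rw [Finset.disjoint_left]
    intro t h1 h2
    rw [Finset.mem_image] at h1 h2
    obtain ⟨a, -, rfl⟩ := h1
    obtain ⟨b, -, hb⟩ := h2
    exact absurd (List.cons.inj hb).1 (by decide)

private lemma A3_single {Ω : Finset Pt} {w d : Pt} (h : w + d ∉ Ω) : exits Ω w d = {[]} := by
  ext t
  rw [mem_exits, Finset.mem_singleton]
  constructor
  · rintro ⟨h1, -⟩
    by_contra hne
    have hl : 1 ≤ t.length := by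
      rcases t with _ | ⟨b, t⟩
      · exact absurd rfl hne
      · simp
    exact h (h1.mem 1 le_rfl hl)
  · rintro rfl
    exact ⟨isArr_nil _ _ _, h⟩

private lemma A3_noret {Ω : Finset Pt} {w d : Pt} (hd : d ∈ dirs)
    (h : ∀ e ∈ dirs, cl e = - cl d → w - e ∈ Ω → e = -d) {t : List Bool} (ht : IsArr Ω w d t) :
    tip w d t ≠ w := by
  intro he
  have hcl0 : ∀ a ∈ dirs, cl a ≠ 0 := by decide
  have hcl := cl_vx w d t (t.length + 1)
  have he' : vx w d t (t.length + 1) = w := he
  rw [he'] at hcl
  have hev : Even (t.length + 1) := by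
    by_contra hodd
    rw [if_neg hodd] at hcl
    have : cl d = 0 := by
      have := hcl
      rwa [left_eq_add] at this
    exact hcl0 d hd this
  have hodd : ¬ Even t.length := fun h1 => by
    rw [Nat.even_add_one] at hev
    exact hev h1
  have hpos : 1 ≤ t.length := by
    rcases Nat.eq_zero_or_pos t.length with h1 | h1
    · rw [h1] at hodd
      exact absurd (by decide) hodd
    · exact h1
  have hv : vx w d t (t.length + 1) = vx w d t t.length + dx d t t.length := rfl
  have hvl : vx w d t t.length = w - dx d t t.length := by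
    rw [eq_sub_iff_add_eq, ← hv]
    exact he'
  have hm : vx w d t t.length ∈ Ω := ht.mem _ hpos le_rfl
  have hc := cl_dx d t t.length
  rw [if_neg hodd] at hc
  have h1 := h _ (dx_mem hd t t.length) hc (by rw [← hvl]; exact hm)
  have h2 : vx w d t t.length = vx w d t 1 := by
    rw [hvl, h1, sub_neg_eq_add]
    rfl
  have h3 : t.length = 1 := by
    by_contra hne
    exact ht.inj 1 t.length (by omega) le_rfl h2.symm
  obtain ⟨b, rfl⟩ := List.length_eq_one_iff.1 h3
  have h4 : dx d [b] [b].length = turn b d := rfl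
  rw [h4] at h1
  have h5 : ∀ b : Bool, ∀ a ∈ dirs, turn b a ≠ -a := by decide
  exact h5 b d hd h1

private lemma A3_sn_rec (m : ℝ) : sn m = xc * (sn (m - 1) + sn (m + 1)) := by
  unfold sn
  have h : Real.sin ((m - 1) * (Real.pi / 8)) + Real.sin ((m + 1) * (Real.pi / 8)) =
      2 * Real.sin (m * (Real.pi / 8)) * Real.cos (Real.pi / 8) := by
    rw [sub_mul, add_mul, one_mul, Real.sin_sub, Real.sin_add]
    ring
  have hc : 0 < Real.cos (Real.pi / 8) := by
    apply Real.cos_pos_of_mem_Ioo
    constructor <;> linarith [Real.pi_pos]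
  rw [h]
  unfold xc
  field_simp

private lemma A3_wind_cons (b : Bool) (t : List Bool) : wind (b :: t) = sgn b + wind t := by
  unfold wind
  simp

private lemma A3_half {D : Finset Pt} (hD : ∀ v ∈ D, 0 < lv v) (k : ℤ) :
    ∀ v ∈ D, 0 < ip (v - ft k) up := by
  intro v hv
  have h := hD v hv
  have e : ip (v - ft k) up = lv v := by
    rw [ft_eq]
    unfold ip lv up
    simp only [Prod.fst_sub, Prod.snd_sub]
    ring
  rw [e]
  exact h

private lemma A3_ft_up (k : ℤ) : ft k + up = ue k := by
  rw [ft_eq]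
  unfold up ue
  rw [Prod.mk_add_mk]
  congr 1 <;> ring

private lemma A3_not_ft {D : Finset Pt} (hD : ∀ v ∈ D, 0 < lv v) (k : ℤ) : ft k ∉ D := by
  intro h
  have h1 := hD _ h
  rw [ft_eq] at h1
  unfold lv at h1
  simp only at h1
  omega

/-- the class of the directions. -/
private lemma A3_dirs1 : ∀ e ∈ dirs, cl e = - cl ((-1, 1) : Pt) →
    e = (0, 1) ∨ e = (-1, 0) ∨ e = (1, -1) := by decide

private lemma A3_dirs2 : ∀ e ∈ dirs, cl e = - cl up → e = (0, -1) ∨ e = (1, 0) ∨ e = (-1, 1) := by
  decide

private lemma A3_ft_sub (k : ℤ) : ue k - (0, 1) = ft k := by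
  rw [ft_eq]
  unfold ue
  rw [Prod.mk_sub_mk]
  congr 1 <;> ring

private lemma A3_ue_sub (k : ℤ) : ue k - (-1, 0) = le (k + 1) := by
  unfold ue le
  rw [Prod.mk_sub_mk]
  congr 1 <;> ring

private lemma A3_le_sub1 (k : ℤ) : le k - (1, 0) = ue (k - 1) := by
  unfold ue le
  rw [Prod.mk_sub_mk]
  congr 1 <;> ring

private lemma A3_le_sub2 (k : ℤ) : le k - (-1, 1) = ue k := by
  unfold ue le
  rw [Prod.mk_sub_mk]
  congr 1 <;> ring

private lemma A3_ue_le (k : ℤ) : ue k + (-1, 1) = le k := by
  unfold ue le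
  rw [Prod.mk_add_mk]
  congr 1 <;> ring

private lemma A3_ue_le1 (k : ℤ) : ue k + (1, 0) = le (k + 1) := by
  unfold ue le
  rw [Prod.mk_add_mk]
  congr 1 <;> ring

private lemma A3_le_ue (k : ℤ) : le k + (-1, 0) = ue (k - 1) := by
  unfold ue le
  rw [Prod.mk_add_mk]
  congr 1 <;> ring

/-- no return to ue k. -/
private lemma A3_noret_ue {D : Finset Pt} (hD : ∀ v ∈ D, 0 < lv v) {k : ℤ} (h1 : le (k + 1) ∉ D)
    {t : List Bool} (ht : IsArr D (ue k) (-1, 1) t) : tip (ue k) (-1, 1) t ≠ ue k := by
  apply A3_noret (by decide) _ ht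
  intro e he hc hm
  rcases A3_dirs1 e he hc with rfl | rfl | rfl
  · rw [A3_ft_sub] at hm
    exact absurd hm (A3_not_ft hD k)
  · rw [A3_ue_sub] at hm
    exact absurd hm h1
  · decide

/-- no return to le k. -/
private lemma A3_noret_le {D : Finset Pt} {k : ℤ} (h1 : ue (k - 1) ∉ D) (h2 : ue k ∉ D)
    {t : List Bool} (ht : IsArr D (le k) up t) : tip (le k) up t ≠ le k := by
  apply A3_noret (by decide) _ ht
  intro e he hc hm
  rcases A3_dirs2 e he hc with rfl | rfl | rfl
  · decide
  · rw [A3_le_sub1] at hm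
    exact absurd hm h1
  · rw [A3_le_sub2] at hm
    exact absurd hm h2

private lemma A3_up1 : turn true up = (-1, 1) := by decide

private lemma A3_up2 : turn false up = (1, 0) := by decide

private lemma A3_up3 : turn true ((-1, 1) : Pt) = (-1, 0) := by decide

private lemma A3_up4 : turn false ((-1, 1) : Pt) = up := by decide

/-- the first peeling, at ue k. -/
private lemma A3_first {D : Finset Pt} (hD : ∀ v ∈ D, 0 < lv v) {k : ℤ} (h0 : ue k ∉ D)
    (h1 : le (k + 1) ∉ D) (f : List Bool → ℝ) :
    ∑ t ∈ exits (insert (ue k) D) (ft k) up, f t =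
      ∑ t ∈ exits D (ue k) (-1, 1), f (true :: t) + f [false] := by
  have hs : exits D (ue k) (1, 0) = {[]} := A3_single (by rw [A3_ue_le1]; exact h1)
  have hne : ft k ≠ ft k + up := by
    intro h
    have h2 := congrArg lv h
    rw [A3_ft_up, ft_eq, lv_ue] at h2
    unfold lv at h2
    simp only at h2
    omega
  have hp := A3_peel (Ω := D) (v := ft k) (d := up) (by rw [A3_ft_up]; exact h0) (A3_not_ft hD k) hne
    (by
      intro b t ht
      rw [A3_ft_up] at ht ⊢
      cases b
      · rw [A3_up2] at ht ⊢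
        rw [hs, Finset.mem_singleton] at ht
        subst ht
        show ue k + (1, 0) ≠ ue k
        intro h
        have h2 := congrArg lv h
        rw [A3_ue_le1, lv_ue, lv_le] at h2
        omega
      · rw [A3_up1] at ht ⊢
        exact A3_noret_ue hD h1 (mem_exits.1 ht).1) f
  rw [A3_ft_up, A3_up1, A3_up2, hs, Finset.sum_singleton] at hp
  exact hp

/-- the second peeling, at le k. -/
private lemma A3_second {D : Finset Pt} {k : ℤ} (h0 : le k ∉ D) (h1 : ue k ∉ D)
    (h2 : ue (k - 1) ∉ D) (f : List Bool → ℝ) :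
    ∑ t ∈ exits (insert (le k) D) (ue k) (-1, 1), f t =
      f [true] + ∑ t ∈ exits D (le k) up, f (false :: t) := by
  have hs : exits D (le k) (-1, 0) = {[]} := A3_single (by rw [A3_le_ue]; exact h2)
  have hne : ue k ≠ ue k + (-1, 1) := by
    intro h
    have h3 := congrArg lv h
    rw [A3_ue_le, lv_ue, lv_le] at h3
    omega
  have hp := A3_peel (Ω := D) (v := ue k) (d := (-1, 1)) (by rw [A3_ue_le]; exact h0) h1 hne
    (by
      intro b t ht
      rw [A3_ue_le] at ht ⊢
      cases b
      · rw [A3_up4] at ht ⊢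
        exact A3_noret_le h2 h1 (mem_exits.1 ht).1
      · rw [A3_up3] at ht ⊢
        rw [hs, Finset.mem_singleton] at ht
        subst ht
        show le k + (-1, 0) ≠ le k
        intro h
        have h3 := congrArg lv h
        rw [A3_le_ue, lv_ue, lv_le] at h3
        omega) f
  rw [A3_ue_le, A3_up3, A3_up4, hs, Finset.sum_singleton] at hp
  exact hp

theorem ident0 (D : Finset Pt) (hD : ∀ v ∈ D, 0 < lv v) (h0 : ue 0 ∉ D) (h1 : le 1 ∉ D) (m : ℝ) :
    ∑ t ∈ exits D (ue 0) (-1, 1), xc ^ t.length * sn (m + wind t) = sn m := by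
  have hD' : ∀ v ∈ insert (ue 0) D, 0 < lv v := by
    intro v hv
    rw [Finset.mem_insert] at hv
    rcases hv with rfl | hv
    · rw [lv_ue]
      norm_num
    · exact hD v hv
  have hi := identity_phase (insert (ue 0) D) (v0 := ft 0) (d0 := up) upd (A3_half hD' 0) (m - 1)
  rw [A3_first hD h0 (by rw [zero_add]; exact h1)] at hi
  have e1 : ∑ t ∈ exits D (ue 0) (-1, 1), xc ^ (true :: t).length *
      Real.sin ((m - 1 + (wind (true :: t) : ℝ)) * (Real.pi / 8)) =
      xc * ∑ t ∈ exits D (ue 0) (-1, 1), xc ^ t.length * sn (m + wind t) := by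
    rw [Finset.mul_sum]
    apply Finset.sum_congr rfl
    intro t _
    have hw : (wind (true :: t) : ℝ) = 1 + wind t := by
      have e5 : sgn true = 1 := rfl
      rw [A3_wind_cons, e5]
      push_cast
      ring
    rw [hw, List.length_cons, pow_succ]
    unfold sn
    rw [show m - 1 + (1 + (wind t : ℝ)) = m + wind t by ring]
    ring
  have e2 : xc ^ ([false] : List Bool).length *
      Real.sin ((m - 1 + (wind [false] : ℝ)) * (Real.pi / 8)) = xc * sn (m - 1 - 1) := by
    have hw : (wind [false] : ℝ) = -1 := by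
      have : wind [false] = -1 := by decide
      rw [this]
      norm_num
    rw [hw, List.length_singleton, pow_one]
    unfold sn
    rw [← sub_eq_add_neg]
  rw [e1, e2] at hi
  have e3 : Real.sin ((m - 1) * (Real.pi / 8)) = sn (m - 1) := rfl
  have e4 := A3_sn_rec (m - 1)
  rw [e3, e4, sub_add_cancel] at hi
  have hx := xc_pos
  have e5 : xc * ∑ t ∈ exits D (ue 0) (-1, 1), xc ^ t.length * sn (m + wind t) = xc * sn m := by
    linarith
  exact mul_left_cancel₀ hx.ne' e5

theorem identk (D : Finset Pt) (hD : ∀ v ∈ D, 0 < lv v) {k : ℤ} (h0 : le k ∉ D) (h1 : ue k ∉ D)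
    (h2 : ue (k - 1) ∉ D) (h3 : le (k + 1) ∉ D) (m : ℝ) :
    ∑ t ∈ exits D (le k) up, xc ^ t.length * sn (m + wind t) = sn m := by
  have hD1 : ∀ v ∈ insert (le k) D, 0 < lv v := by
    intro v hv
    rw [Finset.mem_insert] at hv
    rcases hv with rfl | hv
    · rw [lv_le]
      norm_num
    · exact hD v hv
  have hD' : ∀ v ∈ insert (ue k) (insert (le k) D), 0 < lv v := by
    intro v hv
    rw [Finset.mem_insert] at hv
    rcases hv with rfl | hv
    · rw [lv_ue]
      norm_num
    · exact hD1 v hv
  have hu : ue k ∉ insert (le k) D := by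
    rw [Finset.mem_insert]
    rintro (h | h)
    · have h4 := congrArg lv h
      rw [lv_ue, lv_le] at h4
      omega
    · exact h1 h
  have hl : le (k + 1) ∉ insert (le k) D := by
    rw [Finset.mem_insert]
    rintro (h | h)
    · have h4 := congrArg Prod.fst h
      unfold le at h4
      simp only at h4
      omega
    · exact h3 h
  have hi := identity_phase (insert (ue k) (insert (le k) D)) (v0 := ft k) (d0 := up) upd
    (A3_half hD' k) m
  rw [A3_first hD1 hu hl, A3_second h0 h1 h2] at hi
  have e1 : ∑ t ∈ exits D (le k) up, xc ^ (true :: false :: t).length *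
      Real.sin ((m + (wind (true :: false :: t) : ℝ)) * (Real.pi / 8)) =
      xc ^ 2 * ∑ t ∈ exits D (le k) up, xc ^ t.length * sn (m + wind t) := by
    rw [Finset.mul_sum]
    apply Finset.sum_congr rfl
    intro t _
    have hw : wind (true :: false :: t) = wind t := by
      rw [A3_wind_cons, A3_wind_cons]
      have e5 : sgn true = 1 := rfl
      have e6 : sgn false = -1 := rfl
      rw [e5, e6]
      ring
    rw [hw, List.length_cons, List.length_cons, pow_succ, pow_succ]
    unfold sn
    ring
  have e2 : xc ^ ([true, true] : List Bool).length *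
      Real.sin ((m + (wind [true, true] : ℝ)) * (Real.pi / 8)) = xc ^ 2 * sn (m + 2) := by
    have hw : wind [true, true] = 2 := by decide
    rw [hw]
    unfold sn
    push_cast
    rfl
  have e3 : xc ^ ([false] : List Bool).length *
      Real.sin ((m + (wind [false] : ℝ)) * (Real.pi / 8)) = xc * sn (m - 1) := by
    have hw : (wind [false] : ℝ) = -1 := by
      have : wind [false] = -1 := by decide
      rw [this]
      norm_num
    rw [hw, List.length_singleton, pow_one]
    unfold sn
    rw [← sub_eq_add_neg]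
  rw [e1, e2, e3] at hi
  have e4 : Real.sin (m * (Real.pi / 8)) = sn m := rfl
  have e5 := A3_sn_rec m
  have e6 := A3_sn_rec (m + 1)
  rw [add_sub_cancel_right, show m + 1 + 1 = m + 2 by ring] at e6
  have hx := xc_pos
  have e7 : xc ^ 2 * ∑ t ∈ exits D (le k) up, xc ^ t.length * sn (m + wind t) = xc ^ 2 * sn m := by
    rw [e4] at hi
    have e8 : sn m = xc * sn (m - 1) + xc * (xc * (sn m + sn (m + 2))) := by
      rw [← e6]
      linarith [e5]
    have e9 : xc ^ 2 * sn (m + 2) + xc ^ 2 * sn m = xc * (xc * (sn m + sn (m + 2))) := by ring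
    linarith
  exact mul_left_cancel₀ (pow_pos hx 2).ne' e7

end SP

end HexObs
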