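import Pool.Agent.HexStep.Defs
import Pool.Agent.PHW.TopA
import Pool.Agent.W47.K2
import Pool.Agent.W47.K3
import Pool.Agent.W47.K4

/-!
STEP C3a: arcs of the step domain between tops.
-/


namespace HexObs

namespace SP

open Complex Finset ENNReal

private lemma tops_mem_St {T : ℕ} {p : Pt} : p ∈ St T ↔ (p.1 + 2 * p.2) % 3 ≠ 1 ∧ 0 < p.1 + 2 * p.2 ∧
    p.1 + 2 * p.2 < 3 * T + 2 := CC.mem_St

private lemma tops_dx (t : List Bool) (i : ℕ) : dx (-up) t i = - dx up t i := by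
  have h := dx_mulE (-1, 0) up t i
  have e : mulE (-1, 0) up = -up := by decide
  have e2 : ∀ p : Pt, mulE (-1, 0) p = -p := by
    intro p
    ext <;> simp [mulE]
  rw [e, e2] at h
  exact h

private lemma tops_lv (T : ℕ) (z : ℤ) (v : Pt) : (tq T z - v).1 + 2 * (tq T z - v).2 =
    3 * T + 5 - (v.1 + 2 * v.2) := by
  unfold tq
  simp only [Prod.fst_sub, Prod.snd_sub]
  ring

private lemma tops_low {T : ℕ} (z : ℤ) {v : Pt} (h : v ∈ St T) : tq T z - v ∈ Om T := by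
  rw [tops_mem_St] at h
  obtain ⟨h1, h2, h3⟩ := h
  refine ⟨?_, ?_⟩
  · rw [tops_mem_St, tops_lv]
    push_cast
    refine ⟨?_, ?_, ?_⟩ <;> omega
  · rintro ⟨h4, -⟩
    unfold lv at h4
    rw [tops_lv] at h4
    omega

private lemma tops_turn {T : ℕ} (z : ℤ) {v : Pt} (h : v ∈ St (T + 1)) : tq T z - v ∈ St (T + 1) := by
  rw [tops_mem_St] at h ⊢
  rw [tops_lv]
  push_cast at h ⊢
  obtain ⟨h1, h2, h3⟩ := h
  refine ⟨?_, ?_, ?_⟩ <;> omega

private lemma tops_tq (T : ℕ) (z b : ℤ) : tq T z - foot oo up (z - b) = tq T b := by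
  rw [k4_foot]
  unfold tq
  ext
  · show 2 * z - (T + 1) - 2 * (z - b) = 2 * b - (T + 1)
    ring
  · show 2 * (T : ℤ) + 3 - z - -(z - b) = 2 * T + 3 - b
    ring

private lemma tops_notMem (T : ℕ) (z : ℤ) : tq T z ∉ Om T := by
  rintro ⟨h, -⟩
  rw [tops_mem_St] at h
  unfold tq at h
  push_cast at h
  omega

private lemma tops_foot0 : foot oo up 0 = oo := by decide

private lemma tops_GG (T : ℕ) (k : ℤ) : GG T k.natAbs = gf (Arc (St T) ∅ oo up (foot oo up k)) := by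
  have h := k3_gf T 0 k k.natAbs (by rw [sub_zero]; exact Int.natCast_natAbs k)
  rw [tops_foot0] at h
  exact h.symm

theorem aT'_symm (T : ℕ) (z b : ℤ) : aT' T z b = aT' T b z := by
  have h1 : ∀ z b : ℤ, {t | Saw (Om T) (tq T z) (-up) t ∧ tip (tq T z) (-up) t = tq T b ∧
      dx (-up) t t.length = up} = outAt (Om T) (tq T z) (-up) (tq T b) up := by
    intro z b
    ext t
    constructor
    · rintro ⟨h1, h2, h3⟩
      exact ⟨⟨h1, by rw [h2]; exact tops_notMem T b, h3⟩, h2⟩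
    · rintro ⟨⟨h1, -, h3⟩, h2⟩
      exact ⟨h1, h2, h3⟩
  unfold aT'
  rw [h1, h1]
  exact gf_rev (tops_notMem T z) (tops_notMem T b)

theorem aT'_le (T : ℕ) (z b : ℤ) : aT' T z b ≤ GG (T + 1) (z - b).natAbs := by
  rw [tops_GG]
  unfold aT'
  apply gf_mono
  rintro t ⟨⟨h1, h2⟩, h3, h4⟩
  have hv : ∀ i, vx oo up t i = tq T z - vx (tq T z) (-up) t i := by
    intro i
    rw [vx_turned]
    abel
  have htip : tip oo up t = foot oo up (z - b) := by
    unfold tip at h3 ⊢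
    rw [hv, h3, ← tops_tq T z b]
    abel
  refine ⟨⟨⟨?_, ?_⟩, ?_, ?_⟩, htip⟩
  · intro i hi hl
    rw [Set.sdiff_empty, hv]
    exact tops_turn z (h1 i hi hl).1
  · intro i k hik hk heq
    apply h2 i k hik hk
    rw [vx_turned, vx_turned, heq]
  · rw [htip]
    exact k2_foot_notMem (T + 1) (z - b)
  · rw [tops_dx] at h4
    have h5 := congrArg Neg.neg h4
    rwa [neg_neg] at h5

theorem le_aT' {T : ℕ} (hT : 1 ≤ T) (z b : ℤ) : GG T (z - b).natAbs ≤ aT' T z b := by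
  have _ := hT
  rw [tops_GG]
  unfold aT'
  apply gf_mono
  rintro t ⟨⟨⟨h1, h2⟩, -, h4⟩, h3⟩
  refine ⟨⟨?_, ?_⟩, ?_, ?_⟩
  · intro i hi hl
    rw [vx_turned]
    exact tops_low z (h1 i hi hl).1
  · intro i k hik hk heq
    apply h2 i k hik hk
    rw [vx_turned, vx_turned] at heq
    exact sub_right_injective heq
  · unfold tip at h3 ⊢
    rw [vx_turned, h3, tops_tq]
  · rw [tops_dx, h4, neg_neg]

end SP

end HexObs
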