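import Pool.Agent.HexStep.ImTop
import Pool.Agent.HexStep.XRev
import Pool.Agent.HexStep.Tops

/-!
STEP: the other halves of ImTop (im_top) and XRev (XX_le): equalities.
-/

set_option autoImplicit false

namespace HexObs

namespace SP

open Complex Finset ENNReal Filter Topology

namespace ImTop

open Classical in
/-- the pointwise estimate, other direction. -/
lemma point_ge {T : ℕ} (hT : 1 ≤ T) {z : ℤ} {L : ℕ} (hL : 1 ≤ L) {t : List Bool}
    (ht : t ∈ exits (dn T z L) (tq T z) (-up)) :
    Real.sin (wind t * (Real.pi / 8)) * xc ^ t.length ≤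
    Real.sin (Real.pi / 8) * (if RX T z t then xc ^ t.length else 0) +
      Real.sin (3 * (Real.pi / 8)) * (if RR T z t then xc ^ t.length else 0) -
      Real.sin (3 * (Real.pi / 8)) * (if RL T z t then xc ^ t.length else 0) +
      (if RS T z L true t then xc ^ t.length else 0) + (if RS T z L false t then xc ^ t.length else 0) := by
  have hx : 0 ≤ xc ^ t.length := pow_nonneg xc_pos.le _
  have s1 : 0 ≤ Real.sin (Real.pi / 8) := Real.sin_nonneg_of_nonneg_of_le_pi (by positivity) (by linarith [Real.pi_pos])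
  have s1' : Real.sin (Real.pi / 8) ≤ 1 := Real.sin_le_one _
  have s3 : 0 ≤ Real.sin (3 * (Real.pi / 8)) :=
    Real.sin_nonneg_of_nonneg_of_le_pi (by positivity) (by linarith [Real.pi_pos])
  have i1 : ∀ (R : List Bool → Prop), 0 ≤ (if R t then xc ^ t.length else 0) := by
    intro R
    split_ifs
    · exact hx
    · exact le_rfl
  have a0 := i1 (RX T z)
  have a1 := i1 (RR T z)
  have a2 := i1 (RS T z L true)
  have a3 := i1 (RS T z L false)
  have m0 := mul_nonneg s1 a0
  have m1 := mul_nonneg s3 a1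
  obtain ⟨n1, n2, n3, n4, n5⟩ := up_ne
  rcases cases hT hL ht with ⟨h1, h2⟩ | ⟨h1, h2, h3⟩ | ⟨h1, h2, h3⟩ | ⟨h1, h2, h3⟩ | ⟨b, h1, h2, h3⟩
  · have e2 : ¬ RL T z t := fun h => n1 (h.2.symm.trans h1)
    rw [if_neg e2, h2]
    push_cast
    rw [zero_mul, Real.sin_zero, zero_mul, mul_zero]
    linarith
  · have e2 : ¬ RL T z t := fun h => n2 (h.2.symm.trans h1)
    rw [if_neg e2, h3, if_pos (show RX T z t from ⟨h2, h1⟩)]
    push_cast
    rw [one_mul, mul_zero]
    linarith
  · have e1 : ¬ RL T z t := by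
      rintro ⟨⟨b, hb, hb'⟩, _⟩
      obtain ⟨c, hc, hc'⟩ := h2
      have := tq_inj (hb'.symm.trans hc')
      omega
    rw [if_neg e1, h3, if_pos (show RR T z t from ⟨h2, h1⟩)]
    push_cast
    rw [mul_zero]
    linarith
  · rw [h3, if_pos (show RL T z t from ⟨h2, h1⟩)]
    push_cast
    have e3 : Real.sin (-3 * (Real.pi / 8)) = -Real.sin (3 * (Real.pi / 8)) := by
      rw [neg_mul, Real.sin_neg]
    rw [e3]
    linarith
  · have e2 : ¬ RL T z t := fun h => n3 b (h1.symm.trans h.2)
    rw [if_neg e2, h3, mul_zero]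
    cases b
    · rw [if_pos (show RS T z L false t from ⟨h2, h1⟩)]
      have e3 : Real.sin (((sgn false : ℤ) : ℝ) * (Real.pi / 8)) = -Real.sin (Real.pi / 8) := by
        have : ((sgn false : ℤ) : ℝ) = -1 := by
          unfold sgn
          simp
        rw [this, neg_one_mul, Real.sin_neg]
      rw [e3]
      have m2 : 0 ≤ Real.sin (Real.pi / 8) * xc ^ t.length := mul_nonneg s1 hx
      linarith
    · rw [if_pos (show RS T z L true t from ⟨h2, h1⟩)]
      have e3 : Real.sin (((sgn true : ℤ) : ℝ) * (Real.pi / 8)) = Real.sin (Real.pi / 8) := by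
        have : ((sgn true : ℤ) : ℝ) = 1 := by
          unfold sgn
          simp
        rw [this, one_mul]
      rw [e3]
      have m3 : Real.sin (Real.pi / 8) * xc ^ t.length ≤ 1 * xc ^ t.length :=
        mul_le_mul_of_nonneg_right s1' hx
      linarith

/-- the inequality in the finite domain, other direction. -/
lemma fin_ge {T : ℕ} (hT : 1 ≤ T) (z : ℤ) {L : ℕ} (hL : 1 ≤ L) :
    ENNReal.ofReal (Real.sin (3 * (Real.pi / 8))) * gf (Fm (dn T z L : Set Pt) T z (RL T z)) ≤
    ENNReal.ofReal (Real.sin (Real.pi / 8)) * gf (Fm (dn T z L : Set Pt) T z (RX T z)) +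
      ENNReal.ofReal (Real.sin (3 * (Real.pi / 8))) * gf (Fm (dn T z L : Set Pt) T z (RR T z)) +
      (gf (Fm (dn T z L : Set Pt) T z (RS T z L true)) + gf (Fm (dn T z L : Set Pt) T z (RS T z L false))) := by
  classical
  have s1 : 0 ≤ Real.sin (Real.pi / 8) := Real.sin_nonneg_of_nonneg_of_le_pi (by positivity) (by linarith [Real.pi_pos])
  have s3 : 0 ≤ Real.sin (3 * (Real.pi / 8)) :=
    Real.sin_nonneg_of_nonneg_of_le_pi (by positivity) (by linarith [Real.pi_pos])
  have g0 : ∀ R, 0 ≤ gr (dn T z L) (tq T z) (-up) (Fm (dn T z L : Set Pt) T z R) := fun R => gr_nonneg _ _ _ _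
  rw [gf_fam (fm_arr T z L (RX T z)), gf_fam (fm_arr T z L (RR T z)), gf_fam (fm_arr T z L (RL T z)),
    gf_fam (fm_arr T z L (RS T z L true)), gf_fam (fm_arr T z L (RS T z L false)),
    ← ENNReal.ofReal_mul s1, ← ENNReal.ofReal_mul s3, ← ENNReal.ofReal_mul s3,
    ← ENNReal.ofReal_add (mul_nonneg s1 (g0 _)) (mul_nonneg s3 (g0 _)), ← ENNReal.ofReal_add (g0 _) (g0 _),
    ← ENNReal.ofReal_add (add_nonneg (mul_nonneg s1 (g0 _)) (mul_nonneg s3 (g0 _))) (add_nonneg (g0 _) (g0 _))]
  apply ENNReal.ofReal_le_ofReal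
  have hRX : ∀ t, RX T z t → tip (tq T z) (-up) t ∉ dn T z L := by
    intro t h
    rw [h.1]
    exact ue_out T z L
  have hRR : ∀ t, RR T z t → tip (tq T z) (-up) t ∉ dn T z L := by
    rintro t ⟨⟨b, _, h⟩, _⟩
    rw [h]
    exact tq_out T z L b
  have hRL : ∀ t, RL T z t → tip (tq T z) (-up) t ∉ dn T z L := by
    rintro t ⟨⟨b, _, h⟩, _⟩
    rw [h]
    exact tq_out T z L b
  have hRS : ∀ b t, RS T z L b t → tip (tq T z) (-up) t ∉ dn T z L := fun b t h h2 => h.1 (mem_dn.1 h2).1
  rw [gr_exits T z L _ hRX, gr_exits T z L _ hRR, gr_exits T z L _ hRL, gr_exits T z L _ (hRS true),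
    gr_exits T z L _ (hRS false)]
  have hhalf : ∀ v ∈ dn T z L, 0 < ip (v - tq T z) (-up) := by
    intro v hv
    rw [ip_top]
    have := (trap_lv (mem_dn.1 hv).1).2.2
    linarith
  have hid := identity_im (dn T z L) dtop hhalf
  have hsum := Finset.sum_le_sum (s := exits (dn T z L) (tq T z) (-up)) (fun t ht => point_ge hT hL ht)
  rw [hid, Finset.sum_add_distrib, Finset.sum_add_distrib, Finset.sum_sub_distrib, Finset.sum_add_distrib,
    ← Finset.mul_sum, ← Finset.mul_sum, ← Finset.mul_sum] at hsum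
  linarith

lemma lim_ge {T : ℕ} (hT : 1 ≤ T) (z : ℤ) :
    ENNReal.ofReal (Real.sin (3 * (Real.pi / 8))) * gf (Fm (Om T) T z (RL T z)) ≤
    ENNReal.ofReal (Real.sin (Real.pi / 8)) * gf (Fm (Om T) T z (RX T z)) +
      ENNReal.ofReal (Real.sin (3 * (Real.pi / 8))) * gf (Fm (Om T) T z (RR T z)) := by
  have c1 := (((ENNReal.Tendsto.const_mul (tend_fm T z (RX T z))
    (Or.inr (ENNReal.ofReal_ne_top (r := Real.sin (Real.pi / 8))))).add
    (ENNReal.Tendsto.const_mul (tend_fm T z (RR T z))
      (Or.inr (ENNReal.ofReal_ne_top (r := Real.sin (3 * (Real.pi / 8))))))).add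
    ((tend_lat T z true).add (tend_lat T z false)))
  have c2 := ENNReal.Tendsto.const_mul (tend_fm T z (RL T z))
    (Or.inr (ENNReal.ofReal_ne_top (r := Real.sin (3 * (Real.pi / 8)))))
  rw [add_zero, add_zero] at c1
  exact le_of_tendsto_of_tendsto' c2 c1 (fun n => fin_ge hT z (by omega))

end ImTop

open ImTop in
theorem im_top_ge {T : ℕ} (hT : 1 ≤ T) (z : ℤ) :
    (∑' b : ℤ, if b < z then aT' T z b else 0) ≤
    ENNReal.ofReal (Real.sqrt 2 - 1) * xT T z + (∑' b : ℤ, if z < b then aT' T z b else 0) := by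
  have h := lim_ge hT z
  have s3 : 0 < Real.sin (3 * (Real.pi / 8)) :=
    Real.sin_pos_of_pos_of_lt_pi (by positivity) (by linarith [Real.pi_pos])
  have e0 : xT T z = gf (Fm (Om T) T z (RX T z)) := rfl
  rw [sum_top T z (fun b => z < b), sum_top T z (fun b => b < z), e0]
  have e1 : ENNReal.ofReal (Real.sin (Real.pi / 8)) =
      ENNReal.ofReal (Real.sin (3 * (Real.pi / 8))) * ENNReal.ofReal (Real.sqrt 2 - 1) := by
    rw [← ENNReal.ofReal_mul s3.le, ImTop.tan_eq]
  rw [e1, mul_assoc, ← mul_add] at h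
  have h0 : ENNReal.ofReal (Real.sin (3 * (Real.pi / 8))) ≠ 0 := by
    rw [Ne, ENNReal.ofReal_eq_zero, not_le]
    exact s3
  exact (ENNReal.mul_le_mul_iff_right h0 ENNReal.ofReal_ne_top).1 h

/-- the reversed walks. -/
theorem xc_sum_le (T : ℕ) : ENNReal.ofReal xc * ∑' z : ℤ, xT T z ≤ XX T := by
  have hft : ft 0 = oo := by
    unfold ft foot
    rw [zero_smul, add_zero]
  have hdisj : ∀ i j : ℤ, ∀ t, t ∈ {t | Saw (Om T) (tq T i) (-up) t ∧
      tip (tq T i) (-up) t = ue 0 ∧ dx (-up) t t.length = (1, -1)} →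
      t ∈ {t | Saw (Om T) (tq T j) (-up) t ∧
      tip (tq T j) (-up) t = ue 0 ∧ dx (-up) t t.length = (1, -1)} → i = j := by
    rintro i j t ⟨-, h1, -⟩ ⟨-, h2, -⟩
    unfold tip at h1 h2
    rw [vx_turned] at h1 h2
    exact ImTop.tq_inj (sub_left_injective (h1.trans h2.symm))
  have e1 : ∑' z : ℤ, xT T z = gf (⋃ z : ℤ, {t | Saw (Om T) (tq T z) (-up) t ∧
      tip (tq T z) (-up) t = ue 0 ∧ dx (-up) t t.length = (1, -1)}) := by
    rw [K1.gf_iUnion _ hdisj]
    rfl
  rw [e1]
  have hx0 : ENNReal.ofReal xc ≠ 0 := by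
    rw [Ne, ENNReal.ofReal_eq_zero, not_le]
    exact xc_pos
  have hmain : gf (⋃ z : ℤ, {t | Saw (Om T) (tq T z) (-up) t ∧
      tip (tq T z) (-up) t = ue 0 ∧ dx (-up) t t.length = (1, -1)}) ≤ (ENNReal.ofReal xc)⁻¹ * XX T := by
    unfold XX
    refine gf_le_of_inj (fun u => rev (u ++ [false])) ?_ ?_ ((ENNReal.ofReal xc)⁻¹) ?_
    · intro u hu
      rw [Set.mem_iUnion] at hu
      obtain ⟨z, hs, ht, hd⟩ := hu
      have hwl : (u ++ [false]).length = u.length + 1 := by simp
      have hd' : dx (-up) (u ++ [false]) (u ++ [false]).length = -up := by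
        rw [dx_append_one, hd]
        decide
      have htip : tip (tq T z) (-up) (u ++ [false]) = ft 0 := by
        rw [tip_append_one, ht, hd, hft]
        decide
      have key := vx_rev (tq T z) (-up) (u ++ [false])
      rw [htip, hd', hwl, neg_neg] at key
      have keyd := dx_rev (-up) (u ++ [false])
      rw [hd', hwl, neg_neg] at keyd
      have hrl : (rev (u ++ [false])).length = u.length + 1 := by rw [rev_length, hwl]
      have hue : vx (tq T z) (-up) (u ++ [false]) (u.length + 1) = ue 0 := by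
        rw [vx_append (by omega)]
        exact ht
      have hlow : ∀ k, 1 ≤ k → k ≤ u.length → vx (tq T z) (-up) (u ++ [false]) k ∈ Om T := by
        intro k h1 h2
        rw [vx_append (by omega)]
        exact hs.mem k h1 h2
      have hueS : ue 0 ∈ St (T + 1) := by
        rw [ImTop.mem_St1]
        have h1 : lv (ue 0) = 2 := by decide
        rw [h1]
        push_cast
        refine ⟨by decide, by norm_num, ?_⟩
        omega
      have hueO : ue 0 ∈ OO := by
        show lv (ue 0) ≤ 3 ∧ -1 ≤ nn (ue 0)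
        decide
      have hmem : ∀ k, 1 ≤ k → k ≤ u.length + 1 → vx (tq T z) (-up) (u ++ [false]) k ∈ St (T + 1) := by
        intro k h1 h2
        rcases Nat.lt_or_ge u.length k with h | h
        · have : k = u.length + 1 := by omega
          rw [this, hue]
          exact hueS
        · exact (hlow k h1 h).1
      have hoo : (ft 0 : Pt) ∉ St (T + 1) := by
        rw [hft, ImTop.mem_St1]
        rintro ⟨-, h, -⟩
        revert h
        decide
      refine ⟨⟨⟨?_, ?_⟩, ?_, ?_⟩, ?_, ?_⟩
      · intro i h1 h2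
        rw [hrl] at h2
        rw [key i (by omega), Set.sdiff_empty]
        exact hmem _ (by omega) (by omega)
      · intro i k hik hk
        rw [hrl] at hk
        rw [key i (by omega), key k (by omega)]
        rcases Nat.eq_zero_or_pos i with hi | hi
        · rw [hi, Nat.sub_zero]
          intro heq
          have h1 := hmem (u.length + 1 + 1 - k) (by omega) (by omega)
          rw [← heq] at h1
          apply hoo
          rw [← htip]
          unfold tip
          rw [hwl]
          exact h1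
        · intro heq
          rcases Nat.lt_or_ge 1 i with h | h
          · rw [vx_append (by omega), vx_append (by omega)] at heq
            exact hs.inj _ _ (by omega) (by omega) heq.symm
          · have e : u.length + 1 + 1 - i = u.length + 1 := by omega
            rw [e, hue] at heq
            have h1 := hlow (u.length + 1 + 1 - k) (by omega) (by omega)
            rw [← heq] at h1
            exact h1.2 hueO
      · unfold tip
        rw [hrl, key _ (by omega), Nat.sub_self]
        intro h
        have h1 := (ImTop.mem_St1.1 h).2.2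
        have h2 := ImTop.lv_tq T z
        rw [show vx (tq T z) (-up) (u ++ [false]) 0 = tq T z from rfl, h2] at h1
        push_cast at h1
        omega
      · rw [hrl, keyd _ (by omega), Nat.sub_self]
        show -(-up) = up
        rw [neg_neg]
      · rw [show SP.pre 0 = [true] from if_pos rfl]
        refine ⟨rev u, ?_⟩
        simp [rev]
      · intro i h1 h2
        rw [show SP.pre 0 = [true] from if_pos rfl] at h1
        simp only [List.length_cons, List.length_nil] at h1
        rw [hrl] at h2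
        rw [key i (by omega)]
        exact (hlow _ (by omega) (by omega)).2
    · intro s _ t _ hst
      have h2 : rev (s ++ [false]) = rev (t ++ [false]) := hst
      have h3 : s ++ [false] = t ++ [false] := by rw [← rev_rev (s ++ [false]), h2, rev_rev]
      exact List.append_cancel_right h3
    · intro t ht
      show wE t ≤ (ENNReal.ofReal xc)⁻¹ * wE (rev (t ++ [false]))
      rw [wE_rev, wE_append]
      have e : wE [false] = ENNReal.ofReal xc := by
        unfold wE
        simp
      rw [e, mul_comm (wE t), ← mul_assoc, ENNReal.inv_mul_cancel hx0 ENNReal.ofReal_ne_top, one_mul]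
  calc ENNReal.ofReal xc * _ ≤ ENNReal.ofReal xc * ((ENNReal.ofReal xc)⁻¹ * XX T) := mul_le_mul_right hmain _
    _ = XX T := by rw [← mul_assoc, ENNReal.mul_inv_cancel hx0 ENNReal.ofReal_ne_top, one_mul]

end SP

end HexObs
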