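import Pool.Agent.HexStep.Words

/-!
STEP, A5a: windings and sides of the free exits of the step domain.
-/

set_option autoImplicit false

namespace HexObs

namespace SP

open Complex Finset ENNReal

namespace Lnd

lemma pre_len (k : ℤ) : 1 ≤ (SP.pre k).length ∧ (SP.pre k).length ≤ 2 ∧ (k ≠ 0 → (SP.pre k).length = 2) := by
  unfold SP.pre
  split_ifs with h
  · exact ⟨by simp, by simp, fun h' => absurd h h'⟩
  · exact ⟨by simp, by simp, fun _ => by simp⟩

lemma adm_len {k : ℤ} {u : List Bool} (hA : Adm k u) : (SP.pre k).length ≤ u.length := hA.pre.length_le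

lemma turn_up_ne (d : Pt) (hd : d ∈ dirs) (b : Bool) : turn b d ≠ -d := by
  revert b
  revert d
  decide

/-- no vertex of the first row of OO is the site after the prefix. -/
lemma pre_tip {k : ℤ} {u : List Bool} (hA : Adm k u) (hO : tip (ft k) up u ∈ OO) :
    (SP.pre k).length < u.length := by
  rcases lt_or_eq_of_le (adm_len hA) with h | h
  · exact h
  · exfalso
    obtain ⟨h1, h2, h3⟩ := adm_vx hA
    have hp := pre_len k
    by_cases hk : k = 0
    · have hl : u.length = 1 := by
        rw [← h]
        unfold SP.pre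
        rw [if_pos hk]
        rfl
      have : tip (ft k) up u = le k := by
        unfold tip
        rw [hl]
        exact h2
      rw [this, le_mem_OO, hk] at hO
      omega
    · have hl : u.length = 2 := by
        rw [← h]
        exact hp.2.2 hk
      have : tip (ft k) up u = le k + up := by
        unfold tip
        rw [hl]
        exact h3 hk
      rw [this] at hO
      have h4 := hO.1
      simp only [lv, le, up, Prod.fst_add, Prod.snd_add] at h4
      omega

/-- the vertex before a landing site. -/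
lemma last_vx {v0 : Pt} {u : List Bool} : vx v0 up u u.length + dx up u u.length = tip v0 up u := rfl

/-- no immediate reversal. -/
lemma no_back {v0 : Pt} {u : List Bool} {i : ℕ} (hi : u.length = i + 1) :
    tip v0 up u ≠ vx v0 up u i := by
  intro h
  rw [tip_eq, hi, vx_succ, dx_succ] at h
  have h2 : dx up u i + turn (tf u i) (dx up u i) = 0 := by
    have : vx v0 up u i + (dx up u i + turn (tf u i) (dx up u i)) = vx v0 up u i := by
      rw [← add_assoc]
      exact h
    exact left_eq_add.1 this.symm
  exact turn_up_ne _ (dx_mem upd u i) _ (eq_neg_of_add_eq_zero_right h2)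

lemma mem_le_up {T n : ℕ} {j : ℤ} (h : le j + up ∈ tz T n) :
    le j ∈ tz T n ∧ ue j ∈ tz T n := by
  rw [mem_tz, mem_St'] at h ⊢
  rw [mem_tz, mem_St']
  simp only [lv, le, ue, up, Prod.fst_add, Prod.snd_add] at h ⊢
  obtain ⟨⟨_, _, h1⟩, h2, h3⟩ := h
  push_cast at h1 ⊢
  refine ⟨⟨⟨?_, ?_, ?_⟩, ?_, ?_⟩, ⟨?_, ?_, ?_⟩, ?_, ?_⟩ <;> omega

/-- the word that lands on le j is extended to the foot j. -/
lemma ext_dn {T n : ℕ} {k j : ℤ} (hj : 1 ≤ j) (hjk : j ≠ k) {X : Set Pt} {u : List Bool}
    (hs : Saw ((tz T n : Set Pt) \ X) (ft k) up u) (hA : Adm k u) (ht : tip (ft k) up u = le j)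
    (hd : dx up u u.length = -up) (h1 : le j ∉ X) (h2 : ue j ∉ X) :
    u ++ [true] ++ [false] ∈ Dn (tz T n : Set Pt) X (ft k) up ∧ tip (ft k) up (u ++ [true] ++ [false]) = ft j := by
  have hl1 : (u ++ [true]).length = u.length + 1 := by simp
  have hu1 : 1 ≤ u.length := le_trans (pre_len k).1 (adm_len hA)
  have hlast : vx (ft k) up u u.length = le j + up := by
    have := last_vx (v0 := ft k) (u := u)
    rw [ht, hd] at this
    rw [← this]
    abel
  have hm := hs.mem u.length hu1 le_rfl
  rw [hlast] at hm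
  obtain ⟨m1, m2⟩ := mem_le_up hm.1
  have t1 : tip (ft k) up (u ++ [true]) = ue j := by
    rw [tip_append_one, ht, hd]
    unfold le ue up turn rotL
    ext
    · simp
    · simp
      ring
  have d1 : dx up (u ++ [true]) (u ++ [true]).length = (1, -1) := by
    rw [dx_append_one, hd]
    decide
  have t2 : tip (ft k) up (u ++ [true] ++ [false]) = ft j := by
    rw [tip_append_one, t1, d1, ft_eq]
    unfold ue turn rotR
    ext
    · simp
    · simp
      ring
  have d2 : dx up (u ++ [true] ++ [false]) (u ++ [true] ++ [false]).length = -up := by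
    rw [dx_append_one, d1]
    decide
  have hO1 : le j ∈ OO := le_mem_OO.2 hj
  have hO2 : ue j ∈ OO := ue_mem_OO.2 (by omega)
  have inj_le : ∀ {a b : ℤ}, le a = le b → a = b := by
    intro a b h
    have := congrArg Prod.fst h
    simp only [le] at this
    omega
  have inj_ue : ∀ {a b : ℤ}, ue a = ue b → a = b := by
    intro a b h
    have := congrArg Prod.fst h
    simp only [ue] at this
    omega
  have ne_lu : ∀ a b : ℤ, le a ≠ ue b := by
    intro a b h
    have := congrArg lv h
    rw [lv_ue, lv_le] at this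
    omega
  have v1 : ∀ i, i ≤ u.length → vx (ft k) up u i ≠ le j := by
    intro i hi he
    rcases Nat.eq_zero_or_pos i with h0 | h0
    · rw [h0] at he
      have he' : ft k = le j := he
      rw [ft_eq] at he'
      have := congrArg lv he'
      rw [lv_le] at this
      simp only [lv] at this
      omega
    · rcases adm_OO hA ⟨i, h0, hi, he⟩ hO1 with h | ⟨_, h⟩
      · exact ne_lu _ _ h
      · exact hjk (inj_le h)
  have v2 : ∀ i, i ≤ u.length → vx (ft k) up u i ≠ ue j := by
    intro i hi he
    rcases Nat.eq_zero_or_pos i with h0 | h0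
    · rw [h0] at he
      have he' : ft k = ue j := he
      rw [ft_eq] at he'
      have := congrArg lv he'
      rw [lv_ue] at this
      simp only [lv] at this
      omega
    · rcases adm_OO hA ⟨i, h0, hi, he⟩ hO2 with h | ⟨_, h⟩
      · exact hjk (inj_ue h)
      · exact ne_lu _ _ h.symm
  have s1 : Saw ((tz T n : Set Pt) \ X) (ft k) up (u ++ [true]) := by
    refine saw_append_one.2 ⟨hs, ?_, ?_⟩
    · rw [ht]
      exact ⟨m1, h1⟩
    · intro i hi
      rw [ht]
      exact v1 i hi
  have s2 : Saw ((tz T n : Set Pt) \ X) (ft k) up (u ++ [true] ++ [false]) := by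
    refine saw_append_one.2 ⟨s1, ?_, ?_⟩
    · rw [t1]
      exact ⟨m2, h2⟩
    · intro i hi
      rw [t1, vx_append (by omega)]
      rcases Nat.lt_or_ge u.length i with h5 | h5
      · have : i = u.length + 1 := by omega
        rw [this]
        show tip (ft k) up u ≠ _
        rw [ht]
        exact ne_lu _ _
      · exact v2 i h5
  refine ⟨⟨s2, ?_, d2⟩, t2⟩
  rw [t2]
  intro h
  have h' := (mem_tz.1 (Finset.mem_coe.1 h)).1
  rw [mem_St', ft_eq] at h'
  have := h'.2.1
  simp only [lv] at this
  omega

end Lnd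

open Lnd

/-- windings of the free exits. -/
theorem land_wind {T n : ℕ} {k : ℤ} (hk0 : 0 ≤ k) (hk : k < n) {Y : Set Pt} (hle : k = 0 ∨ le 0 ∈ Y)
    {u : List Bool} (hu : u ∈ freeA (tz T n) Y k) :
    (u ∈ BrA (tz T n : Set Pt) Y k ∧ wind u = 0) ∨
    (u ∈ Dn (tz T n : Set Pt) Y (ft k) up ∧ ((0 < cross up (tip (ft k) up u - ft k) ∧ wind u = 3) ∨
      (cross up (tip (ft k) up u - ft k) < 0 ∧ wind u = -3))) ∨
    (u ∈ LtA (tz T n : Set Pt) Y k ∧ (wind u = 1 ∨ wind u = -1 ∨ wind u = 2 ∨ wind u = -2)) ∨
    (∃ j, 1 ≤ j ∧ j ≠ k ∧ u ∈ Ld (tz T n : Set Pt) Y k j ∧ ((k < j ∧ wind u = -3) ∨ (j < k ∧ wind u = 3))) := by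
  have hgood : GoodDom (tz T n) (ft k) up := tz_good (by rw [abs_of_nonneg hk0]; exact hk)
  unfold freeA at hu
  rw [mem_fam, ← saw_slit] at hu
  obtain ⟨hs, hA, hfree⟩ := hu
  by_cases hin : tip (ft k) up u ∈ tz T n
  · -- landing on OO
    have hO : tip (ft k) up u ∈ OO := hfree.resolve_left (fun h => h hin)
    have hlen := pre_tip hA hO
    have hp := pre_len k
    have hnO : vx (ft k) up u u.length ∉ OO := hA.out _ hlen le_rfl
    have hm := hs.mem u.length (by omega) le_rfl
    have hSt : vx (ft k) up u u.length ∈ St (T + 1) := (mem_tz.1 (Finset.mem_coe.1 hm.1)).1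
    have hdm : dx up u u.length ∈ dirs := dx_mem upd u _
    obtain ⟨a1, a2, a3⟩ := adm_vx hA
    obtain ⟨j, hj | hj⟩ := row_one (mem_tz.1 hin).1 hO.1
    · -- ue j
      exfalso
      rw [hj, ue_mem_OO] at hO
      rcases nbr_ue hSt _ hdm (last_vx.trans hj) with h | h
      · rw [h, le_mem_OO] at hnO
        have hj0 : j = 0 := by omega
        rw [hj0] at h hj
        rcases hle with hk0' | hY
        · rw [hk0'] at h hj a1 a2 hs
          have h2 : u.length = 2 := by
            by_contra hne
            have h3 : 2 < u.length := by omega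
            exact hs.inj 2 u.length h3 le_rfl (a2.trans h.symm)
          exact no_back (v0 := ft 0) (u := u) (i := 1) h2 (hj.trans a1.symm)
        · exact hm.2 (h ▸ hY)
      · rw [h, le_mem_OO] at hnO
        omega
    · -- le j
      rw [hj, le_mem_OO] at hO
      have hw : vx (ft k) up u u.length = le j + up := by
        rcases nbr_le hSt _ hdm (last_vx.trans hj) with h | h | h
        · exact h
        · rw [h, ue_mem_OO] at hnO
          omega
        · rw [h, ue_mem_OO] at hnO
          omega
      have hd : dx up u u.length = -up := by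
        have h := last_vx (v0 := ft k) (u := u)
        rw [hw, hj] at h
        have h2 : le j + (up + dx up u u.length) = le j := by
          rw [← add_assoc]
          exact h
        exact eq_neg_of_add_eq_zero_right (left_eq_add.1 h2.symm)
      have hjk : j ≠ k := by
        intro hjk
        have hk1 : k ≠ 0 := by omega
        have h3 := a3 hk1
        rw [hjk] at hw hj
        have hl : u.length = 3 := by
          have := hp.2.2 hk1
          by_contra hne
          have h4 : 3 < u.length := by omega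
          exact hs.inj 3 u.length h4 le_rfl (h3.trans hw.symm)
        exact no_back (v0 := ft k) (u := u) (i := 2) hl (hj.trans a2.symm)
      obtain ⟨e1, e2⟩ := ext_dn (X := ∅) hO hjk (hs.mono (Set.sdiff_subset_sdiff_right (Set.empty_subset _))) hA hj hd
        (Set.notMem_empty _) (Set.notMem_empty _)
      have hex : u ++ [true] ++ [false] ∈ exits (tz T n) (ft k) up :=
        mem_exits.2 ⟨saw_arr e1.1, e1.2.1⟩
      have hwd : wind (u ++ [true] ++ [false]) = wind u := by
        rw [wind_append, wind_append]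
        have h1 : wind [true] = 1 := by decide
        have h2 : wind [false] = -1 := by decide
        rw [h1, h2]
        ring
      have hcr : cross up (tip (ft k) up (u ++ [true] ++ [false]) - ft k) = 2 * (k - j) := by
        rw [e2, ft_eq, ft_eq]
        simp only [cross, up, Prod.fst_sub, Prod.snd_sub]
        ring
      right
      right
      right
      refine ⟨j, hO, hjk, ⟨hs, hA, hj, hd⟩, ?_⟩
      rcases hgood.bottom hex e1.2.2 with ⟨h1, h2⟩ | ⟨h1, h2⟩
      · right
        rw [hcr] at h1
        rw [hwd] at h2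
        exact ⟨by omega, h2⟩
      · left
        rw [hcr] at h1
        rw [hwd] at h2
        exact ⟨by omega, h2⟩
  · -- leaving the domain
    have hin' : tip (ft k) up u ∉ (tz T n : Set Pt) := hin
    have hex : u ∈ exits (tz T n) (ft k) up := mem_exits.2 ⟨saw_arr hs, hin⟩
    obtain ⟨⟨a1, a2, a3, a4, a5⟩, ⟨b1, b2, b3, b4⟩, ⟨c1, c2, c3⟩, ⟨e1, e2⟩, f1⟩ := dirs_distinct up hgood.dir
    rcases hgood.wind hex with ⟨hd, hw⟩ | ⟨hd, hw⟩ | ⟨hd, hw⟩ | ⟨hd, hw⟩ | ⟨hd, hw⟩ | ⟨hd, hw⟩
    · left
      exact ⟨⟨⟨hs, hin', hd⟩, hA⟩, hw⟩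
    · right
      right
      left
      exact ⟨⟨hs, hA, hin', by rw [hd]; exact a1, by rw [hd]; exact b4.symm⟩, Or.inl hw⟩
    · right
      right
      left
      exact ⟨⟨hs, hA, hin', by rw [hd]; exact a2, by rw [hd]; exact c3.symm⟩, Or.inr (Or.inl hw)⟩
    · right
      right
      left
      exact ⟨⟨hs, hA, hin', by rw [hd]; exact a3, by rw [hd]; exact e2.symm⟩, Or.inr (Or.inr (Or.inl hw))⟩
    · right
      right
      left
      exact ⟨⟨hs, hA, hin', by rw [hd]; exact a4, by rw [hd]; exact f1.symm⟩, Or.inr (Or.inr (Or.inr hw))⟩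
    · right
      left
      exact ⟨⟨hs, hin', hd⟩, hgood.bottom hex hd⟩

/-- an explorer does not jump over a walker. -/
theorem far_landA {T n : ℕ} {a k j : ℤ} (ha0 : 0 ≤ a) (ha : a < n) (hk0 : 0 ≤ k) (hk : k < n) (hak : a ≠ k)
    (hj : 1 ≤ j) {Y : Set Pt} {s u : List Bool} (hs : s ∈ BrA (tz T n : Set Pt) ∅ a) (hY : vis (ft a) up s ⊆ Y)
    (hu : u ∈ Ld (tz T n : Set Pt) Y k j) : j ≠ a ∧ (a < k ↔ a < j) := by
  have hgk : GoodDom (tz T n) (ft k) up := tz_good (by rw [abs_of_nonneg hk0]; exact hk)
  have hga : GoodDom (tz T n) (ft a) up := tz_good (by rw [abs_of_nonneg ha0]; exact ha)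
  obtain ⟨hsaw, hA, ht, hd⟩ := hu
  have hlast : vx (ft k) up u u.length = le j + up := by
    have := last_vx (v0 := ft k) (u := u)
    rw [ht, hd] at this
    rw [← this]
    abel
  have hm := hsaw.mem u.length (le_trans (pre_len k).1 (adm_len hA)) le_rfl
  rw [hlast] at hm
  have hja : j ≠ a := by
    intro hja
    have ha1 : a ≠ 0 := by omega
    have h3 := (adm_vx hs.2).2.2 ha1
    rw [← hja] at h3
    have hl := adm_len hs.2
    rw [(pre_len a).2.2 ha1] at hl
    rcases Nat.lt_or_ge s.length 3 with h5 | h5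
    · have h6 : s.length = 2 := by omega
      have h7 : tip (ft a) up s = le j + up := by
        rw [hja] at h3 ⊢
        unfold tip
        rw [h6]
        exact h3
      have h8 := hs.1.2.1
      rw [h7] at h8
      exact h8 hm.1
    · apply hm.2
      apply hY
      rw [hja] at h3 ⊢
      exact ⟨3, by omega, h5, h3⟩
  refine ⟨hja, ?_⟩
  by_cases hjk : j = k
  · rw [hjk]
  have n1 : le j ∉ vis (ft a) up s := by
    intro h
    rcases adm_OO hs.2 h (le_mem_OO.2 hj) with h | ⟨_, h⟩
    · have := congrArg lv h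
      rw [lv_ue, lv_le] at this
      omega
    · have := congrArg Prod.fst h
      simp only [le] at this
      omega
  have n2 : ue j ∉ vis (ft a) up s := by
    intro h
    rcases adm_OO hs.2 h (ue_mem_OO.2 (by omega)) with h | ⟨_, h⟩
    · have := congrArg Prod.fst h
      simp only [ue] at this
      omega
    · have := congrArg lv h
      rw [lv_ue, lv_le] at this
      omega
  obtain ⟨e1, e2⟩ := ext_dn hj hjk (hsaw.mono (Set.sdiff_subset_sdiff_right hY)) hA ht hd n1 n2
  have hcl : cl (ft k) = cl (ft a) := by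
    unfold ft
    rw [t3_cl_foot, t3_cl_foot]
  have hip : ip (ft k - ft a) up = 0 := t3_ip_foot oo up k a
  have hne : ft k ≠ ft a := by
    intro h
    rw [ft_eq, ft_eq] at h
    have := congrArg Prod.fst h
    simp only at this
    omega
  have key := far_land hgk hga hcl hip hne hs.1 (le_refl _) e1
  rw [e2, ft_eq, ft_eq, ft_eq] at key
  simp only [cross, up, Prod.fst_sub, Prod.snd_sub] at key
  omega

end SP

end HexObs
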