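import Pool.Agent.HexStep.Alg

/-!
STEP, module B1: right of a walker one stays in the rows 2, ..., T + 1.
-/

set_option autoImplicit false

namespace HexObs

namespace SP

open Complex Finset ENNReal

section B1

private lemma B1_ft (k : ℤ) : ft k = (2 * k, -k) := by
  unfold ft foot hz rotR up oo
  ext
  · simp
    ring
  · simp

private lemma B1_hex (v : Pt) : IsHex oo up v ↔ lv v % 3 ≠ 1 := by
  have h0 : cl oo = ((0 : ℤ) : ZMod 3) := by decide
  have h1 : cl oo + cl up = ((2 : ℤ) : ZMod 3) := by decide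
  unfold IsHex
  rw [h0, ← h0, h1, h0]
  unfold cl
  rw [ZMod.intCast_eq_intCast_iff, ZMod.intCast_eq_intCast_iff]
  unfold Int.ModEq lv
  push_cast
  omega

private lemma B1_St {T : ℕ} {v : Pt} : v ∈ St T ↔ lv v % 3 ≠ 1 ∧ 0 < lv v ∧ lv v < 3 * T + 2 := by
  have e0 : v - oo = v := sub_zero v
  have e1 : ip v up = lv v := by
    unfold ip up lv
    ring
  unfold St strip
  rw [Set.mem_ofPred_eq, B1_hex, e0, e1]

private lemma B1_OO {v : Pt} : v ∈ OO ↔ lv v ≤ 3 ∧ -1 ≤ nn v := Iff.rfl

/-- landing in the strip. -/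
private lemma B1_land {T : ℕ} {a k : ℤ} (hne : a ≠ k) {s t : List Bool}
    (hs : s ∈ Br (St (T + 1)) ∅ (ft a) up) (ht : t ∈ Dn (St (T + 1)) (vis (ft a) up s) (ft k) up) :
    0 < cross up (ft k - ft a) ↔ 0 < cross up (tip (ft k) up t - ft a) := by
  have hN : ∃ N : ℕ, |a| < N ∧ |k| < N := by
    refine ⟨(|a| + |k| + 1).toNat, ?_, ?_⟩
    · have h1 := abs_nonneg a
      have h2 := abs_nonneg k
      omega
    · have h1 := abs_nonneg a
      have h2 := abs_nonneg k
      omega
  obtain ⟨N, ha, hk⟩ := hN
  have h1 := HexW.inc_Br (v0 := oo) upd (T := T + 1) (by omega) ha ∅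
  have h2 := HexW.inc_Dn (v0 := oo) upd (T := T + 1) (by omega) hk (vis (ft a) up s)
  obtain ⟨n1, hn1⟩ := (h1.union s).1 hs
  obtain ⟨n2, hn2⟩ := (h2.union t).1 ht
  have hs' := h1.mono (le_max_left n1 n2) hn1
  have ht' := h2.mono (le_max_right n1 n2) hn2
  have ga : GoodDom (trapF (v0 := oo) upd (T + 1) (max n1 n2 + N)) (ft a) up :=
    HexW.trap_good_foot upd (by omega) (by push_cast; omega)
  have gk : GoodDom (trapF (v0 := oo) upd (T + 1) (max n1 n2 + N)) (ft k) up :=
    HexW.trap_good_foot upd (by omega) (by push_cast; omega)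
  have e : ((trapF (v0 := oo) upd (T + 1) (max n1 n2 + N) : Finset Pt) : Set Pt) =
      trap oo up (T + 1) (max n1 n2 + N) := trapF_coe upd _ _
  refine far_land gk ga ?_ ?_ ?_ (X := vis (ft a) up s) (s := s) ?_ (le_refl _) ?_
  · unfold ft
    rw [t3_cl_foot, t3_cl_foot]
  · unfold ft
    exact t3_ip_foot _ _ _ _
  · intro he
    rw [B1_ft, B1_ft] at he
    have := congrArg Prod.snd he
    simp only at this
    omega
  · rw [e]
    exact hs'
  · rw [e]
    exact ht'

private lemma B1_dirs {d : Pt} (h : d ∈ dirs) : -2 ≤ lv d ∧ (lv d = -2 → d = (0, -1)) := by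
  revert d
  decide

/-- the neighbours of `ue j`. -/
private lemma B1_nbr {T : ℕ} {j : ℤ} {v d : Pt} (hv : v ∈ St T) (hd : d ∈ dirs) (h : v + d = ue j) :
    v = le j ∨ v = le (j + 1) := by
  have key : ∀ d ∈ dirs, d = (1, 0) ∨ d = (0, 1) ∨ d = (-1, 1) ∨ d = (-1, 0) ∨ d = (0, -1) ∨ d = (1, -1) := by
    decide
  obtain ⟨x, y⟩ := v
  have h1 := B1_St.1 hv
  unfold lv at h1
  simp only at h1
  unfold ue at h
  unfold le
  rcases key d hd with rfl | rfl | rfl | rfl | rfl | rfl <;>
    simp only [Prod.mk_add_mk, Prod.mk.injEq] at h ⊢ <;> omega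

private lemma B1_step (v d : Pt) (t : List Bool) (i : ℕ) : vx v d t (i + 1) = vx v d t i + dx d t i := rfl

private lemma B1_turn (d : Pt) (t : List Bool) (i : ℕ) : dx d t (i + 1) = turn (tf t i) (dx d t i) := rfl

private lemma B1_dx (t : List Bool) (i : ℕ) : dx up t i ∈ dirs := ds_mem upd i

/-- the first two vertices of an admissible word. -/
private lemma B1_pre {k : ℤ} {t : List Bool} (h : Adm k t) :
    1 ≤ t.length ∧ vx (ft k) up t 1 = ue k ∧ vx (ft k) up t 2 = le k := by
  have h0 : ∃ r, t = true :: r := by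
    obtain ⟨r, hr⟩ := h.pre
    unfold pre at hr
    split_ifs at hr
    · exact ⟨r, hr.symm⟩
    · exact ⟨false :: r, hr.symm⟩
  obtain ⟨r, rfl⟩ := h0
  refine ⟨by simp, ?_, ?_⟩
  · rw [B1_step]
    show ft k + up = ue k
    rw [B1_ft]
    unfold up ue
    simp only [Prod.mk_add_mk, Prod.mk.injEq]
    omega
  · rw [B1_step, B1_step, B1_turn]
    show ft k + up + turn true up = le k
    rw [B1_ft]
    unfold up le turn rotL
    simp only [if_true, Prod.mk_add_mk, Prod.mk.injEq]
    omega

/-- the vertex number three and the length for `k ≠ 0`. -/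
private lemma B1_pre3 {k : ℤ} (hk : k ≠ 0) {t : List Bool} (h : Adm k t) :
    2 ≤ t.length ∧ vx (ft k) up t 3 = le k + up := by
  have h0 : ∃ r, t = true :: false :: r := by
    obtain ⟨r, hr⟩ := h.pre
    unfold pre at hr
    rw [if_neg hk] at hr
    exact ⟨r, hr.symm⟩
  have h2 := (B1_pre h).2.2
  obtain ⟨r, rfl⟩ := h0
  refine ⟨by simp, ?_⟩
  rw [B1_step, h2, B1_turn, B1_turn]
  rfl

private lemma B1_lv_add (v w : Pt) : lv (v + w) = lv v + lv w := by
  unfold lv
  rw [Prod.fst_add, Prod.snd_add]
  ring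

/-- the last vertex of the walker. -/
private lemma B1_br {T : ℕ} {a : ℤ} {s : List Bool} (hs : s ∈ BrA (St (T + 1)) ∅ a) :
    2 ≤ s.length ∧ 3 ≤ lv (vx (ft a) up s s.length) := by
  obtain ⟨hb, hA⟩ := hs
  have h1 := br_level (v0 := oo) (v1 := ft a) upd (by
    have e : oo = ft 0 := by rw [B1_ft]; rfl
    rw [e]
    exact t3_ip_foot _ _ _ _) (t3_cl_foot _ _ _) (T := T + 1) hb
  have e1 : ip (tip (ft a) up s - oo) up = lv (tip (ft a) up s) := by
    rw [show tip (ft a) up s - oo = tip (ft a) up s from sub_zero _]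
    unfold ip up lv
    ring
  have e2 : tip (ft a) up s = vx (ft a) up s s.length + dx up s s.length := rfl
  have e3 : dx up s s.length = up := hb.2.2
  have e4 : lv up = 2 := by decide
  rw [e1, e2, e3, B1_lv_add, e4] at h1
  push_cast at h1
  obtain ⟨h2, h3, h4⟩ := B1_pre hA
  refine ⟨?_, by omega⟩
  by_contra hcon
  have hlen : s.length = 1 := by omega
  rw [hlen, h3] at h1
  have h5 : lv (ue a) = 2 := by
    unfold lv ue
    ring
  omega

/-- if the walker visits `ue j` then it visits `le j`. -/
private lemma B1_ue {T : ℕ} {a j : ℤ} {s : List Bool} (hs : s ∈ BrA (St (T + 1)) ∅ a)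
    (h : ue j ∈ vis (ft a) up s) : le j ∈ vis (ft a) up s := by
  obtain ⟨h1, h2⟩ := B1_br hs
  obtain ⟨m, hm1, hm2, hm⟩ := h
  obtain ⟨h3, h4, h5⟩ := B1_pre hs.2
  have hsaw : Saw (St (T + 1)) (ft a) up s := hs.1.1.mono Set.sdiff_subset
  have hlv : lv (ue j) = 2 := by
    unfold lv ue
    ring
  rcases Nat.lt_or_ge 1 m with h6 | h6
  · have h7 : m ≠ s.length := by
      intro hc
      rw [← hc, hm, hlv] at h2
      omega
    have a1 : vx (ft a) up s (m - 1) = le j ∨ vx (ft a) up s (m - 1) = le (j + 1) := by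
      apply B1_nbr (hsaw.mem (m - 1) (by omega) (by omega)) (B1_dx s (m - 1))
      have e := B1_step (ft a) up s (m - 1)
      rw [show m - 1 + 1 = m by omega, hm] at e
      exact e.symm
    have a2 : vx (ft a) up s (m + 1) = le j ∨ vx (ft a) up s (m + 1) = le (j + 1) := by
      apply B1_nbr (hsaw.mem (m + 1) (by omega) (by omega)) (neg_mem_dirs (B1_dx s m))
      rw [B1_step, hm, add_neg_cancel_right]
    rcases a1 with a1 | a1
    · exact ⟨m - 1, by omega, by omega, a1⟩
    · rcases a2 with a2 | a2
      · exact ⟨m + 1, by omega, by omega, a2⟩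
      · exact absurd (a1.trans a2.symm) (hsaw.inj (m - 1) (m + 1) (by omega) (by omega))
  · have h7 : m = 1 := by omega
    rw [h7, h4] at hm
    have h8 : a = j := by
      unfold ue at hm
      simp only [Prod.mk.injEq] at hm
      omega
    rw [← h8]
    exact ⟨2, by omega, h1, h5⟩

private lemma B1_take {u : List Bool} {n m : ℕ} (hn : n ≤ u.length) (hm : m ≤ n + 1) (v : Pt) :
    vx v up (u.take n) m = vx v up u m := by
  have hl : (u.take n).length = n := by
    rw [List.length_take]
    omega
  have h := vx_append (v0 := v) (d0 := up) (t := u.take n) (s := u.drop n) (i := m) (by omega)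
  rw [List.take_append_drop] at h
  exact h.symm

private lemma B1_take_dx {u : List Bool} {n m : ℕ} (hn : n ≤ u.length) (hm : m ≤ n) :
    dx up (u.take n) m = dx up u m := by
  have hl : (u.take n).length = n := by
    rw [List.length_take]
    omega
  have h := dx_append (d0 := up) (t := u.take n) (s := u.drop n) (i := m) (by omega)
  rw [List.take_append_drop] at h
  exact h.symm

private lemma B1_tf_r (t s : List Bool) (i : ℕ) : tf (t ++ s) (t.length + i) = tf s i := tf_append_right i

theorem stay {T : ℕ} {a k : ℤ} (ha : 0 ≤ a) (hak : a < k) {s u : List Bool} (hs : s ∈ BrA (St (T + 1)) ∅ a)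
    (hu : Saw (St (T + 1) \ vis (ft a) up s) (ft k) up u) (hA : Adm k u) :
    ∀ i, 3 ≤ i → i ≤ u.length → 3 < lv (vx (ft k) up u i) := by
  classical
  by_contra hcon
  push Not at hcon
  have hex : ∃ i, 3 ≤ i ∧ i ≤ u.length ∧ lv (vx (ft k) up u i) ≤ 3 := hcon
  obtain ⟨hi3, hiu, hilv⟩ := Nat.find_spec hex
  have hmin : ∀ m, 3 ≤ m → m < Nat.find hex → 3 < lv (vx (ft k) up u m) := by
    intro m h1 h2
    by_contra h3
    exact Nat.find_min hex h2 ⟨h1, by omega, by omega⟩
  set i := Nat.find hex with hidef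
  clear_value i
  have hSt : ∀ m, 1 ≤ m → m ≤ u.length → vx (ft k) up u m ∈ St (T + 1) := fun m h1 h2 => (hu.mem m h1 h2).1
  have hk0 : k ≠ 0 := by omega
  obtain ⟨p1, p2, p3⟩ := B1_pre hA
  obtain ⟨p4, p5⟩ := B1_pre3 hk0 hA
  have hlv3 : lv (vx (ft k) up u 3) = 5 := by
    rw [p5]
    unfold le up lv
    simp only [Prod.mk_add_mk]
    ring
  have hi4 : 4 ≤ i := by
    rcases Nat.lt_or_ge 3 i with h1 | h1
    · exact h1
    · have h2 : i = 3 := by omega
      rw [h2] at hilv
      omega
  -- the last step comes down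
  have hprev := hmin (i - 1) (by omega) (by omega)
  have hprevSt := B1_St.1 (hSt (i - 1) (by omega) (by omega))
  have hiSt := B1_St.1 (hSt i (by omega) hiu)
  have hstep : vx (ft k) up u i = vx (ft k) up u (i - 1) + dx up u (i - 1) := by
    have e := B1_step (ft k) up u (i - 1)
    rw [show i - 1 + 1 = i by omega] at e
    exact e
  have hstep' := congrArg lv hstep
  rw [B1_lv_add] at hstep'
  obtain ⟨hd1, hd2⟩ := B1_dirs (B1_dx u (i - 1))
  have hdd : dx up u (i - 1) = (0, -1) := hd2 (by omega)
  have hlvi : lv (vx (ft k) up u i) = 3 := by omega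
  -- the vertex is `le j`
  have hO : vx (ft k) up u i ∉ OO := hA.out i (by
    unfold pre
    rw [if_neg hk0]
    show 2 < i
    omega) hiu
  have hj : ∃ j, j ≤ 0 ∧ vx (ft k) up u i = le j := by
    rw [B1_OO] at hO
    refine ⟨2 - (vx (ft k) up u i).2, ?_, ?_⟩
    · unfold lv at hlvi
      unfold nn at hO
      have hlv' : lv (vx (ft k) up u i) ≤ 3 := by
        unfold lv
        omega
      have : ¬ (-1 ≤ (vx (ft k) up u i).1 - (vx (ft k) up u i).2) := fun h => hO ⟨hlv', h⟩
      omega
    · unfold lv at hlvi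
      unfold le
      ext
      · show (vx (ft k) up u i).1 = 2 * (2 - (vx (ft k) up u i).2) - 1
        omega
      · show (vx (ft k) up u i).2 = 2 - (2 - (vx (ft k) up u i).2)
        omega
  obtain ⟨j, hj0, hj⟩ := hj
  have hjX : le j ∉ vis (ft a) up s := by
    rw [← hj]
    exact (hu.mem i (by omega) hiu).2
  have hujX : ue j ∉ vis (ft a) up s := fun h => hjX (B1_ue hs h)
  -- the word that goes on to the foot `j`
  have hn : i - 1 ≤ u.length := by omega
  have hl : (u.take (i - 1)).length = i - 1 := by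
    rw [List.length_take]
    omega
  have hl' : (u.take (i - 1) ++ [true, false]).length = i + 1 := by
    rw [List.length_append, hl]
    simp
    omega
  have hv : ∀ m, m ≤ i → vx (ft k) up (u.take (i - 1) ++ [true, false]) m = vx (ft k) up u m := by
    intro m hm
    rw [vx_append (by omega), B1_take hn (by omega)]
  have hd0 : dx up (u.take (i - 1) ++ [true, false]) (i - 1) = (0, -1) := by
    rw [dx_append (by omega), B1_take_dx hn le_rfl, hdd]
  have ht0 : tf (u.take (i - 1) ++ [true, false]) (i - 1) = true := by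
    have h := B1_tf_r (u.take (i - 1)) [true, false] 0
    rw [hl] at h
    exact h
  have ht1 : tf (u.take (i - 1) ++ [true, false]) i = false := by
    have h := B1_tf_r (u.take (i - 1)) [true, false] 1
    rw [hl, show i - 1 + 1 = i by omega] at h
    exact h
  have hd1' : dx up (u.take (i - 1) ++ [true, false]) i = (1, -1) := by
    have h := B1_turn up (u.take (i - 1) ++ [true, false]) (i - 1)
    rw [show i - 1 + 1 = i by omega, hd0, ht0] at h
    exact h
  have hd2' : dx up (u.take (i - 1) ++ [true, false]) (i + 1) = (0, -1) := by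
    have h := B1_turn up (u.take (i - 1) ++ [true, false]) i
    rw [hd1', ht1] at h
    exact h
  have hv1 : vx (ft k) up (u.take (i - 1) ++ [true, false]) (i + 1) = ue j := by
    rw [B1_step, hv i le_rfl, hj, hd1']
    unfold le ue
    simp only [Prod.mk_add_mk, Prod.mk.injEq]
    omega
  have hv2 : vx (ft k) up (u.take (i - 1) ++ [true, false]) (i + 2) = ft j := by
    rw [B1_step, hv1, hd2', B1_ft]
    unfold ue
    simp only [Prod.mk_add_mk, Prod.mk.injEq]
    omega
  have hlvu : lv (ue j) = 2 := by
    unfold lv ue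
    ring
  have hDn : u.take (i - 1) ++ [true, false] ∈ Dn (St (T + 1)) (vis (ft a) up s) (ft k) up := by
    refine ⟨⟨?_, ?_⟩, ?_, ?_⟩
    · intro m h1 h2
      rw [hl'] at h2
      rcases Nat.lt_or_ge i m with h3 | h3
      · have h4 : m = i + 1 := by omega
        rw [h4, hv1]
        refine ⟨B1_St.2 ⟨?_, ?_, ?_⟩, hujX⟩
        · rw [hlvu]
          decide
        · rw [hlvu]
          decide
        · rw [hlvu]
          push_cast
          omega
      · rw [hv m h3]
        exact hu.mem m h1 (by omega)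
    · intro m m' h1 h2
      rw [hl'] at h2
      rcases Nat.lt_or_ge i m' with h3 | h3
      · have h4 : m' = i + 1 := by omega
        rw [h4, hv1, hv m (by omega)]
        intro h5
        rcases Nat.lt_or_ge m 3 with h6 | h6
        · have h7 : m = 0 ∨ m = 1 ∨ m = 2 := by omega
          rcases h7 with h7 | h7 | h7
          · rw [h7] at h5
            have h8 : vx (ft k) up u 0 = ft k := rfl
            rw [h8, B1_ft] at h5
            unfold ue at h5
            simp only [Prod.mk.injEq] at h5
            omega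
          · rw [h7, p2] at h5
            unfold ue at h5
            simp only [Prod.mk.injEq] at h5
            omega
          · rw [h7, p3] at h5
            unfold ue le at h5
            simp only [Prod.mk.injEq] at h5
            omega
        · rcases Nat.lt_or_ge m i with h8 | h8
          · have h9 := hmin m h6 h8
            rw [h5] at h9
            omega
          · have h9 : m = i := by omega
            rw [h9] at h5
            rw [h5] at hlvi
            omega
      · rw [hv m (by omega), hv m' h3]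
        exact hu.inj m m' h1 (by omega)
    · have h1 : tip (ft k) up (u.take (i - 1) ++ [true, false]) = ft j := by
        unfold tip
        rw [hl']
        exact hv2
      rw [h1, B1_St, B1_ft]
      unfold lv
      simp only
      omega
    · rw [hl', hd2']
      rfl
  have htip : tip (ft k) up (u.take (i - 1) ++ [true, false]) = ft j := by
    unfold tip
    rw [hl']
    exact hv2
  have key := B1_land (by omega) hs.1 hDn
  rw [htip] at key
  have c1 : cross up (ft k - ft a) = -2 * (k - a) := t3_cross_foot upd _ _ _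
  have c2 : cross up (ft j - ft a) = -2 * (j - a) := t3_cross_foot upd _ _ _
  rw [c1, c2] at key
  have h1 : ¬ (0 < -2 * (k - a)) := by omega
  have h2 : ¬ (0 < -2 * (j - a)) := fun h => h1 (key.2 h)
  have h3 : j = a := by omega
  obtain ⟨q1, q2, q3⟩ := B1_pre hs.2
  apply hjX
  rw [h3]
  exact ⟨2, by omega, (B1_br hs).1, q3⟩

end B1

end SP

end HexObs
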